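import Mathlib
import Pool.Agent.AFn.Basic

/-!
# Automorphisms of free groups: transvections, partial conjugations, the kernel

`R a w : x_a ↦ x_a w` (from `AFn`, the letter `a` is killed in `w`), `L a w : x_a ↦ w⁻¹ x_a`,
`C a w : x_a ↦ w⁻¹ x_a w`.
-/

set_option autoImplicit false

namespace IAQ

open AFn

universe u

variable {α : Type u} [DecidableEq α]

omit [DecidableEq α] in
/-- two automorphisms that agree on the letters are equal -/
theorem aut_ext {φ ψ : MulAut (FreeGroup α)}
    (h : ∀ x, φ (FreeGroup.of x) = ψ (FreeGroup.of x)) : φ = ψ := by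
  have h1 : (φ : MulAut (FreeGroup α)).toMonoidHom = (ψ : MulAut (FreeGroup α)).toMonoidHom := by
    ext x
    exact h x
  ext g
  exact DFunLike.congr_fun h1 g

/-- the endomorphism `x_a ↦ (kill a w)⁻¹ * x_a` -/
def LHom (a : α) (w : FreeGroup α) : FreeGroup α →* FreeGroup α :=
  FreeGroup.lift (fun x => if x = a then (kill a w)⁻¹ * FreeGroup.of a else FreeGroup.of x)

theorem LHom_kill (a : α) (w g : FreeGroup α) : LHom a w (kill a g) = kill a g := by
  have h : (LHom a w).comp (kill a) = kill a := by
    ext x
    by_cases hx : x = a <;> simp [kill, LHom, hx]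
  exact DFunLike.congr_fun h g

theorem LHom_comp (a : α) (w w' g : FreeGroup α) :
    LHom a w (LHom a w' g) = LHom a (w * w') g := by
  have h : (LHom a w).comp (LHom a w') = LHom a (w * w') := by
    ext x
    by_cases hx : x = a
    · subst hx
      have h1 : LHom x w' (FreeGroup.of x) = (kill x w')⁻¹ * FreeGroup.of x := by simp [LHom]
      have h2 : LHom x w (FreeGroup.of x) = (kill x w)⁻¹ * FreeGroup.of x := by simp [LHom]
      have h3 : LHom x (w * w') (FreeGroup.of x) = (kill x (w * w'))⁻¹ * FreeGroup.of x := by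
        simp [LHom]
      rw [MonoidHom.comp_apply, h1, map_mul, map_inv, h2, LHom_kill, h3, map_mul, mul_inv_rev,
        mul_assoc]
    · simp [LHom, hx]
  exact DFunLike.congr_fun h g

theorem LHom_one (a : α) (g : FreeGroup α) : LHom a 1 g = g := by
  have h : LHom a (1 : FreeGroup α) = MonoidHom.id _ := by
    ext x
    by_cases hx : x = a <;> simp [LHom, hx]
  rw [h]
  rfl

/-- the automorphism `x_a ↦ w⁻¹ * x_a`, as a homomorphism in `w` -/
def L (a : α) : FreeGroup α →* MulAut (FreeGroup α) where
  toFun w :=
    { toFun := LHom a w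
      invFun := LHom a w⁻¹
      left_inv := fun g => by rw [LHom_comp, inv_mul_cancel, LHom_one]
      right_inv := fun g => by rw [LHom_comp, mul_inv_cancel, LHom_one]
      map_mul' := fun x y => map_mul _ x y }
  map_one' := by
    ext g
    exact LHom_one a g
  map_mul' w w' := by
    ext g
    exact (LHom_comp a w w' g).symm

theorem L_of_self (a : α) (w : FreeGroup α) :
    L a w (FreeGroup.of a) = (kill a w)⁻¹ * FreeGroup.of a := by
  change LHom a w (FreeGroup.of a) = _
  simp [LHom]

theorem L_of_ne {a x : α} (h : x ≠ a) (w : FreeGroup α) :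
    L a w (FreeGroup.of x) = FreeGroup.of x := by
  change LHom a w (FreeGroup.of x) = _
  simp [LHom, h]

theorem L_kill (a : α) (w g : FreeGroup α) : L a w (kill a g) = kill a g := LHom_kill a w g

theorem R_kill (a : α) (w g : FreeGroup α) : R a w (kill a g) = kill a g := RHom_kill a w g

theorem LR_comm (a : α) (v w : FreeGroup α) : L a v * R a w = R a w * L a v := by
  apply aut_ext
  intro x
  by_cases hx : x = a
  · subst hx
    rw [MulAut.mul_apply, MulAut.mul_apply, R_of_self, L_of_self, map_mul, map_mul, L_kill,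
      L_of_self, map_inv, R_kill, R_of_self, mul_assoc]
  · rw [MulAut.mul_apply, MulAut.mul_apply, R_of_ne hx, L_of_ne hx, R_of_ne hx]

/-- the automorphism `x_a ↦ w⁻¹ * x_a * w`, as a homomorphism in `w` -/
def C (a : α) : FreeGroup α →* MulAut (FreeGroup α) where
  toFun w := L a w * R a w
  map_one' := by rw [map_one, map_one, mul_one]
  map_mul' v w := by
    rw [map_mul, map_mul]
    have h := LR_comm a w v
    calc L a v * L a w * (R a v * R a w) = L a v * (L a w * R a v) * R a w := by group
      _ = L a v * R a v * (L a w * R a w) := by rw [h]; group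

theorem C_eq (a : α) (w : FreeGroup α) : C a w = L a w * R a w := rfl

theorem C_of_self (a : α) (w : FreeGroup α) :
    C a w (FreeGroup.of a) = (kill a w)⁻¹ * FreeGroup.of a * kill a w := by
  rw [C_eq, MulAut.mul_apply, R_of_self, map_mul, L_kill, L_of_self]

theorem C_of_ne {a x : α} (h : x ≠ a) (w : FreeGroup α) :
    C a w (FreeGroup.of x) = FreeGroup.of x := by
  rw [C_eq, MulAut.mul_apply, R_of_ne h, L_of_ne h]

theorem C_kill (a : α) (w g : FreeGroup α) : C a w (kill a g) = kill a g := by
  rw [C_eq, MulAut.mul_apply, R_kill, L_kill]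

/-- `C a v` acts on the `R a w` by conjugation of the argument -/
theorem C_conj_R (a : α) (v w : FreeGroup α) :
    C a v * R a w * (C a v)⁻¹ = R a (v * w * v⁻¹) := by
  rw [mul_inv_eq_iff_eq_mul, C_eq, map_mul, map_mul, map_inv]
  have h := LR_comm a v
  calc L a v * R a v * R a w = L a v * (R a v * R a w) := by group
    _ = (R a v * R a w) * L a v := by rw [← map_mul, h]
    _ = R a v * R a w * (R a v)⁻¹ * (R a v * L a v) := by group
    _ = R a v * R a w * (R a v)⁻¹ * (L a v * R a v) := by rw [← h]

theorem C_conj_L (a : α) (v w : FreeGroup α) :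
    C a v * L a w * (C a v)⁻¹ = L a (v * w * v⁻¹) := by
  rw [mul_inv_eq_iff_eq_mul, C_eq, map_mul, map_mul, map_inv]
  have h := LR_comm a
  calc L a v * R a v * L a w = L a v * (R a v * L a w) := by group
    _ = L a v * (L a w * R a v) := by rw [h]
    _ = L a v * L a w * (L a v)⁻¹ * (L a v * R a v) := by group

end IAQ
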