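import Mathlib
import Pool.Agent.IAQ.Defs

/-!
# Identities between transvections and partial conjugations
-/

set_option autoImplicit false
set_option linter.unusedSimpArgs false

namespace IAQ

open AFn

universe u

variable {α : Type u} [DecidableEq α]

theorem R_of (a x : α) (w : FreeGroup α) :
    R a w (FreeGroup.of x) = if x = a then FreeGroup.of x * kill a w else FreeGroup.of x := by
  by_cases h : x = a
  · subst h; rw [if_pos rfl, R_of_self]
  · rw [if_neg h, R_of_ne h]

theorem C_of (a x : α) (w : FreeGroup α) :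
    C a w (FreeGroup.of x) =
      if x = a then (kill a w)⁻¹ * FreeGroup.of x * kill a w else FreeGroup.of x := by
  by_cases h : x = a
  · subst h; rw [if_pos rfl, C_of_self]
  · rw [if_neg h, C_of_ne h]

theorem L_of (a x : α) (w : FreeGroup α) :
    L a w (FreeGroup.of x) =
      if x = a then (kill a w)⁻¹ * FreeGroup.of x else FreeGroup.of x := by
  by_cases h : x = a
  · subst h; rw [if_pos rfl, L_of_self]
  · rw [if_neg h, L_of_ne h]

theorem kill_of (a x : α) :
    kill a (FreeGroup.of x) = if x = a then 1 else FreeGroup.of x := by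
  simp [kill]

theorem R_inv (a : α) (w : FreeGroup α) : (R a w)⁻¹ = R a w⁻¹ := (map_inv (R a) w).symm

theorem C_inv (a : α) (w : FreeGroup α) : (C a w)⁻¹ = C a w⁻¹ := (map_inv (C a) w).symm

/-- `R a` only depends on the killed word -/
theorem R_killed (a : α) (w : FreeGroup α) : R a (kill a w) = R a w := by
  apply aut_ext
  intro x
  rw [R_of, R_of, kill_kill]

theorem C_killed (a : α) (w : FreeGroup α) : C a (kill a w) = C a w := by
  apply aut_ext
  intro x
  rw [C_of, C_of, kill_kill]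

theorem L_killed (a : α) (w : FreeGroup α) : L a (kill a w) = L a w := by
  apply aut_ext
  intro x
  rw [L_of, L_of, kill_kill]

/-- `φ` fixes the letter `a` and preserves the words without `a` -/
def Pres (a : α) (φ : MulAut (FreeGroup α)) : Prop :=
  φ (FreeGroup.of a) = FreeGroup.of a ∧ ∀ g, kill a (φ (kill a g)) = φ (kill a g)

theorem pres_of {a : α} {φ : MulAut (FreeGroup α)} (h1 : φ (FreeGroup.of a) = FreeGroup.of a)
    (h2 : ∀ x, x ≠ a → kill a (φ (FreeGroup.of x)) = φ (FreeGroup.of x)) : Pres a φ := by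
  refine ⟨h1, fun g => ?_⟩
  have h : ((kill a).comp φ.toMonoidHom).comp (kill a) = (φ.toMonoidHom).comp (kill a) := by
    ext x
    by_cases hx : x = a
    · subst hx
      simp [kill_of]
    · have := h2 x hx
      simp only [MonoidHom.comp_apply, kill_of, if_neg hx, MulEquiv.coe_toMonoidHom]
      exact this
  exact DFunLike.congr_fun h g

theorem Pres.conj_R {a : α} {φ : MulAut (FreeGroup α)} (h : Pres a φ) (w : FreeGroup α) :
    φ * R a w * φ⁻¹ = R a (φ (kill a w)) := by
  rw [mul_inv_eq_iff_eq_mul]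
  apply aut_ext
  intro x
  rw [MulAut.mul_apply, MulAut.mul_apply]
  by_cases hx : x = a
  · subst hx
    rw [R_of_self, map_mul, h.1, R_of_self, h.2]
  · rw [R_of_ne hx]
    have h3 : FreeGroup.of x = kill a (FreeGroup.of x) := by rw [kill_of, if_neg hx]
    rw [h3, ← h.2, R_kill]

theorem Pres.conj_L {a : α} {φ : MulAut (FreeGroup α)} (h : Pres a φ) (w : FreeGroup α) :
    φ * L a w * φ⁻¹ = L a (φ (kill a w)) := by
  rw [mul_inv_eq_iff_eq_mul]
  apply aut_ext
  intro x
  rw [MulAut.mul_apply, MulAut.mul_apply]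
  by_cases hx : x = a
  · subst hx
    rw [L_of_self, map_mul, h.1, L_of_self, h.2, map_inv]
  · rw [L_of_ne hx]
    have h3 : FreeGroup.of x = kill a (FreeGroup.of x) := by rw [kill_of, if_neg hx]
    rw [h3, ← h.2, L_kill]

theorem Pres.conj_C {a : α} {φ : MulAut (FreeGroup α)} (h : Pres a φ) (w : FreeGroup α) :
    φ * C a w * φ⁻¹ = C a (φ (kill a w)) := by
  rw [C_eq, C_eq, ← h.conj_R, ← h.conj_L]
  group

theorem kill_comm (a b : α) (w : FreeGroup α) : kill a (kill b w) = kill b (kill a w) := by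
  have h : (kill a).comp (kill b) = (kill b).comp (kill a) := by
    ext x
    rw [MonoidHom.comp_apply, MonoidHom.comp_apply, kill_of, kill_of]
    by_cases hx : x = a
    · by_cases hy : x = b
      · rw [if_pos hx, if_pos hy, map_one, map_one]
      · rw [if_pos hx, if_neg hy, map_one, kill_of, if_pos hx]
    · by_cases hy : x = b
      · rw [if_neg hx, if_pos hy, map_one, kill_of, if_pos hy]
      · rw [if_neg hx, if_neg hy, kill_of, if_neg hx, kill_of, if_neg hy]
  exact DFunLike.congr_fun h w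

theorem pres_R {a b : α} (hab : a ≠ b) {v : FreeGroup α} (hv : kill a v = v) :
    Pres a (R b v) := by
  refine pres_of (R_of_ne hab _) fun x hx => ?_
  rw [R_of]
  by_cases h : x = b
  · rw [if_pos h, map_mul, kill_of, if_neg hx, kill_comm, hv]
  · rw [if_neg h, kill_of, if_neg hx]

theorem pres_C {a b : α} (hab : a ≠ b) {v : FreeGroup α} (hv : kill a v = v) :
    Pres a (C b v) := by
  refine pres_of (C_of_ne hab _) fun x hx => ?_
  rw [C_of]
  by_cases h : x = b
  · rw [if_pos h, map_mul, map_mul, map_inv, kill_of, if_neg hx, kill_comm, hv]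
  · rw [if_neg h, kill_of, if_neg hx]

theorem pres_L {a b : α} (hab : a ≠ b) {v : FreeGroup α} (hv : kill a v = v) :
    Pres a (L b v) := by
  refine pres_of (L_of_ne hab _) fun x hx => ?_
  rw [L_of]
  by_cases h : x = b
  · rw [if_pos h, map_mul, map_inv, kill_of, if_neg hx, kill_comm, hv]
  · rw [if_neg h, kill_of, if_neg hx]

theorem kill_of_ne {a x : α} (h : x ≠ a) : kill a (FreeGroup.of x) = FreeGroup.of x := by
  rw [kill_of, if_neg h]

theorem kill_of_self (a : α) : kill a (FreeGroup.of a) = 1 := by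
  rw [kill_of, if_pos rfl]

/-- words without the letter `b` are fixed by `R b v` -/
theorem R_fixed {b : α} (v : FreeGroup α) {g : FreeGroup α} (h : kill b g = g) :
    R b v g = g := by
  rw [← h, R_kill]

theorem C_fixed {b : α} (v : FreeGroup α) {g : FreeGroup α} (h : kill b g = g) :
    C b v g = g := by
  rw [← h, C_kill]

theorem L_fixed {b : α} (v : FreeGroup α) {g : FreeGroup α} (h : kill b g = g) :
    L b v g = g := by
  rw [← h, L_kill]

/-- commutation when the words do not contain the moved letters -/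
theorem R_comm_R {a b : α} (hab : a ≠ b) {v w : FreeGroup α} (hv : kill a v = v)
    (hw : kill b (kill a w) = kill a w) : R b v * R a w = R a w * R b v := by
  have h := (pres_R hab hv).conj_R w
  rw [R_fixed v hw, R_killed, mul_inv_eq_iff_eq_mul] at h
  exact h

theorem C_comm_R {a b : α} (hab : a ≠ b) {v w : FreeGroup α} (hv : kill a v = v)
    (hw : kill b (kill a w) = kill a w) : C b v * R a w = R a w * C b v := by
  have h := (pres_C hab hv).conj_R w
  rw [C_fixed v hw, R_killed, mul_inv_eq_iff_eq_mul] at h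
  exact h

theorem C_comm_C {a b : α} (hab : a ≠ b) {v w : FreeGroup α} (hv : kill a v = v)
    (hw : kill b (kill a w) = kill a w) : C b v * C a w = C a w * C b v := by
  have h := (pres_C hab hv).conj_C w
  rw [C_fixed v hw, C_killed, mul_inv_eq_iff_eq_mul] at h
  exact h

/-- (I2) conjugation of `R a w` by the transvection `x_d ↦ x_d x_a` -/
theorem conj_I2 {a d : α} (had : a ≠ d) {w : FreeGroup α} (hw : kill d w = w)
    (ha : kill a w = w) :
    R d (FreeGroup.of a) * R a w * (R d (FreeGroup.of a))⁻¹ =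
      R a w * R d (FreeGroup.of a * w⁻¹ * (FreeGroup.of a)⁻¹) := by
  rw [mul_inv_eq_iff_eq_mul]
  have h1 : R a w w = w := R_fixed w ha
  have h2 : R d (FreeGroup.of a) w = w := R_fixed _ hw
  have h3 : kill d (FreeGroup.of a * w⁻¹ * (FreeGroup.of a)⁻¹) =
      FreeGroup.of a * w⁻¹ * (FreeGroup.of a)⁻¹ := by
    rw [map_mul, map_mul, map_inv, map_inv, hw, kill_of_ne had]
  obtain ⟨v, hv⟩ : ∃ v, v = FreeGroup.of a * w⁻¹ * (FreeGroup.of a)⁻¹ := ⟨_, rfl⟩
  have h4 : R a w v = FreeGroup.of a * w⁻¹ * (FreeGroup.of a)⁻¹ := by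
    rw [hv, map_mul, map_mul, map_inv, map_inv, h1, R_of, if_pos rfl, ha]
    group
  rw [← hv] at h3 ⊢
  apply aut_ext
  intro x
  rw [MulAut.mul_apply, MulAut.mul_apply, MulAut.mul_apply]
  by_cases hxa : x = a
  · subst hxa
    rw [R_of_self, map_mul, ha, h2, R_of_ne had, R_of_ne had, R_of_self, ha]
  · by_cases hxd : x = d
    · subst hxd
      have e1 : R x v (FreeGroup.of x * FreeGroup.of a) = FreeGroup.of x * v * FreeGroup.of a := by
        rw [map_mul, R_of_self, R_of_ne had, h3]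
      rw [R_of_ne hxa, R_of_self, kill_of_ne had, e1, map_mul, map_mul, R_of_ne hxa, R_of_self,
        h4, ha]
      group
    · rw [R_of_ne hxa, R_of_ne hxd, R_of_ne hxd, R_of_ne hxa]

/-- (I3) conjugation of `C a w` by the transvection `x_d ↦ x_d x_a` -/
theorem conj_I3 {a d : α} (had : a ≠ d) {w : FreeGroup α} (hw : kill d w = w)
    (ha : kill a w = w) :
    R d (FreeGroup.of a) * C a w * (R d (FreeGroup.of a))⁻¹ =
      R d (FreeGroup.of a * w⁻¹ * (FreeGroup.of a)⁻¹ * w) * C a w := by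
  rw [mul_inv_eq_iff_eq_mul]
  have h1 : C a w w = w := C_fixed w ha
  have h2 : ∀ v, R d v w = w := fun v => R_fixed v hw
  have h3 : kill d (FreeGroup.of a * w⁻¹ * (FreeGroup.of a)⁻¹ * w) =
      FreeGroup.of a * w⁻¹ * (FreeGroup.of a)⁻¹ * w := by
    rw [map_mul, map_mul, map_mul, map_inv, map_inv, hw, kill_of_ne had]
  obtain ⟨v, hv⟩ : ∃ v, v = FreeGroup.of a * w⁻¹ * (FreeGroup.of a)⁻¹ * w := ⟨_, rfl⟩
  rw [← hv] at h3 ⊢
  apply aut_ext
  intro x
  rw [MulAut.mul_apply, MulAut.mul_apply, MulAut.mul_apply]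
  by_cases hxa : x = a
  · subst hxa
    have e1 : ∀ u, R d u (w⁻¹ * FreeGroup.of x * w) = w⁻¹ * FreeGroup.of x * w := by
      intro u
      rw [map_mul, map_mul, map_inv, h2, R_of_ne had]
    rw [C_of_self, ha, e1, R_of_ne had, C_of_self, ha, e1]
  · by_cases hxd : x = d
    · subst hxd
      have e1 : C a w (FreeGroup.of x * FreeGroup.of a) =
          FreeGroup.of x * (w⁻¹ * FreeGroup.of a * w) := by
        rw [map_mul, C_of_self, C_of_ne hxa, ha]
      rw [C_of_ne hxa, R_of_self, kill_of_ne had, e1, map_mul, map_mul, map_mul, map_inv, h2,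
        R_of_self, R_of_ne had, h3, hv]
      group
    · rw [C_of_ne hxa, R_of_ne hxd, C_of_ne hxa, R_of_ne hxd]

/-- (I4) conjugation of `C a x_b` by the transvection `x_b ↦ x_b x_a` -/
theorem conj_I4 {a b : α} (hab : a ≠ b) :
    R b (FreeGroup.of a) * C a (FreeGroup.of b) * (R b (FreeGroup.of a))⁻¹ =
      C b (FreeGroup.of a) * C a (FreeGroup.of b) := by
  rw [mul_inv_eq_iff_eq_mul]
  apply aut_ext
  intro x
  simp only [MulAut.mul_apply]
  by_cases hxa : x = a
  · subst hxa
    simp only [R_of, C_of, if_true, if_neg hab, if_neg hab.symm, map_mul, map_inv, kill_of]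
    group
  · by_cases hxb : x = b
    · subst hxb
      simp only [R_of, C_of, if_true, if_neg hab, if_neg hab.symm, map_mul, map_inv, kill_of]
      group
    · simp only [R_of, C_of, if_neg hxa, if_neg hxb]

/-- (I6) conjugation of `C a w` by `R a v` -/
theorem conj_I6 (a : α) (v w : FreeGroup α) :
    R a v * C a w * (R a v)⁻¹ = R a (v * w * v⁻¹ * w⁻¹) * C a w := by
  have h := LR_comm a w
  rw [C_eq, map_mul, map_mul, map_mul, map_inv, map_inv]
  have h1 := LR_comm a w v
  have h2 := LR_comm a w w⁻¹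
  calc R a v * (L a w * R a w) * (R a v)⁻¹ = (R a v * L a w) * R a w * (R a v)⁻¹ := by group
    _ = L a w * R a v * R a w * (R a v)⁻¹ := by rw [h1]
    _ = L a w * (R a v * R a w * (R a v)⁻¹ * (R a w)⁻¹ * R a w) := by group
    _ = L a w * R a (v * w * v⁻¹ * w⁻¹) * R a w := by
        rw [map_mul, map_mul, map_mul, map_inv, map_inv]; group
    _ = R a (v * w * v⁻¹ * w⁻¹) * L a w * R a w := by rw [LR_comm]
    _ = _ := by rw [map_mul, map_mul, map_mul, map_inv, map_inv]; group

/-- (CASE 10) -/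
theorem conj_I10 {a b c : α} (hab : a ≠ b) (hac : a ≠ c) (hbc : b ≠ c) :
    R b (FreeGroup.of a) *
        R a (FreeGroup.of b * FreeGroup.of c * (FreeGroup.of b)⁻¹ * (FreeGroup.of c)⁻¹) *
        (R b (FreeGroup.of a))⁻¹ =
      C b (FreeGroup.of a) * C a (FreeGroup.of b) *
        R b (FreeGroup.of a * (FreeGroup.of c)⁻¹ * (FreeGroup.of a)⁻¹ * FreeGroup.of c) *
        C a (FreeGroup.of c) * (C a (FreeGroup.of b))⁻¹ *
        R a (FreeGroup.of b * FreeGroup.of c * (FreeGroup.of b)⁻¹ * (FreeGroup.of c)⁻¹) *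
        (C b (FreeGroup.of a * FreeGroup.of c))⁻¹ := by
  rw [mul_inv_eq_iff_eq_mul, C_inv, C_inv]
  -- the automorphisms with their values
  obtain ⟨T1, hT1⟩ : ∃ T, T =
    R a (FreeGroup.of b * FreeGroup.of c * (FreeGroup.of b)⁻¹ * (FreeGroup.of c)⁻¹) := ⟨_, rfl⟩
  obtain ⟨T2, hT2⟩ : ∃ T, T =
    R b (FreeGroup.of a * (FreeGroup.of c)⁻¹ * (FreeGroup.of a)⁻¹ * FreeGroup.of c) := ⟨_, rfl⟩
  obtain ⟨T3, hT3⟩ : ∃ T, T = C a (FreeGroup.of b)⁻¹ := ⟨_, rfl⟩
  obtain ⟨T4, hT4⟩ : ∃ T, T = C b (FreeGroup.of a * FreeGroup.of c)⁻¹ := ⟨_, rfl⟩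
  rw [← hT1, ← hT2, ← hT3, ← hT4]
  have k1 : T1 (FreeGroup.of a) = FreeGroup.of a *
      (FreeGroup.of b * FreeGroup.of c * (FreeGroup.of b)⁻¹ * (FreeGroup.of c)⁻¹) := by
    rw [hT1, R_of_self]
    simp only [map_mul, map_inv, kill_of, if_neg hab.symm, if_neg hac.symm]
  have k1' : ∀ x, x ≠ a → T1 (FreeGroup.of x) = FreeGroup.of x := fun x hx => by
    rw [hT1, R_of_ne hx]
  have k2 : T2 (FreeGroup.of b) = FreeGroup.of b *
      (FreeGroup.of a * (FreeGroup.of c)⁻¹ * (FreeGroup.of a)⁻¹ * FreeGroup.of c) := by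
    rw [hT2, R_of_self]
    simp only [map_mul, map_inv, kill_of, if_neg hab, if_neg hbc.symm]
  have k2' : ∀ x, x ≠ b → T2 (FreeGroup.of x) = FreeGroup.of x := fun x hx => by
    rw [hT2, R_of_ne hx]
  have k3 : T3 (FreeGroup.of a) = FreeGroup.of b * FreeGroup.of a * (FreeGroup.of b)⁻¹ := by
    rw [hT3, C_of_self]
    simp only [map_inv, kill_of, if_neg hab.symm, inv_inv]
  have k3' : ∀ x, x ≠ a → T3 (FreeGroup.of x) = FreeGroup.of x := fun x hx => by
    rw [hT3, C_of_ne hx]
  have k4 : T4 (FreeGroup.of b) = FreeGroup.of a * FreeGroup.of c * FreeGroup.of b *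
      (FreeGroup.of a * FreeGroup.of c)⁻¹ := by
    rw [hT4, C_of_self]
    simp only [map_mul, map_inv, kill_of, if_neg hab, if_neg hbc.symm, inv_inv]
  have k4' : ∀ x, x ≠ b → T4 (FreeGroup.of x) = FreeGroup.of x := fun x hx => by
    rw [hT4, C_of_ne hx]
  have k5 : R b (FreeGroup.of a) (FreeGroup.of b) = FreeGroup.of b * FreeGroup.of a := by
    rw [R_of_self, kill_of_ne hab]
  have k5' : ∀ x, x ≠ b → R b (FreeGroup.of a) (FreeGroup.of x) = FreeGroup.of x :=
    fun x hx => R_of_ne hx _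
  have k6 : C b (FreeGroup.of a) (FreeGroup.of b) =
      (FreeGroup.of a)⁻¹ * FreeGroup.of b * FreeGroup.of a := by
    rw [C_of_self, kill_of_ne hab]
  have k6' : ∀ x, x ≠ b → C b (FreeGroup.of a) (FreeGroup.of x) = FreeGroup.of x :=
    fun x hx => C_of_ne hx _
  have k7 : C a (FreeGroup.of b) (FreeGroup.of a) =
      (FreeGroup.of b)⁻¹ * FreeGroup.of a * FreeGroup.of b := by
    rw [C_of_self, kill_of_ne hab.symm]
  have k7' : ∀ x, x ≠ a → C a (FreeGroup.of b) (FreeGroup.of x) = FreeGroup.of x :=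
    fun x hx => C_of_ne hx _
  have k8 : C a (FreeGroup.of c) (FreeGroup.of a) =
      (FreeGroup.of c)⁻¹ * FreeGroup.of a * FreeGroup.of c := by
    rw [C_of_self, kill_of_ne hac.symm]
  have k8' : ∀ x, x ≠ a → C a (FreeGroup.of c) (FreeGroup.of x) = FreeGroup.of x :=
    fun x hx => C_of_ne hx _
  apply aut_ext
  intro x
  simp only [MulAut.mul_apply]
  by_cases hxa : x = a
  · subst hxa
    simp only [k1, k1' _ hab.symm, k1' _ hac.symm, k2, k2' _ hab, k2' _ hbc.symm, k3,
      k3' _ hab.symm, k3' _ hac.symm, k4, k4' _ hab, k4' _ hbc.symm, k5, k5' _ hab,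
      k5' _ hbc.symm, k6, k6' _ hab, k6' _ hbc.symm, k7, k7' _ hab.symm, k7' _ hac.symm, k8,
      k8' _ hab.symm, k8' _ hac.symm, map_mul, map_inv, mul_inv_rev, inv_inv]
    group
  · by_cases hxb : x = b
    · subst hxb
      simp only [k1, k1' _ hab.symm, k1' _ hac.symm, k2, k2' _ hab, k2' _ hbc.symm, k3,
        k3' _ hab.symm, k3' _ hac.symm, k4, k4' _ hab, k4' _ hbc.symm, k5, k5' _ hab,
        k5' _ hbc.symm, k6, k6' _ hab, k6' _ hbc.symm, k7, k7' _ hab.symm, k7' _ hac.symm, k8,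
        k8' _ hab.symm, k8' _ hac.symm, map_mul, map_inv, mul_inv_rev, inv_inv]
      group
    · simp only [k1' _ hxa, k2' _ hxb, k3' _ hxa, k4' _ hxb, k5' _ hxb, k6' _ hxb, k7' _ hxa,
        k8' _ hxa]

end IAQ
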