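import Mathlib
import Pool.Agent.IAQ.Ident

/-!
# Commutator subgroups of free groups
-/

set_option autoImplicit false

namespace IAQ

open AFn

universe u v

section General

variable {F : Type u} [Group F]

/-- the second term of the lower central series -/
def g2 (F : Type u) [Group F] : Subgroup F := ⁅(⊤ : Subgroup F), (⊤ : Subgroup F)⁆

/-- the third term of the lower central series -/
def g3 (F : Type u) [Group F] : Subgroup F := ⁅g2 F, (⊤ : Subgroup F)⁆

instance : (g2 F).Normal := by unfold g2; infer_instance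

instance : (g3 F).Normal := by unfold g3; infer_instance

theorem mem_g2 (v w : F) : v * w * v⁻¹ * w⁻¹ ∈ g2 F :=
  Subgroup.commutator_mem_commutator (Subgroup.mem_top v) (Subgroup.mem_top w)

theorem mem_g3 {v : F} (hv : v ∈ g2 F) (w : F) : v * w * v⁻¹ * w⁻¹ ∈ g3 F :=
  Subgroup.commutator_mem_commutator hv (Subgroup.mem_top w)

theorem mem_g3' (v : F) {w : F} (hw : w ∈ g2 F) : v * w * v⁻¹ * w⁻¹ ∈ g3 F := by
  have h := (g3 F).inv_mem (mem_g3 hw v)
  simpa [mul_assoc] using h

theorem g2_le {N : Subgroup F} (h : ∀ v w : F, v * w * v⁻¹ * w⁻¹ ∈ N) : g2 F ≤ N :=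
  Subgroup.commutator_le.2 fun v _ w _ => h v w

theorem g3_le {N : Subgroup F} (h : ∀ v ∈ g2 F, ∀ w : F, v * w * v⁻¹ * w⁻¹ ∈ N) : g3 F ≤ N :=
  Subgroup.commutator_le.2 fun v hv w _ => h v hv w

theorem g3_le_g2 : g3 F ≤ g2 F := g3_le fun v _ w => mem_g2 v w

theorem hom_g2 {F' : Type v} [Group F'] (f : F →* F') {w : F} (hw : w ∈ g2 F) :
    f w ∈ g2 F' := by
  have h : g2 F ≤ (g2 F').comap f := g2_le fun v w => by
    rw [Subgroup.mem_comap]
    simp only [map_mul, map_inv]
    exact mem_g2 _ _
  exact h hw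

theorem hom_g3 {F' : Type v} [Group F'] (f : F →* F') {w : F} (hw : w ∈ g3 F) :
    f w ∈ g3 F' := by
  have h : g3 F ≤ (g3 F').comap f := g3_le fun v hv w => by
    rw [Subgroup.mem_comap]
    simp only [map_mul, map_inv]
    exact mem_g3 (hom_g2 f hv) _
  exact h hw

/-- a homomorphism killing `g3` makes the images of `g2` commute with everything -/
theorem comm_of_g3 {G : Type v} [Group G] (f : F →* G) (hf : ∀ w ∈ g3 F, f w = 1)
    {w : F} (hw : w ∈ g2 F) (v : F) : f v * f w = f w * f v := by
  have h := hf _ (mem_g3' v hw)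
  rw [map_mul, map_mul, map_mul, map_inv, map_inv, mul_inv_eq_one, mul_inv_eq_iff_eq_mul] at h
  exact h

end General

section Free

variable {α : Type u}

/-- two homomorphic images commute if the letters do -/
theorem comm_letters {G : Type v} [Group G] (f : FreeGroup α →* G) {g : G}
    (h : ∀ a, f (FreeGroup.of a) * g = g * f (FreeGroup.of a)) (w : FreeGroup α) :
    f w * g = g * f w := by
  have h1 : w ∈ (Subgroup.centralizer {g}).comap f := by
    have h2 : (⊤ : Subgroup (FreeGroup α)) ≤ (Subgroup.centralizer {g}).comap f := by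
      rw [← FreeGroup.closure_range_of, Subgroup.closure_le]
      rintro _ ⟨a, rfl⟩
      rw [SetLike.mem_coe, Subgroup.mem_comap, Subgroup.mem_centralizer_singleton_iff]
      exact h a
    exact h2 (Subgroup.mem_top w)
  rw [Subgroup.mem_comap, Subgroup.mem_centralizer_singleton_iff] at h1
  exact h1

theorem g2_le_of_letters {N : Subgroup (FreeGroup α)} (hN : N.Normal)
    (h : ∀ b c, FreeGroup.of b * FreeGroup.of c * (FreeGroup.of b)⁻¹ * (FreeGroup.of c)⁻¹ ∈ N) :
    g2 (FreeGroup α) ≤ N := by
  have key : ∀ v w : FreeGroup α, QuotientGroup.mk' N v * QuotientGroup.mk' N w =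
      QuotientGroup.mk' N w * QuotientGroup.mk' N v := by
    intro v w
    refine comm_letters (QuotientGroup.mk' N) (fun b => ?_) v
    refine (comm_letters (QuotientGroup.mk' N) (fun c => ?_) w).symm
    rw [← map_mul, ← map_mul, QuotientGroup.mk'_apply, QuotientGroup.mk'_apply,
      QuotientGroup.eq_iff_div_mem]
    have := h c b
    rw [div_eq_mul_inv, mul_inv_rev]
    simpa [mul_assoc] using this
  refine g2_le fun v w => ?_
  rw [← QuotientGroup.eq_one_iff, ← QuotientGroup.mk'_apply, map_mul, map_mul, map_mul, map_inv,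
    map_inv, key v w]
  group

theorem g3_le_of_letters {N : Subgroup (FreeGroup α)} (hN : N.Normal)
    (h : ∀ b c d,
      FreeGroup.of b * FreeGroup.of c * (FreeGroup.of b)⁻¹ * (FreeGroup.of c)⁻¹ *
        FreeGroup.of d *
        (FreeGroup.of b * FreeGroup.of c * (FreeGroup.of b)⁻¹ * (FreeGroup.of c)⁻¹)⁻¹ *
        (FreeGroup.of d)⁻¹ ∈ N) :
    g3 (FreeGroup α) ≤ N := by
  -- the preimage of the centre
  obtain ⟨N', hN'⟩ : ∃ N' : Subgroup (FreeGroup α),
    N' = (Subgroup.center (FreeGroup α ⧸ N)).comap (QuotientGroup.mk' N) := ⟨_, rfl⟩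
  have hN'n : N'.Normal := by rw [hN']; infer_instance
  have h2 : g2 (FreeGroup α) ≤ N' := by
    refine g2_le_of_letters hN'n fun b c => ?_
    rw [hN', Subgroup.mem_comap, Subgroup.mem_center_iff]
    intro g
    obtain ⟨w, rfl⟩ := QuotientGroup.mk'_surjective N g
    refine comm_letters (QuotientGroup.mk' N) (fun d => ?_) w
    have h3 := h b c d
    rw [← QuotientGroup.eq_one_iff, ← QuotientGroup.mk'_apply, map_mul, map_mul, map_inv,
      map_inv, mul_inv_eq_one, mul_inv_eq_iff_eq_mul] at h3
    exact h3.symm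
  refine g3_le fun v hv w => ?_
  have h4 := h2 hv
  rw [hN', Subgroup.mem_comap, Subgroup.mem_center_iff] at h4
  have h5 := h4 (QuotientGroup.mk' N w)
  rw [← QuotientGroup.eq_one_iff, ← QuotientGroup.mk'_apply, map_mul, map_mul, map_mul, map_inv,
    map_inv, ← h5]
  group

end Free

end IAQ
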