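import Mathlib
import Pool.Agent.IAQ.FreeLem

/-!
# The Magnus generators
-/

set_option autoImplicit false

namespace IAQ

open AFn

/-- the commutator of two letters -/
def cm {α : Type} (b c : α) : FreeGroup α :=
  FreeGroup.of b * FreeGroup.of c * (FreeGroup.of b)⁻¹ * (FreeGroup.of c)⁻¹

/-- the Magnus generators `x_a ↦ x_b⁻¹ x_a x_b` and `x_a ↦ x_a [x_b, x_c]` -/
def magS (n : ℕ) : Set (MulAut (FreeGroup (Fin n))) :=
  {g | (∃ a b, g = C a (FreeGroup.of b)) ∨ (∃ a b c, g = R a (cm b c))}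

end IAQ
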