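import Mathlib
import Pool.Agent.IAQ.MagDef

/-!
# The Magnus generators are normalised by the transvections
-/

set_option autoImplicit false

namespace IAQ

open AFn

variable {n : ℕ}

theorem mag_C (a : Fin n) (w : FreeGroup (Fin n)) : C a w ∈ Subgroup.closure (magS n) := by
  have h : (⊤ : Subgroup (FreeGroup (Fin n))) ≤ (Subgroup.closure (magS n)).comap (C a) := by
    rw [← FreeGroup.closure_range_of, Subgroup.closure_le]
    rintro _ ⟨b, rfl⟩
    exact Subgroup.subset_closure (Or.inl ⟨a, b, rfl⟩)
  exact h (Subgroup.mem_top w)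

theorem mag_R (a : Fin n) {w : FreeGroup (Fin n)} (hw : w ∈ g2 (FreeGroup (Fin n))) :
    R a w ∈ Subgroup.closure (magS n) := by
  have hN : ((Subgroup.closure (magS n)).comap (R a)).Normal := by
    refine ⟨fun w hw v => ?_⟩
    rw [Subgroup.mem_comap] at hw ⊢
    rw [← C_conj_R]
    exact Subgroup.mul_mem _ (Subgroup.mul_mem _ (mag_C a v) hw)
      (Subgroup.inv_mem _ (mag_C a v))
  have h := g2_le_of_letters hN fun b c => by
    rw [Subgroup.mem_comap]
    exact Subgroup.subset_closure (Or.inr ⟨a, b, c, rfl⟩)
  exact h hw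

theorem mag_conj_C (d e : Fin n) (a b : Fin n) :
    R d (FreeGroup.of e) * C a (FreeGroup.of b) * (R d (FreeGroup.of e))⁻¹ ∈
      Subgroup.closure (magS n) := by
  by_cases hda : d = a
  · subst hda
    rw [conj_I6]
    exact Subgroup.mul_mem _ (mag_R _ (mem_g2 _ _)) (mag_C _ _)
  · by_cases hea : e = a
    · subst hea
      by_cases hbe : b = e
      · subst hbe
        have h1 : C b (FreeGroup.of b) = 1 := by
          rw [← C_killed, kill_of_self, map_one]
        rw [h1, mul_one, mul_inv_cancel]
        exact Subgroup.one_mem _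
      · by_cases hdb : d = b
        · subst hdb
          rw [conj_I4 (Ne.symm hda)]
          exact Subgroup.mul_mem _ (mag_C _ _) (mag_C _ _)
        · rw [conj_I3 (Ne.symm hda) (kill_of_ne (Ne.symm hdb)) (kill_of_ne hbe)]
          refine Subgroup.mul_mem _ (mag_R _ ?_) (mag_C _ _)
          have := mem_g2 (FreeGroup.of e) (FreeGroup.of b)⁻¹
          rwa [inv_inv] at this
    · rw [(pres_R (Ne.symm hda) (kill_of_ne hea)).conj_C]
      exact mag_C _ _

theorem mag_conj_R (d e : Fin n) (a b c : Fin n) :
    R d (FreeGroup.of e) * R a (cm b c) * (R d (FreeGroup.of e))⁻¹ ∈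
      Subgroup.closure (magS n) := by
  have hcm : ∀ x y : Fin n, cm x y ∈ g2 (FreeGroup (Fin n)) := fun x y => mem_g2 _ _
  by_cases hda : d = a
  · subst hda
    rw [← map_mul, ← map_inv, ← map_mul]
    exact mag_R _ ((inferInstance : (g2 (FreeGroup (Fin n))).Normal).conj_mem _ (hcm _ _) _)
  · by_cases hea : e = a
    · subst hea
      have triv : kill e (cm b c) = 1 →
          R d (FreeGroup.of e) * R e (cm b c) * (R d (FreeGroup.of e))⁻¹ ∈
            Subgroup.closure (magS n) := by
        intro h1
        rw [← R_killed e, h1, map_one, mul_one, mul_inv_cancel]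
        exact Subgroup.one_mem _
      by_cases hbe : b = e
      · apply triv
        rw [hbe]
        simp only [cm, map_mul, map_inv, kill_of_self]
        group
      by_cases hce : c = e
      · apply triv
        rw [hce]
        simp only [cm, map_mul, map_inv, kill_of_self]
        group
      by_cases hbc : b = c
      · apply triv
        rw [hbc]
        simp only [cm, map_mul, map_inv]
        group
      by_cases hdb : d = b
      · subst hdb
        unfold cm
        rw [conj_I10 (Ne.symm hda) (Ne.symm hce) hbc]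
        refine Subgroup.mul_mem _ (Subgroup.mul_mem _ (Subgroup.mul_mem _ (Subgroup.mul_mem _
          (Subgroup.mul_mem _ (Subgroup.mul_mem _ (mag_C _ _) (mag_C _ _)) (mag_R _ ?_))
            (mag_C _ _)) (Subgroup.inv_mem _ (mag_C _ _))) (mag_R _ (mem_g2 _ _)))
              (Subgroup.inv_mem _ (mag_C _ _))
        have := mem_g2 (FreeGroup.of e) (FreeGroup.of c)⁻¹
        rwa [inv_inv] at this
      by_cases hdc : d = c
      · subst hdc
        have h1 : cm b d = (cm d b)⁻¹ := by
          unfold cm
          group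
        have h2 : R d (FreeGroup.of e) * R e (cm b d) * (R d (FreeGroup.of e))⁻¹ =
            (R d (FreeGroup.of e) * R e (cm d b) * (R d (FreeGroup.of e))⁻¹)⁻¹ := by
          rw [h1, map_inv]
          group
        rw [h2]
        refine Subgroup.inv_mem _ ?_
        unfold cm
        rw [conj_I10 (Ne.symm hda) (Ne.symm hbe) (Ne.symm hbc)]
        refine Subgroup.mul_mem _ (Subgroup.mul_mem _ (Subgroup.mul_mem _ (Subgroup.mul_mem _
          (Subgroup.mul_mem _ (Subgroup.mul_mem _ (mag_C _ _) (mag_C _ _)) (mag_R _ ?_))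
            (mag_C _ _)) (Subgroup.inv_mem _ (mag_C _ _))) (mag_R _ (mem_g2 _ _)))
              (Subgroup.inv_mem _ (mag_C _ _))
        have := mem_g2 (FreeGroup.of e) (FreeGroup.of b)⁻¹
        rwa [inv_inv] at this
      · have h1 : kill d (cm b c) = cm b c := by
          simp only [cm, map_mul, map_inv, kill_of_ne (Ne.symm hdb), kill_of_ne (Ne.symm hdc)]
        have h2 : kill e (cm b c) = cm b c := by
          simp only [cm, map_mul, map_inv, kill_of_ne hbe, kill_of_ne hce]
        rw [conj_I2 (Ne.symm hda) h1 h2]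
        refine Subgroup.mul_mem _ (mag_R _ (hcm _ _)) (mag_R _ ?_)
        exact (inferInstance : (g2 (FreeGroup (Fin n))).Normal).conj_mem _
          (Subgroup.inv_mem _ (hcm _ _)) _
    · rw [(pres_R (Ne.symm hda) (kill_of_ne hea)).conj_R]
      exact mag_R _ (hom_g2 (R d (FreeGroup.of e)).toMonoidHom (hom_g2 (kill a) (hcm _ _)))

/-- MODULE B1: exact identities in `Aut (F_n)`. -/
theorem magnus_norm {n : ℕ} (d e : Fin n) (hde : d ≠ e) :
    ∀ g ∈ Subgroup.closure (magS n),
      R d (FreeGroup.of e) * g * (R d (FreeGroup.of e))⁻¹ ∈ Subgroup.closure (magS n) := by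
  have h : Subgroup.closure (magS n) ≤
      (Subgroup.closure (magS n)).comap (MulAut.conj (R d (FreeGroup.of e))).toMonoidHom := by
    rw [Subgroup.closure_le]
    rintro g (⟨a, b, rfl⟩ | ⟨a, b, c, rfl⟩)
    · exact mag_conj_C d e a b
    · exact mag_conj_R d e a b c
  intro g hg
  exact h hg

end IAQ
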