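import Mathlib

/-!
# Nielsen's theorem

The automorphism group of the free group of rank `n` is generated by the elementary Nielsen
moves. Proof: Nielsen reduction, with the total length and a lexicographic tie break on the
initial halves.
-/

set_option autoImplicit false
set_option linter.unusedSectionVars false

namespace IAQ

namespace Niel

open FreeGroup

variable {α : Type*}

/-! ### Words -/

/-- the inverse letter -/
def bar (x : α × Bool) : α × Bool := (x.1, !x.2)

theorem bar_bar (x : α × Bool) : bar (bar x) = x := by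
  simp [bar]

theorem bar_fst (x : α × Bool) : (bar x).1 = x.1 := rfl

theorem mk_bar (x : α × Bool) : (mk [bar x] : FreeGroup α) = (mk [x])⁻¹ := by
  rw [inv_mk]
  rfl

theorem eq_of_ne_bar {x y : α × Bool} (h : y ≠ bar x) (h' : x.1 = y.1) : x = y := by
  obtain ⟨a, s⟩ := x
  obtain ⟨b, t⟩ := y
  simp only at h'
  subst h'
  simp only [bar, ne_eq, Prod.mk.injEq, true_and] at h
  cases s <;> cases t <;> simp_all

theorem isReduced_pair {x y : α × Bool} (h : y ≠ bar x) : x.1 = y.1 → x.2 = y.2 := by
  intro h'
  rw [eq_of_ne_bar h h']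

theorem ne_bar_of {x y : α × Bool} (h : x.1 = y.1 → x.2 = y.2) : y ≠ bar x := by
  rintro rfl
  have := h rfl
  simp [bar] at this

theorem eq_bar_of {x y : α × Bool} (h : ¬ (x.1 = y.1 → x.2 = y.2)) : x = bar y := by
  obtain ⟨a, s⟩ := x
  obtain ⟨b, t⟩ := y
  simp only [Classical.not_imp] at h
  obtain ⟨rfl, h⟩ := h
  cases s <;> cases t <;> simp_all [bar]

variable [DecidableEq α]

theorem red_left {L L' : List (α × Bool)} (h : FreeGroup.IsReduced (L ++ L')) :
    FreeGroup.IsReduced L := by
  rw [FreeGroup.IsReduced, List.isChain_append] at h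
  exact h.1

theorem red_right {L L' : List (α × Bool)} (h : FreeGroup.IsReduced (L ++ L')) :
    FreeGroup.IsReduced L' := by
  rw [FreeGroup.IsReduced, List.isChain_append] at h
  exact h.2.1

theorem isReduced_invRev {L : List (α × Bool)} (h : IsReduced L) : IsReduced (invRev L) := by
  rw [isReduced_iff_reduce_eq, reduce_invRev, h.reduce_eq]

theorem cancel (L₂ : List (α × Bool)) : ∀ L₁ : List (α × Bool), IsReduced L₁ → IsReduced L₂ →
    ∃ a p c, L₁ = a ++ invRev p ∧ L₂ = p ++ c ∧ IsReduced (a ++ c) := by
  induction L₂ with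
  | nil =>
    intro L₁ h1 _
    exact ⟨L₁, [], [], by simp, rfl, by simpa using h1⟩
  | cons y L ih =>
    intro L₁ h1 h2
    rcases List.eq_nil_or_concat L₁ with rfl | ⟨L', x, rfl⟩
    · exact ⟨[], [], y :: L, by simp, rfl, by simpa using h2⟩
    · by_cases h : x.1 = y.1 → x.2 = y.2
      · refine ⟨L' ++ [x], [], y :: L, by simp, rfl, ?_⟩
        rw [← List.concat_eq_append, FreeGroup.IsReduced, List.isChain_append]
        refine ⟨h1, h2, ?_⟩
        intro a ha b hb
        simp at ha hb
        subst ha
        subst hb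
        exact h
      · obtain ⟨a, p, c, e1, e2, h3⟩ := ih L'
          (red_left (L' := [x]) (by rwa [List.concat_eq_append] at h1))
          (red_right (L := [y]) h2)
        refine ⟨a, y :: p, c, ?_, by rw [e2]; rfl, h3⟩
        rw [invRev_cons, ← List.append_assoc, ← e1, eq_bar_of h, List.concat_eq_append]
        rfl

/-- `g * h` written with all cancellations: `g = a p⁻¹`, `h = p c` and `a c` is reduced -/
structure Dec (g h : FreeGroup α) (a p c : List (α × Bool)) : Prop where
  l : g.toWord = a ++ invRev p
  r : h.toWord = p ++ c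
  red : IsReduced (a ++ c)

theorem exists_dec (g h : FreeGroup α) : ∃ a p c, Dec g h a p c := by
  obtain ⟨a, p, c, h1, h2, h3⟩ := cancel h.toWord g.toWord isReduced_toWord isReduced_toWord
  exact ⟨a, p, c, h1, h2, h3⟩

theorem Dec.mul {g h : FreeGroup α} {a p c : List (α × Bool)} (d : Dec g h a p c) :
    (g * h).toWord = a ++ c := by
  have e : g * h = FreeGroup.mk (a ++ c) := by
    rw [← mk_toWord (x := g), ← mk_toWord (x := h), d.l, d.r]
    simp only [← mul_mk, ← inv_mk]
    group
  rw [e, toWord_mk, d.red.reduce_eq]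

theorem Dec.symm {g h : FreeGroup α} {a p c : List (α × Bool)} (d : Dec g h a p c) :
    Dec h⁻¹ g⁻¹ (invRev c) p (invRev a) := by
  refine ⟨?_, ?_, ?_⟩
  · rw [toWord_inv, d.r, invRev_append]
  · rw [toWord_inv, d.l, invRev_append, invRev_invRev]
  · rw [← invRev_append]
    exact isReduced_invRev d.red

theorem self_inv {s : List (α × Bool)} (hs : IsReduced s) (h : invRev s = s) : s = [] := by
  have h1 : (mk s : FreeGroup α) * mk s = 1 := by
    nth_rewrite 1 [← h]
    rw [← inv_mk]
    group
  have h2 : (mk s : FreeGroup α) = 1 := by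
    have h3 : (mk s : FreeGroup α) ^ 2 = 1 := by rw [pow_two, h1]
    exact (pow_eq_one_iff_left two_ne_zero).1 h3
  have h3 : (mk s : FreeGroup α).toWord = [] := by rw [h2, toWord_one]
  rw [toWord_mk, hs.reduce_eq] at h3
  exact h3

theorem Dec.self {u : FreeGroup α} {a p c : List (α × Bool)} (d : Dec u u a p c) :
    2 * p.length ≤ u.toWord.length := by
  by_contra hlt
  push Not at hlt
  have h1 : a ++ invRev p = p ++ c := by rw [← d.l, d.r]
  have h2 : u.toWord.length = a.length + p.length := by
    rw [d.l, List.length_append, invRev_length]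
  obtain ⟨s, hs⟩ : ∃ s, p = a ++ s := by
    rcases List.append_eq_append_iff.1 h1 with ⟨s, hs, -⟩ | ⟨s, hs, -⟩
    · exact ⟨s, hs⟩
    · have := congrArg List.length hs
      rw [List.length_append] at this
      omega
  have h3 : invRev p = s ++ c := by
    have h4 := h1
    nth_rewrite 2 [hs] at h4
    rw [List.append_assoc] at h4
    exact List.append_cancel_left h4
  have h4 : invRev s ++ invRev a = s ++ c := by
    rw [← h3, hs, invRev_append]
  have h5 : invRev s = s := (List.append_inj h4 (by rw [invRev_length])).1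
  have h6 : IsReduced s := by
    have h7 : IsReduced p := by
      have := isReduced_toWord (x := u)
      rw [d.r] at this
      exact red_left this
    rw [hs] at h7
    exact red_right h7
  have h7 := self_inv h6 h5
  rw [h7, List.append_nil] at hs
  rw [hs] at hlt h2
  omega

/-! ### The tie break -/

section val

variable [Fintype α]

/-- the number of a letter -/
noncomputable def code (x : α × Bool) : ℕ := (Fintype.equivFin (α × Bool) x : ℕ)

variable (α) in
/-- the base -/
def bs : ℕ := Fintype.card (α × Bool) + 2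

/-- the number of a word -/
noncomputable def val (l : List (α × Bool)) : ℕ := Nat.ofDigits (bs α) (l.map code)

theorem val_append (l l' : List (α × Bool)) :
    val (l ++ l') = val l + bs α ^ l.length * val l' := by
  rw [val, List.map_append, Nat.ofDigits_append, List.length_map]
  rfl

theorem code_lt (x : α × Bool) : code x < bs α := by
  have := (Fintype.equivFin (α × Bool) x).isLt
  unfold code bs
  omega

theorem val_inj {l l' : List (α × Bool)} (h : l.length = l'.length) (h' : val l = val l') :
    l = l' := by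
  have h1 : l.map code = l'.map code := by
    refine Nat.ofDigits_inj_of_len_eq (b := bs α) (by unfold bs; omega)
      (by rw [List.length_map, List.length_map, h]) ?_ ?_ h'
    · intro x hx
      obtain ⟨y, -, rfl⟩ := List.mem_map.1 hx
      exact code_lt y
    · intro x hx
      obtain ⟨y, -, rfl⟩ := List.mem_map.1 hx
      exact code_lt y
  refine List.map_injective_iff.2 ?_ h1
  intro x y hxy
  exact (Fintype.equivFin (α × Bool)).injective (Fin.ext hxy)

/-- the initial half -/
def half (w : List (α × Bool)) : List (α × Bool) := w.take ((w.length + 1) / 2)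

/-- the tie break -/
noncomputable def mu (w : List (α × Bool)) : ℕ := val (half w) + val (half (invRev w))

theorem mu_invRev (w : List (α × Bool)) : mu (invRev w) = mu w := by
  rw [mu, mu, invRev_invRev, add_comm]

theorem mu_lt {p q c : List (α × Bool)} (h : p.length = q.length) (h' : q.length ≤ c.length)
    (hv : val p < val q) : mu (p ++ c) < mu (q ++ c) := by
  have h1 : ∀ r : List (α × Bool), r.length = q.length →
      mu (r ++ c) = val r + (bs α ^ q.length * val (c.take ((q.length + c.length + 1) / 2 - q.length))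
        + val ((invRev c).take ((q.length + c.length + 1) / 2))) := by
    intro r hr
    have e1 : half (r ++ c) = r ++ c.take ((q.length + c.length + 1) / 2 - q.length) := by
      rw [half, List.length_append, hr, List.take_append, hr, List.take_of_length_le]
      rw [hr]
      omega
    have e2 : half (invRev (r ++ c)) = (invRev c).take ((q.length + c.length + 1) / 2) := by
      rw [half, invRev_length, List.length_append, hr, invRev_append,
        List.take_append_of_le_length]
      rw [invRev_length]
      omega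
    rw [mu, e1, e2, val_append, hr, add_assoc]
  rw [h1 p h, h1 q rfl]
  omega

end val

/-! ### The moves -/

/-- the elementary moves -/
def moves (α : Type*) : Set (MulAut (FreeGroup α)) :=
  {g | (∃ a b, a ≠ b ∧ g (FreeGroup.of a) = FreeGroup.of a * FreeGroup.of b ∧
        ∀ c, c ≠ a → g (FreeGroup.of c) = FreeGroup.of c) ∨
      (∃ a, g (FreeGroup.of a) = (FreeGroup.of a)⁻¹ ∧
        ∀ c, c ≠ a → g (FreeGroup.of c) = FreeGroup.of c) ∨
      (∃ σ : Equiv.Perm α, ∀ c, g (FreeGroup.of c) = FreeGroup.of (σ c))}

theorem mkAut (f g : α → FreeGroup α) (h1 : ∀ c, FreeGroup.lift g (f c) = FreeGroup.of c)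
    (h2 : ∀ c, FreeGroup.lift f (g c) = FreeGroup.of c) :
    ∃ T : MulAut (FreeGroup α), ∀ c, T (FreeGroup.of c) = f c := by
  refine ⟨MonoidHom.toMulEquiv (FreeGroup.lift f) (FreeGroup.lift g) ?_ ?_, ?_⟩
  · ext c
    simpa using h1 c
  · ext c
    simpa using h2 c
  · intro c
    simp

theorem exists_tau {a b : α} (h : a ≠ b) : ∃ T ∈ moves α,
    T (FreeGroup.of a) = FreeGroup.of a * FreeGroup.of b ∧
      ∀ c, c ≠ a → T (FreeGroup.of c) = FreeGroup.of c := by
  obtain ⟨T, hT⟩ := mkAut (fun c => if c = a then FreeGroup.of a * FreeGroup.of b else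
    FreeGroup.of c) (fun c => if c = a then FreeGroup.of a * (FreeGroup.of b)⁻¹ else
    FreeGroup.of c) (by
      intro c
      by_cases hc : c = a
      · subst hc
        simp [h.symm]
      · simp [hc]) (by
      intro c
      by_cases hc : c = a
      · subst hc
        simp [h.symm]
      · simp [hc])
  have h1 : T (FreeGroup.of a) = FreeGroup.of a * FreeGroup.of b := by simp [hT]
  have h2 : ∀ c, c ≠ a → T (FreeGroup.of c) = FreeGroup.of c := fun c hc => by simp [hT, hc]
  exact ⟨T, Or.inl ⟨a, b, h, h1, h2⟩, h1, h2⟩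

theorem exists_iota (a : α) : ∃ T ∈ moves α,
    T (FreeGroup.of a) = (FreeGroup.of a)⁻¹ ∧
      ∀ c, c ≠ a → T (FreeGroup.of c) = FreeGroup.of c := by
  obtain ⟨T, hT⟩ := mkAut (fun c => if c = a then (FreeGroup.of a)⁻¹ else
    FreeGroup.of c) (fun c => if c = a then (FreeGroup.of a)⁻¹ else
    FreeGroup.of c) (by
      intro c
      by_cases hc : c = a
      · subst hc
        simp
      · simp [hc]) (by
      intro c
      by_cases hc : c = a
      · subst hc
        simp
      · simp [hc])
  have h1 : T (FreeGroup.of a) = (FreeGroup.of a)⁻¹ := by simp [hT]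
  have h2 : ∀ c, c ≠ a → T (FreeGroup.of c) = FreeGroup.of c := fun c hc => by simp [hT, hc]
  exact ⟨T, Or.inr (Or.inl ⟨a, h1, h2⟩), h1, h2⟩

/-- the signed transvections -/
theorem exists_T {x y : α × Bool} (h : x.1 ≠ y.1) : ∃ T ∈ Subgroup.closure (moves α),
    T (mk [x]) = mk [x] * mk [y] ∧ ∀ c, c ≠ x.1 → T (FreeGroup.of c) = FreeGroup.of c := by
  obtain ⟨a, s⟩ := x
  obtain ⟨b, t⟩ := y
  simp only at h
  have hpos : ∃ T ∈ Subgroup.closure (moves α),
      T (mk [(a, true)]) = mk [(a, true)] * mk [(b, t)] ∧
        ∀ c, c ≠ a → T (FreeGroup.of c) = FreeGroup.of c := by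
    obtain ⟨T, hT, h1, h2⟩ := exists_tau h
    cases t
    · refine ⟨T⁻¹, inv_mem (Subgroup.subset_closure hT), ?_, ?_⟩
      · rw [MulAut.inv_apply, MulEquiv.symm_apply_eq, _root_.map_mul]
        have e1 : (mk [(a, true)] : FreeGroup α) = FreeGroup.of a := rfl
        have e2 : (mk [(b, false)] : FreeGroup α) = (FreeGroup.of b)⁻¹ := rfl
        rw [e1, e2, h1, _root_.map_inv, h2 b h.symm]
        group
      · intro c hc
        rw [MulAut.inv_apply, MulEquiv.symm_apply_eq, h2 c hc]
    · exact ⟨T, Subgroup.subset_closure hT, h1, h2⟩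
  cases s
  · obtain ⟨T, hT, h1, h2⟩ := hpos
    obtain ⟨ι, hι, h3, h4⟩ := exists_iota a
    have hι' := Subgroup.subset_closure hι
    refine ⟨ι * T * ι, mul_mem (mul_mem hι' hT) hι', ?_, ?_⟩
    · have e1 : (mk [(a, false)] : FreeGroup α) = (FreeGroup.of a)⁻¹ := rfl
      have e2 : (mk [(a, true)] : FreeGroup α) = FreeGroup.of a := rfl
      have e3 : ι (mk [(b, t)]) = mk [(b, t)] := by
        cases t
        · show ι (FreeGroup.of b)⁻¹ = (FreeGroup.of b)⁻¹
          rw [_root_.map_inv, h4 b h.symm]
        · exact h4 b h.symm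
      rw [e2] at h1
      rw [e1, MulAut.mul_apply, MulAut.mul_apply, _root_.map_inv, h3, inv_inv, h1, _root_.map_mul, h3, e3]
    · intro c hc
      rw [MulAut.mul_apply, MulAut.mul_apply, h4 c hc, h2 c hc, h4 c hc]
  · exact hpos

/-! ### Signed permutations -/

theorem signed [Fintype α] (k : ℕ) : ∀ (ψ : MulAut (FreeGroup α)) (f : α → α × Bool),
    (∀ j, ψ (FreeGroup.of j) = mk [f j]) →
    (Finset.univ.filter (fun j => (f j).2 = false)).card = k →
    ψ ∈ Subgroup.closure (moves α) := by
  induction k with
  | zero =>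
    intro ψ f hf hk
    rw [Finset.card_eq_zero, Finset.filter_eq_empty_iff] at hk
    have h1 : ∀ j, ψ (FreeGroup.of j) = FreeGroup.of (f j).1 := by
      intro j
      rw [hf j]
      have h2 : (f j).2 = true := by simpa using hk (Finset.mem_univ j)
      show mk [f j] = mk [((f j).1, true)]
      rw [← h2]
    have hinj : Function.Injective (fun j => (f j).1) := by
      intro i j hij
      apply FreeGroup.of_injective
      apply ψ.injective
      rw [h1, h1]
      exact congrArg _ hij
    apply Subgroup.subset_closure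
    refine Or.inr (Or.inr ⟨Equiv.ofBijective _ (Finite.injective_iff_bijective.1 hinj), ?_⟩)
    intro c
    rw [h1]
    rfl
  | succ k ih =>
    intro ψ f hf hk
    obtain ⟨j0, hj0⟩ : (Finset.univ.filter (fun j => (f j).2 = false)).Nonempty := by
      rw [← Finset.card_pos, hk]
      omega
    have hj1 : (f j0).2 = false := (Finset.mem_filter.1 hj0).2
    obtain ⟨ι, hι, h3, h4⟩ := exists_iota j0
    have hι' := Subgroup.subset_closure hι
    have h5 : ψ * ι ∈ Subgroup.closure (moves α) := by
      refine ih (ψ * ι) (Function.update f j0 ((f j0).1, true)) ?_ ?_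
      · intro j
        rw [MulAut.mul_apply]
        by_cases hj : j = j0
        · subst hj
          rw [h3, _root_.map_inv, hf, Function.update_self, inv_mk]
          show mk [((f j).1, !(f j).2)] = _
          rw [hj1]
          rfl
        · rw [h4 j hj, hf, Function.update_of_ne hj]
      · have e : (Finset.univ.filter (fun j => (Function.update f j0 ((f j0).1, true) j).2 = false))
            = (Finset.univ.filter (fun j => (f j).2 = false)).erase j0 := by
          ext j
          simp only [Finset.mem_filter, Finset.mem_univ, true_and, Finset.mem_erase]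
          by_cases hj : j = j0
          · subst hj
            simp
          · rw [Function.update_of_ne hj]
            simp [hj]
        rw [e, Finset.card_erase_of_mem hj0, hk]
        rfl
    have h6 : ψ = (ψ * ι) * ι⁻¹ := by group
    rw [h6]
    exact mul_mem h5 (inv_mem hι')

/-! ### Reduced automorphisms -/

/-- the image of a letter -/
def vv (φ : MulAut (FreeGroup α)) (x : α × Bool) : FreeGroup α := φ (mk [x])

theorem vv_bar (φ : MulAut (FreeGroup α)) (x : α × Bool) : vv φ (bar x) = (vv φ x)⁻¹ := by
  rw [vv, mk_bar, _root_.map_inv, vv]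

theorem vv_ne (φ : MulAut (FreeGroup α)) (x : α × Bool) : vv φ x ≠ 1 := by
  intro h
  rw [vv, map_eq_one_iff φ φ.injective] at h
  have h1 := congrArg toWord h
  rw [toWord_one, toWord_mk, IsReduced.singleton.reduce_eq] at h1
  cases h1

theorem vv_pos (φ : MulAut (FreeGroup α)) (x : α × Bool) : 0 < (vv φ x).toWord.length := by
  rw [List.length_pos_iff]
  intro h
  exact vv_ne φ x (toWord_eq_nil_iff.1 h)

/-- the first condition -/
def N1 (φ : MulAut (FreeGroup α)) : Prop := ∀ x y a p c, y ≠ bar x → Dec (vv φ x) (vv φ y) a p c →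
  2 * p.length ≤ (vv φ x).toWord.length ∧ 2 * p.length ≤ (vv φ y).toWord.length

/-- the second condition -/
def N2 (φ : MulAut (FreeGroup α)) : Prop := ∀ x y z a p c a' q c', y ≠ bar x → z ≠ bar y →
  Dec (vv φ x) (vv φ y) a p c → Dec (vv φ y) (vv φ z) a' q c' →
    p.length + q.length < (vv φ y).toWord.length

theorem chain {φ : MulAut (FreeGroup α)} (h1 : N1 φ) (h2 : N2 φ) (l : List (α × Bool)) :
    ∀ y, IsReduced (l ++ [y]) → ∃ A s, (φ (mk (l ++ [y]))).toWord = A ++ s ∧
      l.length ≤ A.length ∧ ((l = [] ∧ A = [] ∧ s = (vv φ y).toWord) ∨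
        ∃ l' x a p, l = l' ++ [x] ∧ y ≠ bar x ∧ Dec (vv φ x) (vv φ y) a p s) := by
  induction l using List.reverseRecOn with
  | nil =>
    intro y _
    exact ⟨[], (vv φ y).toWord, rfl, le_rfl, Or.inl ⟨rfl, rfl, rfl⟩⟩
  | append_singleton l x ih =>
    intro y hy
    have hlx : IsReduced (l ++ [x]) := red_left hy
    have hxy : y ≠ bar x := by
      apply ne_bar_of
      have h3 : IsReduced [x, y] := red_right (L := l) (by simpa using hy)
      exact (isReduced_cons_cons.1 h3).1
    obtain ⟨A, s, e1, hA, halt⟩ := ih x hlx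
    obtain ⟨a', q, c, d⟩ := exists_dec (vv φ x) (vv φ y)
    -- the tail is `s = b ++ q⁻¹` with `b` not empty
    obtain ⟨b, p0, hb, hs, ha'⟩ : ∃ b p0, b ≠ [] ∧ s = b ++ invRev q ∧ a' = p0 ++ b := by
      rcases halt with ⟨-, -, hs⟩ | ⟨l', x', a, p, -, hxx, dd⟩
      · refine ⟨a', [], ?_, by rw [hs, d.l], rfl⟩
        rintro rfl
        have h3 := (h1 x y _ _ _ hxy d).1
        have h4 := congrArg List.length d.l
        rw [List.length_append, invRev_length, List.length_nil] at h4
        have := vv_pos φ x
        omega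
      · have h3 := h2 x' x y a p s a' q c hxx hxy dd d
        have h4 : p ++ s = a' ++ invRev q := by rw [← dd.r, ← d.l]
        have h5 := congrArg List.length d.l
        rw [List.length_append, invRev_length] at h5
        rcases List.append_eq_append_iff.1 h4 with ⟨b, hb1, hb2⟩ | ⟨b, hb1, hb2⟩
        · refine ⟨b, p, ?_, hb2, hb1⟩
          rintro rfl
          have h6 := congrArg List.length hb1
          rw [List.length_append, List.length_nil] at h6
          omega
        · exfalso
          have h6 := congrArg List.length hb1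
          rw [List.length_append] at h6
          omega
    have hprod : φ (mk (l ++ [x] ++ [y])) = φ (mk (l ++ [x])) * vv φ y := by
      rw [vv, ← _root_.map_mul, mul_mk]
    have D : Dec (φ (mk (l ++ [x]))) (vv φ y) (A ++ b) q c := by
      refine ⟨?_, d.r, ?_⟩
      · rw [e1, hs, List.append_assoc]
      · refine IsReduced.append_overlap ?_ ?_ hb
        · have h3 : IsReduced (φ (mk (l ++ [x]))).toWord := isReduced_toWord
          rw [e1, hs, ← List.append_assoc] at h3
          exact red_left h3
        · have h3 := d.red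
          rw [ha', List.append_assoc] at h3
          exact red_right h3
    refine ⟨A ++ b, c, ?_, ?_, Or.inr ⟨l, x, a', q, rfl, hxy, d⟩⟩
    · rw [hprod, D.mul]
    · have h3 : 0 < b.length := List.length_pos_iff.2 hb
      rw [List.length_append, List.length_append, List.length_singleton]
      omega

theorem norm_le {φ : MulAut (FreeGroup α)} (h1 : N1 φ) (h2 : N2 φ) (g : FreeGroup α) :
    g.toWord.length ≤ (φ g).toWord.length := by
  rcases List.eq_nil_or_concat g.toWord with h | ⟨l, y, h⟩
  · rw [h]
    simp
  · rw [List.concat_eq_append] at h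
    have h3 : IsReduced (l ++ [y]) := by
      rw [← h]
      exact isReduced_toWord
    obtain ⟨A, s, e1, hA, halt⟩ := chain h1 h2 l y h3
    have h4 : 0 < s.length := by
      rcases halt with ⟨-, -, hs⟩ | ⟨l', x, a, p, -, hxx, dd⟩
      · rw [hs]
        exact vv_pos φ y
      · have h5 := (h1 x y _ _ _ hxx dd).2
        have h6 := congrArg List.length dd.r
        rw [List.length_append] at h6
        have := vv_pos φ y
        omega
    have h5 : g = mk (l ++ [y]) := by rw [← h, mk_toWord]
    rw [h, h5, e1, List.length_append, List.length_append, List.length_singleton]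
    omega

theorem mem_of_reduced [Fintype α] {φ : MulAut (FreeGroup α)} (h1 : N1 φ) (h2 : N2 φ) :
    φ ∈ Subgroup.closure (moves α) := by
  have h3 : ∀ j : α, ∃ x : α × Bool, φ⁻¹ (FreeGroup.of j) = mk [x] := by
    intro j
    have h4 := norm_le h1 h2 (φ⁻¹ (FreeGroup.of j))
    rw [MulAut.apply_inv_self, toWord_of, List.length_singleton] at h4
    rcases hw : (φ⁻¹ (FreeGroup.of j)).toWord with _ | ⟨x, _ | ⟨y, l⟩⟩
    · rw [toWord_eq_nil_iff, map_eq_one_iff _ (φ⁻¹).injective] at hw
      exact absurd hw (of_ne_one j)
    · refine ⟨x, ?_⟩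
      rw [← mk_toWord (x := φ⁻¹ (FreeGroup.of j)), hw]
    · rw [hw] at h4
      simp at h4
  choose f hf using h3
  have h4 := signed _ φ⁻¹ f hf rfl
  have h5 := inv_mem h4
  rwa [inv_inv] at h5

/-! ### Nielsen reduction -/

/-- the first condition holds when no move makes the total length smaller -/
theorem n1_of {φ : MulAut (FreeGroup α)} (G1 : ∀ x y : α × Bool, x.1 ≠ y.1 →
    (vv φ x).toWord.length ≤ (vv φ x * vv φ y).toWord.length) : N1 φ := by
  intro x y a p c hxy d
  have e1 := congrArg List.length d.l
  have e2 := congrArg List.length d.r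
  have e3 := congrArg List.length d.mul
  rw [List.length_append, invRev_length] at e1
  rw [List.length_append] at e2 e3
  by_cases h : x.1 = y.1
  · have h1 := eq_of_ne_bar hxy h
    subst h1
    have h2 := d.self
    exact ⟨h2, h2⟩
  · have h1 := G1 x y h
    have h2 := G1 (bar y) (bar x) (fun h' => h h'.symm)
    rw [vv_bar, vv_bar, ← mul_inv_rev, toWord_inv, toWord_inv, invRev_length, invRev_length] at h2
    omega

theorem n2_aux [Fintype α] {φ : MulAut (FreeGroup α)} (h1 : N1 φ)
    (G2 : ∀ x y : α × Bool, x.1 ≠ y.1 →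
      (vv φ x * vv φ y).toWord.length = (vv φ x).toWord.length →
      mu (vv φ x).toWord ≤ mu (vv φ x * vv φ y).toWord)
    {y z : α × Bool} {p q c : List (α × Bool)} (hyz : z ≠ bar y) (d : Dec (vv φ y) (vv φ z) p q c)
    (hpq : p.length = q.length) (hv : val p < val q) : False := by
  have e2 := congrArg List.length d.r
  rw [List.length_append] at e2
  have h3 := (h1 y z p q c hyz d).2
  by_cases h : y.1 = z.1
  · have h4 := eq_of_ne_bar hyz h
    subst h4
    have h5 : p ++ invRev q = q ++ c := by rw [← d.l, ← d.r]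
    have h6 := (List.append_inj h5 hpq).1
    rw [h6] at hv
    exact lt_irrefl _ hv
  · have h4 := G2 (bar z) (bar y) (fun h' => h h'.symm)
    rw [vv_bar, vv_bar, ← mul_inv_rev, toWord_inv, toWord_inv, invRev_length, invRev_length,
      mu_invRev, mu_invRev, d.mul, d.r, List.length_append, List.length_append, hpq] at h4
    have h5 := mu_lt (c := c) hpq (by omega) hv
    exact absurd (h4 rfl) (not_le.2 h5)

theorem n2_of [Fintype α] {φ : MulAut (FreeGroup α)} (h1 : N1 φ)
    (G2 : ∀ x y : α × Bool, x.1 ≠ y.1 →
      (vv φ x * vv φ y).toWord.length = (vv φ x).toWord.length →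
      mu (vv φ x).toWord ≤ mu (vv φ x * vv φ y).toWord) : N2 φ := by
  intro x y z a p c a' q c' hxy hyz d d'
  by_contra hlt
  have h3 := (h1 x y a p c hxy d).2
  have h4 := (h1 y z a' q c' hyz d').1
  have e1 := congrArg List.length d'.l
  have e2 := congrArg List.length d.r
  rw [List.length_append, invRev_length] at e1
  rw [List.length_append] at e2
  have hpq : p.length = q.length := by omega
  have h5 : p ++ c = a' ++ invRev q := by rw [← d.r, ← d'.l]
  obtain ⟨h6, h7⟩ := List.append_inj h5 (by omega)
  subst h6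
  subst h7
  rcases lt_trichotomy (val p) (val q) with hv | hv | hv
  · exact n2_aux h1 G2 hyz d' hpq hv
  · have h8 := val_inj hpq hv
    subst h8
    apply vv_ne φ y
    rw [← mk_toWord (x := vv φ y), d.r, ← mul_mk, ← inv_mk, mul_inv_cancel]
  · have d2 := d.symm
    rw [← vv_bar, ← vv_bar, invRev_invRev] at d2
    refine n2_aux h1 G2 ?_ d2 hpq.symm hv
    rw [bar_bar]
    exact hxy.symm

theorem sum_move [Fintype α] {φ T : MulAut (FreeGroup α)} {x y : α × Bool}
    (hT : T (mk [x]) = mk [x] * mk [y]) (hT' : ∀ c, c ≠ x.1 → T (FreeGroup.of c) = FreeGroup.of c)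
    (F : FreeGroup α → ℕ) (hF : ∀ g, F g⁻¹ = F g) :
    ∑ j, F ((φ * T) (FreeGroup.of j)) + F (vv φ x) =
      ∑ j, F (φ (FreeGroup.of j)) + F (vv φ x * vv φ y) := by
  have hv : ∀ ψ : MulAut (FreeGroup α), F (ψ (FreeGroup.of x.1)) = F (vv ψ x) := by
    intro ψ
    obtain ⟨a, s⟩ := x
    cases s
    · have e : vv ψ (a, false) = (ψ (FreeGroup.of a))⁻¹ := by
        rw [← _root_.map_inv]
        rfl
      rw [e, hF]
    · rfl
  rw [← Finset.add_sum_erase Finset.univ (fun j => F ((φ * T) (FreeGroup.of j)))
      (Finset.mem_univ x.1),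
    ← Finset.add_sum_erase Finset.univ (fun j => F (φ (FreeGroup.of j))) (Finset.mem_univ x.1)]
  have e1 : ∑ j ∈ Finset.univ.erase x.1, F ((φ * T) (FreeGroup.of j)) =
      ∑ j ∈ Finset.univ.erase x.1, F (φ (FreeGroup.of j)) := by
    refine Finset.sum_congr rfl fun j hj => ?_
    rw [MulAut.mul_apply, hT' j (Finset.ne_of_mem_erase hj)]
  have e2 : vv (φ * T) x = vv φ x * vv φ y := by
    rw [vv, MulAut.mul_apply, hT, _root_.map_mul]
    rfl
  simp only [hv, e1, e2]
  ring

theorem main [Fintype α] (N : ℕ) : ∀ (K : ℕ) (φ : MulAut (FreeGroup α)),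
    ∑ j, (φ (FreeGroup.of j)).toWord.length = N → ∑ j, mu (φ (FreeGroup.of j)).toWord = K →
    φ ∈ Subgroup.closure (moves α) := by
  induction N using Nat.strong_induction_on with
  | _ N ihN =>
    intro K
    induction K using Nat.strong_induction_on with
    | _ K ihK =>
      intro φ hN hK
      have hback : ∀ T ∈ Subgroup.closure (moves α), φ * T ∈ Subgroup.closure (moves α) →
          φ ∈ Subgroup.closure (moves α) := by
        intro T hT h
        have e : φ = φ * T * T⁻¹ := by group
        rw [e]
        exact mul_mem h (inv_mem hT)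
      by_cases g1 : ∀ x y : α × Bool, x.1 ≠ y.1 →
          (vv φ x).toWord.length ≤ (vv φ x * vv φ y).toWord.length
      · by_cases g2 : ∀ x y : α × Bool, x.1 ≠ y.1 →
          (vv φ x * vv φ y).toWord.length = (vv φ x).toWord.length →
          mu (vv φ x).toWord ≤ mu (vv φ x * vv φ y).toWord
        · exact mem_of_reduced (n1_of g1) (n2_of (n1_of g1) g2)
        · push Not at g2
          obtain ⟨x, y, hxy, h1, h2⟩ := g2
          obtain ⟨T, hT, hT1, hT2⟩ := exists_T hxy
          have s1 := sum_move (φ := φ) hT1 hT2 (fun g => g.toWord.length)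
            (fun g => by rw [toWord_inv, invRev_length])
          have s2 := sum_move (φ := φ) hT1 hT2 (fun g => mu g.toWord)
            (fun g => by rw [toWord_inv, mu_invRev])
          refine hback T hT (ihK (∑ j, mu ((φ * T) (FreeGroup.of j)).toWord) ?_ _ ?_ rfl)
          · omega
          · omega
      · push Not at g1
        obtain ⟨x, y, hxy, h1⟩ := g1
        obtain ⟨T, hT, hT1, hT2⟩ := exists_T hxy
        have s1 := sum_move (φ := φ) hT1 hT2 (fun g => g.toWord.length)
          (fun g => by rw [toWord_inv, invRev_length])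
        exact hback T hT (ihN (∑ j, ((φ * T) (FreeGroup.of j)).toWord.length) (by omega) _ _ rfl rfl)

end Niel

/-- **Nielsen's theorem**: the automorphism group of the free group of rank `n` is generated by
the elementary Nielsen moves -/
theorem nielsen_gen (n : ℕ) (φ : MulAut (FreeGroup (Fin n))) :
    φ ∈ Subgroup.closure {g : MulAut (FreeGroup (Fin n)) |
      (∃ a b, a ≠ b ∧ g (FreeGroup.of a) = FreeGroup.of a * FreeGroup.of b ∧
        ∀ c, c ≠ a → g (FreeGroup.of c) = FreeGroup.of c) ∨
      (∃ a, g (FreeGroup.of a) = (FreeGroup.of a)⁻¹ ∧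
        ∀ c, c ≠ a → g (FreeGroup.of c) = FreeGroup.of c) ∨
      (∃ σ : Equiv.Perm (Fin n), ∀ c, g (FreeGroup.of c) = FreeGroup.of (σ c))} :=
  Niel.main _ _ φ rfl rfl

end IAQ
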