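import Mathlib

set_option autoImplicit false

open scoped Pointwise commutatorElement

namespace IAQ

namespace Stein

variable {Q : Type*} [Group Q]

/-- a convenient criterion for membership in the normaliser of a closure -/
lemma mem_normalizer_closure {T : Set Q} {g : Q}
    (h1 : ∀ t ∈ T, g * t * g⁻¹ ∈ Subgroup.closure T)
    (h2 : ∀ t ∈ T, g⁻¹ * t * g ∈ Subgroup.closure T) :
    g ∈ Subgroup.normalizer (Subgroup.closure T : Set Q) := by
  have key : ∀ a : Q, (∀ t ∈ T, a * t * a⁻¹ ∈ Subgroup.closure T) →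
      ∀ s ∈ Subgroup.closure T, a * s * a⁻¹ ∈ Subgroup.closure T := by
    intro a ha s hs
    have : Subgroup.closure T ≤ (Subgroup.closure T).comap (MulAut.conj a).toMonoidHom := by
      rw [Subgroup.closure_le]
      intro t ht
      simpa using ha t ht
    simpa using this hs
  rw [Subgroup.mem_normalizer_iff]
  intro s
  constructor
  · intro hs
    exact key g h1 s hs
  · intro hs
    have := key g⁻¹ (by simpa using h2) _ hs
    simpa [mul_assoc] using this

/-- a commuting finite family of finite order elements generates a finite subgroup -/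
lemma closure_finite_of_comm {T : Set Q} (hT : T.Finite)
    (hcomm : ∀ x ∈ T, ∀ y ∈ T, x * y = y * x) (hfo : ∀ x ∈ T, IsOfFinOrder x) :
    (Subgroup.closure T : Set Q).Finite := by
  have hic := Subgroup.isMulCommutative_closure hcomm
  have hfo' : ∀ x ∈ Subgroup.closure T, IsOfFinOrder x := by
    intro x hx
    induction hx using Subgroup.closure_induction with
    | mem x hx => exact hfo x hx
    | one => exact IsOfFinOrder.one
    | mul x y hx hy h1 h2 =>
      refine Commute.isOfFinOrder_mul ?_ h1 h2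
      have := hic.is_comm.comm ⟨x, hx⟩ ⟨y, hy⟩
      exact congrArg Subtype.val this
    | inv x hx h1 => exact h1.inv
  have hfg : (Subgroup.closure T).FG := (Subgroup.fg_iff _).2 ⟨T, rfl, hT⟩
  have hfg' : Group.FG (Subgroup.closure T) := (Group.fg_iff_subgroup_fg _).2 hfg
  let _ : CommGroup (Subgroup.closure T) := { (inferInstance : Group (Subgroup.closure T)) with
    mul_comm := hic.is_comm.comm }
  have : Finite (Subgroup.closure T) := by
    refine @CommGroup.finite_of_fg_isMulTorsion _ _ hfg' ?_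
    intro x
    obtain ⟨k, hk, h1⟩ := (isOfFinOrder_iff_pow_eq_one).1 (hfo' x x.2)
    exact (isOfFinOrder_iff_pow_eq_one).2 ⟨k, hk, Subtype.ext (by simpa using h1)⟩
  exact Set.toFinite _

/-- if a finite subgroup `H` is generated by two subgroups `A`, `B`, then a power of `A * B` is
all of `H` -/
lemma exists_pow_eq {A B H : Subgroup Q} (hH : (H : Set Q).Finite) (hAB : A ⊔ B = H) :
    ∃ L0 : ℕ, ∀ L, L0 ≤ L → ((A : Set Q) * (B : Set Q)) ^ L = (H : Set Q) := by
  have hA : A ≤ H := hAB ▸ le_sup_left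
  have hB : B ≤ H := hAB ▸ le_sup_right
  have h1 : (1 : Q) ∈ (A : Set Q) * (B : Set Q) := ⟨1, A.one_mem, 1, B.one_mem, one_mul 1⟩
  have hsub : ∀ L : ℕ, ((A : Set Q) * (B : Set Q)) ^ L ⊆ (H : Set Q) := by
    intro L
    induction L with
    | zero => simp [H.one_mem]
    | succ L ih =>
      rw [pow_succ]
      rintro _ ⟨a, ha, _, ⟨b, hb, c, hc, rfl⟩, rfl⟩
      exact H.mul_mem (ih ha) (H.mul_mem (hA hb) (hB hc))
  have hmem : ∀ h ∈ H, ∃ L : ℕ, h ∈ ((A : Set Q) * (B : Set Q)) ^ L := by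
    let M : Submonoid Q :=
      { carrier := {h | ∃ L : ℕ, h ∈ ((A : Set Q) * (B : Set Q)) ^ L}
        one_mem' := ⟨0, by simp⟩
        mul_mem' := by
          rintro a b ⟨L, hL⟩ ⟨L', hL'⟩
          exact ⟨L + L', by rw [pow_add]; exact ⟨a, hL, b, hL', rfl⟩⟩ }
    intro h hh
    have h2 : (A ⊔ B).toSubmonoid ≤ M := by
      have h3 : A ⊔ B = Subgroup.closure ((A : Set Q) ∪ (B : Set Q)) := by
        rw [Subgroup.closure_union, Subgroup.closure_eq, Subgroup.closure_eq]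
      rw [h3, Subgroup.closure_toSubmonoid, Submonoid.closure_le]
      have hAM : ∀ a ∈ A, a ∈ M := fun a ha => ⟨1, by
        rw [pow_one]; exact ⟨a, ha, 1, B.one_mem, mul_one a⟩⟩
      have hBM : ∀ a ∈ B, a ∈ M := fun a ha => ⟨1, by
        rw [pow_one]; exact ⟨1, A.one_mem, a, ha, one_mul a⟩⟩
      rintro x (( hx | hx) | hx)
      · exact hAM x hx
      · exact hBM x hx
      · rw [Set.mem_inv] at hx
        rcases hx with hx | hx
        · exact hAM x (by simpa using A.inv_mem hx)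
        · exact hBM x (by simpa using B.inv_mem hx)
    exact h2 (by rw [hAB]; exact hh)
  have : ∃ L0 : ℕ, ∀ h ∈ H, h ∈ ((A : Set Q) * (B : Set Q)) ^ L0 := by
    choose! f hf using hmem
    obtain ⟨N, hN⟩ := (hH.image f).bddAbove
    refine ⟨N, fun h hh => ?_⟩
    exact Set.pow_subset_pow_right h1 (hN ⟨h, hh, rfl⟩) (hf h hh)
  obtain ⟨L0, hL0⟩ := this
  refine ⟨L0, fun L hL => Set.Subset.antisymm (hsub L) ?_⟩
  intro h hh
  exact Set.pow_subset_pow_right h1 hL (hL0 h hh)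

/-- the key computation -/
lemma pow_formula {A B V W H : Subgroup Q} (hH : (H : Set Q).Finite) (hAB : A ⊔ B = H)
    (hV : H ≤ Subgroup.normalizer (V : Set Q)) (hW : H ≤ Subgroup.normalizer (W : Set Q)) :
    ∃ L0 : ℕ, ∀ L, L0 ≤ L →
      (((A ⊔ V : Subgroup Q) : Set Q) * ((B ⊔ W : Subgroup Q) : Set Q)) ^ L =
        (H : Set Q) * ((V : Set Q) * (W : Set Q)) ^ L := by
  obtain ⟨L0, hL0⟩ := exists_pow_eq hH hAB
  have hA : A ≤ H := hAB ▸ le_sup_left
  have hB : B ≤ H := hAB ▸ le_sup_right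
  refine ⟨L0, fun L hL => ?_⟩
  rw [Subgroup.coe_mul_of_left_le_normalizer_right A V (hA.trans hV),
    Subgroup.coe_mul_of_left_le_normalizer_right B W (hB.trans hW)]
  have hAV : (A : Set Q) * V = V * A := Subgroup.set_mul_normalizer_comm _ _ (hA.trans hV)
  have hAW : (A : Set Q) * W = W * A := Subgroup.set_mul_normalizer_comm _ _ (hA.trans hW)
  have hBV : (B : Set Q) * V = V * B := Subgroup.set_mul_normalizer_comm _ _ (hB.trans hV)
  have hBW : (B : Set Q) * W = W * B := Subgroup.set_mul_normalizer_comm _ _ (hB.trans hW)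
  have e1 : (A : Set Q) * V * (B * W) = A * B * (V * W) := by
    rw [mul_assoc, ← mul_assoc (V : Set Q) B W, ← hBV, mul_assoc (B : Set Q), ← mul_assoc]
  have hc : Commute ((A : Set Q) * B) ((V : Set Q) * W) := by
    have c1 : Commute (A : Set Q) V := hAV
    have c2 : Commute (A : Set Q) W := hAW
    have c3 : Commute (B : Set Q) V := hBV
    have c4 : Commute (B : Set Q) W := hBW
    exact (c1.mul_right c2).mul_left (c3.mul_right c4)
  rw [e1, hc.mul_pow, hL0 L hL]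

/-- the gluing step -/
lemma glue {Up Um H₁ H₂ : Subgroup Q} {S₁ S₂ : ℕ → Set Q}
    (hUp : (Up : Set Q).Finite) (hUm : (Um : Set Q).Finite)
    (h1 : ∃ L0 : ℕ, ∀ L, L0 ≤ L → ((Up : Set Q) * (Um : Set Q)) ^ L = (H₁ : Set Q) * S₁ L)
    (h2 : ∃ L0 : ℕ, ∀ L, L0 ≤ L → ((Up : Set Q) * (Um : Set Q)) ^ L = (H₂ : Set Q) * S₂ L) :
    ((H₁ ⊔ H₂ : Subgroup Q) : Set Q).Finite := by
  obtain ⟨L1, hL1⟩ := h1
  obtain ⟨L2, hL2⟩ := h2
  set L := max L1 L2 with hLdef
  set Y : Set Q := ((Up : Set Q) * (Um : Set Q)) ^ L with hY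
  have hYfin : Y.Finite := by
    have : ∀ n : ℕ, (((Up : Set Q) * (Um : Set Q)) ^ n).Finite := by
      intro n
      induction n with
      | zero => simp
      | succ n ih => rw [pow_succ]; exact ih.mul (hUp.mul hUm)
    exact this L
  have h1Y : (1 : Q) ∈ Y := by
    have : (1 : Q) ∈ (Up : Set Q) * (Um : Set Q) := ⟨1, Up.one_mem, 1, Um.one_mem, one_mul 1⟩
    simpa using Set.pow_mem_pow this (n := L)
  have e1 : Y = (H₁ : Set Q) * S₁ L := hL1 L (le_max_left _ _)
  have e2 : Y = (H₂ : Set Q) * S₂ L := hL2 L (le_max_right _ _)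
  have hst : H₁ ⊔ H₂ ≤ MulAction.stabilizer Q Y := by
    refine sup_le ?_ ?_
    · intro h hh
      rw [MulAction.mem_stabilizer_iff, e1, ← smul_mul_assoc, smul_coe_set hh]
    · intro h hh
      rw [MulAction.mem_stabilizer_iff, e2, ← smul_mul_assoc, smul_coe_set hh]
  refine hYfin.subset ?_
  intro g hg
  have := hst hg
  rw [MulAction.mem_stabilizer_iff] at this
  rw [← this]
  exact ⟨1, h1Y, by simp⟩

/-- The Steinberg relations (in the convention `[y i j, y j k] = (y i k)⁻¹`) -/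
structure Sys {Q : Type*} [Group Q] {n : ℕ} (y : Fin n → Fin n → Q) : Prop where
  hc : ∀ i j k l, i ≠ j → k ≠ l → j ≠ k → i ≠ l → Commute (y i j) (y k l)
  hs : ∀ i j k, i ≠ j → j ≠ k → i ≠ k → y i j * y j k * (y i j)⁻¹ * (y j k)⁻¹ = (y i k)⁻¹

/-- the subgroup generated by the `y i j` with `P i j` -/
def Gs {n : ℕ} (y : Fin n → Fin n → Q) (P : Fin n → Fin n → Prop) : Subgroup Q :=
  Subgroup.closure {g | ∃ i j, P i j ∧ g = y i j}

lemma mem_Gs {n : ℕ} {y : Fin n → Fin n → Q} {P : Fin n → Fin n → Prop} {i j : Fin n}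
    (h : P i j) : y i j ∈ Gs y P := Subgroup.subset_closure ⟨i, j, h, rfl⟩

lemma Gs_congr {n : ℕ} {y : Fin n → Fin n → Q} {P P' : Fin n → Fin n → Prop}
    (h : ∀ i j, P i j ↔ P' i j) : Gs y P = Gs y P' := by
  have : P = P' := by
    funext i j
    exact propext (h i j)
  rw [this]

lemma Gs_sup {n : ℕ} {y : Fin n → Fin n → Q} {P P' : Fin n → Fin n → Prop} :
    Gs y P ⊔ Gs y P' = Gs y (fun i j => P i j ∨ P' i j) := by
  unfold Gs
  rw [← Subgroup.closure_union]
  congr 1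
  ext g
  constructor
  · rintro (⟨i, j, h, rfl⟩ | ⟨i, j, h, rfl⟩)
    · exact ⟨i, j, Or.inl h, rfl⟩
    · exact ⟨i, j, Or.inr h, rfl⟩
  · rintro ⟨i, j, h | h, rfl⟩
    · exact Or.inl ⟨i, j, h, rfl⟩
    · exact Or.inr ⟨i, j, h, rfl⟩

lemma Gs_le {n : ℕ} {y : Fin n → Fin n → Q} {P : Fin n → Fin n → Prop} {K : Subgroup Q}
    (h : ∀ i j, P i j → y i j ∈ K) : Gs y P ≤ K := by
  unfold Gs
  rw [Subgroup.closure_le]
  rintro g ⟨i, j, h1, rfl⟩
  exact h i j h1

section rel

variable {n : ℕ} {y : Fin n → Fin n → Q} (hy : Sys y)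
include hy

lemma col_conj {i j r : Fin n} (hij : i ≠ j) (hir : i ≠ r) (hjr : j ≠ r) :
    y i j * y j r * (y i j)⁻¹ = (y i r)⁻¹ * y j r := by
  have := hy.hs i j r hij hjr hir
  rw [← this]; group

lemma col_conj' {i j r : Fin n} (hij : i ≠ j) (hir : i ≠ r) (hjr : j ≠ r) :
    (y i j)⁻¹ * y j r * y i j = y i r * y j r := by
  have h1 := col_conj hy hij hir hjr
  have h2 : Commute (y i j) (y i r) := hy.hc i j i r hij hir (Ne.symm hij) hir
  have h3 : y j r = (y i j)⁻¹ * ((y i r)⁻¹ * y j r) * y i j := by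
    rw [← h1]; group
  have h4 : (y i j)⁻¹ * ((y i r)⁻¹ * y j r) * y i j = (y i r)⁻¹ * ((y i j)⁻¹ * y j r * y i j) := by
    have := (h2.inv_inv).eq
    calc (y i j)⁻¹ * ((y i r)⁻¹ * y j r) * y i j = ((y i j)⁻¹ * (y i r)⁻¹) * y j r * y i j := by
          group
      _ = ((y i r)⁻¹ * (y i j)⁻¹) * y j r * y i j := by rw [this]
      _ = _ := by group
  rw [h4] at h3
  calc (y i j)⁻¹ * y j r * y i j = y i r * ((y i r)⁻¹ * ((y i j)⁻¹ * y j r * y i j)) := by group
    _ = _ := by rw [← h3]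

lemma row_conj {i j r : Fin n} (hij : i ≠ j) (hir : i ≠ r) (hjr : j ≠ r) :
    y i j * y r i * (y i j)⁻¹ = y r j * y r i := by
  have := hy.hs r i j (Ne.symm hir) hij (Ne.symm hjr)
  have h2 : y r j = y i j * y r i * (y i j)⁻¹ * (y r i)⁻¹ := by
    rw [← inv_inv (y r j), ← this]; group
  rw [h2]; group

lemma row_conj' {i j r : Fin n} (hij : i ≠ j) (hir : i ≠ r) (hjr : j ≠ r) :
    (y i j)⁻¹ * y r i * y i j = (y r j)⁻¹ * y r i := by
  have h1 := row_conj hy hij hir hjr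
  have h2 : Commute (y i j) (y r j) := hy.hc i j r j hij (Ne.symm hjr) hjr hij
  have h3 : y r i = (y i j)⁻¹ * (y r j * y r i) * y i j := by
    rw [← h1]; group
  have h4 : (y i j)⁻¹ * (y r j * y r i) * y i j = y r j * ((y i j)⁻¹ * y r i * y i j) := by
    have := (h2.inv_left).eq
    calc (y i j)⁻¹ * (y r j * y r i) * y i j = ((y i j)⁻¹ * y r j) * y r i * y i j := by group
      _ = (y r j * (y i j)⁻¹) * y r i * y i j := by rw [this]
      _ = _ := by group
  rw [h4] at h3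
  calc (y i j)⁻¹ * y r i * y i j = (y r j)⁻¹ * (y r j * ((y i j)⁻¹ * y r i * y i j)) := by group
    _ = _ := by rw [← h3]

/-- `G_J` normalises the column `r ∉ J` -/
lemma norm_col {J : Fin n → Prop} {r : Fin n} (hr : ¬ J r) {P : Fin n → Fin n → Prop}
    (hP : ∀ i j, P i j → J i ∧ J j ∧ i ≠ j) :
    Gs y P ≤ Subgroup.normalizer ((Gs y (fun i j => J i ∧ j = r) : Subgroup Q) : Set Q) := by
  refine Gs_le ?_
  intro i j hij
  obtain ⟨hi, hj, hij⟩ := hP i j hij
  have hir : i ≠ r := fun h => hr (h ▸ hi)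
  have hjr : j ≠ r := fun h => hr (h ▸ hj)
  have m1 : y i r ∈ Gs y (fun i j => J i ∧ j = r) := mem_Gs (P := fun i j => J i ∧ j = r) ⟨hi, rfl⟩
  have m2 : y j r ∈ Gs y (fun i j => J i ∧ j = r) := mem_Gs (P := fun i j => J i ∧ j = r) ⟨hj, rfl⟩
  refine mem_normalizer_closure ?_ ?_
  · rintro _ ⟨k, l, ⟨hk, rfl⟩, rfl⟩
    have hkr : k ≠ l := fun h => hr (h ▸ hk)
    by_cases hjk : j = k
    · subst hjk
      rw [col_conj hy hij hir hjr]
      exact Subgroup.mul_mem _ (Subgroup.inv_mem _ m1) m2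
    · have := hy.hc i j k l hij hkr hjk hir
      rw [this.eq, mul_inv_cancel_right]
      exact mem_Gs (P := fun i j => J i ∧ j = l) ⟨hk, rfl⟩
  · rintro _ ⟨k, l, ⟨hk, rfl⟩, rfl⟩
    have hkr : k ≠ l := fun h => hr (h ▸ hk)
    by_cases hjk : j = k
    · subst hjk
      rw [col_conj' hy hij hir hjr]
      exact Subgroup.mul_mem _ m1 m2
    · have := hy.hc i j k l hij hkr hjk hir
      rw [mul_assoc, ← this.eq, inv_mul_cancel_left]
      exact mem_Gs (P := fun i j => J i ∧ j = l) ⟨hk, rfl⟩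

/-- `G_J` normalises the row `r ∉ J` -/
lemma norm_row {J : Fin n → Prop} {r : Fin n} (hr : ¬ J r) {P : Fin n → Fin n → Prop}
    (hP : ∀ i j, P i j → J i ∧ J j ∧ i ≠ j) :
    Gs y P ≤ Subgroup.normalizer ((Gs y (fun i j => i = r ∧ J j) : Subgroup Q) : Set Q) := by
  refine Gs_le ?_
  intro i j hij
  obtain ⟨hi, hj, hij⟩ := hP i j hij
  have hir : i ≠ r := fun h => hr (h ▸ hi)
  have hjr : j ≠ r := fun h => hr (h ▸ hj)
  have m1 : y r i ∈ Gs y (fun i j => i = r ∧ J j) := mem_Gs (P := fun i j => i = r ∧ J j) ⟨rfl, hi⟩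
  have m2 : y r j ∈ Gs y (fun i j => i = r ∧ J j) := mem_Gs (P := fun i j => i = r ∧ J j) ⟨rfl, hj⟩
  refine mem_normalizer_closure ?_ ?_
  · rintro _ ⟨k, l, ⟨rfl, hl⟩, rfl⟩
    have hkl : k ≠ l := fun h => hr (h ▸ hl)
    by_cases hil : i = l
    · subst hil
      rw [row_conj hy hij hir hjr]
      exact Subgroup.mul_mem _ m2 m1
    · have := hy.hc i j k l hij hkl hjr hil
      rw [this.eq, mul_inv_cancel_right]
      exact mem_Gs (P := fun i j => i = k ∧ J j) ⟨rfl, hl⟩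
  · rintro _ ⟨k, l, ⟨rfl, hl⟩, rfl⟩
    have hkl : k ≠ l := fun h => hr (h ▸ hl)
    by_cases hil : i = l
    · subst hil
      rw [row_conj' hy hij hir hjr]
      exact Subgroup.mul_mem _ (Subgroup.inv_mem _ m2) m1
    · have := hy.hc i j k l hij hkl hjr hil
      rw [mul_assoc, ← this.eq, inv_mul_cancel_left]
      exact mem_Gs (P := fun i j => i = k ∧ J j) ⟨rfl, hl⟩

lemma fin_col (ht : ∀ i j, i ≠ j → IsOfFinOrder (y i j)) {J : Fin n → Prop} {r : Fin n}
    (hr : ¬ J r) : ((Gs y (fun i j => J i ∧ j = r) : Subgroup Q) : Set Q).Finite := by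
  refine closure_finite_of_comm ?_ ?_ ?_
  · refine (Set.finite_range (fun p : Fin n × Fin n => y p.1 p.2)).subset ?_
    rintro _ ⟨i, j, -, rfl⟩
    exact ⟨(i, j), rfl⟩
  · rintro _ ⟨i, j, ⟨hi, rfl⟩, rfl⟩ _ ⟨k, l, ⟨hk, rfl⟩, rfl⟩
    have hij : i ≠ l := fun h => hr (h ▸ hi)
    have hkj : k ≠ l := fun h => hr (h ▸ hk)
    exact hy.hc i l k l hij hkj (Ne.symm hkj) hij
  · rintro _ ⟨i, j, ⟨hi, rfl⟩, rfl⟩
    exact ht i j (fun h => hr (h ▸ hi))

lemma fin_row (ht : ∀ i j, i ≠ j → IsOfFinOrder (y i j)) {J : Fin n → Prop} {r : Fin n}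
    (hr : ¬ J r) : ((Gs y (fun i j => i = r ∧ J j) : Subgroup Q) : Set Q).Finite := by
  refine closure_finite_of_comm ?_ ?_ ?_
  · refine (Set.finite_range (fun p : Fin n × Fin n => y p.1 p.2)).subset ?_
    rintro _ ⟨i, j, -, rfl⟩
    exact ⟨(i, j), rfl⟩
  · rintro _ ⟨i, j, ⟨rfl, hj⟩, rfl⟩ _ ⟨k, l, ⟨rfl, hl⟩, rfl⟩
    have hij : k ≠ j := fun h => hr (h ▸ hj)
    have hkj : k ≠ l := fun h => hr (h ▸ hl)
    exact hy.hc k j k l hij hkj (Ne.symm hij) hkj
  · rintro _ ⟨i, j, ⟨rfl, hj⟩, rfl⟩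
    exact ht i j (fun h => hr (h ▸ hj))

end rel

lemma fin_sup {H V : Subgroup Q} (hH : (H : Set Q).Finite) (hV : (V : Set Q).Finite)
    (h : H ≤ Subgroup.normalizer (V : Set Q)) : ((H ⊔ V : Subgroup Q) : Set Q).Finite := by
  rw [Subgroup.coe_mul_of_left_le_normalizer_right H V h]
  exact hH.mul hV

/-- the key induction -/
lemma tavgen {n : ℕ} {y : Fin n → Fin n → Q} (hy : Sys y)
    (ht : ∀ i j, i ≠ j → IsOfFinOrder (y i j))
    (h2 : ∀ i j, i ≠ j →
      ((Gs y (fun k l => (k = i ∧ l = j) ∨ (k = j ∧ l = i)) : Subgroup Q) : Set Q).Finite) :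
    ∀ m : ℕ, ∀ I : Finset (Fin n), I.card = m + 2 →
      ((Gs y (fun i j => i ∈ I ∧ j ∈ I ∧ i ≠ j) : Subgroup Q) : Set Q).Finite := by
  intro m
  induction m with
  | zero =>
    intro I hI
    obtain ⟨a, b, hab, rfl⟩ := Finset.card_eq_two.1 hI
    have : Gs y (fun i j => i ∈ ({a, b} : Finset (Fin n)) ∧ j ∈ ({a, b} : Finset (Fin n)) ∧ i ≠ j) =
        Gs y (fun k l => (k = a ∧ l = b) ∨ (k = b ∧ l = a)) := by
      refine Gs_congr fun i j => ?_
      simp only [Finset.mem_insert, Finset.mem_singleton]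
      constructor
      · rintro ⟨rfl | rfl, rfl | rfl, h⟩
        · exact absurd rfl h
        · exact Or.inl ⟨rfl, rfl⟩
        · exact Or.inr ⟨rfl, rfl⟩
        · exact absurd rfl h
      · rintro (⟨rfl, rfl⟩ | ⟨rfl, rfl⟩)
        · exact ⟨Or.inl rfl, Or.inr rfl, hab⟩
        · exact ⟨Or.inr rfl, Or.inl rfl, hab.symm⟩
    rw [this]
    exact h2 a b hab
  | succ m ih =>
    intro I hI
    have hne : I.Nonempty := by
      rw [← Finset.card_pos]; omega
    obtain ⟨p, hp⟩ : ∃ p, p = I.min' hne := ⟨_, rfl⟩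
    obtain ⟨q, hq⟩ : ∃ q, q = I.max' hne := ⟨_, rfl⟩
    have hpI : p ∈ I := hp ▸ Finset.min'_mem _ _
    have hqI : q ∈ I := hq ▸ Finset.max'_mem _ _
    have hple : ∀ i ∈ I, p ≤ i := fun i hi => hp ▸ Finset.min'_le _ _ hi
    have hleq : ∀ i ∈ I, i ≤ q := fun i hi => hq ▸ Finset.le_max' _ _ hi
    have hpq : p ≠ q := by
      have := Finset.min'_lt_max'_of_card I (by omega : 1 < I.card)
      rw [hp, hq]
      exact this.ne
    obtain ⟨k, hk⟩ : ((I.erase q).erase p).Nonempty := by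
      rw [← Finset.card_pos, Finset.card_erase_of_mem (Finset.mem_erase.2 ⟨hpq, hpI⟩),
        Finset.card_erase_of_mem hqI]
      omega
    rw [Finset.mem_erase, Finset.mem_erase] at hk
    obtain ⟨hkp, hkq, hkI⟩ := hk
    have hc1 : (I.erase q).card = m + 2 := by rw [Finset.card_erase_of_mem hqI]; omega
    have hc2 : (I.erase p).card = m + 2 := by rw [Finset.card_erase_of_mem hpI]; omega
    have f1 := ih _ hc1
    have f2 := ih _ hc2
    have hq1 : ¬ (q ∈ I.erase q) := Finset.notMem_erase _ _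
    have hp2 : ¬ (p ∈ I.erase p) := Finset.notMem_erase _ _
    -- the subgroups
    have eUp1 : Gs y (fun i j => i ∈ I ∧ j ∈ I ∧ i < j) =
        Gs y (fun i j => i ∈ I.erase q ∧ j ∈ I.erase q ∧ i < j) ⊔
          Gs y (fun i j => i ∈ I.erase q ∧ j = q) := by
      rw [Gs_sup]
      refine Gs_congr fun i j => ?_
      simp only [Finset.mem_erase]
      constructor
      · rintro ⟨hi, hj, hij⟩
        have hiq : i ≠ q := (lt_of_lt_of_le hij (hleq j hj)).ne
        by_cases hjq : j = q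
        · exact Or.inr ⟨⟨hiq, hi⟩, hjq⟩
        · exact Or.inl ⟨⟨hiq, hi⟩, ⟨hjq, hj⟩, hij⟩
      · rintro (⟨⟨_, hi⟩, ⟨_, hj⟩, hij⟩ | ⟨⟨hiq, hi⟩, rfl⟩)
        · exact ⟨hi, hj, hij⟩
        · exact ⟨hi, hqI, lt_of_le_of_ne (hleq i hi) hiq⟩
    have eUm1 : Gs y (fun i j => i ∈ I ∧ j ∈ I ∧ j < i) =
        Gs y (fun i j => i ∈ I.erase q ∧ j ∈ I.erase q ∧ j < i) ⊔
          Gs y (fun i j => i = q ∧ j ∈ I.erase q) := by
      rw [Gs_sup]
      refine Gs_congr fun i j => ?_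
      simp only [Finset.mem_erase]
      constructor
      · rintro ⟨hi, hj, hij⟩
        have hjq : j ≠ q := (lt_of_lt_of_le hij (hleq i hi)).ne
        by_cases hiq : i = q
        · exact Or.inr ⟨hiq, hjq, hj⟩
        · exact Or.inl ⟨⟨hiq, hi⟩, ⟨hjq, hj⟩, hij⟩
      · rintro (⟨⟨_, hi⟩, ⟨_, hj⟩, hij⟩ | ⟨rfl, hjq, hj⟩)
        · exact ⟨hi, hj, hij⟩
        · exact ⟨hqI, hj, lt_of_le_of_ne (hleq j hj) hjq⟩
    have eUp2 : Gs y (fun i j => i ∈ I ∧ j ∈ I ∧ i < j) =
        Gs y (fun i j => i ∈ I.erase p ∧ j ∈ I.erase p ∧ i < j) ⊔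
          Gs y (fun i j => i = p ∧ j ∈ I.erase p) := by
      rw [Gs_sup]
      refine Gs_congr fun i j => ?_
      simp only [Finset.mem_erase]
      constructor
      · rintro ⟨hi, hj, hij⟩
        have hjp : j ≠ p := (lt_of_le_of_lt (hple i hi) hij).ne'
        by_cases hip : i = p
        · exact Or.inr ⟨hip, hjp, hj⟩
        · exact Or.inl ⟨⟨hip, hi⟩, ⟨hjp, hj⟩, hij⟩
      · rintro (⟨⟨_, hi⟩, ⟨_, hj⟩, hij⟩ | ⟨rfl, hjp, hj⟩)
        · exact ⟨hi, hj, hij⟩
        · exact ⟨hpI, hj, lt_of_le_of_ne (hple j hj) (Ne.symm hjp)⟩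
    have eUm2 : Gs y (fun i j => i ∈ I ∧ j ∈ I ∧ j < i) =
        Gs y (fun i j => i ∈ I.erase p ∧ j ∈ I.erase p ∧ j < i) ⊔
          Gs y (fun i j => i ∈ I.erase p ∧ j = p) := by
      rw [Gs_sup]
      refine Gs_congr fun i j => ?_
      simp only [Finset.mem_erase]
      constructor
      · rintro ⟨hi, hj, hij⟩
        have hip : i ≠ p := (lt_of_le_of_lt (hple j hj) hij).ne'
        by_cases hjp : j = p
        · exact Or.inr ⟨⟨hip, hi⟩, hjp⟩
        · exact Or.inl ⟨⟨hip, hi⟩, ⟨hjp, hj⟩, hij⟩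
      · rintro (⟨⟨_, hi⟩, ⟨_, hj⟩, hij⟩ | ⟨⟨hip, hi⟩, rfl⟩)
        · exact ⟨hi, hj, hij⟩
        · exact ⟨hi, hpI, lt_of_le_of_ne (hple i hi) (Ne.symm hip)⟩
    have split : ∀ J : Finset (Fin n),
        Gs y (fun i j => i ∈ J ∧ j ∈ J ∧ i < j) ⊔ Gs y (fun i j => i ∈ J ∧ j ∈ J ∧ j < i) =
          Gs y (fun i j => i ∈ J ∧ j ∈ J ∧ i ≠ j) := by
      intro J
      rw [Gs_sup]
      refine Gs_congr fun i j => ?_
      constructor
      · rintro (⟨hi, hj, h⟩ | ⟨hi, hj, h⟩)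
        · exact ⟨hi, hj, h.ne⟩
        · exact ⟨hi, hj, h.ne'⟩
      · rintro ⟨hi, hj, h⟩
        rcases lt_or_gt_of_ne h with h | h
        · exact Or.inl ⟨hi, hj, h⟩
        · exact Or.inr ⟨hi, hj, h⟩
    -- normalisation
    have nc1 := norm_col hy (J := fun i => i ∈ I.erase q) (r := q) hq1
      (P := fun i j => i ∈ I.erase q ∧ j ∈ I.erase q ∧ i ≠ j) (fun i j h => h)
    have nr1 := norm_row hy (J := fun i => i ∈ I.erase q) (r := q) hq1
      (P := fun i j => i ∈ I.erase q ∧ j ∈ I.erase q ∧ i ≠ j) (fun i j h => h)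
    have nc2 := norm_col hy (J := fun i => i ∈ I.erase p) (r := p) hp2
      (P := fun i j => i ∈ I.erase p ∧ j ∈ I.erase p ∧ i ≠ j) (fun i j h => h)
    have nr2 := norm_row hy (J := fun i => i ∈ I.erase p) (r := p) hp2
      (P := fun i j => i ∈ I.erase p ∧ j ∈ I.erase p ∧ i ≠ j) (fun i j h => h)
    have vc1 := fin_col hy ht (J := fun i => i ∈ I.erase q) (r := q) hq1
    have vr1 := fin_row hy ht (J := fun i => i ∈ I.erase q) (r := q) hq1
    have g1 := pow_formula f1 (split (I.erase q)) nc1 nr1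
    have g2 := pow_formula f2 (split (I.erase p)) nr2 nc2
    rw [← eUp1, ← eUm1] at g1
    rw [← eUp2, ← eUm2] at g2
    have leUp : Gs y (fun i j => i ∈ I.erase q ∧ j ∈ I.erase q ∧ i < j) ≤
        Gs y (fun i j => i ∈ I.erase q ∧ j ∈ I.erase q ∧ i ≠ j) :=
      (split (I.erase q)) ▸ le_sup_left
    have leUm : Gs y (fun i j => i ∈ I.erase q ∧ j ∈ I.erase q ∧ j < i) ≤
        Gs y (fun i j => i ∈ I.erase q ∧ j ∈ I.erase q ∧ i ≠ j) :=
      (split (I.erase q)) ▸ le_sup_right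
    have fUp : ((Gs y (fun i j => i ∈ I ∧ j ∈ I ∧ i < j) : Subgroup Q) : Set Q).Finite := by
      rw [eUp1]
      exact fin_sup (f1.subset leUp) vc1 (leUp.trans nc1)
    have fUm : ((Gs y (fun i j => i ∈ I ∧ j ∈ I ∧ j < i) : Subgroup Q) : Set Q).Finite := by
      rw [eUm1]
      exact fin_sup (f1.subset leUm) vr1 (leUm.trans nr1)
    have hfin := glue fUp fUm g1 g2
    refine hfin.subset ?_
    have hle : Gs y (fun i j => i ∈ I ∧ j ∈ I ∧ i ≠ j) ≤
        Gs y (fun i j => i ∈ I.erase q ∧ j ∈ I.erase q ∧ i ≠ j) ⊔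
          Gs y (fun i j => i ∈ I.erase p ∧ j ∈ I.erase p ∧ i ≠ j) := by
      have m1 : ∀ i j, i ∈ I → j ∈ I → i ≠ j → i ≠ q → j ≠ q → y i j ∈
          Gs y (fun i j => i ∈ I.erase q ∧ j ∈ I.erase q ∧ i ≠ j) ⊔
          Gs y (fun i j => i ∈ I.erase p ∧ j ∈ I.erase p ∧ i ≠ j) := by
        intro i j hi hj hij hiq hjq
        exact Subgroup.mem_sup_left
          (mem_Gs (P := fun i j => i ∈ I.erase q ∧ j ∈ I.erase q ∧ i ≠ j)
            ⟨Finset.mem_erase.2 ⟨hiq, hi⟩, Finset.mem_erase.2 ⟨hjq, hj⟩, hij⟩)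
      have m2 : ∀ i j, i ∈ I → j ∈ I → i ≠ j → i ≠ p → j ≠ p → y i j ∈
          Gs y (fun i j => i ∈ I.erase q ∧ j ∈ I.erase q ∧ i ≠ j) ⊔
          Gs y (fun i j => i ∈ I.erase p ∧ j ∈ I.erase p ∧ i ≠ j) := by
        intro i j hi hj hij hip hjp
        exact Subgroup.mem_sup_right
          (mem_Gs (P := fun i j => i ∈ I.erase p ∧ j ∈ I.erase p ∧ i ≠ j)
            ⟨Finset.mem_erase.2 ⟨hip, hi⟩, Finset.mem_erase.2 ⟨hjp, hj⟩, hij⟩)
      refine Gs_le ?_
      rintro i j ⟨hi, hj, hij⟩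
      by_cases hA : i ≠ q ∧ j ≠ q
      · exact m1 i j hi hj hij hA.1 hA.2
      by_cases hB : i ≠ p ∧ j ≠ p
      · exact m2 i j hi hj hij hB.1 hB.2
      -- now `{i, j} = {p, q}`
      have hik : i ≠ k := by
        rintro rfl
        have h1 : j = q := by
          by_contra h; exact hA ⟨hkq, h⟩
        have h2 : j = p := by
          by_contra h; exact hB ⟨hkp, h⟩
        exact hpq (h2 ▸ h1)
      have hjk : j ≠ k := by
        rintro rfl
        have h1 : i = q := by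
          by_contra h; exact hA ⟨h, hkq⟩
        have h2 : i = p := by
          by_contra h; exact hB ⟨h, hkp⟩
        exact hpq (h2 ▸ h1)
      have m3 : ∀ i, i ∈ I → i ≠ k → y i k ∈
          Gs y (fun i j => i ∈ I.erase q ∧ j ∈ I.erase q ∧ i ≠ j) ⊔
          Gs y (fun i j => i ∈ I.erase p ∧ j ∈ I.erase p ∧ i ≠ j) := by
        intro i hi hik
        by_cases hiq : i = q
        · exact m2 i k hi hkI hik (hiq ▸ hpq.symm) hkp
        · exact m1 i k hi hkI hik hiq hkq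
      have m4 : ∀ i, i ∈ I → i ≠ k → y k i ∈
          Gs y (fun i j => i ∈ I.erase q ∧ j ∈ I.erase q ∧ i ≠ j) ⊔
          Gs y (fun i j => i ∈ I.erase p ∧ j ∈ I.erase p ∧ i ≠ j) := by
        intro i hi hik
        by_cases hiq : i = q
        · exact m2 k i hkI hi hik.symm hkp (hiq ▸ hpq.symm)
        · exact m1 k i hkI hi hik.symm hkq hiq
      have e := hy.hs i k j hik (Ne.symm hjk) hij
      rw [← inv_inv (y i j), ← e]
      have a1 := m3 i hi hik
      have a2 := m4 j hj hjk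
      exact Subgroup.inv_mem _ (Subgroup.mul_mem _ (Subgroup.mul_mem _ (Subgroup.mul_mem _ a1 a2)
        (Subgroup.inv_mem _ a1)) (Subgroup.inv_mem _ a2))
    exact hle

lemma exists_third {n : ℕ} (hn : 3 ≤ n) (i j : Fin n) : ∃ k : Fin n, k ≠ i ∧ k ≠ j := by
  obtain ⟨k, hk⟩ : (((Finset.univ : Finset (Fin n)).erase i).erase j).Nonempty := by
    rw [← Finset.card_pos]
    have h1 : (Finset.univ : Finset (Fin n)).card - 1 ≤ ((Finset.univ : Finset (Fin n)).erase i).card :=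
      Finset.pred_card_le_card_erase
    have h2 : ((Finset.univ : Finset (Fin n)).erase i).card - 1 ≤
        (((Finset.univ : Finset (Fin n)).erase i).erase j).card :=
      Finset.pred_card_le_card_erase
    rw [Finset.card_univ, Fintype.card_fin] at h1
    omega
  rw [Finset.mem_erase, Finset.mem_erase] at hk
  exact ⟨k, hk.2.1, hk.1⟩

lemma Gs_map {Q' : Type*} [Group Q'] {n : ℕ} (f : Q →* Q') (y : Fin n → Fin n → Q)
    (P : Fin n → Fin n → Prop) : Gs (fun a b => f (y a b)) P = (Gs y P).map f := by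
  unfold Gs
  rw [MonoidHom.map_closure]
  congr 1
  ext g
  constructor
  · rintro ⟨i, j, h, rfl⟩
    exact ⟨y i j, ⟨i, j, h, rfl⟩, rfl⟩
  · rintro ⟨_, ⟨i, j, h, rfl⟩, rfl⟩
    exact ⟨i, j, h, rfl⟩

/-- the elements of `⟨y i j, y j i⟩` that commute with the rows and columns are central -/
lemma central_of {n : ℕ} (hn : 3 ≤ n) {y : Fin n → Fin n → Q} (hy : Sys y)
    (htop : Gs y (fun i j => i ≠ j) = ⊤) {i j : Fin n} (hij : i ≠ j) {g : Q}
    (hg : g ∈ Gs y (fun k l => (k = i ∧ l = j) ∨ (k = j ∧ l = i)))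
    (hcom : ∀ k, k ≠ i → k ≠ j → Commute g (y i k) ∧ Commute g (y j k) ∧
      Commute g (y k i) ∧ Commute g (y k j)) :
    g ∈ Subgroup.center Q := by
  have hle : (⊤ : Subgroup Q) ≤ Subgroup.centralizer {g} := by
    rw [← htop]
    refine Gs_le ?_
    intro a b hab
    rw [Subgroup.mem_centralizer_singleton_iff]
    obtain ⟨k, hki, hkj⟩ := exists_third hn i j
    have hcm : Commute g (y a b) := by
      have hcomm : ∀ a b : Fin n, ∀ k, k ≠ a → k ≠ b → a ≠ b → Commute g (y a k) →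
          Commute g (y k b) → Commute g (y a b) := by
        intro a b k hka hkb hab h1 h2
        have e := hy.hs a k b (Ne.symm hka) hkb hab
        rw [← inv_inv (y a b), ← e]
        exact (((h1.mul_right h2).mul_right h1.inv_right).mul_right h2.inv_right).inv_right
      by_cases hai : a = i
      · subst hai
        by_cases hbj : b = j
        · subst hbj
          exact hcomm a b k hki hkj hab (hcom k hki hkj).1 (hcom k hki hkj).2.2.2
        · exact (hcom b (Ne.symm hab) hbj).1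
      by_cases haj : a = j
      · subst haj
        by_cases hbi : b = i
        · subst hbi
          exact hcomm a b k hkj hki hab (hcom k hki hkj).2.1 (hcom k hki hkj).2.2.1
        · exact (hcom b hbi (Ne.symm hab)).2.1
      by_cases hbi : b = i
      · subst hbi
        exact (hcom a hai haj).2.2.1
      by_cases hbj : b = j
      · subst hbj
        exact (hcom a hai haj).2.2.2
      -- all four indices distinct
      have hle2 : Gs y (fun k l => (k = i ∧ l = j) ∨ (k = j ∧ l = i)) ≤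
          Subgroup.centralizer {y a b} := by
        refine Gs_le ?_
        rintro k l (⟨rfl, rfl⟩ | ⟨rfl, rfl⟩)
        · rw [Subgroup.mem_centralizer_singleton_iff]
          exact (hy.hc k l a b hij hab (Ne.symm haj) (Ne.symm hbi)).eq
        · rw [Subgroup.mem_centralizer_singleton_iff]
          exact (hy.hc k l a b hij.symm hab (Ne.symm hai) (Ne.symm hbj)).eq
      have := hle2 hg
      rw [Subgroup.mem_centralizer_singleton_iff] at this
      exact this
    exact hcm.eq.symm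
  rw [Subgroup.mem_center_iff]
  intro h
  have := hle (Subgroup.mem_top h)
  rw [Subgroup.mem_centralizer_singleton_iff] at this
  exact this

lemma h2_quot {n : ℕ} (hn : 3 ≤ n) {y : Fin n → Fin n → Q} (hy : Sys y)
    (ht : ∀ i j, i ≠ j → IsOfFinOrder (y i j))
    (htop : Gs y (fun i j => i ≠ j) = ⊤) {i j : Fin n} (hij : i ≠ j) :
    ((Gs (fun a b => (QuotientGroup.mk' (Subgroup.center Q)) (y a b))
      (fun k l => (k = i ∧ l = j) ∨ (k = j ∧ l = i)) :
      Subgroup (Q ⧸ Subgroup.center Q)) : Set (Q ⧸ Subgroup.center Q)).Finite := by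
  rw [Gs_map, Subgroup.coe_map]
  set H := Gs y (fun k l => (k = i ∧ l = j) ∨ (k = j ∧ l = i)) with hH
  set f := QuotientGroup.mk' (Subgroup.center Q) with hf
  set X : Set Q := ⋃ k ∈ {k : Fin n | k ≠ i ∧ k ≠ j},
    (((Gs y (fun a b => (a = i ∨ a = j) ∧ b = k) : Subgroup Q) : Set Q) ∪
      ((Gs y (fun a b => a = k ∧ (b = i ∨ b = j)) : Subgroup Q) : Set Q)) with hX
  have hr : ∀ k : Fin n, k ≠ i → k ≠ j → ¬ (k = i ∨ k = j) := by
    rintro k h1 h2 (h | h)
    · exact h1 h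
    · exact h2 h
  have hXfin : X.Finite := by
    refine Set.Finite.biUnion (Set.toFinite _) ?_
    rintro k ⟨h1, h2⟩
    exact (fin_col hy ht (J := fun a => a = i ∨ a = j) (hr k h1 h2)).union
      (fin_row hy ht (J := fun a => a = i ∨ a = j) (hr k h1 h2))
  have hinv : ∀ g ∈ H, ∀ v ∈ X, g * v * g⁻¹ ∈ X := by
    intro g hg v hv
    rw [hX, Set.mem_iUnion₂] at hv ⊢
    obtain ⟨k, hk, hv⟩ := hv
    refine ⟨k, hk, ?_⟩
    have hP : ∀ a b : Fin n, ((a = i ∧ b = j) ∨ (a = j ∧ b = i)) →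
        (a = i ∨ a = j) ∧ (b = i ∨ b = j) ∧ a ≠ b := by
      rintro a b (⟨rfl, rfl⟩ | ⟨rfl, rfl⟩)
      · exact ⟨Or.inl rfl, Or.inr rfl, hij⟩
      · exact ⟨Or.inr rfl, Or.inl rfl, hij.symm⟩
    have n1 := norm_col hy (J := fun a => a = i ∨ a = j) (hr k hk.1 hk.2) hP
    have n2 := norm_row hy (J := fun a => a = i ∨ a = j) (hr k hk.1 hk.2) hP
    rcases hv with hv | hv
    · left
      exact (Subgroup.mem_normalizer_iff.1 (n1 hg) v).1 hv
    · right
      exact (Subgroup.mem_normalizer_iff.1 (n2 hg) v).1 hv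
  have hker : ∀ g ∈ H, ∀ g' ∈ H, (∀ v ∈ X, g * v * g⁻¹ = g' * v * g'⁻¹) → f g = f g' := by
    intro g hg g' hg' h
    have hc : g⁻¹ * g' ∈ Subgroup.center Q := by
      refine central_of hn hy htop hij (H.mul_mem (H.inv_mem hg) hg') ?_
      have hcm : ∀ v ∈ X, Commute (g⁻¹ * g') v := by
        intro v hv
        have e := h v hv
        have e2 : g⁻¹ * g' * v = v * (g⁻¹ * g') := by
          calc g⁻¹ * g' * v = g⁻¹ * (g' * v * g'⁻¹) * g' := by group
            _ = g⁻¹ * (g * v * g⁻¹) * g' := by rw [e]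
            _ = v * (g⁻¹ * g') := by group
        exact e2
      intro k hki hkj
      have memX : ∀ v, (v ∈ ((Gs y (fun a b => (a = i ∨ a = j) ∧ b = k) : Subgroup Q) : Set Q) ∪
          ((Gs y (fun a b => a = k ∧ (b = i ∨ b = j)) : Subgroup Q) : Set Q)) → v ∈ X := by
        intro v hv
        rw [hX, Set.mem_iUnion₂]
        exact ⟨k, ⟨hki, hkj⟩, hv⟩
      refine ⟨hcm _ (memX _ (Or.inl ?_)), hcm _ (memX _ (Or.inl ?_)), hcm _ (memX _ (Or.inr ?_)),
        hcm _ (memX _ (Or.inr ?_))⟩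
      · exact mem_Gs (P := fun a b => (a = i ∨ a = j) ∧ b = k) ⟨Or.inl rfl, rfl⟩
      · exact mem_Gs (P := fun a b => (a = i ∨ a = j) ∧ b = k) ⟨Or.inr rfl, rfl⟩
      · exact mem_Gs (P := fun a b => a = k ∧ (b = i ∨ b = j)) ⟨rfl, Or.inl rfl⟩
      · exact mem_Gs (P := fun a b => a = k ∧ (b = i ∨ b = j)) ⟨rfl, Or.inr rfl⟩
    rw [hf]
    exact QuotientGroup.eq.2 hc
  -- the finite target
  have hXt : Finite X := hXfin.to_subtype
  have hT : {φ : X → Q | ∀ v, φ v ∈ X}.Finite := Set.Finite.pi' (fun _ => hXfin)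
  have hrep : ∀ s ∈ (f '' (H : Set Q)), ∃ g ∈ H, f g = s := fun s hs => hs
  choose! r hr1 hr2 using hrep
  refine Set.Finite.of_injOn (f := fun s => fun v : X => r s * v * (r s)⁻¹) ?_ ?_ hT
  · intro s hs v
    exact hinv _ (hr1 s hs) _ v.2
  · intro s hs s' hs' h
    have := hker (r s) (hr1 s hs) (r s') (hr1 s' hs') (fun v hv => congrFun h ⟨v, hv⟩)
    rw [hr2 s hs, hr2 s' hs'] at this
    exact this

/-- a perfect group with a finite central quotient is finite (Schur) -/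
lemma finite_of_quot_center (h : Finite (Q ⧸ Subgroup.center Q)) (hp : commutator Q = ⊤) :
    Finite Q := by
  have hfin : (commutatorSet Q).Finite := by
    refine (Set.finite_range (fun p : (Q ⧸ Subgroup.center Q) × (Q ⧸ Subgroup.center Q) =>
      ⁅p.1.out, p.2.out⁆)).subset ?_
    rintro _ ⟨a, b, rfl⟩
    refine ⟨((a : Q ⧸ Subgroup.center Q), (b : Q ⧸ Subgroup.center Q)), ?_⟩
    obtain ⟨z, hz⟩ := QuotientGroup.mk_out_eq_mul (Subgroup.center Q) a
    obtain ⟨w, hw⟩ := QuotientGroup.mk_out_eq_mul (Subgroup.center Q) b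
    simp only
    rw [hz, hw]
    have cz : ∀ x : Q, x * z = z * x := fun x => (Subgroup.mem_center_iff.1 z.2 x)
    have cw : ∀ x : Q, x * w = w * x := fun x => (Subgroup.mem_center_iff.1 w.2 x)
    rw [commutatorElement_def, commutatorElement_def, cz a, cw b]
    have e1 : (z : Q) * a * (w * b) * (z * a)⁻¹ * (w * b)⁻¹ =
        z * (a * w) * b * a⁻¹ * (z : Q)⁻¹ * b⁻¹ * (w : Q)⁻¹ := by group
    rw [e1, cw a]
    have e2 : (z : Q) * (w * a) * b * a⁻¹ * (z : Q)⁻¹ * b⁻¹ * (w : Q)⁻¹ =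
        z * (w * (a * b * a⁻¹)) * (z : Q)⁻¹ * b⁻¹ * (w : Q)⁻¹ := by group
    rw [e2, ← cz (w * (a * b * a⁻¹))]
    have e3 : (w : Q) * (a * b * a⁻¹) * z * (z : Q)⁻¹ * b⁻¹ * (w : Q)⁻¹ =
        w * (a * b * a⁻¹ * b⁻¹) * (w : Q)⁻¹ := by group
    rw [e3, ← cw (a * b * a⁻¹ * b⁻¹)]
    group
  have : Finite (commutatorSet Q) := hfin.to_subtype
  have h2 : Finite (commutator Q) := inferInstance
  rw [hp] at h2
  exact Finite.of_equiv _ Subgroup.topEquiv.toEquiv

/-- The theorem for a group generated by the system -/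
lemma finite_top {n : ℕ} (hn : 3 ≤ n) {y : Fin n → Fin n → Q} (hy : Sys y)
    (ht : ∀ i j, i ≠ j → IsOfFinOrder (y i j))
    (htop : Gs y (fun i j => i ≠ j) = ⊤) : Finite Q := by
  set f := QuotientGroup.mk' (Subgroup.center Q) with hf
  have hyq : Sys (fun a b => f (y a b)) := by
    refine ⟨?_, ?_⟩
    · intro i j k l h1 h2 h3 h4
      exact (hy.hc i j k l h1 h2 h3 h4).map f
    · intro i j k h1 h2 h3
      have := congrArg f (hy.hs i j k h1 h2 h3)
      simpa only [map_mul, map_inv] using this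
  have htq : ∀ i j, i ≠ j → IsOfFinOrder (f (y i j)) := fun i j hij => f.isOfFinOrder (ht i j hij)
  have h2 := tavgen hyq htq (fun i j hij => h2_quot hn hy ht htop hij) (n - 2) Finset.univ (by
    rw [Finset.card_univ, Fintype.card_fin]; omega)
  have e : Gs (fun a b => f (y a b)) (fun i j => i ∈ (Finset.univ : Finset (Fin n)) ∧
      j ∈ (Finset.univ : Finset (Fin n)) ∧ i ≠ j) = ⊤ := by
    have e1 : Gs (fun a b => f (y a b)) (fun i j => i ∈ (Finset.univ : Finset (Fin n)) ∧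
      j ∈ (Finset.univ : Finset (Fin n)) ∧ i ≠ j) = Gs (fun a b => f (y a b)) (fun i j => i ≠ j) :=
      Gs_congr fun i j => by simp
    rw [e1, Gs_map, htop, ← MonoidHom.range_eq_map]
    exact MonoidHom.range_eq_top.2 (QuotientGroup.mk'_surjective _)
  rw [e, Subgroup.coe_top] at h2
  have hfq : Finite (Q ⧸ Subgroup.center Q) := Set.finite_univ_iff.1 h2
  refine finite_of_quot_center hfq ?_
  rw [eq_top_iff, ← htop]
  refine Gs_le ?_
  intro i j hij
  obtain ⟨k, hki, hkj⟩ := exists_third hn i j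
  have e := hy.hs i k j (Ne.symm hki) hkj hij
  rw [← inv_inv (y i j), ← e]
  refine Subgroup.inv_mem _ ?_
  rw [← commutatorElement_def, commutator_def]
  exact Subgroup.commutator_mem_commutator (Subgroup.mem_top _) (Subgroup.mem_top _)

end Stein

/-- LEMMA C (group theory): a group generated by elements of finite order satisfying the
Steinberg relations (rank `n - 1 ≥ 2`) is finite. -/
theorem steinberg_finite {G : Type*} [Group G] {n : ℕ} (hn : 3 ≤ n) (x : Fin n → Fin n → G)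
    (hc : ∀ i j k l, i ≠ j → k ≠ l → j ≠ k → i ≠ l → Commute (x i j) (x k l))
    (hs : ∀ i j k, i ≠ j → j ≠ k → i ≠ k →
      x i j * x j k * (x i j)⁻¹ * (x j k)⁻¹ = (x i k)⁻¹)
    (ht : ∀ i j, i ≠ j → IsOfFinOrder (x i j)) :
    Finite (Subgroup.closure {g : G | ∃ i j, i ≠ j ∧ g = x i j}) := by
  classical
  set S : Set G := {g : G | ∃ i j, i ≠ j ∧ g = x i j} with hS
  let y : Fin n → Fin n → Subgroup.closure S := fun i j =>
    if h : i ≠ j then ⟨x i j, Subgroup.subset_closure ⟨i, j, h, rfl⟩⟩ else 1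
  have hval : ∀ i j, i ≠ j → ((y i j : Subgroup.closure S) : G) = x i j := by
    intro i j h
    simp only [y, dif_pos h]
  have hy : Stein.Sys y := by
    refine ⟨?_, ?_⟩
    · intro i j k l h1 h2 h3 h4
      refine Subtype.ext ?_
      rw [Subgroup.coe_mul, Subgroup.coe_mul, hval i j h1, hval k l h2]
      exact (hc i j k l h1 h2 h3 h4).eq
    · intro i j k h1 h2 h3
      refine Subtype.ext ?_
      simp only [Subgroup.coe_mul, Subgroup.coe_inv]
      rw [hval i j h1, hval j k h2, hval i k h3]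
      exact hs i j k h1 h2 h3
  have hty : ∀ i j, i ≠ j → IsOfFinOrder (y i j) := by
    intro i j h
    obtain ⟨k, hk, h1⟩ := (isOfFinOrder_iff_pow_eq_one).1 (ht i j h)
    refine (isOfFinOrder_iff_pow_eq_one).2 ⟨k, hk, Subtype.ext ?_⟩
    rw [Subgroup.coe_pow, hval i j h, h1, Subgroup.coe_one]
  have htop : Stein.Gs y (fun i j => i ≠ j) = ⊤ := by
    rw [eq_top_iff]
    rintro ⟨g, hg⟩ -
    have hle : Subgroup.closure S ≤ (Stein.Gs y (fun i j => i ≠ j)).map (Subgroup.closure S).subtype := by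
      rw [Subgroup.closure_le]
      rintro _ ⟨i, j, h, rfl⟩
      exact ⟨y i j, Stein.mem_Gs (P := fun i j => i ≠ j) h, hval i j h⟩
    obtain ⟨g', hg', e⟩ := hle hg
    have : g' = ⟨g, hg⟩ := Subtype.ext e
    rw [← this]
    exact hg'
  exact Stein.finite_top hn hy hty htop

end IAQ
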