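import Mathlib
import Pool.Agent.IAQ.MagNorm
import Pool.Agent.IAQ.Stein
import Pool.Agent.IAQ.Nielsen

/-!
# Finite index from finiteness of the Magnus group modulo a normal subgroup
-/

set_option autoImplicit false

namespace IAQ

open AFn

/-! ### a finite set closed under left multiplication by generators -/

theorem closure_sub_of_finite {T : Type*} [Group T] {S P : Set T} (hP : P.Finite)
    (h1 : (1 : T) ∈ P) (hS : ∀ x ∈ S, ∀ p ∈ P, x * p ∈ P) :
    ∀ g ∈ Subgroup.closure S, g ∈ P := by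
  intro g hg
  refine Subgroup.closure_induction_left (p := fun x _ => x ∈ P) h1
    (fun x hx y _ hy => hS x hx y hy) (fun x hx y _ hy => ?_) hg
  have h2 : (fun p => x * p) '' P ⊆ P := by
    rintro _ ⟨p, hp, rfl⟩
    exact hS x hx p hp
  have h3 : (fun p => x * p) '' P = P := by
    refine Set.eq_of_subset_of_ncard_le h2 ?_ hP
    rw [Set.ncard_image_of_injective _ (mul_right_injective x)]
  rw [← h3] at hy
  obtain ⟨p, hp, hxp⟩ := hy
  have : x⁻¹ * y = p := by
    rw [← hxp]
    simp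
  rw [this]
  exact hp

variable {n : ℕ}

/-- all the transvections by words and the partial conjugations by words -/
def traS (n : ℕ) : Set (MulAut (FreeGroup (Fin n))) :=
  {g | (∃ a w, g = R a w) ∨ (∃ a w, g = C a w)}

theorem tra_R (a : Fin n) (w : FreeGroup (Fin n)) : R a w ∈ Subgroup.closure (traS n) :=
  Subgroup.subset_closure (Or.inl ⟨a, w, rfl⟩)

theorem tra_C (a : Fin n) (w : FreeGroup (Fin n)) : C a w ∈ Subgroup.closure (traS n) :=
  Subgroup.subset_closure (Or.inr ⟨a, w, rfl⟩)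

theorem tra_L (a : Fin n) (w : FreeGroup (Fin n)) : L a w ∈ Subgroup.closure (traS n) := by
  have h : L a w = C a w * (R a w)⁻¹ := by rw [C_eq, mul_inv_cancel_right]
  rw [h]
  exact Subgroup.mul_mem _ (tra_C a w) (Subgroup.inv_mem _ (tra_R a w))

/-! ### conjugation by letter permutations and sign changes -/

theorem perm_kill {g : MulAut (FreeGroup (Fin n))} {σ : Equiv.Perm (Fin n)}
    (hg : ∀ c, g (FreeGroup.of c) = FreeGroup.of (σ c)) (a : Fin n) (w : FreeGroup (Fin n)) :
    kill (σ a) (g w) = g (kill a w) := by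
  have h : (kill (σ a)).comp g.toMonoidHom = g.toMonoidHom.comp (kill a) := by
    ext x
    simp only [MonoidHom.comp_apply, MulEquiv.coe_toMonoidHom, hg, kill_of]
    by_cases hx : x = a
    · rw [if_pos hx, if_pos (by rw [hx]), map_one]
    · rw [if_neg hx, if_neg (fun h => hx (σ.injective h)), hg]
  exact DFunLike.congr_fun h w

theorem perm_conj {g : MulAut (FreeGroup (Fin n))} {σ : Equiv.Perm (Fin n)}
    (hg : ∀ c, g (FreeGroup.of c) = FreeGroup.of (σ c)) :
    ∀ e ∈ traS n, g * e * g⁻¹ ∈ Subgroup.closure (traS n) := by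
  rintro e (⟨a, w, rfl⟩ | ⟨a, w, rfl⟩)
  · have h : g * R a w * g⁻¹ = R (σ a) (g w) := by
      rw [mul_inv_eq_iff_eq_mul]
      apply aut_ext
      intro x
      rw [MulAut.mul_apply, MulAut.mul_apply, hg]
      by_cases hx : x = a
      · subst hx
        rw [R_of_self, R_of_self, map_mul, hg, perm_kill hg]
      · rw [R_of_ne hx, R_of_ne (fun h => hx (σ.injective h)), hg]
    rw [h]
    exact tra_R _ _
  · have h : g * C a w * g⁻¹ = C (σ a) (g w) := by
      rw [mul_inv_eq_iff_eq_mul]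
      apply aut_ext
      intro x
      rw [MulAut.mul_apply, MulAut.mul_apply, hg]
      by_cases hx : x = a
      · subst hx
        rw [C_of_self, C_of_self, map_mul, map_mul, map_inv, hg, perm_kill hg]
      · rw [C_of_ne hx, C_of_ne (fun h => hx (σ.injective h)), hg]
    rw [h]
    exact tra_C _ _

theorem sign_kill {g : MulAut (FreeGroup (Fin n))} {d : Fin n}
    (hg : ∀ c, c ≠ d → g (FreeGroup.of c) = FreeGroup.of c) (w : FreeGroup (Fin n)) :
    g (kill d w) = kill d w := by
  have h : g.toMonoidHom.comp (kill d) = kill d := by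
    ext x
    simp only [MonoidHom.comp_apply, MulEquiv.coe_toMonoidHom, kill_of]
    by_cases hx : x = d
    · rw [if_pos hx, map_one]
    · rw [if_neg hx, hg x hx]
  exact DFunLike.congr_fun h w

theorem sign_conj {g : MulAut (FreeGroup (Fin n))} {d : Fin n}
    (hd : g (FreeGroup.of d) = (FreeGroup.of d)⁻¹)
    (hg : ∀ c, c ≠ d → g (FreeGroup.of c) = FreeGroup.of c) :
    ∀ e ∈ traS n, g * e * g⁻¹ ∈ Subgroup.closure (traS n) := by
  have hpres : ∀ a, a ≠ d → Pres a g := by
    intro a ha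
    refine pres_of (hg a ha) fun x hx => ?_
    by_cases hxd : x = d
    · rw [hxd, hd, map_inv, kill_of_ne (Ne.symm ha)]
    · rw [hg x hxd, kill_of_ne hx]
  rintro e (⟨a, w, rfl⟩ | ⟨a, w, rfl⟩)
  · by_cases ha : a = d
    · subst ha
      have h : g * R a w * g⁻¹ = L a w := by
        rw [mul_inv_eq_iff_eq_mul]
        apply aut_ext
        intro x
        rw [MulAut.mul_apply, MulAut.mul_apply]
        by_cases hx : x = a
        · subst hx
          rw [R_of_self, map_mul, hd, sign_kill hg, map_inv, L_of_self, mul_inv_rev, inv_inv]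
        · rw [R_of_ne hx, hg x hx, L_of_ne hx]
      rw [h]
      exact tra_L _ _
    · rw [(hpres a ha).conj_R]
      exact tra_R _ _
  · by_cases ha : a = d
    · subst ha
      have h : g * C a w * g⁻¹ = C a w := by
        rw [mul_inv_eq_iff_eq_mul]
        apply aut_ext
        intro x
        rw [MulAut.mul_apply, MulAut.mul_apply]
        by_cases hx : x = a
        · subst hx
          rw [C_of_self, map_mul, map_mul, map_inv, hd, sign_kill hg, map_inv, C_of_self]
          group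
        · rw [C_of_ne hx, hg x hx, C_of_ne hx]
      rw [h]
      exact tra_C _ _
    · rw [(hpres a ha).conj_C]
      exact tra_C _ _

theorem conj_closure {g : MulAut (FreeGroup (Fin n))}
    (h : ∀ e ∈ traS n, g * e * g⁻¹ ∈ Subgroup.closure (traS n)) :
    ∀ e ∈ Subgroup.closure (traS n), g * e * g⁻¹ ∈ Subgroup.closure (traS n) := by
  have h1 : Subgroup.closure (traS n) ≤
      (Subgroup.closure (traS n)).comap (MulAut.conj g).toMonoidHom := by
    rw [Subgroup.closure_le]
    intro e he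
    exact h e he
  intro e he
  exact h1 he

/-! ### signed letter maps -/

/-- automorphisms that map letters to letters or inverses of letters -/
def sgnS (n : ℕ) : Set (MulAut (FreeGroup (Fin n))) :=
  {g | ∀ c, ∃ d, g (FreeGroup.of c) = FreeGroup.of d ∨ g (FreeGroup.of c) = (FreeGroup.of d)⁻¹}

theorem sgn_finite (n : ℕ) : (sgnS n).Finite := by
  obtain ⟨V, hVd⟩ : ∃ V : Set (FreeGroup (Fin n)),
    V = Set.range (fun d : Fin n => FreeGroup.of d) ∪
          Set.range (fun d : Fin n => (FreeGroup.of d)⁻¹) := ⟨_, rfl⟩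
  have hV : V.Finite := by
    rw [hVd]
    exact (Set.finite_range _).union (Set.finite_range _)
  have h1 : {f : Fin n → FreeGroup (Fin n) | ∀ i, f i ∈ V}.Finite := Set.Finite.pi' fun _ => hV
  refine Set.Finite.of_finite_image (f := fun g c => g (FreeGroup.of c)) (h1.subset ?_) ?_
  · rintro _ ⟨g, hg, rfl⟩ c
    rw [hVd]
    obtain ⟨d, h | h⟩ := hg c
    · exact Or.inl ⟨d, h.symm⟩
    · exact Or.inr ⟨d, h.symm⟩
  · intro g _ g' _ h
    exact aut_ext fun x => congrFun h x

theorem sgn_one : (1 : MulAut (FreeGroup (Fin n))) ∈ sgnS n := fun c => ⟨c, Or.inl rfl⟩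

theorem sgn_mul {g h : MulAut (FreeGroup (Fin n))} (hg : g ∈ sgnS n) (hh : h ∈ sgnS n) :
    g * h ∈ sgnS n := by
  intro c
  obtain ⟨d, hd | hd⟩ := hh c
  · obtain ⟨e, he⟩ := hg d
    refine ⟨e, ?_⟩
    rw [MulAut.mul_apply, hd]
    exact he
  · obtain ⟨e, he | he⟩ := hg d
    · exact ⟨e, Or.inr (by rw [MulAut.mul_apply, hd, map_inv, he])⟩
    · exact ⟨e, Or.inl (by rw [MulAut.mul_apply, hd, map_inv, he, inv_inv])⟩

/-! ### the finite group generated by the transvections modulo `κ` -/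

theorem fin_comap {G H : Type*} [Group G] [Group H] (f : G →* H) {S : Set H} (hS : S.Finite)
    (hk : (f.ker : Set G).Finite) : (f ⁻¹' S).Finite := by
  refine hS.preimage' fun b _ => ?_
  by_cases hb : ∃ g, f g = b
  · obtain ⟨g, rfl⟩ := hb
    refine (hk.image (fun k => g * k)).subset ?_
    intro x hx
    refine ⟨g⁻¹ * x, ?_, by simp⟩
    rw [SetLike.mem_coe, MonoidHom.mem_ker, map_mul, map_inv, hx]
    simp
  · have : f ⁻¹' {b} = ∅ := by
      ext x
      simp only [Set.mem_preimage, Set.mem_singleton_iff, Set.mem_empty_iff_false, iff_false]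
      exact fun h => hb ⟨x, h⟩
    rw [this]
    exact Set.finite_empty

theorem tra_finite (hn : 3 ≤ n) (κ : Subgroup (MulAut (FreeGroup (Fin n)))) [κ.Normal]
    (hnorm : ∀ d e : Fin n, d ≠ e → ∀ g ∈ Subgroup.closure (magS n),
      R d (FreeGroup.of e) * g * (R d (FreeGroup.of e))⁻¹ ∈ Subgroup.closure (magS n))
    (hQ : Finite ((Subgroup.closure (magS n)).map (QuotientGroup.mk' κ)))
    {N : ℕ} (hN : 0 < N) (h6 : ∀ a b, R a (FreeGroup.of b) ^ N ∈ κ) :
    (((Subgroup.closure (traS n)).map (QuotientGroup.mk' κ) :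
      Subgroup (MulAut (FreeGroup (Fin n)) ⧸ κ)) : Set (MulAut (FreeGroup (Fin n)) ⧸ κ)).Finite := by
  obtain ⟨π, hπ⟩ : ∃ π, π = QuotientGroup.mk' κ := ⟨_, rfl⟩
  rw [← hπ] at hQ ⊢
  obtain ⟨Q, hQd⟩ : ∃ Q, Q = (Subgroup.closure (magS n)).map π := ⟨_, rfl⟩
  rw [← hQd] at hQ
  have hQfin : (Q : Set (MulAut (FreeGroup (Fin n)) ⧸ κ)).Finite := Set.toFinite _
  have hMQ : ∀ g ∈ Subgroup.closure (magS n), π g ∈ Q := fun g hg => by
    rw [hQd]
    exact Subgroup.mem_map_of_mem _ hg
  -- the transvections normalise `Q`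
  have hnz : ∀ d e : Fin n, d ≠ e → π (R d (FreeGroup.of e)) ∈ Subgroup.normalizer (Q : Set _) := by
    intro d e hde
    have h1 : ∀ h ∈ Q, π (R d (FreeGroup.of e)) * h * (π (R d (FreeGroup.of e)))⁻¹ ∈ Q := by
      intro h hh
      rw [hQd] at hh ⊢
      obtain ⟨g, hg, rfl⟩ := hh
      rw [← map_inv, ← map_mul, ← map_mul]
      exact Subgroup.mem_map_of_mem _ (hnorm d e hde g hg)
    rw [Subgroup.mem_normalizer_iff]
    intro h
    refine ⟨h1 h, fun hh => ?_⟩
    have h2 : (fun h => π (R d (FreeGroup.of e)) * h * (π (R d (FreeGroup.of e)))⁻¹) ''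
        (Q : Set (MulAut (FreeGroup (Fin n)) ⧸ κ)) = Q := by
      refine Set.eq_of_subset_of_ncard_le ?_ ?_ hQfin
      · rintro _ ⟨x, hx, rfl⟩
        exact h1 x hx
      · rw [Set.ncard_image_of_injective]
        intro x y hxy
        simpa using hxy
    have h3 : π (R d (FreeGroup.of e)) * h * (π (R d (FreeGroup.of e)))⁻¹ ∈
        (Q : Set (MulAut (FreeGroup (Fin n)) ⧸ κ)) := hh
    rw [← h2] at h3
    obtain ⟨x, hx, hxh⟩ := h3
    have h4 : x = h := by simpa using hxh
    rw [← h4]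
    exact hx
  obtain ⟨Nz, hNz⟩ : ∃ Nz, Nz = Subgroup.normalizer (Q : Set (MulAut (FreeGroup (Fin n)) ⧸ κ)) :=
    ⟨_, rfl⟩
  have hQN : Q ≤ Nz := by rw [hNz]; exact Subgroup.le_normalizer
  have hnorm' : (Q.subgroupOf Nz).Normal := by
    rw [hNz]
    exact Subgroup.normal_in_normalizer
  rw [← hNz] at hnz
  -- the quotient by `Q`
  obtain ⟨f, hf⟩ : ∃ f, f = QuotientGroup.mk' (Q.subgroupOf Nz) := ⟨_, rfl⟩
  have hf1 : ∀ x : Nz, (x : MulAut (FreeGroup (Fin n)) ⧸ κ) ∈ Q → f x = 1 := by
    intro x hx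
    rw [hf, QuotientGroup.mk'_apply, QuotientGroup.eq_one_iff, Subgroup.mem_subgroupOf]
    exact hx
  let r : Fin n → Fin n → Nz := fun i j =>
    if h : i ≠ j then ⟨π (R i (FreeGroup.of j)), hnz i j h⟩ else 1
  have hr : ∀ i j, i ≠ j → ((r i j : Nz) : MulAut (FreeGroup (Fin n)) ⧸ κ) =
      π (R i (FreeGroup.of j)) := by
    intro i j h
    simp only [r, dif_pos h]
  -- equality in the quotient
  have hfeq : ∀ x y : Nz, ∀ g ∈ Subgroup.closure (magS n),
      (x : MulAut (FreeGroup (Fin n)) ⧸ κ) = π g * y → f x = f y := by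
    intro x y g hg h
    have h1 : f (x * y⁻¹) = 1 := by
      apply hf1
      rw [Subgroup.coe_mul, Subgroup.coe_inv, h, mul_inv_cancel_right]
      exact hMQ g hg
    rw [map_mul, map_inv, mul_inv_eq_one] at h1
    exact h1
  have hS := steinberg_finite hn (fun i j => f (r i j)) ?_ ?_ ?_
  · -- the preimage is finite
    have hker : ((f.ker : Subgroup Nz) : Set Nz).Finite := by
      rw [hf, QuotientGroup.ker_mk']
      refine Set.Finite.of_finite_image (f := Subtype.val) (hQfin.subset ?_)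
        Subtype.val_injective.injOn
      rintro _ ⟨x, hx, rfl⟩
      exact hx
    have h1 := fin_comap f (Set.toFinite
      ((Subgroup.closure {g | ∃ i j, i ≠ j ∧ g = f (r i j)} : Subgroup _) : Set _)) hker
    have h2 := h1.image (Subtype.val : Nz → MulAut (FreeGroup (Fin n)) ⧸ κ)
    refine h2.subset ?_
    -- the image of `E` is contained in the subgroup `T1`
    obtain ⟨T1, hT1⟩ : ∃ T1, T1 = ((Subgroup.closure {g | ∃ i j, i ≠ j ∧ g = f (r i j)}).comap
      f).map Nz.subtype := ⟨_, rfl⟩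
    have hT1' : (T1 : Set (MulAut (FreeGroup (Fin n)) ⧸ κ)) = Subtype.val ''
        (f ⁻¹' ((Subgroup.closure {g | ∃ i j, i ≠ j ∧ g = f (r i j)} : Subgroup _) : Set _)) := by
      rw [hT1]
      rfl
    rw [← hT1']
    have hle : (Subgroup.closure (traS n)).map π ≤ T1 := by
      rw [Subgroup.map_le_iff_le_comap, Subgroup.closure_le]
      have hC : ∀ a w, π (C a w) ∈ T1 := by
        intro a w
        have h3 : π (C a w) ∈ Q := hMQ _ (mag_C a w)
        rw [hT1]
        refine ⟨⟨π (C a w), hQN h3⟩, ?_, rfl⟩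
        rw [SetLike.mem_coe, Subgroup.mem_comap, hf1 _ h3]
        exact Subgroup.one_mem _
      have hRl : ∀ a b, π (R a (FreeGroup.of b)) ∈ T1 := by
        intro a b
        by_cases hab : a = b
        · subst hab
          rw [← R_killed, kill_of_self, map_one, map_one]
          exact Subgroup.one_mem _
        · rw [hT1]
          refine ⟨r a b, ?_, hr a b hab⟩
          rw [SetLike.mem_coe, Subgroup.mem_comap]
          exact Subgroup.subset_closure ⟨a, b, hab, rfl⟩
      rintro _ (⟨a, w, rfl⟩ | ⟨a, w, rfl⟩)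
      · have h3 : (⊤ : Subgroup (FreeGroup (Fin n))) ≤ T1.comap (π.comp (R a)) := by
          rw [← FreeGroup.closure_range_of, Subgroup.closure_le]
          rintro _ ⟨b, rfl⟩
          exact hRl a b
        exact h3 (Subgroup.mem_top w)
      · exact hC a w
    exact hle
  · -- commutation
    intro i j k l hij hkl hjk hil
    by_cases hik : i = k
    · subst hik
      have h1 : f (r i j * r i l) = f (r i l * r i j) := by
        refine hfeq _ _ (R i (FreeGroup.of j * FreeGroup.of l * (FreeGroup.of j)⁻¹ *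
          (FreeGroup.of l)⁻¹)) (mag_R _ (mem_g2 _ _)) ?_
        rw [Subgroup.coe_mul, Subgroup.coe_mul, hr i j hij, hr i l hil, ← map_mul, ← map_mul,
          ← map_mul, ← map_mul, ← map_mul, ← map_mul]
        congr 2
        group
      rw [map_mul, map_mul] at h1
      exact h1
    · have h1 : r i j * r k l = r k l * r i j := by
        apply Subtype.ext
        rw [Subgroup.coe_mul, Subgroup.coe_mul, hr i j hij, hr k l hkl, ← map_mul, ← map_mul]
        congr 1
        refine R_comm_R (Ne.symm hik) (kill_of_ne hjk) ?_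
        rw [kill_of_ne (Ne.symm hkl), kill_of_ne (Ne.symm hil)]
      have h2 := congrArg f h1
      rw [map_mul, map_mul] at h2
      exact h2
  · -- the Steinberg relation
    intro i j k hij hjk hik
    have h1 : f (r i j * r j k * (r i j)⁻¹ * (r j k)⁻¹) = f ((r i k)⁻¹) := by
      refine hfeq _ _ (R i (FreeGroup.of j * (FreeGroup.of k)⁻¹ * (FreeGroup.of j)⁻¹ *
          FreeGroup.of k)) (mag_R _ ?_) ?_
      · have := mem_g2 (FreeGroup.of j) (FreeGroup.of k)⁻¹
        rwa [inv_inv] at this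
      · have e1 : kill i (FreeGroup.of k) = FreeGroup.of k := kill_of_ne (Ne.symm hik)
        have e2 : kill j (FreeGroup.of k) = FreeGroup.of k := kill_of_ne (Ne.symm hjk)
        have e3 := conj_I2 (Ne.symm hij) e1 e2
        have e4 := (pres_R hij e1).conj_R
          (FreeGroup.of j * (FreeGroup.of k)⁻¹ * (FreeGroup.of j)⁻¹)
        have e5 : R j (FreeGroup.of k) (kill i (FreeGroup.of j * (FreeGroup.of k)⁻¹ *
            (FreeGroup.of j)⁻¹)) = FreeGroup.of j * (FreeGroup.of k)⁻¹ * (FreeGroup.of j)⁻¹ := by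
          simp only [map_mul, map_inv, e1, kill_of_ne (Ne.symm hij), R_of_self, e2,
            R_of_ne (Ne.symm hjk)]
          group
        rw [e5] at e4
        rw [Subgroup.coe_mul, Subgroup.coe_mul, Subgroup.coe_mul, Subgroup.coe_inv,
          Subgroup.coe_inv, Subgroup.coe_inv, hr i j hij, hr j k hjk, hr i k hik, ← map_inv π,
          ← map_inv π, ← map_inv π, ← map_mul, ← map_mul, ← map_mul, ← map_mul]
        congr 1
        rw [e3, e4, ← map_inv, ← map_mul]
        congr 1
        group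
    rw [map_mul, map_mul, map_mul, map_inv, map_inv, map_inv] at h1
    exact h1
  · -- finite order
    intro i j hij
    rw [isOfFinOrder_iff_pow_eq_one]
    refine ⟨N, hN, ?_⟩
    have h1 : (r i j) ^ N = 1 := by
      apply Subtype.ext
      rw [Subgroup.coe_pow, hr i j hij, ← map_pow, hπ, QuotientGroup.mk'_apply,
        (QuotientGroup.eq_one_iff _).2 (h6 i j)]
      rfl
    rw [← map_pow, h1, map_one]

/-- MODULE ASM: if the Magnus generators generate a finite group modulo `κ` and the transvections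
have finite order modulo `κ` then `κ` has finite index. -/
theorem kap_finite {n : ℕ} (hn : 3 ≤ n) (κ : Subgroup (MulAut (FreeGroup (Fin n)))) [κ.Normal]
    (hnorm : ∀ d e : Fin n, d ≠ e → ∀ g ∈ Subgroup.closure (magS n),
      R d (FreeGroup.of e) * g * (R d (FreeGroup.of e))⁻¹ ∈ Subgroup.closure (magS n))
    (hQ : Finite ((Subgroup.closure (magS n)).map (QuotientGroup.mk' κ)))
    {N : ℕ} (hN : 0 < N) (h6 : ∀ a b, R a (FreeGroup.of b) ^ N ∈ κ) :
    κ.FiniteIndex := by
  have hT0 := tra_finite (by omega) κ hnorm hQ hN h6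
  obtain ⟨π, hπ⟩ : ∃ π, π = QuotientGroup.mk' κ := ⟨_, rfl⟩
  rw [← hπ] at hT0
  obtain ⟨T0, hT0d⟩ : ∃ T0, T0 = (Subgroup.closure (traS n)).map π := ⟨_, rfl⟩
  rw [← hT0d] at hT0
  obtain ⟨P, hP⟩ : ∃ P : Set (MulAut (FreeGroup (Fin n)) ⧸ κ),
    P = Set.image2 (fun u w => u * w) (T0 : Set (MulAut (FreeGroup (Fin n)) ⧸ κ))
      (π '' sgnS n) := ⟨_, rfl⟩
  have hPfin : P.Finite := by
    rw [hP]
    exact hT0.image2 _ ((sgn_finite n).image _)
  have h1 : (1 : MulAut (FreeGroup (Fin n)) ⧸ κ) ∈ P := by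
    rw [hP]
    exact ⟨1, T0.one_mem, 1, ⟨1, sgn_one, map_one π⟩, mul_one 1⟩
  have hgen : ∀ g ∈ sgnS n, (∀ e ∈ traS n, g * e * g⁻¹ ∈ Subgroup.closure (traS n)) →
      ∀ p ∈ P, π g * p ∈ P := by
    intro g hg hc p hp
    rw [hP] at hp ⊢
    obtain ⟨u, hu, w, ⟨v, hv, rfl⟩, rfl⟩ := hp
    rw [hT0d] at hu
    obtain ⟨e, he, rfl⟩ := hu
    refine ⟨π (g * e * g⁻¹), ?_, π (g * v), ⟨g * v, sgn_mul hg hv, rfl⟩, ?_⟩
    · rw [hT0d]
      exact Subgroup.mem_map_of_mem _ (conj_closure hc e he)
    · simp only [map_mul, map_inv]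
      group
  have hall := closure_sub_of_finite (S := π '' {g : MulAut (FreeGroup (Fin n)) |
      (∃ a b, a ≠ b ∧ g (FreeGroup.of a) = FreeGroup.of a * FreeGroup.of b ∧
        ∀ c, c ≠ a → g (FreeGroup.of c) = FreeGroup.of c) ∨
      (∃ a, g (FreeGroup.of a) = (FreeGroup.of a)⁻¹ ∧
        ∀ c, c ≠ a → g (FreeGroup.of c) = FreeGroup.of c) ∨
      (∃ σ : Equiv.Perm (Fin n), ∀ c, g (FreeGroup.of c) = FreeGroup.of (σ c))})
    hPfin h1 ?_
  · have huniv : (Set.univ : Set (MulAut (FreeGroup (Fin n)) ⧸ κ)).Finite := by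
      refine hPfin.subset ?_
      intro t _
      obtain ⟨g, rfl⟩ := QuotientGroup.mk'_surjective κ t
      rw [← hπ]
      refine hall _ ?_
      rw [← MonoidHom.map_closure]
      exact Subgroup.mem_map_of_mem _ (nielsen_gen n g)
    have : Finite (MulAut (FreeGroup (Fin n)) ⧸ κ) := Set.finite_univ_iff.1 huniv
    exact Subgroup.finiteIndex_of_finite_quotient
  · rintro _ ⟨g, hg, rfl⟩ p hp
    rcases hg with ⟨a, b, hab, ha, hc⟩ | ⟨a, ha, hc⟩ | ⟨σ, hσ⟩
    · have hgR : g = R a (FreeGroup.of b) := by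
        apply aut_ext
        intro x
        by_cases hx : x = a
        · rw [hx, ha, R_of_self, kill_of_ne (Ne.symm hab)]
        · rw [hc x hx, R_of_ne hx]
      rw [hP] at hp ⊢
      obtain ⟨u, hu, w, hw, rfl⟩ := hp
      refine ⟨π g * u, T0.mul_mem ?_ hu, w, hw, (mul_assoc _ _ _)⟩
      rw [hT0d, hgR]
      exact Subgroup.mem_map_of_mem _ (tra_R _ _)
    · refine hgen g ?_ (sign_conj ha hc) p hp
      intro c
      by_cases hca : c = a
      · exact ⟨a, Or.inr (by rw [hca, ha])⟩
      · exact ⟨c, Or.inl (hc c hca)⟩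
    · exact hgen g (fun c => ⟨σ c, Or.inl (hσ c)⟩) (perm_conj hσ) p hp

end IAQ
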