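import Mathlib

/-!
Module E of the IA_n project (helper84's plan): a group generated by three elements of finite
order satisfying the Engel type relations below is finite.
-/

set_option autoImplicit false

namespace IAQ

open Subgroup
open scoped commutatorElement

section star

variable {G : Type*} [Group G]

/-- generated by finitely many elements of finite order -/
def TG (G : Type*) [Group G] : Prop :=
  ∃ S : Set G, S.Finite ∧ closure S = ⊤ ∧ ∀ s ∈ S, IsOfFinOrder s

theorem TG.map {G H : Type*} [Group G] [Group H] (h : TG G) (f : G →* H)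
    (hf : Function.Surjective f) : TG H := by
  obtain ⟨S, hS, hgen, htor⟩ := h
  refine ⟨f '' S, hS.image f, ?_, ?_⟩
  · rw [← MonoidHom.map_closure, hgen, ← MonoidHom.range_eq_map, MonoidHom.range_eq_top.2 hf]
  · rintro _ ⟨s, hs, rfl⟩
    exact MonoidHom.isOfFinOrder f (htor s hs)

theorem TG.fg {G : Type*} [Group G] (h : TG G) : Group.FG G := by
  obtain ⟨S, hS, hgen, -⟩ := h
  exact Group.fg_iff.2 ⟨S, hgen, hS⟩

theorem TG.finite_comm {G : Type*} [CommGroup G] (h : TG G) : Finite G := by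
  have hfg : Group.FG G := TG.fg h
  obtain ⟨S, hS, hgen, htor⟩ := h
  refine @CommGroup.finite_of_fg_isMulTorsion G _ hfg ?_
  intro g
  have hg : g ∈ closure S := by rw [hgen]; exact mem_top g
  refine closure_induction (fun s hs => htor s hs) IsOfFinOrder.one
    (fun a b _ _ ha hb => ha.mul hb) (fun a _ ha => ha.inv) hg

theorem TG.finite_of_center {G : Type*} [Group G] (h : TG G) [Finite (G ⧸ center G)] :
    Finite G := by
  have h1 : Finite (commutatorSet G) := by
    let F : (G ⧸ center G) × (G ⧸ center G) → G := fun p => ⁅p.1.out, p.2.out⁆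
    refine ((Set.finite_range F).subset ?_).to_subtype
    rintro g ⟨a, b, rfl⟩
    refine ⟨((a : G ⧸ center G), (b : G ⧸ center G)), ?_⟩
    obtain ⟨c, hc⟩ := QuotientGroup.mk_out_eq_mul (center G) a
    obtain ⟨d, hd⟩ := QuotientGroup.mk_out_eq_mul (center G) b
    have hc' := mem_center_iff.1 c.2
    have hd' := mem_center_iff.1 d.2
    simp only [F]
    rw [hc, hd]
    simp only [commutatorElement_def]
    have e1 : (a * (c : G)) * (b * (d : G)) = a * b * ((c : G) * d) := by
      rw [mul_assoc, ← mul_assoc (c : G) b, ← hc' b]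
      simp only [mul_assoc]
    have e2 : (a * (c : G))⁻¹ * (b * (d : G))⁻¹ = ((c : G) * d)⁻¹ * (a⁻¹ * b⁻¹) := by
      have := hc' a
      have := hd' b
      rw [hc' a, hd' b, mul_inv_rev, mul_inv_rev, mul_inv_rev]
      have e3 : Commute (d : G)⁻¹ a⁻¹ := by
        have : Commute (d : G) a := (hd' a).symm
        exact this.inv_inv
      have e4 : Commute (d : G) (c : G) := (hd' c).symm
      calc a⁻¹ * (c : G)⁻¹ * (b⁻¹ * (d : G)⁻¹) = a⁻¹ * (c : G)⁻¹ * ((d : G)⁻¹ * b⁻¹) := by
            have : Commute (b⁻¹ : G) (d : G)⁻¹ := by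
              have : Commute b (d : G) := hd' b
              exact this.inv_inv
            rw [this.eq]
        _ = (a⁻¹ * ((c : G)⁻¹ * (d : G)⁻¹)) * b⁻¹ := by simp only [mul_assoc]
        _ = (((c : G)⁻¹ * (d : G)⁻¹) * a⁻¹) * b⁻¹ := by
            have e5 : Commute a⁻¹ ((c : G)⁻¹ * (d : G)⁻¹) := by
              have e6 : Commute a (c : G) := hc' a
              exact e6.inv_inv.mul_right e3.symm
            rw [e5.eq]
        _ = (d : G)⁻¹ * (c : G)⁻¹ * (a⁻¹ * b⁻¹) := by
            rw [(e4.inv_inv).eq]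
            simp only [mul_assoc]
    calc (a * (c : G)) * (b * (d : G)) * (a * (c : G))⁻¹ * (b * (d : G))⁻¹
        = ((a * (c : G)) * (b * (d : G))) * ((a * (c : G))⁻¹ * (b * (d : G))⁻¹) := by
          simp only [mul_assoc]
      _ = a * b * a⁻¹ * b⁻¹ := by rw [e1, e2]; group
  have h2 : Finite (_root_.commutator G) := inferInstance
  have h3 : Finite (Abelianization G) :=
    (h.map Abelianization.of (QuotientGroup.mk_surjective)).finite_comm
  have h4 : Finite (G ⧸ _root_.commutator G) := h3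
  exact Finite.of_subgroup_quotient (_root_.commutator G)

theorem finite_of_central_comm {G : Type*} [Group G] (x y z : G)
    (hgen : closure ({x, y, z} : Set G) = ⊤) (hT : TG G)
    (hA : x * y * x⁻¹ * y⁻¹ ∈ center G) (hB : x * z * x⁻¹ * z⁻¹ ∈ center G)
    (hC : y * z * y⁻¹ * z⁻¹ ∈ center G) : Finite G := by
  let f : G →* G ⧸ center G := QuotientGroup.mk' (center G)
  have hf : Function.Surjective f := QuotientGroup.mk'_surjective _
  have key : ∀ a b : G, a * b * a⁻¹ * b⁻¹ ∈ center G → Commute (f a) (f b) := by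
    intro a b hab
    have : f (a * b * a⁻¹ * b⁻¹) = 1 := (QuotientGroup.eq_one_iff _).2 hab
    simp only [map_mul, map_inv] at this
    have h2 : f a * f b = f b * f a := by
      have := mul_inv_eq_one.1 this
      have := mul_inv_eq_iff_eq_mul.1 this
      exact this
    exact h2
  have hTR : TG (G ⧸ center G) := hT.map f hf
  have hgenR : closure (f '' ({x, y, z} : Set G)) = ⊤ := by
    rw [← MonoidHom.map_closure, hgen, ← MonoidHom.range_eq_map, MonoidHom.range_eq_top.2 hf]
  have hcen : center (G ⧸ center G) = ⊤ := by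
    rw [eq_top_iff, ← hgenR, closure_le]
    rintro _ ⟨w, hw, rfl⟩
    have hcomm : ∀ u ∈ closure (f '' ({x, y, z} : Set G)), Commute u (f w) := by
      intro u hu
      refine closure_induction ?_ (Commute.one_left _) (fun a b _ _ ha hb => ha.mul_left hb)
        (fun a _ ha => ha.inv_left) hu
      rintro _ ⟨v, hv, rfl⟩
      simp only [Set.mem_insert_iff, Set.mem_singleton_iff] at hv hw
      rcases hv with rfl | rfl | rfl <;> rcases hw with rfl | rfl | rfl
      · exact Commute.refl _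
      · exact key _ _ hA
      · exact key _ _ hB
      · exact (key _ _ hA).symm
      · exact Commute.refl _
      · exact key _ _ hC
      · exact (key _ _ hB).symm
      · exact (key _ _ hC).symm
      · exact Commute.refl _
    exact mem_center_iff.2 fun g => (hcomm g (by rw [hgenR]; exact mem_top g))
  have : Subsingleton ((G ⧸ center G) ⧸ center (G ⧸ center G)) := by
    rw [hcen]
    exact QuotientGroup.subsingleton_quotient_top
  have hR : Finite (G ⧸ center G) := hTR.finite_of_center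
  exact hT.finite_of_center

end star

section words

variable {G : Type*} [Group G]

theorem c1 (a b : G) (ha : Commute (a * b * a⁻¹ * b⁻¹) a) (hb : Commute (a * b * a⁻¹ * b⁻¹) b) :
    b⁻¹ * a * b = a * (a * b * a⁻¹ * b⁻¹) := by
  have e1 : a⁻¹ * (b⁻¹ * (a * b * a⁻¹ * b⁻¹) * b) * a = a * b * a⁻¹ * b⁻¹ := by
    have h1 : b⁻¹ * (a * b * a⁻¹ * b⁻¹) * b = a * b * a⁻¹ * b⁻¹ := by
      rw [mul_assoc, hb.eq, inv_mul_cancel_left]
    rw [h1, mul_assoc, ha.eq, inv_mul_cancel_left]
  have e2 : a * (a⁻¹ * (b⁻¹ * (a * b * a⁻¹ * b⁻¹) * b) * a) = b⁻¹ * a * b := by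
    group
  rw [← e2, e1]

theorem c2 (a b : G) (ha : Commute (a * b * a⁻¹ * b⁻¹) a) (hb : Commute (a * b * a⁻¹ * b⁻¹) b) :
    a⁻¹ * b * a = b * (a * b * a⁻¹ * b⁻¹)⁻¹ := by
  have h := c1 a b ha hb
  have e : a⁻¹ * b * a = b * ((b⁻¹ * a * b)⁻¹ * a) := by group
  rw [e, h, mul_inv_rev, mul_assoc, inv_mul_cancel, mul_one]

end words

theorem engel_core {G : Type*} [Group G] (x y z : G)
    (hgen : closure ({x, y, z} : Set G) = ⊤) (hT : TG G)
    (h1 : Commute (x * y * x⁻¹ * y⁻¹) x) (h1' : Commute (x * y * x⁻¹ * y⁻¹) y)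
    (h2 : Commute (x * z * x⁻¹ * z⁻¹) x) (h2' : Commute (x * z * x⁻¹ * z⁻¹) z)
    (h3 : Commute (y * z * y⁻¹ * z⁻¹) y) (h3' : Commute (y * z * y⁻¹ * z⁻¹) z)
    (h4 : Commute (x * (y * z) * x⁻¹ * (y * z)⁻¹) x)
    (h4' : Commute (x * (y * z) * x⁻¹ * (y * z)⁻¹) (y * z))
    (h5 : Commute (y * (x * z) * y⁻¹ * (x * z)⁻¹) y)
    (h5' : Commute (y * (x * z) * y⁻¹ * (x * z)⁻¹) (x * z))
    (h6 : Commute (z * (x * y) * z⁻¹ * (x * y)⁻¹) z) : Finite G := by
  have hcen : ∀ g : G, Commute g x → Commute g y → Commute g z → g ∈ center G := by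
    intro g hx hy hz
    refine mem_center_iff.2 fun u => ?_
    have hu : u ∈ closure ({x, y, z} : Set G) := by rw [hgen]; exact mem_top u
    have : Commute u g := by
      refine closure_induction ?_ (Commute.one_left _) (fun a b _ _ ha hb => ha.mul_left hb)
        (fun a _ ha => ha.inv_left) hu
      intro v hv
      simp only [Set.mem_insert_iff, Set.mem_singleton_iff] at hv
      rcases hv with rfl | rfl | rfl
      · exact hx.symm
      · exact hy.symm
      · exact hz.symm
    exact this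
  obtain ⟨A, hAdef⟩ : ∃ A, A = x * y * x⁻¹ * y⁻¹ := ⟨_, rfl⟩
  obtain ⟨B, hBdef⟩ : ∃ B, B = x * z * x⁻¹ * z⁻¹ := ⟨_, rfl⟩
  obtain ⟨C, hCdef⟩ : ∃ C, C = y * z * y⁻¹ * z⁻¹ := ⟨_, rfl⟩
  have a1 := c1 x y h1 h1'
  have a2 := c2 x y h1 h1'
  have b1 := c1 x z h2 h2'
  have b2 := c2 x z h2 h2'
  have g1 := c1 y z h3 h3'
  have g2 := c2 y z h3 h3'
  have e4 : x * (y * z) * x⁻¹ * (y * z)⁻¹ = A * (y * B * y⁻¹) := by
    rw [hAdef, hBdef]; group
  have e5 : y * (x * z) * y⁻¹ * (x * z)⁻¹ = A⁻¹ * (x * C * x⁻¹) := by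
    rw [hAdef, hCdef]; group
  have e6 : z * (x * y) * z⁻¹ * (x * y)⁻¹ = B⁻¹ * (x * C⁻¹ * x⁻¹) := by
    rw [hBdef, hCdef]; group
  rw [← hAdef] at h1 h1' a1 a2
  rw [← hBdef] at h2 h2' b1 b2
  rw [← hCdef] at h3 h3' g1 g2
  rw [e4] at h4 h4'
  rw [e5] at h5 h5'
  rw [e6] at h6
  -- A, B commute
  have q4 : Commute (y * B * y⁻¹) x := by
    have := h1.inv_left.mul_left h4
    rwa [inv_mul_cancel_left] at this
  have hBA : Commute B A := by
    have t : Commute B (y⁻¹ * x * y) := by
      rw [← Commute.conj_iff y]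
      have e : y * (y⁻¹ * x * y) * y⁻¹ = x := by group
      rw [e]; exact q4
    rw [a1] at t
    have t2 := h2.inv_right.mul_right t
    rwa [inv_mul_cancel_left] at t2
  have q5 : Commute (x * C * x⁻¹) y := by
    have := h1'.mul_left h5
    rwa [mul_inv_cancel_left] at this
  have hCA : Commute C A := by
    have t : Commute C (x⁻¹ * y * x) := by
      rw [← Commute.conj_iff x]
      have e : x * (x⁻¹ * y * x) * x⁻¹ = y := by group
      rw [e]; exact q5
    rw [a2] at t
    have t2 := h3.inv_right.mul_right t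
    rw [inv_mul_cancel_left] at t2
    simpa using t2.inv_right
  have q6 : Commute (x * C * x⁻¹) z := by
    have := h2'.mul_left h6
    rw [mul_inv_cancel_left] at this
    have t := this.inv_left
    have e : (x * C⁻¹ * x⁻¹)⁻¹ = x * C * x⁻¹ := by group
    rwa [e] at t
  have hCB : Commute C B := by
    have t : Commute C (x⁻¹ * z * x) := by
      rw [← Commute.conj_iff x]
      have e : x * (x⁻¹ * z * x) * x⁻¹ = z := by group
      rw [e]; exact q6
    rw [b2] at t
    have t2 := h3'.inv_right.mul_right t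
    rw [inv_mul_cancel_left] at t2
    simpa using t2.inv_right
  -- y B y⁻¹ commutes with z
  have q7 : Commute (y * B * y⁻¹) z := by
    have t : Commute B (y⁻¹ * z * y) := by
      rw [g2]
      exact h2'.mul_right hCB.symm.inv_right
    rw [← Commute.conj_iff y] at t
    have e : y * (y⁻¹ * z * y) * y⁻¹ = z := by group
    rwa [e] at t
  -- z⁻¹ A z commutes with x and with y
  have r1 : Commute (z⁻¹ * A * z) x := by
    have t : Commute A (z * x * z⁻¹) := by
      have e : z * x * z⁻¹ = B⁻¹ * x := by rw [hBdef]; group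
      rw [e]
      exact hBA.symm.inv_right.mul_right h1
    have t2 := (Commute.conj_iff z⁻¹).2 t
    have e1 : z⁻¹ * (z * x * z⁻¹) * z⁻¹⁻¹ = x := by group
    have e2 : z⁻¹ * A * z⁻¹⁻¹ = z⁻¹ * A * z := by group
    rwa [e1, e2] at t2
  have r2 : Commute (z⁻¹ * A * z) y := by
    have t : Commute A (z * y * z⁻¹) := by
      have e : z * y * z⁻¹ = C⁻¹ * y := by rw [hCdef]; group
      rw [e]
      exact hCA.symm.inv_right.mul_right h1'
    have t2 := (Commute.conj_iff z⁻¹).2 t
    have e1 : z⁻¹ * (z * y * z⁻¹) * z⁻¹⁻¹ = y := by group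
    have e2 : z⁻¹ * A * z⁻¹⁻¹ = z⁻¹ * A * z := by group
    rwa [e1, e2] at t2
  -- the element D
  have hD : y * B * y⁻¹ * B⁻¹ = A⁻¹ * (z⁻¹ * A * z) := by
    -- y⁻¹ w y = z w z⁻¹ for w = A * (y B y⁻¹)
    have t : y * z * (A * (y * B * y⁻¹)) = A * (y * B * y⁻¹) * (y * z) := h4'.eq.symm
    have t1 : z * (A * (y * B * y⁻¹)) = A * B * z := by
      have s1 : y * (z * (A * (y * B * y⁻¹))) = y * (A * B * z) := by
        calc y * (z * (A * (y * B * y⁻¹))) = y * z * (A * (y * B * y⁻¹)) := by group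
          _ = A * (y * B * y⁻¹) * (y * z) := t
          _ = (A * y) * (B * z) := by group
          _ = (y * A) * (B * z) := by rw [h1'.eq]
          _ = y * (A * B * z) := by group
      exact mul_left_cancel s1
    have t2 : A * (y * B * y⁻¹) = z⁻¹ * A * z * B := by
      calc A * (y * B * y⁻¹) = z⁻¹ * (z * (A * (y * B * y⁻¹))) := by group
        _ = z⁻¹ * (A * B * z) := by rw [t1]
        _ = z⁻¹ * A * (B * z) := by group
        _ = z⁻¹ * A * (z * B) := by rw [h2'.eq]
        _ = z⁻¹ * A * z * B := by group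
    calc y * B * y⁻¹ * B⁻¹ = A⁻¹ * (A * (y * B * y⁻¹)) * B⁻¹ := by group
      _ = A⁻¹ * (z⁻¹ * A * z * B) * B⁻¹ := by rw [t2]
      _ = A⁻¹ * (z⁻¹ * A * z) := by group
  have hDc : y * B * y⁻¹ * B⁻¹ ∈ center G := by
    refine hcen _ ?_ ?_ ?_
    · exact q4.mul_left h2.inv_left
    · rw [hD]; exact h1'.inv_left.mul_left r2
    · exact q7.mul_left h2'.inv_left
  have hE : x * C * x⁻¹ * C⁻¹ = A * (z⁻¹ * A⁻¹ * z) := by
    have t : x * z * (A⁻¹ * (x * C * x⁻¹)) = A⁻¹ * (x * C * x⁻¹) * (x * z) := h5'.eq.symm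
    have t1 : z * (A⁻¹ * (x * C * x⁻¹)) = A⁻¹ * C * z := by
      have s1 : x * (z * (A⁻¹ * (x * C * x⁻¹))) = x * (A⁻¹ * C * z) := by
        calc x * (z * (A⁻¹ * (x * C * x⁻¹))) = x * z * (A⁻¹ * (x * C * x⁻¹)) := by group
          _ = A⁻¹ * (x * C * x⁻¹) * (x * z) := t
          _ = (A⁻¹ * x) * (C * z) := by group
          _ = (x * A⁻¹) * (C * z) := by rw [h1.inv_left.eq]
          _ = x * (A⁻¹ * C * z) := by group
      exact mul_left_cancel s1
    have t2 : A⁻¹ * (x * C * x⁻¹) = z⁻¹ * A⁻¹ * z * C := by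
      calc A⁻¹ * (x * C * x⁻¹) = z⁻¹ * (z * (A⁻¹ * (x * C * x⁻¹))) := by group
        _ = z⁻¹ * (A⁻¹ * C * z) := by rw [t1]
        _ = z⁻¹ * A⁻¹ * (C * z) := by group
        _ = z⁻¹ * A⁻¹ * (z * C) := by rw [h3'.eq]
        _ = z⁻¹ * A⁻¹ * z * C := by group
    calc x * C * x⁻¹ * C⁻¹ = A * (A⁻¹ * (x * C * x⁻¹)) * C⁻¹ := by group
      _ = A * (z⁻¹ * A⁻¹ * z * C) * C⁻¹ := by rw [t2]
      _ = A * (z⁻¹ * A⁻¹ * z) := by group
  -- pass to the quotient by the centre
  let f : G →* G ⧸ center G := QuotientGroup.mk' (center G)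
  have hf : Function.Surjective f := QuotientGroup.mk'_surjective _
  have hf1 : ∀ g : G, g ∈ center G → f g = 1 := fun g hg => (QuotientGroup.eq_one_iff _).2 hg
  have hgenQ : closure ({f x, f y, f z} : Set (G ⧸ center G)) = ⊤ := by
    have e : f '' ({x, y, z} : Set G) = {f x, f y, f z} := by
      rw [Set.image_insert_eq, Set.image_pair]
    rw [← e, ← MonoidHom.map_closure, hgen, ← MonoidHom.range_eq_map,
      MonoidHom.range_eq_top.2 hf]
  have hcenQ : ∀ g : G ⧸ center G, Commute g (f x) → Commute g (f y) → Commute g (f z) →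
      g ∈ center (G ⧸ center G) := by
    intro g hx hy hz
    refine mem_center_iff.2 fun u => ?_
    have hu : u ∈ closure ({f x, f y, f z} : Set (G ⧸ center G)) := by
      rw [hgenQ]; exact mem_top u
    have : Commute u g := by
      refine closure_induction ?_ (Commute.one_left _) (fun a b _ _ ha hb => ha.mul_left hb)
        (fun a _ ha => ha.inv_left) hu
      intro v hv
      simp only [Set.mem_insert_iff, Set.mem_singleton_iff] at hv
      rcases hv with rfl | rfl | rfl
      · exact hx.symm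
      · exact hy.symm
      · exact hz.symm
    exact this
  have hcm : ∀ a b : G, Commute a b → Commute (f a) (f b) := fun a b h => h.map f
  have hAz : Commute (f A) (f z) := by
    have t : f (A⁻¹ * (z⁻¹ * A * z)) = 1 := by rw [← hD]; exact hf1 _ hDc
    simp only [map_mul, map_inv] at t
    have t1 : f A = (f z)⁻¹ * f A * f z := inv_mul_eq_one.1 t
    have t2 : f z * f A = f A * f z := by
      calc f z * f A = f z * ((f z)⁻¹ * f A * f z) := by rw [← t1]
        _ = f A * f z := by group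
    exact t2.symm
  have hBy : Commute (f B) (f y) := by
    have t : f (y * B * y⁻¹ * B⁻¹) = 1 := hf1 _ hDc
    simp only [map_mul, map_inv] at t
    have t1 := mul_inv_eq_one.1 t
    have t2 := mul_inv_eq_iff_eq_mul.1 t1
    exact t2.symm
  have hCx : Commute (f C) (f x) := by
    have t : f (x * C * x⁻¹ * C⁻¹) = 1 := by
      rw [hE]
      simp only [map_mul, map_inv]
      have : (f z)⁻¹ * (f A)⁻¹ * f z = (f A)⁻¹ := by
        have h := hAz.inv_left
        rw [mul_assoc, h.eq, inv_mul_cancel_left]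
      rw [this, mul_inv_cancel]
    simp only [map_mul, map_inv] at t
    have t1 := mul_inv_eq_one.1 t
    have t2 := mul_inv_eq_iff_eq_mul.1 t1
    exact t2.symm
  have hQ : Finite (G ⧸ center G) := by
    refine finite_of_central_comm (f x) (f y) (f z) hgenQ (hT.map f hf) ?_ ?_ ?_
    · have e : f x * f y * (f x)⁻¹ * (f y)⁻¹ = f A := by rw [hAdef]; simp only [map_mul, map_inv]
      rw [e]
      exact hcenQ _ (hcm _ _ h1) (hcm _ _ h1') hAz
    · have e : f x * f z * (f x)⁻¹ * (f z)⁻¹ = f B := by rw [hBdef]; simp only [map_mul, map_inv]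
      rw [e]
      exact hcenQ _ (hcm _ _ h2) hBy (hcm _ _ h2')
    · have e : f y * f z * (f y)⁻¹ * (f z)⁻¹ = f C := by rw [hCdef]; simp only [map_mul, map_inv]
      rw [e]
      exact hcenQ _ hCx (hcm _ _ h3) (hcm _ _ h3')
  exact hT.finite_of_center

/-- MODULE E -/
theorem engel_finite {P : Type*} [Group P] (x y z : P)
    (hx : IsOfFinOrder x) (hy : IsOfFinOrder y) (hz : IsOfFinOrder z)
    (h1 : Commute (x * y * x⁻¹ * y⁻¹) x) (h1' : Commute (x * y * x⁻¹ * y⁻¹) y)
    (h2 : Commute (x * z * x⁻¹ * z⁻¹) x) (h2' : Commute (x * z * x⁻¹ * z⁻¹) z)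
    (h3 : Commute (y * z * y⁻¹ * z⁻¹) y) (h3' : Commute (y * z * y⁻¹ * z⁻¹) z)
    (h4 : Commute (x * (y * z) * x⁻¹ * (y * z)⁻¹) x)
    (h4' : Commute (x * (y * z) * x⁻¹ * (y * z)⁻¹) (y * z))
    (h5 : Commute (y * (x * z) * y⁻¹ * (x * z)⁻¹) y)
    (h5' : Commute (y * (x * z) * y⁻¹ * (x * z)⁻¹) (x * z))
    (h6 : Commute (z * (x * y) * z⁻¹ * (x * y)⁻¹) z) :
    Finite (Subgroup.closure ({x, y, z} : Set P)) := by
  have mx : x ∈ closure ({x, y, z} : Set P) := subset_closure (by simp)
  have my : y ∈ closure ({x, y, z} : Set P) := subset_closure (by simp)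
  have mz : z ∈ closure ({x, y, z} : Set P) := subset_closure (by simp)
  let x' : closure ({x, y, z} : Set P) := ⟨x, mx⟩
  let y' : closure ({x, y, z} : Set P) := ⟨y, my⟩
  let z' : closure ({x, y, z} : Set P) := ⟨z, mz⟩
  have hgen : closure ({x', y', z'} : Set (closure ({x, y, z} : Set P))) = ⊤ := by
    have h := closure_closure_coe_preimage (k := ({x, y, z} : Set P))
    have e : ((↑) : closure ({x, y, z} : Set P) → P) ⁻¹' ({x, y, z} : Set P) = {x', y', z'} := by
      ext u
      simp only [Set.mem_preimage, Set.mem_insert_iff, Set.mem_singleton_iff, x', y', z',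
        Subtype.ext_iff]
    rw [← e]
    exact h
  have hfin : ∀ (w : P) (hw : w ∈ closure ({x, y, z} : Set P)), IsOfFinOrder w →
      IsOfFinOrder (⟨w, hw⟩ : closure ({x, y, z} : Set P)) := by
    intro w hw h
    obtain ⟨n, hn, hn'⟩ := isOfFinOrder_iff_pow_eq_one.1 h
    exact isOfFinOrder_iff_pow_eq_one.2 ⟨n, hn, Subtype.ext (by simpa using hn')⟩
  have hT : TG (closure ({x, y, z} : Set P)) := by
    refine ⟨{x', y', z'}, by simp, hgen, ?_⟩
    intro s hs
    simp only [Set.mem_insert_iff, Set.mem_singleton_iff] at hs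
    rcases hs with rfl | rfl | rfl
    · exact hfin x mx hx
    · exact hfin y my hy
    · exact hfin z mz hz
  have hc : ∀ a b : closure ({x, y, z} : Set P), Commute (a : P) (b : P) → Commute a b :=
    fun a b h => Subtype.ext h.eq
  exact engel_core x' y' z' hgen hT (hc _ _ h1) (hc _ _ h1') (hc _ _ h2) (hc _ _ h2')
    (hc _ _ h3) (hc _ _ h3') (hc _ _ h4) (hc _ _ h4') (hc _ _ h5) (hc _ _ h5') (hc _ _ h6)

end IAQ
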