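import Mathlib

/-!
# `GL(m, ℤ)` is infinite for `m ≥ 2`
-/

set_option autoImplicit false

namespace IAQ

theorem infinite_GL {m : ℕ} (hm : 2 ≤ m) : Infinite (Matrix.GeneralLinearGroup (Fin m) ℤ) := by
  obtain ⟨i, hi⟩ : ∃ i : Fin m, i = ⟨0, by omega⟩ := ⟨_, rfl⟩
  obtain ⟨j, hj⟩ : ∃ j : Fin m, j = ⟨1, by omega⟩ := ⟨_, rfl⟩
  have hij : i ≠ j := by
    rw [hi, hj]
    intro h
    have := congrArg Fin.val h
    simp at this
  have hu : ∀ k : ℤ, IsUnit (Matrix.transvection i j k).det := by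
    intro k
    rw [Matrix.det_transvection_of_ne i j hij k]
    exact isUnit_one
  refine Infinite.of_injective
    (fun k : ℤ => Matrix.GeneralLinearGroup.mk'' (Matrix.transvection i j k) (hu k)) ?_
  intro k l h
  have h1 : (Matrix.transvection i j k : Matrix (Fin m) (Fin m) ℤ) =
      Matrix.transvection i j l := congrArg Units.val h
  have h2 := congrFun (congrFun h1 i) j
  simpa [Matrix.transvection, Matrix.one_apply_ne hij] using h2

/-- a subgroup of finite index of `GL(m, ℤ)`, `m ≥ 2`, is infinite -/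
theorem not_finiteIndex {m : ℕ} (hm : 2 ≤ m)
    (Γ : Subgroup (Matrix.GeneralLinearGroup (Fin m) ℤ)) (hΓ : Finite Γ) :
    ¬ Γ.FiniteIndex := by
  intro h
  have h1 := infinite_GL hm
  have h2 : Finite (Matrix.GeneralLinearGroup (Fin m) ℤ ⧸ Γ) :=
    Subgroup.finite_quotient_of_finiteIndex
  have h3 : Finite (Matrix.GeneralLinearGroup (Fin m) ℤ) :=
    Finite.of_equiv _ (Subgroup.groupEquivQuotientProdSubgroup (s := Γ)).symm
  exact not_finite (Matrix.GeneralLinearGroup (Fin m) ℤ)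

end IAQ
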