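import Mathlib
import Pool.Agent.AFn.Final5
import Pool.Agent.IAQ.FreeLem

/-!
# The kernel and the groups `Γ_a`
-/

set_option autoImplicit false
set_option linter.style.haveILetI false

namespace IAQ

open AFn

/-- the automorphisms acting trivially on the abelianization -/
def IA (F : Type) [Group F] : Subgroup (MulAut F) where
  carrier := {φ | ∀ g, QuotientGroup.mk' (g2 F) (φ g) = QuotientGroup.mk' (g2 F) g}
  one_mem' := fun g => rfl
  mul_mem' := by
    intro φ ψ h1 h2 g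
    rw [MulAut.mul_apply, h1, h2]
  inv_mem' := by
    intro φ h g
    have h1 := h (φ⁻¹ g)
    rw [← MulAut.mul_apply, mul_inv_cancel] at h1
    exact h1.symm

theorem mem_IA {F : Type} [Group F] {φ : MulAut F} :
    φ ∈ IA F ↔ ∀ g, QuotientGroup.mk' (g2 F) (φ g) = QuotientGroup.mk' (g2 F) g := Iff.rfl

theorem mem_IA' {F : Type} [Group F] {φ : MulAut F} :
    φ ∈ IA F ↔ ∀ g, φ g * g⁻¹ ∈ g2 F := by
  rw [mem_IA]
  refine forall_congr' fun g => ?_
  rw [← QuotientGroup.eq_one_iff, ← QuotientGroup.mk'_apply, map_mul, map_inv, mul_inv_eq_one]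

instance IA_normal (F : Type) [Group F] : (IA F).Normal := by
  refine ⟨fun φ hφ β => ?_⟩
  rw [mem_IA'] at hφ ⊢
  intro g
  have h := hom_g2 β.toMonoidHom (hφ (β⁻¹ g))
  rw [MulEquiv.coe_toMonoidHom, map_mul, map_inv] at h
  have e : β (β⁻¹ g) = g := by
    rw [← MulAut.mul_apply, mul_inv_cancel]; rfl
  rw [e] at h
  exact h

section Letters

variable {α : Type} [DecidableEq α]

omit [DecidableEq α] in
theorem IA_of_letters {φ : MulAut (FreeGroup α)}
    (h : ∀ x, QuotientGroup.mk' (g2 (FreeGroup α)) (φ (FreeGroup.of x)) =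
      QuotientGroup.mk' (g2 (FreeGroup α)) (FreeGroup.of x)) : φ ∈ IA (FreeGroup α) := by
  have h1 : (QuotientGroup.mk' (g2 (FreeGroup α))).comp φ.toMonoidHom =
      QuotientGroup.mk' (g2 (FreeGroup α)) := by
    ext x
    exact h x
  exact fun g => DFunLike.congr_fun h1 g

omit [DecidableEq α] in
theorem mk_comm (v w : FreeGroup α) :
    QuotientGroup.mk' (g2 (FreeGroup α)) v * QuotientGroup.mk' (g2 (FreeGroup α)) w =
      QuotientGroup.mk' (g2 (FreeGroup α)) w * QuotientGroup.mk' (g2 (FreeGroup α)) v := by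
  have h := mem_g2 v w
  rw [← QuotientGroup.eq_one_iff, ← QuotientGroup.mk'_apply, map_mul, map_mul, map_mul, map_inv,
    map_inv, mul_inv_eq_one, mul_inv_eq_iff_eq_mul] at h
  exact h

theorem R_mem_IA (a : α) {w : FreeGroup α} (hw : w ∈ g2 (FreeGroup α)) :
    R a w ∈ IA (FreeGroup α) := by
  refine IA_of_letters fun x => ?_
  rw [R_of]
  by_cases h : x = a
  · rw [if_pos h, map_mul]
    have h1 := hom_g2 (kill a) hw
    rw [← QuotientGroup.eq_one_iff, ← QuotientGroup.mk'_apply] at h1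
    rw [h1, mul_one]
  · rw [if_neg h]

theorem L_mem_IA (a : α) {w : FreeGroup α} (hw : w ∈ g2 (FreeGroup α)) :
    L a w ∈ IA (FreeGroup α) := by
  refine IA_of_letters fun x => ?_
  rw [L_of]
  by_cases h : x = a
  · rw [if_pos h, map_mul, map_inv]
    have h1 := hom_g2 (kill a) hw
    rw [← QuotientGroup.eq_one_iff, ← QuotientGroup.mk'_apply] at h1
    rw [h1, inv_one, one_mul]
  · rw [if_neg h]

theorem C_mem_IA (a : α) (w : FreeGroup α) : C a w ∈ IA (FreeGroup α) := by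
  refine IA_of_letters fun x => ?_
  rw [C_of]
  by_cases h : x = a
  · rw [if_pos h, map_mul, map_mul, map_inv, mul_assoc, mk_comm (FreeGroup.of x),
      inv_mul_cancel_left]
  · rw [if_neg h]

/-- the words without `a`, `W` not containing `a` -/
theorem kill_ret {a : α} {W : Finset α} (ha : a ∉ W) (w : FreeGroup α) :
    kill a (ret W w) = ret W w := kill_eq (ret_mem W w) ha

/-- the homomorphism `(u, v) ↦ (x_a ↦ u⁻¹ x_a v)` for words in the letters of `W` -/
def Phi (a : α) (W : Finset α) : FreeGroup α × FreeGroup α →* MulAut (FreeGroup α) :=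
  MonoidHom.noncommCoprod ((L a).comp (ret W)) ((R a).comp (ret W))
    (fun u v => LR_comm a (ret W u) (ret W v))

theorem Phi_apply (a : α) (W : Finset α) (p : FreeGroup α × FreeGroup α) :
    Phi a W p = L a (ret W p.1) * R a (ret W p.2) := rfl

theorem Phi_of_self {a : α} {W : Finset α} (ha : a ∉ W) (p : FreeGroup α × FreeGroup α) :
    Phi a W p (FreeGroup.of a) = (ret W p.1)⁻¹ * FreeGroup.of a * ret W p.2 := by
  rw [Phi_apply, MulAut.mul_apply, R_of_self, map_mul, L_kill, L_of_self, kill_ret ha,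
    kill_ret ha]

theorem Phi_of_ne {a x : α} (W : Finset α) (h : x ≠ a) (p : FreeGroup α × FreeGroup α) :
    Phi a W p (FreeGroup.of x) = FreeGroup.of x := by
  rw [Phi_apply, MulAut.mul_apply, R_of_ne h, L_of_ne h]

theorem Phi_comm {a b : α} {W : Finset α} (hab : a ≠ b) (ha : a ∉ W) (hb : b ∉ W)
    (p q : FreeGroup α × FreeGroup α) : Phi a W p * Phi b W q = Phi b W q * Phi a W p := by
  have hfix : ∀ w, Phi b W q (ret W w) = ret W w := by
    intro w
    rw [Phi_apply, MulAut.mul_apply, R_fixed _ (kill_ret hb w), L_fixed _ (kill_ret hb w)]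
  have hfix' : ∀ w, Phi a W p (ret W w) = ret W w := by
    intro w
    rw [Phi_apply, MulAut.mul_apply, R_fixed _ (kill_ret ha w), L_fixed _ (kill_ret ha w)]
  apply aut_ext
  intro x
  rw [MulAut.mul_apply, MulAut.mul_apply]
  by_cases hxa : x = a
  · subst hxa
    rw [Phi_of_ne W hab, Phi_of_self ha, map_mul, map_mul, map_inv, hfix, hfix, Phi_of_ne W hab]
  · by_cases hxb : x = b
    · subst hxb
      rw [Phi_of_ne W hxa, Phi_of_self hb, map_mul, map_mul, map_inv, hfix', hfix',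
        Phi_of_ne W hxa]
    · rw [Phi_of_ne W hxa, Phi_of_ne W hxb, Phi_of_ne W hxa]

end Letters

section Main

variable {n m : ℕ} (Hin : Subgroup (MulAut (FreeGroup (Fin n))))
  (ρ : Hin →* Matrix.GeneralLinearGroup (Fin m) ℤ)

/-- the kernel, as a subgroup of `Aut (F_n)` -/
def KerH : Subgroup (MulAut (FreeGroup (Fin n))) := ρ.ker.map Hin.subtype

theorem mem_KerH {g : MulAut (FreeGroup (Fin n))} :
    g ∈ KerH Hin ρ ↔ ∃ hh : g ∈ Hin, ρ ⟨g, hh⟩ = 1 := by
  constructor
  · rintro ⟨x, hx, rfl⟩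
    exact ⟨x.2, hx⟩
  · rintro ⟨hh, h1⟩
    exact ⟨⟨g, hh⟩, h1, rfl⟩

/-- the largest normal subgroup of `Aut (F_n)` in the kernel -/
def kap : Subgroup (MulAut (FreeGroup (Fin n))) := (KerH Hin ρ).normalCore

instance kap_normal : (kap Hin ρ).Normal := by unfold kap; infer_instance

theorem mem_kap {g : MulAut (FreeGroup (Fin n))} :
    g ∈ kap Hin ρ ↔ ∀ β, β * g * β⁻¹ ∈ KerH Hin ρ := Iff.rfl

variable (hIA : IA (FreeGroup (Fin n)) ≤ Hin)

/-- the twisted restriction of `ρ` to `IA` -/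
noncomputable def rb (β : MulAut (FreeGroup (Fin n))) :
    IA (FreeGroup (Fin n)) →* Matrix.GeneralLinearGroup (Fin m) ℤ :=
  (ρ.comp (Subgroup.inclusion hIA)).comp
    ((MulAut.conjNormal β : MulAut (IA (FreeGroup (Fin n)))).toMonoidHom)

theorem rb_eq_one (β : MulAut (FreeGroup (Fin n))) (g : IA (FreeGroup (Fin n))) :
    rb Hin ρ hIA β g = 1 ↔ β * g.1 * β⁻¹ ∈ KerH Hin ρ := by
  rw [mem_KerH]
  constructor
  · intro h
    exact ⟨hIA ((IA_normal _).conj_mem _ g.2 β), h⟩
  · rintro ⟨hh, h1⟩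
    exact h1

/-- the groups `Γ_a` -/
noncomputable def Gam (β : MulAut (FreeGroup (Fin n))) (W : Finset (Fin n)) (a : Fin n) :
    Subgroup (Matrix.GeneralLinearGroup (Fin m) ℤ) :=
  (((Phi a W).range).subgroupOf (IA (FreeGroup (Fin n)))).map (rb Hin ρ hIA β)

theorem mem_Gam {β : MulAut (FreeGroup (Fin n))} {W : Finset (Fin n)} {a : Fin n}
    {x : Matrix.GeneralLinearGroup (Fin m) ℤ} :
    x ∈ Gam Hin ρ hIA β W a ↔
      ∃ g : IA (FreeGroup (Fin n)), (∃ p, Phi a W p = g.1) ∧ rb Hin ρ hIA β g = x := by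
  constructor
  · rintro ⟨g, hg, rfl⟩
    rw [SetLike.mem_coe, Subgroup.mem_subgroupOf, MonoidHom.mem_range] at hg
    exact ⟨g, hg, rfl⟩
  · rintro ⟨g, hg, rfl⟩
    refine ⟨g, ?_, rfl⟩
    rw [SetLike.mem_coe, Subgroup.mem_subgroupOf, MonoidHom.mem_range]
    exact hg

theorem Gam_comm (β : MulAut (FreeGroup (Fin n))) {W : Finset (Fin n)} {a b : Fin n}
    (hab : a ≠ b) (ha : a ∉ W) (hb : b ∉ W) :
    ∀ x ∈ Gam Hin ρ hIA β W a, ∀ y ∈ Gam Hin ρ hIA β W b, x * y = y * x := by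
  intro x hx y hy
  rw [mem_Gam] at hx hy
  obtain ⟨g, ⟨p, hp⟩, rfl⟩ := hx
  obtain ⟨h, ⟨q, hq⟩, rfl⟩ := hy
  have e : g * h = h * g := by
    apply Subtype.ext
    rw [Subgroup.coe_mul, Subgroup.coe_mul, ← hp, ← hq]
    exact Phi_comm hab ha hb p q
  rw [← map_mul, ← map_mul, e]

end Main

end IAQ
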