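import Mathlib
import Pool.Agent.IAQ.KW
import Pool.Agent.IAQ.MagDef

/-!
# Spreading of badness
-/

set_option autoImplicit false

namespace IAQ

open AFn

variable {n m : ℕ} (Hin : Subgroup (MulAut (FreeGroup (Fin n))))
  (ρ : Hin →* Matrix.GeneralLinearGroup (Fin m) ℤ)

theorem KerH_conj {g h : MulAut (FreeGroup (Fin n))} (hh : h ∈ Hin) (hg : g ∈ KerH Hin ρ) :
    h * g * h⁻¹ ∈ KerH Hin ρ := by
  rw [mem_KerH] at hg ⊢
  obtain ⟨hg1, hg2⟩ := hg
  refine ⟨Hin.mul_mem (Hin.mul_mem hh hg1) (Hin.inv_mem hh), ?_⟩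
  have e : (⟨h * g * h⁻¹, Hin.mul_mem (Hin.mul_mem hh hg1) (Hin.inv_mem hh)⟩ : Hin) =
      ⟨h, hh⟩ * ⟨g, hg1⟩ * (⟨h, hh⟩ : Hin)⁻¹ := rfl
  rw [e, map_mul, map_mul, hg2, map_inv, mul_one, mul_inv_cancel]

theorem KerH_conj_iff {g h : MulAut (FreeGroup (Fin n))} (hh : h ∈ Hin) :
    h * g * h⁻¹ ∈ KerH Hin ρ ↔ g ∈ KerH Hin ρ := by
  refine ⟨fun H => ?_, KerH_conj Hin ρ hh⟩
  have h1 := KerH_conj Hin ρ (Hin.inv_mem hh) H
  have e : h⁻¹ * (h * g * h⁻¹) * h⁻¹⁻¹ = g := by group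
  rwa [e] at h1

theorem conj_mul' (β g h : MulAut (FreeGroup (Fin n))) :
    β * (g * h) * β⁻¹ = (β * g * β⁻¹) * (β * h * β⁻¹) := by group

variable (hIA : IA (FreeGroup (Fin n)) ≤ Hin)

include hIA in
/-- conjugation of the argument by a word does not change membership -/
theorem KerH_R_conj (β : MulAut (FreeGroup (Fin n))) (a : Fin n) (v w : FreeGroup (Fin n)) :
    β * R a (v * w * v⁻¹) * β⁻¹ ∈ KerH Hin ρ ↔ β * R a w * β⁻¹ ∈ KerH Hin ρ := by
  have h1 : β * C a v * β⁻¹ ∈ Hin := hIA ((IA_normal _).conj_mem _ (C_mem_IA a v) β)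
  have e : β * R a (v * w * v⁻¹) * β⁻¹ =
      (β * C a v * β⁻¹) * (β * R a w * β⁻¹) * (β * C a v * β⁻¹)⁻¹ := by
    rw [← C_conj_R]; group
  rw [e]
  exact KerH_conj_iff Hin ρ h1

/-- if `Γ_a` is abelian then the `R a w`, `w ∈ γ₃`, are killed -/
theorem not_bad_of_good {β : MulAut (FreeGroup (Fin n))} {W : Finset (Fin n)} {a : Fin n}
    (hab : ∀ x ∈ Gam Hin ρ hIA β W a, ∀ y ∈ Gam Hin ρ hIA β W a, x * y = y * x) :
    ∀ w ∈ g3 (FreeGroup (Fin n)), β * R a (ret W w) * β⁻¹ ∈ KerH Hin ρ := by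
  obtain ⟨f, hf⟩ : ∃ f : FreeGroup (Fin n) →* MulAut (FreeGroup (Fin n)),
      ∀ w, f w = β * R a (ret W w) * β⁻¹ :=
    ⟨((MulAut.conj β).toMonoidHom).comp ((R a).comp (ret W)), fun w => rfl⟩
  have h : g3 (FreeGroup (Fin n)) ≤ (KerH Hin ρ).comap f := by
    refine g3_le fun v hv w => ?_
    rw [Subgroup.mem_comap, hf]
    obtain ⟨v', hv'⟩ : ∃ v', v' = ret W v := ⟨_, rfl⟩
    obtain ⟨w', hw'⟩ : ∃ w', w' = ret W w := ⟨_, rfl⟩
    have hret : ret W (v * w * v⁻¹ * w⁻¹) = v' * w' * v'⁻¹ * w'⁻¹ := by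
      rw [hv', hw', map_mul, map_mul, map_mul, map_inv, map_inv]
    rw [hret]
    have hv2 : v' ∈ g2 (FreeGroup (Fin n)) := by rw [hv']; exact hom_g2 _ hv
    obtain ⟨g, hg⟩ : ∃ g : IA (FreeGroup (Fin n)), g.1 = R a v' := ⟨⟨_, R_mem_IA a hv2⟩, rfl⟩
    obtain ⟨k, hk⟩ : ∃ k : IA (FreeGroup (Fin n)), k.1 = C a w' := ⟨⟨_, C_mem_IA a w'⟩, rfl⟩
    have h1 : rb Hin ρ hIA β g ∈ Gam Hin ρ hIA β W a := by
      rw [mem_Gam]
      refine ⟨g, ⟨(1, v), ?_⟩, rfl⟩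
      rw [hg, Phi_apply, map_one, map_one, one_mul, hv']
    have h2 : rb Hin ρ hIA β k ∈ Gam Hin ρ hIA β W a := by
      rw [mem_Gam]
      refine ⟨k, ⟨(w, w), ?_⟩, rfl⟩
      rw [hk, Phi_apply, C_eq, hw']
    have h3 := hab _ h1 _ h2
    have h4 : rb Hin ρ hIA β (g * (k * g * k⁻¹)⁻¹) = 1 := by
      rw [map_mul, map_inv, map_mul, map_mul, map_inv, ← h3]
      group
    rw [rb_eq_one] at h4
    have e : (g * (k * g * k⁻¹)⁻¹ : IA (FreeGroup (Fin n))).1 = R a (v' * w' * v'⁻¹ * w'⁻¹) := by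
      rw [Subgroup.coe_mul, Subgroup.coe_inv, Subgroup.coe_mul, Subgroup.coe_mul,
        Subgroup.coe_inv, hg, hk, C_conj_R, ← map_inv, ← map_mul]
      congr 1
      group
    rw [e] at h4
    exact h4
  intro w hw
  have := h hw
  rwa [Subgroup.mem_comap, hf] at this

/-- badness -/
def Bad (β : MulAut (FreeGroup (Fin n))) (W : Finset (Fin n)) (a : Fin n) : Prop :=
  ∃ w ∈ g3 (FreeGroup (Fin n)), β * R a (ret W w) * β⁻¹ ∉ KerH Hin ρ

include hIA in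
/-- spreading of badness -/
theorem spread {β : MulAut (FreeGroup (Fin n))} {W : Finset (Fin n)} {a d : Fin n}
    (ha : a ∉ W) (hd : d ∉ W) (had : a ≠ d) (h1 : ¬ Bad Hin ρ β W a) (h2 : Bad Hin ρ β W d) :
    Bad Hin ρ (β * R d (FreeGroup.of a)) W a ∧ Bad Hin ρ (β * R d (FreeGroup.of a)) W d ∧
      ∀ c, c ∉ W → c ≠ a → c ≠ d → Bad Hin ρ β W c →
        Bad Hin ρ (β * R d (FreeGroup.of a)) W c := by
  have e : ∀ g, (β * R d (FreeGroup.of a)) * g * (β * R d (FreeGroup.of a))⁻¹ =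
      β * (R d (FreeGroup.of a) * g * (R d (FreeGroup.of a))⁻¹) * β⁻¹ := by
    intro g; group
  refine ⟨?_, ?_, ?_⟩
  · obtain ⟨w, hw, hw2⟩ := h2
    refine ⟨w, hw, fun hcon => hw2 ?_⟩
    have h3 : β * R a (ret W w) * β⁻¹ ∈ KerH Hin ρ := by
      by_contra h4
      exact h1 ⟨w, hw, h4⟩
    rw [e, conj_I2 had (kill_ret hd w) (kill_ret ha w), conj_mul'] at hcon
    have h5 : β * R d (FreeGroup.of a * (ret W w)⁻¹ * (FreeGroup.of a)⁻¹) * β⁻¹ ∈
        KerH Hin ρ := by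
      have h6 := (KerH Hin ρ).mul_mem ((KerH Hin ρ).inv_mem h3) hcon
      rwa [inv_mul_cancel_left] at h6
    rw [KerH_R_conj Hin ρ hIA, map_inv] at h5
    have h7 := (KerH Hin ρ).inv_mem h5
    have e2 : (β * (R d (ret W w))⁻¹ * β⁻¹)⁻¹ = β * R d (ret W w) * β⁻¹ := by
      group
    rwa [e2] at h7
  · obtain ⟨w, hw, hw2⟩ := h2
    refine ⟨w, hw, fun hcon => hw2 ?_⟩
    rw [e, ← map_inv, ← map_mul, ← map_mul, KerH_R_conj Hin ρ hIA] at hcon
    exact hcon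
  · rintro c hc hca hcd ⟨w, hw, hw2⟩
    refine ⟨w, hw, fun hcon => hw2 ?_⟩
    have h3 : R d (FreeGroup.of a) * R c (ret W w) = R c (ret W w) * R d (FreeGroup.of a) := by
      refine R_comm_R hcd (kill_of_ne (Ne.symm hca)) ?_
      rw [kill_ret hc, kill_ret hd]
    rw [e, h3, mul_inv_cancel_right] at hcon
    exact hcon

include hIA in
/-- if for every twist some letter is not bad then no letter is ever bad -/
theorem K1W_of {W : Finset (Fin n)}
    (hex : ∀ β : MulAut (FreeGroup (Fin n)), ∃ a, a ∉ W ∧ ¬ Bad Hin ρ β W a)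
    (β : MulAut (FreeGroup (Fin n))) {a : Fin n} (ha : a ∉ W) :
    ∀ w ∈ g3 (FreeGroup (Fin n)), β * R a (ret W w) * β⁻¹ ∈ KerH Hin ρ := by
  classical
  by_contra hcon
  push Not at hcon
  have hbad : Bad Hin ρ β W a := hcon
  have key : ∀ s : Finset (Fin n), (∀ x ∈ s, x ∉ W) →
      ∃ β', Bad Hin ρ β' W a ∧ ∀ c ∈ s, Bad Hin ρ β' W c := by
    intro s
    induction s using Finset.induction_on with
    | empty => exact fun _ => ⟨β, hbad, fun c hc => absurd hc (Finset.notMem_empty c)⟩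
    | insert b s hbs ih =>
      intro hs
      obtain ⟨β', h1, h2⟩ := ih fun x hx => hs x (Finset.mem_insert_of_mem hx)
      have hb : b ∉ W := hs b (Finset.mem_insert_self b s)
      by_cases h3 : Bad Hin ρ β' W b
      · refine ⟨β', h1, fun c hc => ?_⟩
        rcases Finset.mem_insert.1 hc with h | h
        · rw [h]; exact h3
        · exact h2 c h
      · have hba : b ≠ a := fun h => h3 (h ▸ h1)
        obtain ⟨h4, h5, h6⟩ := spread Hin ρ hIA hb ha hba h3 h1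
        refine ⟨_, h5, fun c hc => ?_⟩
        by_cases hcb : c = b
        · rw [hcb]; exact h4
        · by_cases hca : c = a
          · rw [hca]; exact h5
          · have hcs : c ∈ s := (Finset.mem_insert.1 hc).resolve_left hcb
            exact h6 c (hs c hc) hcb hca (h2 c hcs)
  obtain ⟨β', -, h2⟩ := key (Finset.univ.filter fun x => x ∉ W)
    (fun x hx => (Finset.mem_filter.1 hx).2)
  obtain ⟨b, hb, hgood⟩ := hex β'
  exact hgood (h2 b (Finset.mem_filter.2 ⟨Finset.mem_univ _, hb⟩))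

theorem letters_mem_fsub {α : Type} [DecidableEq α] {W : Finset α} {b c : α} (hb : b ∈ W)
    (hc : c ∈ W) : cm b c ∈ fsub W := by
  unfold cm
  exact (fsub W).mul_mem ((fsub W).mul_mem ((fsub W).mul_mem (of_mem_fsub hb) (of_mem_fsub hc))
    ((fsub W).inv_mem (of_mem_fsub hb))) ((fsub W).inv_mem (of_mem_fsub hc))

theorem cm_mem_g2 {α : Type} (b c : α) : cm b c ∈ g2 (FreeGroup α) := mem_g2 _ _

theorem kill_cm_left {α : Type} [DecidableEq α] (b c : α) : kill b (cm b c) = 1 := by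
  unfold cm
  rw [map_mul, map_mul, map_mul, map_inv, map_inv, kill_of_self]
  group

theorem kill_cm_right {α : Type} [DecidableEq α] (b c : α) : kill c (cm b c) = 1 := by
  unfold cm
  rw [map_mul, map_mul, map_mul, map_inv, map_inv, kill_of_self]
  group

end IAQ
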