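import Mathlib

/-!
MP_45114e_al, lemma D: pairwise commuting finite nonabelian subgroups of `GL(m, ℤ)`; there are at
most `m / 2` of them.
-/

set_option autoImplicit false

namespace IAQ

open Module

section Split

variable {V : Type*} [AddCommGroup V] [Module ℂ V] [FiniteDimensional ℂ V]

/-- vectors of `W` fixed by `p` -/
def fixP (p : End ℂ V) (W : Submodule ℂ V) : Submodule ℂ V := W ⊓ LinearMap.ker (p - 1)

/-- vectors of `W` killed by `p` -/
def kerP (p : End ℂ V) (W : Submodule ℂ V) : Submodule ℂ V := W ⊓ LinearMap.ker p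

omit [FiniteDimensional ℂ V] in
theorem mem_fixP {p : End ℂ V} {W : Submodule ℂ V} {w : V} : w ∈ fixP p W ↔ w ∈ W ∧ p w = w := by
  rw [fixP, Submodule.mem_inf, LinearMap.mem_ker, LinearMap.sub_apply, End.one_apply, sub_eq_zero]

omit [FiniteDimensional ℂ V] in
theorem mem_kerP {p : End ℂ V} {W : Submodule ℂ V} {w : V} : w ∈ kerP p W ↔ w ∈ W ∧ p w = 0 := by
  rw [kerP, Submodule.mem_inf, LinearMap.mem_ker]

theorem finrank_split {p : End ℂ V} {W : Submodule ℂ V} (hp : ∀ w ∈ W, p (p w) = p w)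
    (hW : ∀ w ∈ W, p w ∈ W) :
    finrank ℂ (fixP p W) + finrank ℂ (kerP p W) = finrank ℂ W := by
  have hinf : fixP p W ⊓ kerP p W = ⊥ := by
    rw [eq_bot_iff]
    intro w hw
    rw [Submodule.mem_inf, mem_fixP, mem_kerP] at hw
    rw [Submodule.mem_bot, ← hw.1.2, hw.2.2]
  have hsup : fixP p W ⊔ kerP p W = W := by
    refine le_antisymm (sup_le inf_le_left inf_le_left) fun w hw => ?_
    rw [Submodule.mem_sup]
    refine ⟨p w, mem_fixP.2 ⟨hW w hw, hp w hw⟩, w - p w, mem_kerP.2 ⟨W.sub_mem hw (hW w hw), ?_⟩,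
      by abel⟩
    rw [map_sub, hp w hw, sub_self]
  have h := Submodule.finrank_sup_add_finrank_inf_eq (fixP p W) (kerP p W)
  rw [hinf, hsup, finrank_bot, add_zero] at h
  exact h.symm

omit [FiniteDimensional ℂ V] in
theorem ne_bot_of_mem {W : Submodule ℂ V} {w : V} (hw : w ∈ W) (h0 : w ≠ 0) : W ≠ ⊥ := by
  rintro rfl
  exact h0 ((Submodule.mem_bot ℂ).1 hw)

/-- nonabelian on `W` -/
def NA {H : Type*} [Group H] (ρ : H →* End ℂ V) (W : Submodule ℂ V) : Prop :=
  ∃ x y : H, ∃ w ∈ W, ρ x (ρ y w) ≠ ρ y (ρ x w)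

omit [FiniteDimensional ℂ V] in
/-- if `W` is split by a commuting idempotent then a group nonabelian on `W` is nonabelian on one
of the parts -/
theorem NA_split {H : Type*} [Group H] {ρ : H →* End ℂ V} {p : End ℂ V} {W : Submodule ℂ V}
    (hp : ∀ w ∈ W, p (p w) = p w) (hW : ∀ w ∈ W, p w ∈ W) (h : NA ρ W) :
    NA ρ (fixP p W) ∨ NA ρ (kerP p W) := by
  by_contra hcon
  rw [not_or] at hcon
  obtain ⟨h1, h2⟩ := hcon
  obtain ⟨x, y, w, hw, hne⟩ := h
  apply hne
  have e1 : ρ x (ρ y (p w)) = ρ y (ρ x (p w)) := by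
    by_contra h3
    exact h1 ⟨x, y, p w, mem_fixP.2 ⟨hW w hw, hp w hw⟩, h3⟩
  have e2 : ρ x (ρ y (w - p w)) = ρ y (ρ x (w - p w)) := by
    by_contra h3
    refine h2 ⟨x, y, w - p w, mem_kerP.2 ⟨W.sub_mem hw (hW w hw), ?_⟩, h3⟩
    rw [map_sub, hp w hw, sub_self]
  simp only [map_sub] at e2
  rw [e1] at e2
  exact sub_left_injective e2

end Split

section Avg

variable {V : Type*} [AddCommGroup V] [Module ℂ V]
variable {H : Type*} [Group H]

/-- the average over the commutator subgroup -/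
noncomputable def avg (ρ : H →* End ℂ V) : End ℂ V :=
  (Nat.card (commutator H) : ℂ)⁻¹ • ∑ᶠ d : commutator H, ρ (d : H)

variable [Finite H]

theorem avg_mul_left (ρ : H →* End ℂ V) {g : H} (hg : g ∈ commutator H) : ρ g * avg ρ = avg ρ := by
  classical
  have : Fintype (commutator H) := Fintype.ofFinite _
  rw [avg, mul_smul_comm, finsum_eq_sum_of_fintype, Finset.mul_sum]
  congr 1
  refine Fintype.sum_equiv (Equiv.mulLeft (⟨g, hg⟩ : commutator H)) _ _ fun d => ?_
  rw [← map_mul]
  rfl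

theorem card_ne (H : Type*) [Group H] [Finite H] : (Nat.card (commutator H) : ℂ) ≠ 0 := by
  exact_mod_cast (Nat.card_pos (α := commutator H)).ne'

/-- vectors fixed by the commutator subgroup -/
theorem avg_apply_of_fix (ρ : H →* End ℂ V) {w : V} (hw : ∀ d ∈ commutator H, ρ d w = w) :
    avg ρ w = w := by
  classical
  have : Fintype (commutator H) := Fintype.ofFinite _
  rw [avg, finsum_eq_sum_of_fintype, LinearMap.smul_apply, LinearMap.sum_apply,
    Finset.sum_congr rfl (fun (d : commutator H) _ => hw d d.2), Finset.sum_const, Finset.card_univ,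
    ← Nat.card_eq_fintype_card, ← Nat.cast_smul_eq_nsmul ℂ, smul_smul, inv_mul_cancel₀ (card_ne H), one_smul]

theorem avg_idem (ρ : H →* End ℂ V) (w : V) : avg ρ (avg ρ w) = avg ρ w :=
  avg_apply_of_fix ρ fun d hd => by
    rw [← Module.End.mul_apply, avg_mul_left ρ hd]

theorem fix_of_avg (ρ : H →* End ℂ V) {w : V} (hw : avg ρ w = w) {d : H} (hd : d ∈ commutator H) :
    ρ d w = w := by
  rw [← hw, ← Module.End.mul_apply, avg_mul_left ρ hd]

/-- the average commutes with everything that commutes with the group -/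
theorem avg_comm (ρ : H →* End ℂ V) {T : End ℂ V} (hT : ∀ g, T * ρ g = ρ g * T) :
    T * avg ρ = avg ρ * T := by
  classical
  have : Fintype (commutator H) := Fintype.ofFinite _
  rw [avg, finsum_eq_sum_of_fintype, mul_smul_comm, smul_mul_assoc, Finset.mul_sum, Finset.sum_mul]
  congr 1
  exact Finset.sum_congr rfl fun d _ => hT d

/-- the average commutes with the group -/
theorem avg_comm_self (ρ : H →* End ℂ V) (g : H) : ρ g * avg ρ = avg ρ * ρ g := by
  classical
  have : Fintype (commutator H) := Fintype.ofFinite _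
  rw [avg, finsum_eq_sum_of_fintype, mul_smul_comm, smul_mul_assoc, Finset.mul_sum, Finset.sum_mul]
  congr 1
  refine Fintype.sum_equiv ((MulAut.conjNormal (H := commutator H) g).toEquiv) _ _ fun d => ?_
  rw [← map_mul, ← map_mul]
  congr 1
  show g * (d : H) = ((MulAut.conjNormal g d : commutator H) : H) * g
  rw [MulAut.conjNormal_apply]
  group

theorem avg_mem (ρ : H →* End ℂ V) {W : Submodule ℂ V} (hW : ∀ g, ∀ w ∈ W, ρ g w ∈ W) {w : V}
    (hw : w ∈ W) : avg ρ w ∈ W := by
  classical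
  have : Fintype (commutator H) := Fintype.ofFinite _
  rw [avg, finsum_eq_sum_of_fintype, LinearMap.smul_apply, LinearMap.sum_apply]
  exact W.smul_mem _ (W.sum_mem fun d _ => hW d w hw)

/-- if the group is abelian on `W` then the commutator subgroup acts trivially on `W` -/
theorem fix_of_not_NA (ρ : H →* End ℂ V) {W : Submodule ℂ V} (hW : ∀ g, ∀ w ∈ W, ρ g w ∈ W)
    (h : ¬ NA ρ W) {w : V} (hw : w ∈ W) {d : H} (hd : d ∈ commutator H) : ρ d w = w := by
  let St : Subgroup H :=
    { carrier := {d | ∀ w ∈ W, ρ d w = w}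
      one_mem' := fun w _ => by rw [map_one, Module.End.one_apply]
      mul_mem' := fun {a b} ha hb w hw => by rw [map_mul, Module.End.mul_apply, hb w hw, ha w hw]
      inv_mem' := fun {a} ha w hw => by
        conv_lhs => rw [← ha w hw]
        rw [← Module.End.mul_apply, ← map_mul, inv_mul_cancel, map_one, Module.End.one_apply] }
  have hle : commutator H ≤ St := by
    rw [commutator_def, Subgroup.commutator_le]
    intro a _ b _ w hw
    have hu : ρ a⁻¹ (ρ b⁻¹ w) ∈ W := hW _ _ (hW _ _ hw)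
    have hab : ρ a (ρ b (ρ a⁻¹ (ρ b⁻¹ w))) = ρ b (ρ a (ρ a⁻¹ (ρ b⁻¹ w))) := by
      by_contra h3
      exact h ⟨a, b, _, hu, h3⟩
    rw [commutatorElement_def, map_mul, map_mul, map_mul, Module.End.mul_apply,
      Module.End.mul_apply, Module.End.mul_apply, hab]
    have e1 : ρ a (ρ a⁻¹ (ρ b⁻¹ w)) = ρ b⁻¹ w := by
      rw [← Module.End.mul_apply, ← map_mul, mul_inv_cancel, map_one, Module.End.one_apply]
    rw [e1, ← Module.End.mul_apply, ← map_mul, mul_inv_cancel, map_one, Module.End.one_apply]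
  exact hle hd w hw

end Avg

section Cyc

variable {V : Type*} [AddCommGroup V] [Module ℂ V]

/-- projector onto the vectors fixed by `y`, `y ^ N = 1` -/
noncomputable def pr (y : End ℂ V) (N : ℕ) : End ℂ V := (N : ℂ)⁻¹ • ∑ k ∈ Finset.range N, y ^ k

theorem pr_apply_of_fix {y : End ℂ V} {N : ℕ} (hN : 0 < N) {w : V} (hw : y w = w) : pr y N w = w := by
  have h1 : ∀ k : ℕ, (y ^ k) w = w := by
    intro k
    induction k with
    | zero => rw [pow_zero, Module.End.one_apply]
    | succ k ih => rw [pow_succ, Module.End.mul_apply, hw, ih]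
  rw [pr, LinearMap.smul_apply, LinearMap.sum_apply, Finset.sum_congr rfl (fun k _ => h1 k),
    Finset.sum_const, Finset.card_range, ← Nat.cast_smul_eq_nsmul ℂ, smul_smul,
    inv_mul_cancel₀ (by exact_mod_cast hN.ne'), one_smul]

theorem mul_pr {y : End ℂ V} {N : ℕ} (hy : y ^ N = 1) : y * pr y N = pr y N := by
  rw [pr, mul_smul_comm, Finset.mul_sum]
  congr 1
  have h1 : ∑ k ∈ Finset.range N, y * y ^ k = ∑ k ∈ Finset.range N, y ^ (k + 1) :=
    Finset.sum_congr rfl fun k _ => (pow_succ' y k).symm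
  have h2 := Finset.sum_range_succ (fun k => y ^ k) N
  have h3 := Finset.sum_range_succ' (fun k => y ^ k) N
  rw [h1]
  rw [h2, hy, pow_zero] at h3
  exact (add_right_cancel h3).symm

theorem fix_of_pr {y : End ℂ V} {N : ℕ} (hy : y ^ N = 1) {w : V} (hw : pr y N w = w) : y w = w := by
  rw [← hw, ← Module.End.mul_apply, mul_pr hy]

theorem pr_idem {y : End ℂ V} {N : ℕ} (hN : 0 < N) (hy : y ^ N = 1) (w : V) :
    pr y N (pr y N w) = pr y N w :=
  pr_apply_of_fix hN (by rw [← Module.End.mul_apply, mul_pr hy])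

theorem pr_comm {y T : End ℂ V} {N : ℕ} (h : T * y = y * T) : T * pr y N = pr y N * T := by
  rw [pr, mul_smul_comm, smul_mul_assoc, Finset.mul_sum, Finset.sum_mul]
  congr 1
  exact Finset.sum_congr rfl fun k _ => ((show Commute T y from h).pow_right k).eq

theorem pr_mem {y : End ℂ V} {N : ℕ} {W : Submodule ℂ V} (hW : ∀ w ∈ W, y w ∈ W) {w : V}
    (hw : w ∈ W) : pr y N w ∈ W := by
  have h1 : ∀ k : ℕ, (y ^ k) w ∈ W := by
    intro k
    induction k with
    | zero => rwa [pow_zero, Module.End.one_apply]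
    | succ k ih => rw [pow_succ', Module.End.mul_apply]; exact hW _ ih
  rw [pr, LinearMap.smul_apply, LinearMap.sum_apply]
  exact W.smul_mem _ (W.sum_mem fun k _ => h1 k)

end Cyc

/-- invariance of the two parts under commuting operators -/
theorem inv_fixP {V : Type*} [AddCommGroup V] [Module ℂ V] {p T : End ℂ V} {W : Submodule ℂ V}
    (h : T * p = p * T) (hT : ∀ w ∈ W, T w ∈ W) {w : V} (hw : w ∈ fixP p W) : T w ∈ fixP p W := by
  rw [mem_fixP] at hw ⊢
  refine ⟨hT w hw.1, ?_⟩
  rw [← Module.End.mul_apply, ← h, Module.End.mul_apply, hw.2]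

theorem inv_kerP {V : Type*} [AddCommGroup V] [Module ℂ V] {p T : End ℂ V} {W : Submodule ℂ V}
    (h : T * p = p * T) (hT : ∀ w ∈ W, T w ∈ W) {w : V} (hw : w ∈ kerP p W) : T w ∈ kerP p W := by
  rw [mem_kerP] at hw ⊢
  refine ⟨hT w hw.1, ?_⟩
  rw [← Module.End.mul_apply, ← h, Module.End.mul_apply, hw.2, map_zero]

theorem finrank_pos_of_mem {V : Type*} [AddCommGroup V] [Module ℂ V] [FiniteDimensional ℂ V]
    {W : Submodule ℂ V} {w : V} (hw : w ∈ W) (h0 : w ≠ 0) : 0 < finrank ℂ W :=
  Nat.pos_of_ne_zero fun h => ne_bot_of_mem hw h0 (Submodule.finrank_eq_zero.1 h)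

/-- commuting finite groups, nonabelian on `W`: at most `dim W / 2` of them -/
theorem main_bound {V : Type*} [AddCommGroup V] [Module ℂ V] [FiniteDimensional ℂ V]
    {ι : Type*} [DecidableEq ι] {H : ι → Type*} [∀ i, Group (H i)] [∀ i, Finite (H i)]
    (ρ : ∀ i, H i →* End ℂ V) (hcomm : ∀ i j, i ≠ j → ∀ x y, ρ i x * ρ j y = ρ j y * ρ i x) :
    ∀ (d : ℕ) (W : Submodule ℂ V) (S : Finset ι), finrank ℂ W = d →
      (∀ i ∈ S, ∀ g, ∀ w ∈ W, ρ i g w ∈ W) → (∀ i ∈ S, NA (ρ i) W) → 2 * S.card ≤ d := by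
  classical
  intro d
  induction d using Nat.strong_induction_on with
  | _ d ih =>
  intro W S hd hinv hNA
  by_cases hA : ∃ i ∈ S, ∃ w ∈ W, w ≠ 0 ∧ avg (ρ i) w = w
  · -- the commutator subgroup of one group has a fixed vector
    obtain ⟨i, hi, u, hu, hu0, hfix⟩ := hA
    set e := avg (ρ i) with he
    have hp : ∀ w ∈ W, e (e w) = e w := fun w _ => avg_idem _ w
    have hpW : ∀ w ∈ W, e w ∈ W := fun w hw => avg_mem _ (hinv i hi) hw
    have hce : ∀ j ∈ S, ∀ g, ρ j g * e = e * ρ j g := by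
      intro j _ g
      by_cases hij : j = i
      · subst hij; exact avg_comm_self _ g
      · exact avg_comm _ fun g' => hcomm j i hij g g'
    have hsum := finrank_split hp hpW
    have h1 : 0 < finrank ℂ (fixP e W) := finrank_pos_of_mem (mem_fixP.2 ⟨hu, hfix⟩) hu0
    have h2 : 0 < finrank ℂ (kerP e W) := by
      by_contra hcon
      have h3 : kerP e W = ⊥ := Submodule.finrank_eq_zero.1 (by omega)
      obtain ⟨x, y, w, hw, hne⟩ := hNA i hi
      apply hne
      have hall : ∀ w ∈ W, e w = w := by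
        intro w hw
        have h4 : w - e w ∈ kerP e W := mem_kerP.2 ⟨W.sub_mem hw (hpW w hw), by
          rw [map_sub, hp w hw, sub_self]⟩
        rw [h3, Submodule.mem_bot, sub_eq_zero] at h4
        exact h4.symm
      have hyx : ρ i y (ρ i x w) ∈ W := hinv i hi _ _ (hinv i hi _ _ hw)
      have hcm : x * y * x⁻¹ * y⁻¹ ∈ commutator (H i) := by
        rw [← commutatorElement_def]
        exact Subgroup.commutator_mem_commutator (Subgroup.mem_top x) (Subgroup.mem_top y)
      have h5 := fix_of_avg (ρ i) (hall _ hyx) hcm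
      rw [← h5, ← Module.End.mul_apply, ← Module.End.mul_apply, ← Module.End.mul_apply, ← map_mul,
        ← map_mul, ← map_mul]
      congr 2
      group
    have hS : S.card ≤ (S.filter fun j => NA (ρ j) (fixP e W)).card
        + (S.filter fun j => NA (ρ j) (kerP e W)).card := by
      refine le_trans (Finset.card_le_card fun j hj => ?_) (Finset.card_union_le _ _)
      rw [Finset.mem_union, Finset.mem_filter, Finset.mem_filter]
      rcases NA_split hp hpW (hNA j hj) with h3 | h3
      · exact Or.inl ⟨hj, h3⟩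
      · exact Or.inr ⟨hj, h3⟩
    have i1 := ih (finrank ℂ (fixP e W)) (by omega) (fixP e W)
      (S.filter fun j => NA (ρ j) (fixP e W)) rfl
      (fun j hj g w hw => inv_fixP (hce j (Finset.mem_filter.1 hj).1 g)
        (hinv j (Finset.mem_filter.1 hj).1 g) hw)
      (fun j hj => (Finset.mem_filter.1 hj).2)
    have i2 := ih (finrank ℂ (kerP e W)) (by omega) (kerP e W)
      (S.filter fun j => NA (ρ j) (kerP e W)) rfl
      (fun j hj g w hw => inv_kerP (hce j (Finset.mem_filter.1 hj).1 g)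
        (hinv j (Finset.mem_filter.1 hj).1 g) hw)
      (fun j hj => (Finset.mem_filter.1 hj).2)
    omega
  · -- no fixed vectors at all
    have hB : ∀ i ∈ S, ∀ w ∈ W, avg (ρ i) w = w → w = 0 := by
      intro i hi w hw h
      by_contra h0
      exact hA ⟨i, hi, w, hw, h0, h⟩
    rcases S.eq_empty_or_nonempty with rfl | ⟨i, hi⟩
    · simp
    obtain ⟨x, y, w₁, hw₁, hne⟩ := hNA i hi
    have hw0 : w₁ ≠ 0 := by
      rintro rfl
      apply hne
      simp
    -- an eigenvalue of `ρ i x` on `W`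
    let T : End ℂ W := (ρ i x).restrict (hinv i hi x)
    have : Nontrivial W := ⟨⟨⟨w₁, hw₁⟩, 0, fun h => hw0 (congrArg Subtype.val h)⟩⟩
    obtain ⟨c, hc⟩ := Module.End.exists_eigenvalue T
    obtain ⟨v, hv⟩ := hc.exists_hasEigenvector
    have hv1 : ρ i x (v : V) = c • (v : V) := by
      have := congrArg Subtype.val hv.apply_eq_smul
      exact this
    have hv0 : (v : V) ≠ 0 := fun h => hv.2 (Subtype.ext h)
    -- the order of `x`
    set N := orderOf x with hNdef
    have hN : 0 < N := orderOf_pos x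
    have hxN : (ρ i x) ^ N = 1 := by rw [← map_pow, pow_orderOf_eq_one, map_one]
    have hcN : c ^ N = 1 := by
      have h1 : ∀ k : ℕ, ((ρ i x) ^ k) (v : V) = c ^ k • (v : V) := by
        intro k
        induction k with
        | zero => rw [pow_zero, pow_zero, one_smul, Module.End.one_apply]
        | succ k ih => rw [pow_succ, Module.End.mul_apply, hv1, map_smul, ih, smul_smul, pow_succ, mul_comm]
      have h2 := h1 N
      rw [hxN, Module.End.one_apply] at h2
      by_contra h3
      apply hv0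
      have h4 : (c ^ N - 1) • (v : V) = 0 := by rw [sub_smul, one_smul, ← h2, sub_self]
      rcases smul_eq_zero.1 h4 with h5 | h5
      · exact absurd (sub_eq_zero.1 h5) h3
      · exact h5
    have hc0 : c ≠ 0 := by
      rintro rfl
      rw [zero_pow hN.ne'] at hcN
      exact zero_ne_one hcN
    set z : End ℂ V := c⁻¹ • ρ i x with hz
    have hzN : z ^ N = 1 := by rw [hz, smul_pow, hxN, inv_pow, hcN, inv_one, one_smul]
    have hzW : ∀ w ∈ W, z w ∈ W := fun w hw => by
      rw [hz, LinearMap.smul_apply]; exact W.smul_mem _ (hinv i hi x w hw)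
    set p := pr z N with hpdef
    have hp : ∀ w ∈ W, p (p w) = p w := fun w _ => pr_idem hN hzN w
    have hpW : ∀ w ∈ W, p w ∈ W := fun w hw => pr_mem hzW hw
    have hsum := finrank_split hp hpW
    have hfixz : ∀ w, p w = w → ρ i x w = c • w := by
      intro w hw
      have h1 := fix_of_pr hzN hw
      rw [hz, LinearMap.smul_apply] at h1
      rw [← h1, smul_smul, mul_inv_cancel₀ hc0, one_smul, h1]
    have hvfix : (v : V) ∈ fixP p W := by
      refine mem_fixP.2 ⟨v.2, pr_apply_of_fix hN ?_⟩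
      rw [hz, LinearMap.smul_apply, hv1, smul_smul, inv_mul_cancel₀ hc0, one_smul]
    have h1 : 0 < finrank ℂ (fixP p W) := finrank_pos_of_mem hvfix hv0
    have h2 : 0 < finrank ℂ (kerP p W) := by
      by_contra hcon
      have h3 : kerP p W = ⊥ := Submodule.finrank_eq_zero.1 (by omega)
      apply hne
      have hall : ∀ w ∈ W, p w = w := by
        intro w hw
        have h4 : w - p w ∈ kerP p W := mem_kerP.2 ⟨W.sub_mem hw (hpW w hw), by
          rw [map_sub, hp w hw, sub_self]⟩
        rw [h3, Submodule.mem_bot, sub_eq_zero] at h4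
        exact h4.symm
      rw [hfixz _ (hall _ (hinv i hi y _ hw₁)), hfixz _ (hall _ hw₁), map_smul]
    have hcp : ∀ j ∈ S.erase i, ∀ g, ρ j g * p = p * ρ j g := by
      intro j hj g
      refine pr_comm ?_
      rw [hz, mul_smul_comm, smul_mul_assoc, hcomm j i (Finset.ne_of_mem_erase hj)]
    -- nonabelian on nonzero invariant subspaces of `W`
    have hNA' : ∀ W' : Submodule ℂ V, W' ≤ W → 0 < finrank ℂ W' → ∀ j ∈ S,
        (∀ g, ∀ w ∈ W', ρ j g w ∈ W') → NA (ρ j) W' := by
      intro W' hle hpos j hj hinv'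
      by_contra hcon
      obtain ⟨u, hu, hu0⟩ := (Submodule.ne_bot_iff W').1 (fun h => by
        rw [h, finrank_bot] at hpos
        exact absurd hpos (lt_irrefl 0))
      exact hu0 (hB j hj u (hle hu) (avg_apply_of_fix _ fun d hd => fix_of_not_NA _ hinv' hcon hu hd))
    have j1 : ∀ j ∈ S.erase i, ∀ g, ∀ w ∈ fixP p W, ρ j g w ∈ fixP p W := fun j hj g w hw =>
      inv_fixP (hcp j hj g) (hinv j (Finset.mem_of_mem_erase hj) g) hw
    have j2 : ∀ j ∈ S.erase i, ∀ g, ∀ w ∈ kerP p W, ρ j g w ∈ kerP p W := fun j hj g w hw =>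
      inv_kerP (hcp j hj g) (hinv j (Finset.mem_of_mem_erase hj) g) hw
    have i1 := ih (finrank ℂ (fixP p W)) (by omega) (fixP p W) (S.erase i) rfl j1
      (fun j hj => hNA' _ inf_le_left h1 j (Finset.mem_of_mem_erase hj) (j1 j hj))
    have i2 := ih (finrank ℂ (kerP p W)) (by omega) (kerP p W) (S.erase i) rfl j2
      (fun j hj => hNA' _ inf_le_left h2 j (Finset.mem_of_mem_erase hj) (j2 j hj))
    rw [Finset.card_erase_of_mem hi] at i1 i2
    have := Finset.card_pos.2 ⟨i, hi⟩
    omega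

/-- LEMMA D (linear algebra): pairwise commuting finite nonabelian subgroups of `GL(m, ℤ)`:
there are at most `m / 2` of them. -/
theorem comm_bound {m : ℕ} {ι : Type} [Fintype ι]
    (Γ : ι → Subgroup (Matrix.GeneralLinearGroup (Fin m) ℤ))
    (hfin : ∀ i, Finite (Γ i))
    (hcomm : ∀ i j, i ≠ j → ∀ x ∈ Γ i, ∀ y ∈ Γ j, x * y = y * x)
    (hna : ∀ i, ∃ x ∈ Γ i, ∃ y ∈ Γ i, x * y ≠ y * x) :
    2 * Fintype.card ι ≤ m := by
  classical
  let φ : Matrix (Fin m) (Fin m) ℤ →* End ℂ (Fin m → ℂ) :=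
    ((Matrix.toLinAlgEquiv' (R := ℂ) (n := Fin m)).toAlgHom.toRingHom.comp
      ((Int.castRingHom ℂ).mapMatrix (m := Fin m))).toMonoidHom
  have hφ : Function.Injective φ := by
    intro A B h
    have h1 : (Int.castRingHom ℂ).mapMatrix A = (Int.castRingHom ℂ).mapMatrix B :=
      (Matrix.toLinAlgEquiv' (R := ℂ) (n := Fin m)).injective h
    ext i j
    have h2 := congrFun (congrFun h1 i) j
    simpa using h2
  let ρ : ∀ i, Γ i →* End ℂ (Fin m → ℂ) := fun i =>
    (φ.comp (Units.coeHom _)).comp (Γ i).subtype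
  have h := main_bound (V := Fin m → ℂ) ρ (by
    intro i j hij x y
    have h1 := hcomm i j hij x x.2 y y.2
    show φ (x : Matrix.GeneralLinearGroup (Fin m) ℤ).val * φ (y : Matrix.GeneralLinearGroup (Fin m) ℤ).val
      = φ (y : Matrix.GeneralLinearGroup (Fin m) ℤ).val * φ (x : Matrix.GeneralLinearGroup (Fin m) ℤ).val
    rw [← map_mul φ, ← map_mul φ, ← Units.val_mul, ← Units.val_mul, h1]) m ⊤ Finset.univ (by
      rw [finrank_top, Module.finrank_fin_fun]) (fun _ _ _ _ _ => Submodule.mem_top) (by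
      intro i _
      obtain ⟨x, hx, y, hy, hne⟩ := hna i
      by_contra hcon
      apply hne
      apply Units.ext
      apply hφ
      apply LinearMap.ext
      intro w
      by_contra h3
      refine hcon ⟨⟨x, hx⟩, ⟨y, hy⟩, w, Submodule.mem_top, ?_⟩
      intro h4
      apply h3
      show φ _ w = φ _ w
      rw [Units.val_mul, Units.val_mul, map_mul, map_mul, Module.End.mul_apply, Module.End.mul_apply]
      exact h4)
  rwa [Finset.card_univ] at h

end IAQ
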