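import Mathlib
import Pool.Agent.IAQ.LinD

/-!
# Pairs of noncommuting matrices, commuting with each other
-/

set_option autoImplicit false

namespace IAQ

open Module

theorem pair_main {V : Type*} [AddCommGroup V] [Module ℂ V] [FiniteDimensional ℂ V]
    {ι : Type*} [DecidableEq ι] (X Y : ι → End ℂ V) (N : ι → ℕ) (hN : ∀ i, 0 < N i)
    (hX : ∀ i, X i ^ N i = 1) (hXX : ∀ i j, i ≠ j → X i * X j = X j * X i)
    (hXY : ∀ i j, i ≠ j → X i * Y j = Y j * X i) :
    ∀ (d : ℕ) (W : Submodule ℂ V) (S : Finset ι), finrank ℂ W = d → S.Nonempty →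
      (∀ i ∈ S, ∀ w ∈ W, X i w ∈ W) → (∀ i ∈ S, ∀ w ∈ W, Y i w ∈ W) →
      (∀ i ∈ S, ∃ w ∈ W, X i (Y i w) ≠ Y i (X i w)) → S.card + 1 ≤ d := by
  classical
  intro d
  induction d using Nat.strong_induction_on with
  | _ d ih =>
  intro W S hd hS hXW hYW hNC
  obtain ⟨i, hi⟩ := hS
  obtain ⟨w₁, hw₁, hne⟩ := hNC i hi
  have hw0 : w₁ ≠ 0 := by
    rintro rfl
    apply hne
    simp
  -- an eigenvalue of `X i` on `W`
  let T : End ℂ W := (X i).restrict (hXW i hi)
  have : Nontrivial W := ⟨⟨⟨w₁, hw₁⟩, 0, fun h => hw0 (congrArg Subtype.val h)⟩⟩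
  obtain ⟨c, hc⟩ := Module.End.exists_eigenvalue T
  obtain ⟨v, hv⟩ := hc.exists_hasEigenvector
  have hv1 : X i (v : V) = c • (v : V) := by
    have := congrArg Subtype.val hv.apply_eq_smul
    exact this
  have hv0 : (v : V) ≠ 0 := fun h => hv.2 (Subtype.ext h)
  have hcN : c ^ N i = 1 := by
    have h1 : ∀ k : ℕ, ((X i) ^ k) (v : V) = c ^ k • (v : V) := by
      intro k
      induction k with
      | zero => rw [pow_zero, pow_zero, one_smul, Module.End.one_apply]
      | succ k ih =>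
        rw [pow_succ, Module.End.mul_apply, hv1, map_smul, ih, smul_smul, pow_succ, mul_comm]
    have h2 := h1 (N i)
    rw [hX, Module.End.one_apply] at h2
    by_contra h3
    apply hv0
    have h4 : (c ^ N i - 1) • (v : V) = 0 := by rw [sub_smul, one_smul, ← h2, sub_self]
    rcases smul_eq_zero.1 h4 with h5 | h5
    · exact absurd (sub_eq_zero.1 h5) h3
    · exact h5
  have hc0 : c ≠ 0 := by
    rintro rfl
    rw [zero_pow (hN i).ne'] at hcN
    exact zero_ne_one hcN
  set z : End ℂ V := c⁻¹ • X i with hz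
  have hzN : z ^ N i = 1 := by rw [hz, smul_pow, hX, inv_pow, hcN, inv_one, one_smul]
  have hzW : ∀ w ∈ W, z w ∈ W := fun w hw => by
    rw [hz, LinearMap.smul_apply]; exact W.smul_mem _ (hXW i hi w hw)
  set p := pr z (N i) with hpdef
  have hp : ∀ w ∈ W, p (p w) = p w := fun w _ => pr_idem (hN i) hzN w
  have hpW : ∀ w ∈ W, p w ∈ W := fun w hw => pr_mem hzW hw
  have hsum := finrank_split hp hpW
  have hfixz : ∀ w, p w = w → X i w = c • w := by
    intro w hw
    have h1 := fix_of_pr hzN hw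
    rw [hz, LinearMap.smul_apply] at h1
    rw [← h1, smul_smul, mul_inv_cancel₀ hc0, one_smul, h1]
  have hvfix : (v : V) ∈ fixP p W := by
    refine mem_fixP.2 ⟨v.2, pr_apply_of_fix (hN i) ?_⟩
    rw [hz, LinearMap.smul_apply, hv1, smul_smul, inv_mul_cancel₀ hc0, one_smul]
  have h1 : 0 < finrank ℂ (fixP p W) := finrank_pos_of_mem hvfix hv0
  have h2 : 0 < finrank ℂ (kerP p W) := by
    by_contra hcon
    have h3 : kerP p W = ⊥ := Submodule.finrank_eq_zero.1 (by omega)
    apply hne
    have hall : ∀ w ∈ W, p w = w := by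
      intro w hw
      have h4 : w - p w ∈ kerP p W := mem_kerP.2 ⟨W.sub_mem hw (hpW w hw), by
        rw [map_sub, hp w hw, sub_self]⟩
      rw [h3, Submodule.mem_bot, sub_eq_zero] at h4
      exact h4.symm
    rw [hfixz _ (hall _ (hYW i hi _ hw₁)), hfixz _ (hall _ hw₁), map_smul]
  have hcX : ∀ j ∈ S.erase i, X j * p = p * X j := by
    intro j hj
    refine pr_comm ?_
    rw [hz, mul_smul_comm, smul_mul_assoc, hXX j i (Finset.ne_of_mem_erase hj)]
  have hcY : ∀ j ∈ S.erase i, Y j * p = p * Y j := by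
    intro j hj
    refine pr_comm ?_
    rw [hz, mul_smul_comm, smul_mul_assoc, hXY i j (Ne.symm (Finset.ne_of_mem_erase hj))]
  -- one of the two parts
  have hsplit : ∀ j ∈ S.erase i, (∃ w ∈ fixP p W, X j (Y j w) ≠ Y j (X j w)) ∨
      ∃ w ∈ kerP p W, X j (Y j w) ≠ Y j (X j w) := by
    intro j hj
    by_contra hcon
    rw [not_or] at hcon
    obtain ⟨g1, g2⟩ := hcon
    obtain ⟨w, hw, hnej⟩ := hNC j (Finset.mem_of_mem_erase hj)
    apply hnej
    have e1 : X j (Y j (p w)) = Y j (X j (p w)) := by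
      by_contra h3
      exact g1 ⟨p w, mem_fixP.2 ⟨hpW w hw, hp w hw⟩, h3⟩
    have e2 : X j (Y j (w - p w)) = Y j (X j (w - p w)) := by
      by_contra h3
      refine g2 ⟨w - p w, mem_kerP.2 ⟨W.sub_mem hw (hpW w hw), ?_⟩, h3⟩
      rw [map_sub, hp w hw, sub_self]
    simp only [map_sub] at e2
    rw [e1] at e2
    exact sub_left_injective e2
  -- the induction hypothesis on an invariant part
  have part : ∀ W' : Submodule ℂ V, 0 < finrank ℂ W' → finrank ℂ W' < d →
      (∀ j ∈ S.erase i, ∀ w ∈ W', X j w ∈ W') → (∀ j ∈ S.erase i, ∀ w ∈ W', Y j w ∈ W') →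
      ((S.erase i).filter fun j => ∃ w ∈ W', X j (Y j w) ≠ Y j (X j w)).card + 1 ≤
        finrank ℂ W' := by
    intro W' hpos hlt k1 k2
    rcases ((S.erase i).filter fun j => ∃ w ∈ W', X j (Y j w) ≠ Y j (X j w)).eq_empty_or_nonempty
      with he | hne'
    · rw [he, Finset.card_empty]
      omega
    · exact ih _ hlt W' _ rfl hne' (fun j hj => k1 j (Finset.mem_filter.1 hj).1)
        (fun j hj => k2 j (Finset.mem_filter.1 hj).1) (fun j hj => (Finset.mem_filter.1 hj).2)
  have i1 := part (fixP p W) h1 (by omega)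
    (fun j hj w hw => inv_fixP (hcX j hj) (hXW j (Finset.mem_of_mem_erase hj)) hw)
    (fun j hj w hw => inv_fixP (hcY j hj) (hYW j (Finset.mem_of_mem_erase hj)) hw)
  have i2 := part (kerP p W) h2 (by omega)
    (fun j hj w hw => inv_kerP (hcX j hj) (hXW j (Finset.mem_of_mem_erase hj)) hw)
    (fun j hj w hw => inv_kerP (hcY j hj) (hYW j (Finset.mem_of_mem_erase hj)) hw)
  have hcard : (S.erase i).card ≤
      ((S.erase i).filter fun j => ∃ w ∈ fixP p W, X j (Y j w) ≠ Y j (X j w)).card +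
      ((S.erase i).filter fun j => ∃ w ∈ kerP p W, X j (Y j w) ≠ Y j (X j w)).card := by
    refine le_trans (Finset.card_le_card fun j hj => ?_) (Finset.card_union_le _ _)
    rw [Finset.mem_union, Finset.mem_filter, Finset.mem_filter]
    rcases hsplit j hj with h3 | h3
    · exact Or.inl ⟨hj, h3⟩
    · exact Or.inr ⟨hj, h3⟩
  rw [Finset.card_erase_of_mem hi] at hcard
  omega

/-- MODULE D2 (file Pool/Agent/IAQ/Pair.lean) -/
theorem pair_bound {m : ℕ} {ι : Type} [Fintype ι] [Nonempty ι]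
    (x y : ι → Matrix.GeneralLinearGroup (Fin m) ℤ)
    (hx : ∀ i, IsOfFinOrder (x i))
    (hxx : ∀ i j, i ≠ j → x i * x j = x j * x i)
    (hxy : ∀ i j, i ≠ j → x i * y j = y j * x i)
    (hyy : ∀ i j, i ≠ j → y i * y j = y j * y i)
    (hna : ∀ i, x i * y i ≠ y i * x i) :
    Fintype.card ι + 1 ≤ m := by
  classical
  let φ : Matrix (Fin m) (Fin m) ℤ →* End ℂ (Fin m → ℂ) :=
    ((Matrix.toLinAlgEquiv' (R := ℂ) (n := Fin m)).toAlgHom.toRingHom.comp
      ((Int.castRingHom ℂ).mapMatrix (m := Fin m))).toMonoidHom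
  have hφ : Function.Injective φ := by
    intro A B h
    have h1 : (Int.castRingHom ℂ).mapMatrix A = (Int.castRingHom ℂ).mapMatrix B :=
      (Matrix.toLinAlgEquiv' (R := ℂ) (n := Fin m)).injective h
    ext i j
    have h2 := congrFun (congrFun h1 i) j
    simpa using h2
  choose N hN hxN using fun i => (isOfFinOrder_iff_pow_eq_one).1 (hx i)
  have hmul : ∀ a b : Matrix.GeneralLinearGroup (Fin m) ℤ, a * b = b * a →
      φ a.val * φ b.val = φ b.val * φ a.val := by
    intro a b h
    rw [← map_mul φ, ← map_mul φ, ← Units.val_mul, ← Units.val_mul, h]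
  have h := pair_main (V := Fin m → ℂ) (fun i => φ (x i).val) (fun i => φ (y i).val) N hN
    (fun i => by
      rw [← map_pow φ, ← Units.val_pow_eq_pow_val, hxN, Units.val_one, map_one])
    (fun i j hij => hmul _ _ (hxx i j hij)) (fun i j hij => hmul _ _ (hxy i j hij))
    m ⊤ Finset.univ (by rw [finrank_top, Module.finrank_fin_fun]) Finset.univ_nonempty
    (fun _ _ _ _ => Submodule.mem_top) (fun _ _ _ _ => Submodule.mem_top) (by
      intro i _
      by_contra hcon
      apply hna i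
      apply Units.ext
      apply hφ
      apply LinearMap.ext
      intro w
      by_contra h3
      refine hcon ⟨w, Submodule.mem_top, ?_⟩
      intro h4
      apply h3
      show φ _ w = φ _ w
      rw [Units.val_mul, Units.val_mul, map_mul, map_mul, Module.End.mul_apply,
        Module.End.mul_apply]
      exact h4)
  rwa [Finset.card_univ] at h

end IAQ
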