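import Mathlib
import Pool.Agent.IAQ.KOne
import Pool.Agent.IAQ.Pair

/-!
# Torsion from the theorem on transvections; `R a w`, `w ∈ γ₃` a word in two letters
-/

set_option autoImplicit false
set_option linter.style.haveILetI false

namespace IAQ

open AFn

variable {n m : ℕ} (Hin : Subgroup (MulAut (FreeGroup (Fin n))))
  (ρ : Hin →* Matrix.GeneralLinearGroup (Fin m) ℤ)

/-- (K0) torsion modulo the kernel -/
theorem K0 (hf : Hin.FiniteIndex) (hm : m + 2 ≤ n) :
    ∃ N : ℕ, 0 < N ∧ ∀ a b : Fin n,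
      R a (FreeGroup.of b) ^ N ∈ kap Hin ρ ∧ C a (FreeGroup.of b) ^ N ∈ kap Hin ρ := by
  classical
  obtain ⟨K, hKf, hKc, hK⟩ := final_core5 n m Hin hf ρ
  haveI := hKf
  haveI hKn : K.Normal := ⟨fun g hg c => hKc (MulAut.conj c) g hg⟩
  refine ⟨K.index, Nat.pos_of_ne_zero hKf.index_ne_zero, ?_⟩
  intro a b
  by_cases hab : a = b
  · subst hab
    rw [← R_killed, ← C_killed, kill_of_self, map_one, map_one, one_pow]
    exact ⟨Subgroup.one_mem _, Subgroup.one_mem _⟩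
  obtain ⟨W, hW⟩ : ∃ W : Finset (Fin n), W = {b} := ⟨_, rfl⟩
  have ha : a ∉ W := by rw [hW]; simpa using hab
  have hw : FreeGroup.of b ∈ fsub W := of_mem_fsub (by rw [hW]; simp)
  have hwK : FreeGroup.of b ^ K.index ∈ K := Subgroup.pow_index_mem K _
  have hwW : FreeGroup.of b ^ K.index ∈ fsub W := (fsub W).pow_mem hw _
  obtain ⟨v, hv⟩ : ∃ v, v = FreeGroup.of b ^ K.index := ⟨_, rfl⟩
  rw [← hv] at hwK hwW
  have hkv : kill a v = v := kill_eq hwW ha
  have hcond : W.card + m + 1 ≤ n ∨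
      (W.card + 4 ≤ n ∧ m + 2 ≤ n ∧ m ≤ 2 ^ (n - 2 - W.card) + 1) := by
    left
    rw [hW, Finset.card_singleton]
    omega
  rw [← map_pow, ← map_pow, ← hv, mem_kap, mem_kap]
  refine ⟨fun β => ?_, fun β => ?_⟩
  · rw [mem_KerH]
    refine hK β W hcond 1 K.one_mem (Subgroup.one_mem _)
      (fun _ => 1) (fun c => if c = a then v else 1) ?_ (R a v) ?_ ?_
    · intro c hc
      by_cases h : c = a
      · rw [if_pos h]
        exact ⟨K.one_mem, Subgroup.one_mem _, hwK, hwW⟩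
      · rw [if_neg h]
        exact ⟨K.one_mem, Subgroup.one_mem _, K.one_mem, Subgroup.one_mem _⟩
    · intro c hc
      have hca : c ≠ a := fun h => ha (h ▸ hc)
      rw [R_of_ne hca]
      group
    · intro c hc
      by_cases h : c = a
      · subst h
        rw [if_pos rfl, R_of_self, hkv, one_mul]
      · rw [if_neg h, R_of_ne h]
        group
  · rw [mem_KerH]
    refine hK β W hcond 1 K.one_mem (Subgroup.one_mem _)
      (fun c => if c = a then v⁻¹ else 1) (fun c => if c = a then v else 1) ?_ (C a v) ?_ ?_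
    · intro c hc
      by_cases h : c = a
      · rw [if_pos h, if_pos h]
        exact ⟨K.inv_mem hwK, Subgroup.inv_mem _ hwW, hwK, hwW⟩
      · rw [if_neg h, if_neg h]
        exact ⟨K.one_mem, Subgroup.one_mem _, K.one_mem, Subgroup.one_mem _⟩
    · intro c hc
      have hca : c ≠ a := fun h => ha (h ▸ hc)
      rw [C_of_ne hca]
      group
    · intro c hc
      by_cases h : c = a
      · subst h
        rw [if_pos rfl, if_pos rfl, C_of_self, hkv]
      · rw [if_neg h, if_neg h, C_of_ne h]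
        group

variable (hIA : IA (FreeGroup (Fin n)) ≤ Hin)

theorem rb_finOrder (β : MulAut (FreeGroup (Fin n))) {g : IA (FreeGroup (Fin n))} {N : ℕ}
    (hN : 0 < N) (hg : g.1 ^ N ∈ kap Hin ρ) : IsOfFinOrder (rb Hin ρ hIA β g) := by
  rw [isOfFinOrder_iff_pow_eq_one]
  refine ⟨N, hN, ?_⟩
  rw [← map_pow, rb_eq_one]
  rw [mem_kap] at hg
  exact hg β

/-- the elements of `IA` given by partial conjugations -/
def cIA (a : Fin n) (w : FreeGroup (Fin n)) : IA (FreeGroup (Fin n)) := ⟨C a w, C_mem_IA a w⟩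

/-- the elements of `IA` given by `R a (ret W w)` with `w ∈ γ₂` -/
def rIA (a : Fin n) (W : Finset (Fin n)) (w : g2 (FreeGroup (Fin n))) :
    IA (FreeGroup (Fin n)) := ⟨R a (ret W w.1), R_mem_IA a (hom_g2 _ w.2)⟩

theorem cIA_mem_Gam (β : MulAut (FreeGroup (Fin n))) {W : Finset (Fin n)} {a v : Fin n}
    (hv : v ∈ W) : rb Hin ρ hIA β (cIA a (FreeGroup.of v)) ∈ Gam Hin ρ hIA β W a := by
  rw [mem_Gam]
  refine ⟨_, ⟨(FreeGroup.of v, FreeGroup.of v), ?_⟩, rfl⟩
  rw [Phi_apply]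
  show L a (ret W (FreeGroup.of v)) * R a (ret W (FreeGroup.of v)) = C a (FreeGroup.of v)
  rw [ret_eq (of_mem_fsub hv), C_eq]

theorem rIA_mem_Gam (β : MulAut (FreeGroup (Fin n))) {W : Finset (Fin n)} {a : Fin n}
    (w : g2 (FreeGroup (Fin n))) :
    rb Hin ρ hIA β (rIA a W w) ∈ Gam Hin ρ hIA β W a := by
  rw [mem_Gam]
  refine ⟨_, ⟨(1, w.1), ?_⟩, rfl⟩
  rw [Phi_apply]
  show L a (ret W 1) * R a (ret W w.1) = R a (ret W w.1)
  rw [map_one, map_one, one_mul]

/-- a bad letter gives a noncommuting pair -/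
theorem bad_pair {β : MulAut (FreeGroup (Fin n))} {W : Finset (Fin n)} {a : Fin n}
    (hbad : Bad Hin ρ β W a) :
    ∃ v ∈ W, ∃ w : g2 (FreeGroup (Fin n)),
      rb Hin ρ hIA β (cIA a (FreeGroup.of v)) * rb Hin ρ hIA β (rIA a W w) ≠
        rb Hin ρ hIA β (rIA a W w) * rb Hin ρ hIA β (cIA a (FreeGroup.of v)) := by
  by_contra hcon
  push Not at hcon
  -- the partial conjugations by words in `W` commute with the `R a w`
  obtain ⟨f, hf⟩ : ∃ f : FreeGroup (Fin n) →* Matrix.GeneralLinearGroup (Fin m) ℤ,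
      ∀ v, f v = rb Hin ρ hIA β (cIA a (ret W v)) := by
    refine ⟨(rb Hin ρ hIA β).comp (((C a).comp (ret W)).codRestrict _ fun v => C_mem_IA a _),
      fun v => rfl⟩
  have h1 : ∀ (w : g2 (FreeGroup (Fin n))) (v : FreeGroup (Fin n)),
      f v * rb Hin ρ hIA β (rIA a W w) = rb Hin ρ hIA β (rIA a W w) * f v := by
    intro w v
    refine comm_letters f (fun x => ?_) v
    rw [hf]
    by_cases hx : x ∈ W
    · rw [ret_eq (of_mem_fsub hx)]
      exact hcon x hx w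
    · have e : ret W (FreeGroup.of x) = 1 := by simp [ret, hx]
      have e2 : cIA a (ret W (FreeGroup.of x)) = 1 := by
        rw [e]
        exact Subtype.ext (map_one (C a))
      rw [e2, map_one, one_mul, mul_one]
  obtain ⟨g, hg⟩ : ∃ f : FreeGroup (Fin n) →* MulAut (FreeGroup (Fin n)),
      ∀ w, f w = β * R a (ret W w) * β⁻¹ :=
    ⟨((MulAut.conj β).toMonoidHom).comp ((R a).comp (ret W)), fun w => rfl⟩
  have h : g3 (FreeGroup (Fin n)) ≤ (KerH Hin ρ).comap g := by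
    refine g3_le fun v hv w => ?_
    rw [Subgroup.mem_comap, hg]
    have hret : ret W (v * w * v⁻¹ * w⁻¹) =
        ret W v * ret W w * (ret W v)⁻¹ * (ret W w)⁻¹ := by
      rw [map_mul, map_mul, map_mul, map_inv, map_inv]
    rw [hret]
    have h3 := h1 ⟨v, hv⟩ w
    rw [hf] at h3
    have h4 : rb Hin ρ hIA β (rIA a W ⟨v, hv⟩ * (cIA a (ret W w) * rIA a W ⟨v, hv⟩ *
        (cIA a (ret W w))⁻¹)⁻¹) = 1 := by
      rw [map_mul, map_inv, map_mul, map_mul, map_inv, h3]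
      group
    rw [rb_eq_one] at h4
    have e : (rIA a W ⟨v, hv⟩ * (cIA a (ret W w) * rIA a W ⟨v, hv⟩ *
        (cIA a (ret W w))⁻¹)⁻¹ : IA (FreeGroup (Fin n))).1 =
        R a (ret W v * ret W w * (ret W v)⁻¹ * (ret W w)⁻¹) := by
      rw [Subgroup.coe_mul, Subgroup.coe_inv, Subgroup.coe_mul, Subgroup.coe_mul,
        Subgroup.coe_inv]
      show R a (ret W v) * (C a (ret W w) * R a (ret W v) * (C a (ret W w))⁻¹)⁻¹ = _
      rw [C_conj_R, ← map_inv, ← map_mul]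
      congr 1
      group
    rw [e] at h4
    exact h4
  obtain ⟨w, hw, hw2⟩ := hbad
  have := h hw
  rw [Subgroup.mem_comap, hg] at this
  exact hw2 this

include hIA in
/-- (K1 for two letters) -/
theorem K1W2 (hf : Hin.FiniteIndex) (hm : m + 2 ≤ n)
    {W : Finset (Fin n)} (hW : W.card ≤ 2) (β : MulAut (FreeGroup (Fin n))) {a : Fin n}
    (ha : a ∉ W) : ∀ w ∈ g3 (FreeGroup (Fin n)), β * R a (ret W w) * β⁻¹ ∈ KerH Hin ρ := by
  classical
  refine K1W_of Hin ρ hIA (fun β => ?_) β ha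
  by_contra hcon
  push Not at hcon
  obtain ⟨N, hN, hK⟩ := K0 Hin ρ hf hm
  have hp : ∀ b : {b : Fin n // b ∉ W}, ∃ v ∈ W, ∃ w : g2 (FreeGroup (Fin n)),
      rb Hin ρ hIA β (cIA b.1 (FreeGroup.of v)) * rb Hin ρ hIA β (rIA b.1 W w) ≠
        rb Hin ρ hIA β (rIA b.1 W w) * rb Hin ρ hIA β (cIA b.1 (FreeGroup.of v)) :=
    fun b => bad_pair Hin ρ hIA (hcon b.1 b.2)
  choose v hv w hvw using hp
  haveI : Nonempty {b : Fin n // b ∉ W} := ⟨⟨a, ha⟩⟩
  have hne : ∀ b c : {b : Fin n // b ∉ W}, b ≠ c → b.1 ≠ c.1 :=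
    fun b c h h' => h (Subtype.ext h')
  have h := pair_bound (ι := {b : Fin n // b ∉ W})
    (fun b => rb Hin ρ hIA β (cIA b.1 (FreeGroup.of (v b))))
    (fun b => rb Hin ρ hIA β (rIA b.1 W (w b)))
    (fun b => rb_finOrder Hin ρ hIA β hN (hK b.1 (v b)).2)
    (fun b c hbc => Gam_comm Hin ρ hIA β (hne b c hbc) b.2 c.2 _
      (cIA_mem_Gam Hin ρ hIA β (hv b)) _ (cIA_mem_Gam Hin ρ hIA β (hv c)))
    (fun b c hbc => Gam_comm Hin ρ hIA β (hne b c hbc) b.2 c.2 _
      (cIA_mem_Gam Hin ρ hIA β (hv b)) _ (rIA_mem_Gam Hin ρ hIA β _))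
    (fun b c hbc => Gam_comm Hin ρ hIA β (hne b c hbc) b.2 c.2 _
      (rIA_mem_Gam Hin ρ hIA β _) _ (rIA_mem_Gam Hin ρ hIA β _))
    hvw
  have hc : Fintype.card {a : Fin n // a ∉ W} = n - W.card := by
    rw [Fintype.card_subtype_compl, Fintype.card_fin, Fintype.card_coe]
  rw [hc] at h
  omega

end IAQ
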