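import Mathlib
import Pool.Agent.IAQ.KOne
import Pool.Agent.IAQ.Nielsen

/-!
# The elements `C a w`, `w ∈ γ₂`, are in the kernel
-/

set_option autoImplicit false

namespace IAQ

open AFn

section Abstract

variable {n : ℕ} (κ : Subgroup (MulAut (FreeGroup (Fin n)))) [hκ : κ.Normal]
  (h1 : ∀ a, ∀ w ∈ g3 (FreeGroup (Fin n)), R a w ∈ κ)

include h1

theorem L_mem (a : Fin n) : ∀ w ∈ g3 (FreeGroup (Fin n)), L a w ∈ κ := by
  intro w hw
  obtain ⟨T, -, hT1, hT2⟩ := Niel.exists_iota a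
  have hT : ∀ g, T (kill a g) = kill a g := by
    intro g
    have h : (T.toMonoidHom).comp (kill a) = kill a := by
      ext x
      rw [MonoidHom.comp_apply, kill_of]
      by_cases hx : x = a
      · rw [if_pos hx, map_one]
      · rw [if_neg hx]
        exact hT2 x hx
    exact DFunLike.congr_fun h g
  have e : T * R a w * T⁻¹ = L a w := by
    rw [mul_inv_eq_iff_eq_mul]
    apply aut_ext
    intro x
    rw [MulAut.mul_apply, MulAut.mul_apply]
    by_cases hx : x = a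
    · subst hx
      rw [R_of_self, map_mul, hT, hT1, map_inv, L_of_self]
      group
    · rw [R_of_ne hx, hT2 x hx, L_of_ne hx]
  rw [← e]
  exact hκ.conj_mem _ (h1 a w hw) T

theorem C_mem3 (a : Fin n) : ∀ w ∈ g3 (FreeGroup (Fin n)), C a w ∈ κ := fun w hw =>
  κ.mul_mem (L_mem κ h1 a w hw) (h1 a w hw)

/-- (K2a) -/
theorem K2a {a d : Fin n} (had : a ≠ d) {u : FreeGroup (Fin n)}
    (hu : u ∈ g2 (FreeGroup (Fin n))) (hua : kill a u = u) (hud : kill d u = u) :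
    C a u * (C d u)⁻¹ ∈ κ := by
  have hC := C_mem3 κ h1
  obtain ⟨π, hπ⟩ : ∃ π : MulAut (FreeGroup (Fin n)) →* MulAut (FreeGroup (Fin n)) ⧸ κ,
      π = QuotientGroup.mk' κ := ⟨_, rfl⟩
  have hπ1 : ∀ g, π g = 1 ↔ g ∈ κ := by
    intro g
    rw [hπ, QuotientGroup.mk'_apply, QuotientGroup.eq_one_iff]
  have hR1 : ∀ b, ∀ w ∈ g3 (FreeGroup (Fin n)), π (R b w) = 1 := fun b w hw =>
    (hπ1 _).2 (h1 b w hw)
  have hC1 : ∀ b, ∀ w ∈ g3 (FreeGroup (Fin n)), π (C b w) = 1 := fun b w hw =>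
    (hπ1 _).2 (hC b w hw)
  -- `R b` and `C b` composed with the quotient
  have cR : ∀ (b : Fin n) (v : FreeGroup (Fin n)), π (R b v) * π (R b u) =
      π (R b u) * π (R b v) := fun b v => comm_of_g3 (π.comp (R b)) (hR1 b) hu v
  have cC : ∀ (b : Fin n) (v : FreeGroup (Fin n)), π (C b v) * π (C b u) =
      π (C b u) * π (C b v) := fun b v => comm_of_g3 (π.comp (C b)) (hC1 b) hu v
  -- conjugation of `R b u` by `C b v`
  have e1' : ∀ (b : Fin n) (v : FreeGroup (Fin n)), π (C b v) * π (R b u) =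
      π (R b u) * π (C b v) := by
    intro b v
    have h := congrArg π (C_conj_R b v u)
    rw [map_mul, map_mul, map_inv, map_mul (R b), map_mul (R b), map_inv (R b), map_mul π,
      map_mul π, map_inv π, cR b v, mul_inv_cancel_right] at h
    rw [← mul_inv_eq_iff_eq_mul]
    exact h
  obtain ⟨A, hA⟩ : ∃ A, A = π (R a u) := ⟨_, rfl⟩
  obtain ⟨D, hD⟩ : ∃ D, D = π (R d u) := ⟨_, rfl⟩
  obtain ⟨ca, hca⟩ : ∃ ca, ca = π (C a (FreeGroup.of d)) := ⟨_, rfl⟩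
  obtain ⟨cd, hcd⟩ : ∃ cd, cd = π (C d (FreeGroup.of a)) := ⟨_, rfl⟩
  obtain ⟨ka, hka⟩ : ∃ ka, ka = π (C a u) := ⟨_, rfl⟩
  obtain ⟨kd, hkd⟩ : ∃ kd, kd = π (C d u) := ⟨_, rfl⟩
  have e1 : ca * A = A * ca := by rw [hca, hA]; exact e1' a _
  have e4 : cd * D = D * cd := by rw [hcd, hD]; exact e1' d _
  have e2a : ca * ka = ka * ca := by rw [hca, hka]; exact cC a _
  have e3a : cd * kd = kd * cd := by rw [hcd, hkd]; exact cC d _
  have e2b : D * ca * D⁻¹ = ca * ka := by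
    have h := (pres_R (b := d) had hua).conj_C (FreeGroup.of d)
    rw [kill_of_ne had.symm, R_of_self, hud, map_mul (C a)] at h
    have h' := congrArg π h
    rw [map_mul, map_mul, map_inv, map_mul] at h'
    rw [hD, hca, hka]
    exact h'
  have e3b : A * cd * A⁻¹ = cd * kd := by
    have h := (pres_R (b := a) had.symm hud).conj_C (FreeGroup.of a)
    rw [kill_of_ne had, R_of_self, hua, map_mul (C d)] at h
    have h' := congrArg π h
    rw [map_mul, map_mul, map_inv, map_mul] at h'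
    rw [hA, hcd, hkd]
    exact h'
  have e5 : cd * ka = ka * cd := by
    have h := (pres_C (b := a) had.symm hud).conj_C (FreeGroup.of a)
    rw [kill_of_ne had, C_of_self, hua] at h
    have h' := congrArg π h
    have h3 : π (C d (u⁻¹ * FreeGroup.of a * u)) = π (C d (FreeGroup.of a)) := by
      rw [map_mul (C d), map_mul (C d), map_inv (C d), map_mul π, map_mul π, map_inv π,
        mul_assoc, cC d (FreeGroup.of a), inv_mul_cancel_left]
    rw [map_mul, map_mul, map_inv, h3, mul_inv_eq_iff_eq_mul] at h'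
    rw [hcd, hka]
    exact h'.symm
  have e6 : kd * A = A * kd := by
    have h := C_comm_R had (v := u) (w := u) hua (by rw [hua, hud])
    have h' := congrArg π h
    rw [map_mul, map_mul] at h'
    rw [hkd, hA]
    exact h'
  have e6' : kd * D = D * kd := by rw [hkd, hD]; exact e1' d u
  -- the relation from the transvection
  have e7 : (cd * ca) * (A * D⁻¹) = (A * D⁻¹) * (cd * ca) := by
    obtain ⟨t, ht⟩ : ∃ t, t = R d (FreeGroup.of a) := ⟨_, rfl⟩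
    have q1 : t * C a (FreeGroup.of d) * t⁻¹ = C d (FreeGroup.of a) * C a (FreeGroup.of d) := by
      rw [ht]; exact conj_I4 had
    have q2 : t * R a u * t⁻¹ = R a u * R d (FreeGroup.of a * u⁻¹ * (FreeGroup.of a)⁻¹) := by
      rw [ht]; exact conj_I2 had hud hua
    have q3 : π (t * R a (FreeGroup.of d * u * (FreeGroup.of d)⁻¹ * u⁻¹) * t⁻¹) = 1 :=
      (hπ1 _).2 (hκ.conj_mem _ (h1 a _ (mem_g3' _ hu)) t)
    have q4 : π (R d (FreeGroup.of a * u⁻¹ * (FreeGroup.of a)⁻¹)) = D⁻¹ := by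
      rw [map_mul (R d), map_mul (R d), map_inv (R d), map_inv (R d), map_mul π, map_mul π,
        map_inv π, map_inv π, hD]
      have this := cR d (FreeGroup.of a)
      calc π (R d (FreeGroup.of a)) * (π (R d u))⁻¹ * (π (R d (FreeGroup.of a)))⁻¹ =
          (π (R d (FreeGroup.of a)) * π (R d u) * (π (R d (FreeGroup.of a)))⁻¹)⁻¹ := by group
        _ = (π (R d u))⁻¹ := by rw [this, mul_inv_cancel_right]
    have q5 : t * R a (FreeGroup.of d * u * (FreeGroup.of d)⁻¹ * u⁻¹) * t⁻¹ =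
        (t * C a (FreeGroup.of d) * t⁻¹) * (t * R a u * t⁻¹) *
          (t * C a (FreeGroup.of d) * t⁻¹)⁻¹ * (t * R a u * t⁻¹)⁻¹ := by
      rw [map_mul (R a), map_inv (R a), ← C_conj_R]
      group
    rw [q5, q1, q2, map_mul, map_mul, map_mul, map_inv, map_inv, map_mul, map_mul, q4, ← hcd,
      ← hca, ← hA, mul_inv_eq_one, mul_inv_eq_iff_eq_mul] at q3
    exact q3
  -- conclusion
  have f1 : ca * D * ca⁻¹ = ka⁻¹ * D := by
    have h : D * ca = ca * ka * D := by rw [← e2b]; group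
    have h2 : D * ca⁻¹ = ca⁻¹ * ka⁻¹ * D := by
      have h3 : ka * D * ca⁻¹ = ca⁻¹ * D := by
        calc ka * D * ca⁻¹ = ca⁻¹ * (ca * ka * D) * ca⁻¹ := by group
          _ = ca⁻¹ * (D * ca) * ca⁻¹ := by rw [h]
          _ = ca⁻¹ * D := by group
      have h4 : ca⁻¹ * ka⁻¹ = ka⁻¹ * ca⁻¹ := by
        rw [← mul_inv_rev, ← mul_inv_rev, e2a]
      rw [h4]
      calc D * ca⁻¹ = ka⁻¹ * (ka * D * ca⁻¹) := by group
        _ = ka⁻¹ * ca⁻¹ * D := by rw [h3]; group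
    calc ca * D * ca⁻¹ = ca * (D * ca⁻¹) := by group
      _ = ka⁻¹ * D := by rw [h2]; group
  have f2 : cd * A * cd⁻¹ = kd⁻¹ * A := by
    have h : A * cd = cd * kd * A := by rw [← e3b]; group
    have h3 : kd * A * cd⁻¹ = cd⁻¹ * A := by
      calc kd * A * cd⁻¹ = cd⁻¹ * (cd * kd * A) * cd⁻¹ := by group
        _ = cd⁻¹ * (A * cd) * cd⁻¹ := by rw [h]
        _ = cd⁻¹ * A := by group
    have h4 : cd⁻¹ * kd⁻¹ = kd⁻¹ * cd⁻¹ := by
      rw [← mul_inv_rev, ← mul_inv_rev, e3a]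
    calc cd * A * cd⁻¹ = cd * (kd⁻¹ * (kd * A * cd⁻¹)) := by group
      _ = cd * (kd⁻¹ * cd⁻¹) * A := by rw [h3]; group
      _ = kd⁻¹ * A := by rw [← h4]; group
  have f3 : ca * (A * D⁻¹) * ca⁻¹ = A * D⁻¹ * ka := by
    calc ca * (A * D⁻¹) * ca⁻¹ = (ca * A * ca⁻¹) * (ca * D * ca⁻¹)⁻¹ := by group
      _ = A * D⁻¹ * ka := by rw [f1, e1]; group
  have f4 : cd * (A * D⁻¹ * ka) * cd⁻¹ = kd⁻¹ * A * D⁻¹ * ka := by
    calc cd * (A * D⁻¹ * ka) * cd⁻¹ =
        (cd * A * cd⁻¹) * (cd * D * cd⁻¹)⁻¹ * (cd * ka * cd⁻¹) := by group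
      _ = kd⁻¹ * A * D⁻¹ * ka := by rw [f2, e4, e5]; group
  have f5 : kd⁻¹ * A * D⁻¹ * ka = A * D⁻¹ := by
    calc kd⁻¹ * A * D⁻¹ * ka = cd * (ca * (A * D⁻¹) * ca⁻¹) * cd⁻¹ := by rw [f3, f4]
      _ = (cd * ca) * (A * D⁻¹) * (cd * ca)⁻¹ := by group
      _ = A * D⁻¹ := by rw [e7]; group
  have f6 : kd⁻¹ * (A * D⁻¹) = A * D⁻¹ * kd⁻¹ := by
    have g1 : kd⁻¹ * A = A * kd⁻¹ := by
      rw [inv_mul_eq_iff_eq_mul, ← mul_assoc, e6, mul_inv_cancel_right]
    have g2' : kd⁻¹ * D⁻¹ = D⁻¹ * kd⁻¹ := by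
      rw [← mul_inv_rev, ← mul_inv_rev, e6']
    calc kd⁻¹ * (A * D⁻¹) = (kd⁻¹ * A) * D⁻¹ := by group
      _ = A * (kd⁻¹ * D⁻¹) := by rw [g1]; group
      _ = A * D⁻¹ * kd⁻¹ := by rw [g2']; group
  have f7 : kd⁻¹ * ka = 1 := by
    have : A * D⁻¹ * (kd⁻¹ * ka) = A * D⁻¹ := by
      calc A * D⁻¹ * (kd⁻¹ * ka) = (A * D⁻¹ * kd⁻¹) * ka := by group
        _ = (kd⁻¹ * (A * D⁻¹)) * ka := by rw [f6]
        _ = kd⁻¹ * A * D⁻¹ * ka := by group
        _ = A * D⁻¹ := f5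
    exact mul_eq_left.1 this
  have f8 : ka = kd := by
    rw [inv_mul_eq_one] at f7
    exact f7.symm
  rw [← hπ1, map_mul, map_inv, ← hka, ← hkd, f8, mul_inv_cancel]

end Abstract

end IAQ
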