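import Mathlib
import Pool.Agent.IAQ.KEng
import Pool.Agent.IAQ.KTwo
import Pool.Agent.IAQ.Engel
import Pool.Agent.IAQ.LinD

/-!
# The elements `R a w`, `w ∈ γ₃`, are in the kernel
-/

set_option autoImplicit false
set_option linter.style.haveILetI false

namespace IAQ

open AFn
open scoped Pointwise

section Engel

variable {n : ℕ} (κ : Subgroup (MulAut (FreeGroup (Fin n)))) [hκ : κ.Normal]

/-- commutation in the quotient from membership -/
theorem comm_of_mem {v w : FreeGroup (Fin n)} {a : Fin n}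
    (h : R a (v * w * v⁻¹ * w⁻¹) ∈ κ) :
    Commute (QuotientGroup.mk' κ (R a v)) (QuotientGroup.mk' κ (R a w)) := by
  rw [← QuotientGroup.eq_one_iff, ← QuotientGroup.mk'_apply, map_mul (R a), map_mul (R a),
    map_mul (R a), map_inv (R a), map_inv (R a), map_mul, map_mul, map_mul, map_inv, map_inv,
    mul_inv_eq_one, mul_inv_eq_iff_eq_mul] at h
  exact h

/-- two-letter kernel elements imply that the three-letter groups are finite -/
theorem fin3 {a b c d : Fin n} (hab : a ≠ b) (hac : a ≠ c) (had : a ≠ d) (hbc : b ≠ c)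
    (hbd : b ≠ d) (hcd : c ≠ d)
    (h2 : ∀ x y : Fin n, a ≠ x → a ≠ y →
      R a (cm x y * FreeGroup.of x * (cm x y)⁻¹ * (FreeGroup.of x)⁻¹) ∈ κ ∧
      R a (cm x y * FreeGroup.of y * (cm x y)⁻¹ * (FreeGroup.of y)⁻¹) ∈ κ)
    {N : ℕ} (hN : 0 < N) (ht : ∀ x : Fin n, R a (FreeGroup.of x) ^ N ∈ κ) :
    Finite ((fsub ({b, c, d} : Finset (Fin n))).map ((QuotientGroup.mk' κ).comp (R a))) := by
  obtain ⟨r, hr⟩ : ∃ r : FreeGroup (Fin n) →* MulAut (FreeGroup (Fin n)) ⧸ κ,
      r = (QuotientGroup.mk' κ).comp (R a) := ⟨_, rfl⟩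
  have hr' : ∀ w, r w = QuotientGroup.mk' κ (R a w) := fun w => by rw [hr]; rfl
  have hcomm : ∀ v w, R a (v * w * v⁻¹ * w⁻¹) ∈ κ → Commute (r v) (r w) := by
    intro v w h
    rw [hr', hr']
    exact comm_of_mem κ h
  have htor : ∀ x, IsOfFinOrder (r (FreeGroup.of x)) := by
    intro x
    rw [isOfFinOrder_iff_pow_eq_one]
    refine ⟨N, hN, ?_⟩
    rw [hr', ← map_pow, QuotientGroup.mk'_apply, QuotientGroup.eq_one_iff]
    exact ht x
  -- transport by automorphisms fixing `x_a`
  have htr : ∀ (φ : MulAut (FreeGroup (Fin n))), Pres a φ → ∀ w, kill a w = w →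
      R a w ∈ κ → R a (φ w) ∈ κ := by
    intro φ hφ w hw hm
    have h := hφ.conj_R w
    rw [hw] at h
    rw [← h]
    exact hκ.conj_mem _ hm φ
  have hcm : ∀ x y : Fin n, r (cm x y) = r (FreeGroup.of x) * r (FreeGroup.of y) *
      (r (FreeGroup.of x))⁻¹ * (r (FreeGroup.of y))⁻¹ := by
    intro x y
    unfold cm
    rw [map_mul, map_mul, map_mul, map_inv, map_inv]
  have k1 : ∀ x y : Fin n, a ≠ x → a ≠ y →
      Commute (r (FreeGroup.of x) * r (FreeGroup.of y) *
        (r (FreeGroup.of x))⁻¹ * (r (FreeGroup.of y))⁻¹) (r (FreeGroup.of x)) ∧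
      Commute (r (FreeGroup.of x) * r (FreeGroup.of y) *
        (r (FreeGroup.of x))⁻¹ * (r (FreeGroup.of y))⁻¹) (r (FreeGroup.of y)) := by
    intro x y hx hy
    rw [← hcm]
    exact ⟨hcomm _ _ (h2 x y hx hy).1, hcomm _ _ (h2 x y hx hy).2⟩
  -- the relation for `x` and `y z`
  have k2 : ∀ x y z : Fin n, a ≠ x → a ≠ y → a ≠ z → x ≠ y → y ≠ z →
      Commute (r (FreeGroup.of x) * (r (FreeGroup.of y) * r (FreeGroup.of z)) *
        (r (FreeGroup.of x))⁻¹ * (r (FreeGroup.of y) * r (FreeGroup.of z))⁻¹)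
        (r (FreeGroup.of x)) ∧
      Commute (r (FreeGroup.of x) * (r (FreeGroup.of y) * r (FreeGroup.of z)) *
        (r (FreeGroup.of x))⁻¹ * (r (FreeGroup.of y) * r (FreeGroup.of z))⁻¹)
        (r (FreeGroup.of y) * r (FreeGroup.of z)) := by
    intro x y z hx hy hz hxy hyz
    obtain ⟨φ, hφ⟩ : ∃ φ, φ = R y (FreeGroup.of z) := ⟨_, rfl⟩
    have hp : Pres a φ := by rw [hφ]; exact pres_R hy (kill_of_ne hz.symm)
    have e1 : φ (FreeGroup.of x) = FreeGroup.of x := by rw [hφ, R_of_ne hxy]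
    have e2 : φ (FreeGroup.of y) = FreeGroup.of y * FreeGroup.of z := by
      rw [hφ, R_of_self, kill_of_ne hyz.symm]
    have e3 : φ (cm x y) = FreeGroup.of x * (FreeGroup.of y * FreeGroup.of z) *
        (FreeGroup.of x)⁻¹ * (FreeGroup.of y * FreeGroup.of z)⁻¹ := by
      unfold cm
      rw [map_mul, map_mul, map_mul, map_inv, map_inv, e1, e2]
    have hk : ∀ v : FreeGroup (Fin n), kill a v = v →
        kill a (cm x y * v * (cm x y)⁻¹ * v⁻¹) = cm x y * v * (cm x y)⁻¹ * v⁻¹ := by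
      intro v hv
      have hc : kill a (cm x y) = cm x y := by
        unfold cm
        rw [map_mul, map_mul, map_mul, map_inv, map_inv, kill_of_ne hx.symm,
          kill_of_ne hy.symm]
      rw [map_mul, map_mul, map_mul, map_inv, map_inv, hv, hc]
    have e4 : r (φ (cm x y)) = r (FreeGroup.of x) * (r (FreeGroup.of y) *
        r (FreeGroup.of z)) * (r (FreeGroup.of x))⁻¹ *
        (r (FreeGroup.of y) * r (FreeGroup.of z))⁻¹ := by
      rw [e3, map_mul, map_mul, map_mul, map_inv, map_inv, map_mul]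
    have e5 : ∀ v, φ (cm x y * v * (cm x y)⁻¹ * v⁻¹) =
        φ (cm x y) * φ v * (φ (cm x y))⁻¹ * (φ v)⁻¹ := by
      intro v
      rw [map_mul, map_mul, map_mul, map_inv, map_inv]
    have e6 : r (FreeGroup.of y * FreeGroup.of z) = r (FreeGroup.of y) * r (FreeGroup.of z) :=
      map_mul r _ _
    rw [← e4]
    constructor
    · have h := htr φ hp _ (hk _ (kill_of_ne hx.symm)) (h2 x y hx hy).1
      rw [e5, e1] at h
      exact hcomm _ _ h
    · have h := htr φ hp _ (hk _ (kill_of_ne hy.symm)) (h2 x y hx hy).2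
      rw [e5, e2] at h
      have h' := hcomm _ _ h
      rw [e6] at h'
      exact h'
  have hE := engel_finite (r (FreeGroup.of b)) (r (FreeGroup.of c)) (r (FreeGroup.of d))
    (htor b) (htor c) (htor d) (k1 b c hab hac).1 (k1 b c hab hac).2
    (k1 b d hab had).1 (k1 b d hab had).2 (k1 c d hac had).1 (k1 c d hac had).2
    (k2 b c d hab hac had hbc hcd).1 (k2 b c d hab hac had hbc hcd).2
    (k2 c b d hac hab had hbc.symm hbd).1 (k2 c b d hac hab had hbc.symm hbd).2
    (k2 d b c had hab hac hbd.symm hbc).1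
  have hle : (fsub ({b, c, d} : Finset (Fin n))).map r ≤
      Subgroup.closure ({r (FreeGroup.of b), r (FreeGroup.of c), r (FreeGroup.of d)} :
        Set (MulAut (FreeGroup (Fin n)) ⧸ κ)) := by
    unfold fsub
    rw [MonoidHom.map_closure, Subgroup.closure_le]
    rintro _ ⟨_, ⟨x, hx, rfl⟩, rfl⟩
    refine Subgroup.subset_closure ?_
    simp only [Finset.coe_insert, Finset.coe_singleton, Set.mem_insert_iff,
      Set.mem_singleton_iff] at hx ⊢
    rcases hx with h | h | h <;> simp [h]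
  rw [← hr]
  exact Finite.of_injective (Subgroup.inclusion hle) (Subgroup.inclusion_injective hle)

/-- the same for left multiplications -/
theorem fin3L {a : Fin n} {W : Finset (Fin n)}
    (h : Finite ((fsub W).map ((QuotientGroup.mk' κ).comp (R a)))) :
    Finite ((fsub W).map ((QuotientGroup.mk' κ).comp (L a))) := by
  obtain ⟨T, -, hT1, hT2⟩ := Niel.exists_iota a
  have hT : ∀ g, T (kill a g) = kill a g := by
    intro g
    have h : (T.toMonoidHom).comp (kill a) = kill a := by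
      ext x
      rw [MonoidHom.comp_apply, kill_of]
      by_cases hx : x = a
      · rw [if_pos hx, map_one]
      · rw [if_neg hx]
        exact hT2 x hx
    exact DFunLike.congr_fun h g
  have e : ∀ w, T * R a w * T⁻¹ = L a w := by
    intro w
    rw [mul_inv_eq_iff_eq_mul]
    apply aut_ext
    intro x
    rw [MulAut.mul_apply, MulAut.mul_apply]
    by_cases hx : x = a
    · subst hx
      rw [R_of_self, map_mul, hT, hT1, map_inv, L_of_self]
      group
    · rw [R_of_ne hx, hT2 x hx, L_of_ne hx]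
  have e2 : (QuotientGroup.mk' κ).comp (L a) =
      ((MulAut.conj (QuotientGroup.mk' κ T)).toMonoidHom).comp
        ((QuotientGroup.mk' κ).comp (R a)) := by
    refine MonoidHom.ext fun w => ?_
    show QuotientGroup.mk' κ (L a w) = QuotientGroup.mk' κ T * QuotientGroup.mk' κ (R a w) *
      (QuotientGroup.mk' κ T)⁻¹
    rw [← e, map_mul, map_mul, map_inv]
  rw [e2, ← Subgroup.map_map]
  exact Finite.of_surjective _ (Subgroup.equivMapOfInjective _ _
    (MulAut.conj (QuotientGroup.mk' κ T)).injective).surjective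

end Engel

section Main

variable {n m : ℕ} (Hin : Subgroup (MulAut (FreeGroup (Fin n))))
  (ρ : Hin →* Matrix.GeneralLinearGroup (Fin m) ℤ)
  (hIA : IA (FreeGroup (Fin n)) ≤ Hin)

/-- the groups `Γ_a` are finite if the groups of words in `W` are finite modulo the kernel -/
theorem Gam_finite' (β : MulAut (FreeGroup (Fin n))) {W : Finset (Fin n)} {a : Fin n}
    (hR : Finite ((fsub W).map ((QuotientGroup.mk' (kap Hin ρ)).comp (R a))))
    (hL : Finite ((fsub W).map ((QuotientGroup.mk' (kap Hin ρ)).comp (L a)))) :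
    Finite (Gam Hin ρ hIA β W a) := by
  classical
  obtain ⟨π, hπ⟩ : ∃ π, π = QuotientGroup.mk' (kap Hin ρ) := ⟨_, rfl⟩
  rw [← hπ] at hR hL
  -- a function on the quotient giving the values of the representation
  have hwd : ∀ g g' : IA (FreeGroup (Fin n)), π g.1 = π g'.1 →
      rb Hin ρ hIA β g = rb Hin ρ hIA β g' := by
    intro g g' h
    have h1 : (g⁻¹ * g').1 ∈ kap Hin ρ := by
      rw [hπ, QuotientGroup.mk'_apply, QuotientGroup.mk'_apply, QuotientGroup.eq] at h
      exact h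
    have h2 : rb Hin ρ hIA β (g⁻¹ * g') = 1 := by
      rw [rb_eq_one]
      rw [mem_kap] at h1
      exact h1 β
    rw [map_mul, map_inv, inv_mul_eq_one] at h2
    exact h2
  obtain ⟨F, hF⟩ : ∃ F : MulAut (FreeGroup (Fin n)) ⧸ kap Hin ρ →
      Matrix.GeneralLinearGroup (Fin m) ℤ,
      ∀ g : IA (FreeGroup (Fin n)), F (π g.1) = rb Hin ρ hIA β g := by
    refine ⟨fun q => if h : ∃ g : IA (FreeGroup (Fin n)), π g.1 = q then
      rb Hin ρ hIA β h.choose else 1, fun g => ?_⟩
    have h : ∃ g' : IA (FreeGroup (Fin n)), π g'.1 = π g.1 := ⟨g, rfl⟩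
    simp only [dif_pos h]
    exact hwd _ _ h.choose_spec
  obtain ⟨SL, hSL⟩ : ∃ S : Set (MulAut (FreeGroup (Fin n)) ⧸ kap Hin ρ),
      S = ((fsub W).map (π.comp (L a))) := ⟨_, rfl⟩
  obtain ⟨SR, hSR⟩ : ∃ S : Set (MulAut (FreeGroup (Fin n)) ⧸ kap Hin ρ),
      S = ((fsub W).map (π.comp (R a))) := ⟨_, rfl⟩
  have fL : SL.Finite := by rw [hSL]; exact Set.toFinite _
  have fR : SR.Finite := by rw [hSR]; exact Set.toFinite _
  have hsub : ((Gam Hin ρ hIA β W a : Subgroup _) :
      Set (Matrix.GeneralLinearGroup (Fin m) ℤ)) ⊆ F '' (SL * SR) := by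
    intro x hx
    rw [SetLike.mem_coe, mem_Gam] at hx
    obtain ⟨g, ⟨p, hp⟩, rfl⟩ := hx
    refine ⟨π g.1, ?_, hF g⟩
    rw [← hp, Phi_apply, map_mul, hSL, hSR]
    exact Set.mul_mem_mul ⟨_, ret_mem W p.1, rfl⟩ ⟨_, ret_mem W p.2, rfl⟩
  exact (((fL.mul fR).image F).subset hsub).to_subtype

include hIA in
/-- two-letter elements of the kernel -/
theorem two_letters (hf : Hin.FiniteIndex) (hm : m + 2 ≤ n) {a x y : Fin n} (hx : a ≠ x)
    (hy : a ≠ y) :
    R a (cm x y * FreeGroup.of x * (cm x y)⁻¹ * (FreeGroup.of x)⁻¹) ∈ kap Hin ρ ∧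
      R a (cm x y * FreeGroup.of y * (cm x y)⁻¹ * (FreeGroup.of y)⁻¹) ∈ kap Hin ρ := by
  classical
  have hW : ({x, y} : Finset (Fin n)).card ≤ 2 := Finset.card_le_two
  have ha : a ∉ ({x, y} : Finset (Fin n)) := by
    simp only [Finset.mem_insert, Finset.mem_singleton, not_or]
    exact ⟨hx, hy⟩
  have hm1 : cm x y ∈ fsub ({x, y} : Finset (Fin n)) := letters_mem_fsub (by simp) (by simp)
  have hmx : FreeGroup.of x ∈ fsub ({x, y} : Finset (Fin n)) := of_mem_fsub (by simp)
  have hmy : FreeGroup.of y ∈ fsub ({x, y} : Finset (Fin n)) := of_mem_fsub (by simp)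
  have key : ∀ v ∈ fsub ({x, y} : Finset (Fin n)),
      R a (cm x y * v * (cm x y)⁻¹ * v⁻¹) ∈ kap Hin ρ := by
    intro v hv
    rw [mem_kap]
    intro β
    have h1 := K1W2 Hin ρ hIA hf hm hW β ha _ (mem_g3 (cm_mem_g2 x y) v)
    rw [ret_eq ((fsub _).mul_mem ((fsub _).mul_mem ((fsub _).mul_mem hm1 hv)
      ((fsub _).inv_mem hm1)) ((fsub _).inv_mem hv))] at h1
    exact h1
  exact ⟨key _ hmx, key _ hmy⟩

include hIA in
/-- (K1 for three letters) -/
theorem K1W3 (hf : Hin.FiniteIndex) (hn : 5 ≤ n) (hm : m + 2 ≤ n) {b c d : Fin n}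
    (hbc : b ≠ c) (hbd : b ≠ d) (hcd : c ≠ d) (β : MulAut (FreeGroup (Fin n))) {a : Fin n}
    (ha : a ∉ ({b, c, d} : Finset (Fin n))) :
    ∀ w ∈ g3 (FreeGroup (Fin n)),
      β * R a (ret ({b, c, d} : Finset (Fin n)) w) * β⁻¹ ∈ KerH Hin ρ := by
  classical
  refine K1W_of Hin ρ hIA (fun β => ?_) β ha
  by_contra hcon
  push Not at hcon
  obtain ⟨N, hN, hK⟩ := K0 Hin ρ hf hm
  have hfinG : ∀ e : {e : Fin n // e ∉ ({b, c, d} : Finset (Fin n))},
      Finite (Gam Hin ρ hIA β {b, c, d} e.1) := by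
    rintro ⟨e, he⟩
    simp only [Finset.mem_insert, Finset.mem_singleton, not_or] at he
    obtain ⟨h1, h2, h3⟩ := he
    have hR := fin3 (kap Hin ρ) h1 h2 h3 hbc hbd hcd
      (fun x y hx hy => two_letters Hin ρ hIA hf hm hx hy) hN (fun x => (hK e x).1)
    exact Gam_finite' Hin ρ hIA β hR (fin3L (kap Hin ρ) hR)
  have hne : ∀ x y : {e : Fin n // e ∉ ({b, c, d} : Finset (Fin n))}, x ≠ y → x.1 ≠ y.1 :=
    fun x y h h' => h (Subtype.ext h')
  have h := comm_bound (ι := {e : Fin n // e ∉ ({b, c, d} : Finset (Fin n))})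
    (fun e => Gam Hin ρ hIA β {b, c, d} e.1) hfinG
    (fun x y hxy u hu v hv => Gam_comm Hin ρ hIA β (hne x y hxy) x.2 y.2 u hu v hv)
    (fun e => by
      obtain ⟨v, hv, w, hw⟩ := bad_pair Hin ρ hIA (hcon e.1 e.2)
      exact ⟨_, cIA_mem_Gam Hin ρ hIA β hv, _, rIA_mem_Gam Hin ρ hIA β w, hw⟩)
  have hc : Fintype.card {e : Fin n // e ∉ ({b, c, d} : Finset (Fin n))} = n - 3 := by
    rw [Fintype.card_subtype_compl, Fintype.card_fin, Fintype.card_coe,
      Finset.card_eq_three.2 ⟨b, c, d, hbc, hbd, hcd, rfl⟩]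
  rw [hc] at h
  omega

include hIA in
/-- (K1) -/
theorem K1 (hf : Hin.FiniteIndex) (hn : 5 ≤ n) (hm : m + 2 ≤ n) (a : Fin n) :
    ∀ w ∈ g3 (FreeGroup (Fin n)), R a w ∈ kap Hin ρ := by
  classical
  have hN : ((kap Hin ρ).comap (R a)).Normal := by
    refine ⟨fun w hw v => ?_⟩
    rw [Subgroup.mem_comap] at hw ⊢
    rw [← C_conj_R]
    exact (kap_normal Hin ρ).conj_mem _ hw _
  have key : g3 (FreeGroup (Fin n)) ≤ (kap Hin ρ).comap (R a) := by
    refine g3_le_of_letters hN fun b c d => ?_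
    have e : FreeGroup.of b * FreeGroup.of c * (FreeGroup.of b)⁻¹ * (FreeGroup.of c)⁻¹ =
        cm b c := rfl
    rw [e, Subgroup.mem_comap]
    by_cases hab : a = b
    · subst hab
      have hk : kill a (cm a c * FreeGroup.of d * (cm a c)⁻¹ * (FreeGroup.of d)⁻¹) = 1 := by
        rw [map_mul, map_mul, map_mul, map_inv, map_inv, kill_cm_left]
        group
      rw [← R_killed, hk, map_one]
      exact Subgroup.one_mem _
    by_cases hac : a = c
    · subst hac
      have hk : kill a (cm b a * FreeGroup.of d * (cm b a)⁻¹ * (FreeGroup.of d)⁻¹) = 1 := by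
        rw [map_mul, map_mul, map_mul, map_inv, map_inv, kill_cm_right]
        group
      rw [← R_killed, hk, map_one]
      exact Subgroup.one_mem _
    by_cases had : a = d
    · subst had
      have hk : kill a (cm b c * FreeGroup.of a * (cm b c)⁻¹ * (FreeGroup.of a)⁻¹) = 1 := by
        rw [map_mul, map_mul, map_mul, map_inv, map_inv, kill_of_self]
        group
      rw [← R_killed, hk, map_one]
      exact Subgroup.one_mem _
    by_cases hbc : b = c
    · subst hbc
      have e1 : cm b b = 1 := by unfold cm; group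
      rw [e1, inv_one, one_mul, mul_one, mul_inv_cancel, map_one]
      exact Subgroup.one_mem _
    by_cases hbd : b = d
    · subst hbd
      exact (two_letters Hin ρ hIA hf hm hab hac).1
    by_cases hcd : c = d
    · subst hcd
      exact (two_letters Hin ρ hIA hf hm hab hac).2
    have ha : a ∉ ({b, c, d} : Finset (Fin n)) := by
      simp only [Finset.mem_insert, Finset.mem_singleton, not_or]
      exact ⟨hab, hac, had⟩
    have hm1 : cm b c ∈ fsub ({b, c, d} : Finset (Fin n)) :=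
      letters_mem_fsub (by simp) (by simp)
    have hm2 : FreeGroup.of d ∈ fsub ({b, c, d} : Finset (Fin n)) := of_mem_fsub (by simp)
    rw [mem_kap]
    intro β
    have h1 := K1W3 Hin ρ hIA hf hn hm hbc hbd hcd β ha _
      (mem_g3 (cm_mem_g2 b c) (FreeGroup.of d))
    rw [ret_eq ((fsub _).mul_mem ((fsub _).mul_mem ((fsub _).mul_mem hm1 hm2)
      ((fsub _).inv_mem hm1)) ((fsub _).inv_mem hm2))] at h1
    exact h1
  intro w hw
  exact key hw

end Main

end IAQ
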