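import Mathlib
import Pool.Agent.IAQ.MagDef

/-!
# Conjugations by words in `g3`
-/

set_option autoImplicit false

namespace IAQ

open AFn

theorem conj_map_k3 {F : Type*} [Group F] (φ : MulAut F) (g : F) :
    MulAut.conj (φ g) = φ * MulAut.conj g * φ⁻¹ := by
  ext x
  simp only [MulAut.mul_apply, MulAut.conj_apply, map_mul, map_inv, MulAut.apply_inv_self]

theorem kill_cm_k3 {n : ℕ} {a b c : Fin n} (hb : b ≠ a) (hc : c ≠ a) : kill a (cm b c) = cm b c := by
  rw [cm, map_mul, map_mul, map_mul, map_inv, map_inv, kill_of_ne hb, kill_of_ne hc]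

/-- simultaneous conjugation of the letters in `A` -/
theorem exists_T_k3 {n : ℕ} (κ : Subgroup (MulAut (FreeGroup (Fin n))))
    (h2 : ∀ a, ∀ w ∈ g2 (FreeGroup (Fin n)), C a w ∈ κ) (b c : Fin n) (A : Finset (Fin n))
    (hb : b ∉ A) (hc : c ∉ A) : ∃ T ∈ κ,
      (∀ x ∈ A, T (FreeGroup.of x) = cm b c * FreeGroup.of x * (cm b c)⁻¹) ∧
      ∀ x, x ∉ A → T (FreeGroup.of x) = FreeGroup.of x := by
  classical
  induction A using Finset.induction_on with
  | empty => exact ⟨1, κ.one_mem, fun x hx => absurd hx (Finset.notMem_empty x), fun x _ => rfl⟩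
  | insert a A ha ih =>
    obtain ⟨T, hT, hT1, hT2⟩ := ih (fun h => hb (Finset.mem_insert_of_mem h))
      (fun h => hc (Finset.mem_insert_of_mem h))
    have hba : b ≠ a := fun h => hb (h ▸ Finset.mem_insert_self _ _)
    have hca : c ≠ a := fun h => hc (h ▸ Finset.mem_insert_self _ _)
    have hk : kill a (cm b c) = cm b c := kill_cm_k3 hba hca
    have hk' : kill a (cm b c)⁻¹ = (cm b c)⁻¹ := by rw [map_inv, hk]
    have hg : (cm b c)⁻¹ ∈ g2 (FreeGroup (Fin n)) := (g2 _).inv_mem (mem_g2 _ _)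
    refine ⟨C a (cm b c)⁻¹ * T, κ.mul_mem (h2 a _ hg) hT, ?_, ?_⟩
    · intro x hx
      rw [MulAut.mul_apply]
      rcases Finset.mem_insert.1 hx with rfl | hx
      · rw [hT2 x ha, C_of_self, hk', inv_inv]
      · have hxa : x ≠ a := fun h => ha (h ▸ hx)
        have q1 := C_fixed (cm b c)⁻¹ hk
        have q2 := C_fixed (cm b c)⁻¹ hk'
        have q3 := C_of_ne hxa (cm b c)⁻¹
        obtain ⟨φ, hφ⟩ : ∃ φ, φ = C a (cm b c)⁻¹ := ⟨_, rfl⟩
        rw [← hφ] at q1 q2 q3 ⊢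
        rw [hT1 x hx, map_mul, map_mul, q1, q2, q3]
    · intro x hx
      have hxa : x ≠ a := fun h => hx (h ▸ Finset.mem_insert_self _ _)
      rw [MulAut.mul_apply, hT2 x (fun h => hx (Finset.mem_insert_of_mem h)), C_of_ne hxa]

/-- MODULE K3 (file Pool/Agent/IAQ/KThree.lean) -/
theorem K3 {n : ℕ} (hn : 4 ≤ n) (κ : Subgroup (MulAut (FreeGroup (Fin n)))) [κ.Normal]
    (h2 : ∀ a, ∀ w ∈ g2 (FreeGroup (Fin n)), C a w ∈ κ) :
    ∀ w ∈ g3 (FreeGroup (Fin n)), MulAut.conj w ∈ κ := by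
  classical
  have hκ : κ.Normal := inferInstance
  obtain ⟨N, hN⟩ : ∃ N : Subgroup (FreeGroup (Fin n)),
    N = κ.comap (MulAut.conj : FreeGroup (Fin n) →* MulAut (FreeGroup (Fin n))) := ⟨_, rfl⟩
  have hNn : N.Normal := by rw [hN]; infer_instance
  have hmem : ∀ g, g ∈ N ↔ MulAut.conj g ∈ κ := by
    intro g
    rw [hN, Subgroup.mem_comap]
  -- the first case
  have key1 : ∀ b c d : Fin n, d ≠ b → d ≠ c →
      cm b c * FreeGroup.of d * (cm b c)⁻¹ * (FreeGroup.of d)⁻¹ ∈ N := by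
    intro b c d hdb hdc
    obtain ⟨T, hT, hT1, -⟩ := exists_T_k3 κ h2 b c ((Finset.univ.erase b).erase c)
      (fun h => (Finset.mem_erase.1 (Finset.mem_of_mem_erase h)).1 rfl)
      (fun h => (Finset.mem_erase.1 h).1 rfl)
    have e := hT1 d (Finset.mem_erase.2 ⟨hdc, Finset.mem_erase.2 ⟨hdb, Finset.mem_univ _⟩⟩)
    rw [hmem, map_mul, ← e, conj_map_k3, mul_assoc, mul_assoc, map_inv]
    exact κ.mul_mem hT (by
      rw [← mul_assoc]
      exact hκ.conj_mem _ (κ.inv_mem hT) _)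
  have hle : g3 (FreeGroup (Fin n)) ≤ N := by
    refine g3_le_of_letters hNn fun b c d => ?_
    change cm b c * FreeGroup.of d * (cm b c)⁻¹ * (FreeGroup.of d)⁻¹ ∈ N
    by_cases hd : d ≠ b ∧ d ≠ c
    · exact key1 b c d hd.1 hd.2
    obtain ⟨e, heb, hec, hed⟩ : ∃ e : Fin n, e ≠ b ∧ e ≠ c ∧ e ≠ d := by
      have hcard : 0 < (((Finset.univ : Finset (Fin n)).erase b).erase c |>.erase d).card := by
        have q1 := Finset.pred_card_le_card_erase (s := (Finset.univ : Finset (Fin n))) (a := b)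
        have q2 := Finset.pred_card_le_card_erase
          (s := (Finset.univ : Finset (Fin n)).erase b) (a := c)
        have q3 := Finset.pred_card_le_card_erase
          (s := ((Finset.univ : Finset (Fin n)).erase b).erase c) (a := d)
        rw [Finset.card_univ, Fintype.card_fin] at q1
        omega
      obtain ⟨e, he⟩ := Finset.card_pos.1 hcard
      rw [Finset.mem_erase, Finset.mem_erase, Finset.mem_erase] at he
      exact ⟨e, he.2.2.1, he.2.1, he.1⟩
    have k1 := key1 b c e heb hec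
    -- apply the transvection
    obtain ⟨t, ht⟩ : ∃ t, t = R e (FreeGroup.of d) := ⟨_, rfl⟩
    have hte : t (FreeGroup.of e) = FreeGroup.of e * FreeGroup.of d := by
      rw [ht, R_of_self, kill_of_ne (Ne.symm hed)]
    have htu : t (cm b c) = cm b c := by
      rw [ht, R_fixed _ (kill_cm_k3 (Ne.symm heb) (Ne.symm hec))]
    have k2 : t (cm b c * FreeGroup.of e * (cm b c)⁻¹ * (FreeGroup.of e)⁻¹) ∈ N := by
      rw [hmem, conj_map_k3]
      exact hκ.conj_mem _ ((hmem _).1 k1) _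
    rw [map_mul, map_mul, map_mul, map_inv, map_inv, htu, hte] at k2
    have k3 := N.mul_mem (N.inv_mem k1) k2
    have k4 := hNn.conj_mem _ k3 (FreeGroup.of e)⁻¹
    have e1 : (FreeGroup.of e)⁻¹ * ((cm b c * FreeGroup.of e * (cm b c)⁻¹ * (FreeGroup.of e)⁻¹)⁻¹ *
        (cm b c * (FreeGroup.of e * FreeGroup.of d) * (cm b c)⁻¹ *
          (FreeGroup.of e * FreeGroup.of d)⁻¹)) * ((FreeGroup.of e)⁻¹)⁻¹ =
        cm b c * FreeGroup.of d * (cm b c)⁻¹ * (FreeGroup.of d)⁻¹ := by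
      group
    rw [e1] at k4
    exact k4
  intro w hw
  exact (hmem w).1 (hle hw)

end IAQ
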