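import Mathlib
import Pool.Agent.IAQ.KFull

/-!
# `C a w`, `w ∈ γ₂`, is in the kernel; torsion modulo the kernel
-/

set_option autoImplicit false

namespace IAQ

open AFn

variable {n m : ℕ} (Hin : Subgroup (MulAut (FreeGroup (Fin n))))
  (ρ : Hin →* Matrix.GeneralLinearGroup (Fin m) ℤ)
  (hIA : IA (FreeGroup (Fin n)) ≤ Hin)

include hIA in
/-- (K2b) -/
theorem K2b (hf : Hin.FiniteIndex) (hn : 5 ≤ n) (hm : m + 2 ≤ n) {a b c : Fin n}
    (hab : a ≠ b) (hac : a ≠ c) : C a (cm b c) ∈ kap Hin ρ := by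
  classical
  rw [mem_kap]
  intro β
  have hW : ({b, c} : Finset (Fin n)).card ≤ 2 := Finset.card_le_two
  have ha : a ∉ ({b, c} : Finset (Fin n)) := by
    simp only [Finset.mem_insert, Finset.mem_singleton, not_or]
    exact ⟨hab, hac⟩
  -- some letter for which the partial conjugations commute
  have hgood : ∃ d, d ∉ ({b, c} : Finset (Fin n)) ∧
      rb Hin ρ hIA β (cIA d (FreeGroup.of b)) * rb Hin ρ hIA β (cIA d (FreeGroup.of c)) =
        rb Hin ρ hIA β (cIA d (FreeGroup.of c)) * rb Hin ρ hIA β (cIA d (FreeGroup.of b)) := by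
    by_contra hcon
    push Not at hcon
    obtain ⟨N, hN, hK⟩ := K0 Hin ρ hf hm
    have : Nonempty {d : Fin n // d ∉ ({b, c} : Finset (Fin n))} := ⟨⟨a, ha⟩⟩
    have hne : ∀ x y : {d : Fin n // d ∉ ({b, c} : Finset (Fin n))}, x ≠ y → x.1 ≠ y.1 :=
      fun x y h h' => h (Subtype.ext h')
    have mb : ∀ x : {d : Fin n // d ∉ ({b, c} : Finset (Fin n))},
        rb Hin ρ hIA β (cIA x.1 (FreeGroup.of b)) ∈ Gam Hin ρ hIA β {b, c} x.1 :=
      fun x => cIA_mem_Gam Hin ρ hIA β (by simp)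
    have mc : ∀ x : {d : Fin n // d ∉ ({b, c} : Finset (Fin n))},
        rb Hin ρ hIA β (cIA x.1 (FreeGroup.of c)) ∈ Gam Hin ρ hIA β {b, c} x.1 :=
      fun x => cIA_mem_Gam Hin ρ hIA β (by simp)
    have h := pair_bound (ι := {d : Fin n // d ∉ ({b, c} : Finset (Fin n))})
      (fun x => rb Hin ρ hIA β (cIA x.1 (FreeGroup.of b)))
      (fun x => rb Hin ρ hIA β (cIA x.1 (FreeGroup.of c)))
      (fun x => rb_finOrder Hin ρ hIA β hN (hK x.1 b).2)
      (fun x y hxy => Gam_comm Hin ρ hIA β (hne x y hxy) x.2 y.2 _ (mb x) _ (mb y))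
      (fun x y hxy => Gam_comm Hin ρ hIA β (hne x y hxy) x.2 y.2 _ (mb x) _ (mc y))
      (fun x y hxy => Gam_comm Hin ρ hIA β (hne x y hxy) x.2 y.2 _ (mc x) _ (mc y))
      (fun x => hcon x.1 x.2)
    have hc : Fintype.card {d : Fin n // d ∉ ({b, c} : Finset (Fin n))} =
        n - ({b, c} : Finset (Fin n)).card := by
      rw [Fintype.card_subtype_compl, Fintype.card_fin, Fintype.card_coe]
    rw [hc] at h
    omega
  obtain ⟨d, hd, hgood⟩ := hgood
  have hdb : d ≠ b := fun h => hd (by simp [h])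
  have hdc : d ≠ c := fun h => hd (by simp [h])
  -- `C d (cm b c)` is killed
  have h1 : β * C d (cm b c) * β⁻¹ ∈ KerH Hin ρ := by
    have h4 : rb Hin ρ hIA β (cIA d (FreeGroup.of b) * cIA d (FreeGroup.of c) *
        (cIA d (FreeGroup.of b))⁻¹ * (cIA d (FreeGroup.of c))⁻¹) = 1 := by
      rw [map_mul, map_mul, map_mul, map_inv, map_inv, hgood]
      group
    rw [rb_eq_one] at h4
    have e : (cIA d (FreeGroup.of b) * cIA d (FreeGroup.of c) *
        (cIA d (FreeGroup.of b))⁻¹ * (cIA d (FreeGroup.of c))⁻¹ : IA (FreeGroup (Fin n))).1 =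
        C d (cm b c) := by
      rw [Subgroup.coe_mul, Subgroup.coe_mul, Subgroup.coe_mul, Subgroup.coe_inv,
        Subgroup.coe_inv]
      show C d (FreeGroup.of b) * C d (FreeGroup.of c) * (C d (FreeGroup.of b))⁻¹ *
        (C d (FreeGroup.of c))⁻¹ = C d (cm b c)
      unfold cm
      rw [map_mul, map_mul, map_mul, map_inv, map_inv]
    rw [e] at h4
    exact h4
  by_cases had : a = d
  · rw [had]; exact h1
  have hk1 : ∀ x : Fin n, x ≠ b → x ≠ c → kill x (cm b c) = cm b c := by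
    intro x hxb hxc
    unfold cm
    rw [map_mul, map_mul, map_mul, map_inv, map_inv, kill_of_ne hxb.symm, kill_of_ne hxc.symm]
  have h2 := K2a (kap Hin ρ) (K1 Hin ρ hIA hf hn hm) had (cm_mem_g2 b c) (hk1 a hab hac)
    (hk1 d hdb hdc)
  rw [mem_kap] at h2
  have h3 := (KerH Hin ρ).mul_mem (h2 β) h1
  have e : β * (C a (cm b c) * (C d (cm b c))⁻¹) * β⁻¹ * (β * C d (cm b c) * β⁻¹) =
      β * C a (cm b c) * β⁻¹ := by group
  rwa [e] at h3

include hIA in
/-- (K2) -/
theorem K2 (hf : Hin.FiniteIndex) (hn : 5 ≤ n) (hm : m + 2 ≤ n) (a : Fin n) :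
    ∀ w ∈ g2 (FreeGroup (Fin n)), C a w ∈ kap Hin ρ := by
  have hN : ((kap Hin ρ).comap (C a)).Normal := by infer_instance
  have key : g2 (FreeGroup (Fin n)) ≤ (kap Hin ρ).comap (C a) := by
    refine g2_le_of_letters hN fun b c => ?_
    have e : FreeGroup.of b * FreeGroup.of c * (FreeGroup.of b)⁻¹ * (FreeGroup.of c)⁻¹ =
        cm b c := rfl
    rw [e, Subgroup.mem_comap]
    by_cases hab : a = b
    · subst hab
      rw [← C_killed, kill_cm_left, map_one]
      exact Subgroup.one_mem _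
    by_cases hac : a = c
    · subst hac
      rw [← C_killed, kill_cm_right, map_one]
      exact Subgroup.one_mem _
    exact K2b Hin ρ hIA hf hn hm hab hac
  intro w hw
  exact key hw

/-- commutators with central commutator: powers -/
theorem comm_pow {G : Type*} [Group G] {x y A : G} (hA : x * y = A * (y * x))
    (hc : A * x = x * A) (k : ℕ) : x ^ k * y = A ^ k * (y * x ^ k) := by
  induction k with
  | zero => simp
  | succ k ih =>
    have h1 : x * A ^ k = A ^ k * x := ((Commute.pow_left (show Commute A x from hc) k).eq).symm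
    calc x ^ (k + 1) * y = x * (x ^ k * y) := by rw [pow_succ']; group
      _ = x * A ^ k * (y * x ^ k) := by rw [ih]; group
      _ = A ^ k * (x * y) * x ^ k := by rw [h1]; group
      _ = A ^ k * A * (y * (x * x ^ k)) := by rw [hA]; group
      _ = A ^ (k + 1) * (y * x ^ (k + 1)) := by rw [← pow_succ, ← pow_succ']

include hIA in
/-- (K4) torsion for the generators -/
theorem K4 (hf : Hin.FiniteIndex) (hn : 5 ≤ n) (hm : m + 2 ≤ n) :
    ∃ N : ℕ, 0 < N ∧ (∀ a b, C a (FreeGroup.of b) ^ N ∈ kap Hin ρ) ∧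
      (∀ a b c, R a (cm b c) ^ N ∈ kap Hin ρ) ∧
      (∀ a b, R a (FreeGroup.of b) ^ N ∈ kap Hin ρ) := by
  classical
  obtain ⟨N, hN, h⟩ := K0 Hin ρ hf hm
  refine ⟨N, hN, fun a b => (h a b).2, fun a b c => ?_, fun a b => (h a b).1⟩
  obtain ⟨r, hr⟩ : ∃ r : FreeGroup (Fin n) →* MulAut (FreeGroup (Fin n)) ⧸ kap Hin ρ,
      r = (QuotientGroup.mk' (kap Hin ρ)).comp (R a) := ⟨_, rfl⟩
  have hr' : ∀ w, r w = 1 ↔ R a w ∈ kap Hin ρ := fun w => by
    rw [hr, MonoidHom.comp_apply, QuotientGroup.mk'_apply, QuotientGroup.eq_one_iff]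
  have h3 : ∀ w ∈ g3 (FreeGroup (Fin n)), r w = 1 := fun w hw =>
    (hr' w).2 (K1 Hin ρ hIA hf hn hm a w hw)
  have h4 := comm_of_g3 r h3 (cm_mem_g2 b c) (FreeGroup.of b)
  have hA : r (FreeGroup.of b) * r (FreeGroup.of c) =
      r (cm b c) * (r (FreeGroup.of c) * r (FreeGroup.of b)) := by
    unfold cm
    rw [map_mul, map_mul, map_mul, map_inv, map_inv]
    group
  have h5 := comm_pow hA h4.symm N
  have h6 : r (FreeGroup.of b) ^ N = 1 := by
    rw [← map_pow, hr', map_pow]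
    exact (h a b).1
  rw [h6, one_mul, mul_one, right_eq_mul] at h5
  rw [← map_pow, ← hr', map_pow]
  exact h5

end IAQ
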