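import Mathlib
import Pool.Agent.IAQ.Engel

/-!
# Groups generated by finitely many elements of finite order with central commutators
-/

set_option autoImplicit false

namespace IAQ

open Subgroup

theorem class2_finite_top {G : Type*} [Group G] {S : Set G} (hS : S.Finite)
    (hgen : closure S = ⊤) (hfo : ∀ s ∈ S, IsOfFinOrder s)
    (hc : ∀ s ∈ S, ∀ t ∈ S, s * t * s⁻¹ * t⁻¹ ∈ center G) : Finite G := by
  have hT : TG G := ⟨S, hS, hgen, hfo⟩
  let f : G →* G ⧸ center G := QuotientGroup.mk' (center G)
  have hf : Function.Surjective f := QuotientGroup.mk'_surjective _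
  have key : ∀ a b : G, a * b * a⁻¹ * b⁻¹ ∈ center G → Commute (f a) (f b) := by
    intro a b hab
    have : f (a * b * a⁻¹ * b⁻¹) = 1 := (QuotientGroup.eq_one_iff _).2 hab
    simp only [map_mul, map_inv] at this
    have h2 : f a * f b = f b * f a := by
      have := mul_inv_eq_one.1 this
      have := mul_inv_eq_iff_eq_mul.1 this
      exact this
    exact h2
  have hTR : TG (G ⧸ center G) := hT.map f hf
  have hgenR : closure (f '' S) = ⊤ := by
    rw [← MonoidHom.map_closure, hgen, ← MonoidHom.range_eq_map, MonoidHom.range_eq_top.2 hf]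
  have hcen : center (G ⧸ center G) = ⊤ := by
    rw [eq_top_iff, ← hgenR, closure_le]
    rintro _ ⟨w, hw, rfl⟩
    have hcomm : ∀ u ∈ closure (f '' S), Commute u (f w) := by
      intro u hu
      refine closure_induction ?_ (Commute.one_left _) (fun a b _ _ ha hb => ha.mul_left hb)
        (fun a _ ha => ha.inv_left) hu
      rintro _ ⟨v, hv, rfl⟩
      exact key v w (hc v hv w hw)
    exact mem_center_iff.2 fun g => (hcomm g (by rw [hgenR]; exact mem_top g))
  have : Subsingleton ((G ⧸ center G) ⧸ center (G ⧸ center G)) := by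
    rw [hcen]
    exact QuotientGroup.subsingleton_quotient_top
  have hR : Finite (G ⧸ center G) := hTR.finite_of_center
  exact hT.finite_of_center

/-- a group generated by finitely many elements of finite order, whose commutators commute with
the generators, is finite -/
theorem class2_finite {G : Type*} [Group G] {S : Set G} (hS : S.Finite)
    (hfo : ∀ s ∈ S, IsOfFinOrder s)
    (hc : ∀ s ∈ S, ∀ t ∈ S, ∀ u ∈ S, Commute (s * t * s⁻¹ * t⁻¹) u) :
    Finite (Subgroup.closure S) := by
  have hT : ((fun x : closure S => (x : G)) ⁻¹' S).Finite :=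
    hS.preimage Subtype.val_injective.injOn
  have hgen : closure ((fun x : closure S => (x : G)) ⁻¹' S) = ⊤ := closure_closure_coe_preimage
  refine class2_finite_top hT hgen ?_ ?_
  · intro s hs
    obtain ⟨k, hk, h1⟩ := (isOfFinOrder_iff_pow_eq_one).1 (hfo s hs)
    exact (isOfFinOrder_iff_pow_eq_one).2 ⟨k, hk, Subtype.ext (by simpa using h1)⟩
  · intro s hs t ht
    refine mem_center_iff.2 fun g => Subtype.ext ?_
    have h1 : ∀ g ∈ closure S, Commute ((s : G) * t * (s : G)⁻¹ * (t : G)⁻¹) g := by
      intro g hg
      exact closure_induction (fun u hu => hc s hs t ht u hu) (Commute.one_right _)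
        (fun a b _ _ ha hb => ha.mul_right hb) (fun a _ ha => ha.inv_right) hg
    exact (h1 g g.2).eq.symm

end IAQ
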