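import Mathlib
import Pool.Agent.IAQ.MagDef

/-!
# The table of commuting Magnus generators
-/

set_option autoImplicit false

namespace IAQ

open AFn

section Aux

variable {G : Type*} [Group G]

theorem comm_of_conj_left {κ : Subgroup G} [κ.Normal] {g h k : G} (hk : k ∈ κ)
    (e : g * h * g⁻¹ = k * h) :
    Commute (QuotientGroup.mk' κ g) (QuotientGroup.mk' κ h) := by
  have h1 : QuotientGroup.mk' κ k = 1 := (QuotientGroup.eq_one_iff k).2 hk
  have h2 := congrArg (QuotientGroup.mk' κ) (mul_inv_eq_iff_eq_mul.1 e)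
  rw [map_mul, map_mul, map_mul, h1, one_mul] at h2
  exact h2

theorem comm_of_conj_right {κ : Subgroup G} [κ.Normal] {g h k : G} (hk : k ∈ κ)
    (e : g * h * g⁻¹ = h * k) :
    Commute (QuotientGroup.mk' κ g) (QuotientGroup.mk' κ h) := by
  have h1 : QuotientGroup.mk' κ k = 1 := (QuotientGroup.eq_one_iff k).2 hk
  have h2 := congrArg (QuotientGroup.mk' κ) (mul_inv_eq_iff_eq_mul.1 e)
  rw [map_mul, map_mul, map_mul, h1, mul_one] at h2
  exact h2

end Aux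

/-- an automorphism that is trivial on the letters modulo `g2` is trivial modulo `g2` -/
theorem act_g2 {n : ℕ} {φ : MulAut (FreeGroup (Fin n))}
    (h : ∀ x, (FreeGroup.of x)⁻¹ * φ (FreeGroup.of x) ∈ g2 (FreeGroup (Fin n)))
    (u : FreeGroup (Fin n)) : u⁻¹ * φ u ∈ g2 (FreeGroup (Fin n)) := by
  have h1 : QuotientGroup.mk' (g2 (FreeGroup (Fin n))) =
      (QuotientGroup.mk' (g2 (FreeGroup (Fin n)))).comp φ.toMonoidHom := by
    ext x
    exact QuotientGroup.eq.2 (h x)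
  exact QuotientGroup.eq.1 (DFunLike.congr_fun h1 u)

/-- an automorphism that is trivial modulo `g2` fixes the commutators modulo `g3` -/
theorem act_g3 {n : ℕ} {φ : MulAut (FreeGroup (Fin n))}
    (h : ∀ u, u⁻¹ * φ u ∈ g2 (FreeGroup (Fin n))) (v w : FreeGroup (Fin n)) :
    (v * w * v⁻¹ * w⁻¹)⁻¹ * φ (v * w * v⁻¹ * w⁻¹) ∈ g3 (FreeGroup (Fin n)) := by
  obtain ⟨p, hp⟩ : ∃ p, p = v⁻¹ * φ v := ⟨_, rfl⟩
  obtain ⟨q, hq⟩ : ∃ q, q = w⁻¹ * φ w := ⟨_, rfl⟩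
  have hp' : φ v = v * p := by rw [hp, mul_inv_cancel_left]
  have hq' : φ w = w * q := by rw [hq, mul_inv_cancel_left]
  have hp2 : p ∈ g2 (FreeGroup (Fin n)) := hp ▸ h v
  have hq2 : q ∈ g2 (FreeGroup (Fin n)) := hq ▸ h w
  have hc : ∀ w ∈ g2 (FreeGroup (Fin n)), ∀ v,
      QuotientGroup.mk' (g3 (FreeGroup (Fin n))) v * QuotientGroup.mk' (g3 (FreeGroup (Fin n))) w =
      QuotientGroup.mk' (g3 (FreeGroup (Fin n))) w *
        QuotientGroup.mk' (g3 (FreeGroup (Fin n))) v := fun w hw v =>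
    comm_of_g3 (QuotientGroup.mk' (g3 (FreeGroup (Fin n))))
      (fun w hw => (QuotientGroup.eq_one_iff w).2 hw) hw v
  refine QuotientGroup.eq.1 ?_
  rw [← QuotientGroup.mk'_apply, ← QuotientGroup.mk'_apply, map_mul φ, map_mul φ, map_mul φ,
    map_inv φ, map_inv φ, hp', hq']
  simp only [map_mul, map_inv]
  have e1 := hc p hp2
  have e2 := hc q hq2
  obtain ⟨f, hf⟩ : ∃ f, f = QuotientGroup.mk' (g3 (FreeGroup (Fin n))) := ⟨_, rfl⟩
  rw [← hf] at e1 e2 ⊢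
  have e1' := e1 w
  have e2' := e2 v
  have e3 := e2 p
  symm
  calc f v * f p * (f w * f q) * (f v * f p)⁻¹ * (f w * f q)⁻¹
      = f v * (f p * f w) * f q * (f p)⁻¹ * (f v)⁻¹ * (f q)⁻¹ * (f w)⁻¹ := by group
    _ = f v * (f w * f p) * f q * (f p)⁻¹ * (f v)⁻¹ * (f q)⁻¹ * (f w)⁻¹ := by rw [e1']
    _ = f v * f w * (f p * f q) * (f p)⁻¹ * (f v)⁻¹ * (f q)⁻¹ * (f w)⁻¹ := by group
    _ = f v * f w * (f q * f p) * (f p)⁻¹ * (f v)⁻¹ * (f q)⁻¹ * (f w)⁻¹ := by rw [e3]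
    _ = f v * f w * (f v)⁻¹ * (f v * f q) * (f v)⁻¹ * (f q)⁻¹ * (f w)⁻¹ := by group
    _ = f v * f w * (f v)⁻¹ * (f q * f v) * (f v)⁻¹ * (f q)⁻¹ * (f w)⁻¹ := by rw [e2']
    _ = f v * f w * (f v)⁻¹ * (f w)⁻¹ := by group

/-- `C a w` acts trivially modulo `g2` -/
theorem C_act {n : ℕ} (a : Fin n) (w u : FreeGroup (Fin n)) :
    u⁻¹ * C a w u ∈ g2 (FreeGroup (Fin n)) := by
  refine act_g2 (fun x => ?_) u
  by_cases hx : x = a
  · subst hx
    rw [C_of_self]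
    have := mem_g2 (FreeGroup.of x)⁻¹ (kill x w)⁻¹
    rw [inv_inv, inv_inv] at this
    simpa [mul_assoc] using this
  · rw [C_of_ne hx, inv_mul_cancel]
    exact one_mem _

/-- `R a w`, `w ∈ g2`, acts trivially modulo `g2` -/
theorem R_act {n : ℕ} (a : Fin n) {w : FreeGroup (Fin n)} (hw : w ∈ g2 (FreeGroup (Fin n)))
    (u : FreeGroup (Fin n)) : u⁻¹ * R a w u ∈ g2 (FreeGroup (Fin n)) := by
  refine act_g2 (fun x => ?_) u
  by_cases hx : x = a
  · subst hx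
    rw [R_of_self, inv_mul_cancel_left]
    exact hom_g2 _ hw
  · rw [R_of_ne hx, inv_mul_cancel]
    exact one_mem _

theorem cm_mem {n : ℕ} (b c : Fin n) : cm b c ∈ g2 (FreeGroup (Fin n)) := mem_g2 _ _

theorem kill_cm {n : ℕ} (a b c : Fin n) :
    kill a (cm b c) = kill a (FreeGroup.of b) * kill a (FreeGroup.of c) *
      (kill a (FreeGroup.of b))⁻¹ * (kill a (FreeGroup.of c))⁻¹ := by
  simp only [cm, map_mul, map_inv]

theorem kill_cm_fixed {n : ℕ} {a b c : Fin n} (hb : b ≠ a) (hc : c ≠ a) :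
    kill a (cm b c) = cm b c := by
  rw [kill_cm, kill_of_ne hb, kill_of_ne hc, cm]

/-- conjugation of `C a w` by an automorphism preserving the letter `a`, trivial modulo `g2` -/
theorem comm_conj_C {n : ℕ} {κ : Subgroup (MulAut (FreeGroup (Fin n)))} [κ.Normal]
    (h2 : ∀ a, ∀ w ∈ g2 (FreeGroup (Fin n)), C a w ∈ κ) {a : Fin n}
    {φ : MulAut (FreeGroup (Fin n))} (hφ : Pres a φ)
    (h : ∀ u, u⁻¹ * φ u ∈ g2 (FreeGroup (Fin n))) (w : FreeGroup (Fin n)) :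
    Commute (QuotientGroup.mk' κ φ) (QuotientGroup.mk' κ (C a w)) := by
  refine comm_of_conj_right (h2 a _ (h (kill a w))) ?_
  rw [hφ.conj_C, ← C_killed a w, ← map_mul, mul_inv_cancel_left]

/-- conjugation of `R a [v, w]` by an automorphism preserving the letter `a`, trivial modulo
`g2` -/
theorem comm_conj_R {n : ℕ} {κ : Subgroup (MulAut (FreeGroup (Fin n)))} [κ.Normal]
    (h1 : ∀ a, ∀ w ∈ g3 (FreeGroup (Fin n)), R a w ∈ κ) {a : Fin n}
    {φ : MulAut (FreeGroup (Fin n))} (hφ : Pres a φ)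
    (h : ∀ u, u⁻¹ * φ u ∈ g2 (FreeGroup (Fin n))) (b c : Fin n) :
    Commute (QuotientGroup.mk' κ φ) (QuotientGroup.mk' κ (R a (cm b c))) := by
  refine comm_of_conj_right (h1 a _ (act_g3 h (kill a (FreeGroup.of b))
    (kill a (FreeGroup.of c)))) ?_
  rw [hφ.conj_R, ← R_killed a (cm b c), ← map_mul, kill_cm, mul_inv_cancel_left]

theorem tabRR {n : ℕ} {κ : Subgroup (MulAut (FreeGroup (Fin n)))} [κ.Normal]
    (h1 : ∀ a, ∀ w ∈ g3 (FreeGroup (Fin n)), R a w ∈ κ)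
    (a : Fin n) (v : FreeGroup (Fin n)) {w : FreeGroup (Fin n)} (hw : w ∈ g2 (FreeGroup (Fin n))) :
    Commute (QuotientGroup.mk' κ (R a v)) (QuotientGroup.mk' κ (R a w)) := by
  refine comm_of_conj_left (h1 a _ (mem_g3' v hw)) ?_
  rw [← map_inv, ← map_mul, ← map_mul, ← map_mul, inv_mul_cancel_right]

theorem tabCC {n : ℕ} {κ : Subgroup (MulAut (FreeGroup (Fin n)))} [κ.Normal]
    (h2 : ∀ a, ∀ w ∈ g2 (FreeGroup (Fin n)), C a w ∈ κ)
    (a : Fin n) (v w : FreeGroup (Fin n)) :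
    Commute (QuotientGroup.mk' κ (C a v)) (QuotientGroup.mk' κ (C a w)) := by
  refine comm_of_conj_left (h2 a _ (mem_g2 v w)) ?_
  rw [← map_inv, ← map_mul, ← map_mul, ← map_mul, inv_mul_cancel_right]

theorem tabCC' {n : ℕ} {κ : Subgroup (MulAut (FreeGroup (Fin n)))} [κ.Normal]
    (h2 : ∀ a, ∀ w ∈ g2 (FreeGroup (Fin n)), C a w ∈ κ)
    {a b d e : Fin n} (had : a ≠ d) (h : ¬ (b = d ∧ e = a)) :
    Commute (QuotientGroup.mk' κ (C a (FreeGroup.of b)))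
      (QuotientGroup.mk' κ (C d (FreeGroup.of e))) := by
  by_cases he : e = a
  · have hb : b ≠ d := fun hb => h ⟨hb, he⟩
    exact comm_conj_C h2 (pres_C had.symm (kill_of_ne hb)) (C_act a _) _
  · exact (comm_conj_C h2 (pres_C had (kill_of_ne he)) (C_act d _) _).symm

theorem tabRC {n : ℕ} {κ : Subgroup (MulAut (FreeGroup (Fin n)))} [κ.Normal]
    (h1 : ∀ a, ∀ w ∈ g3 (FreeGroup (Fin n)), R a w ∈ κ)
    (a : Fin n) (v : FreeGroup (Fin n)) {w : FreeGroup (Fin n)} (hw : w ∈ g2 (FreeGroup (Fin n))) :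
    Commute (QuotientGroup.mk' κ (R a w)) (QuotientGroup.mk' κ (C a v)) := by
  refine (comm_of_conj_left (h1 a _ (mem_g3' v hw)) ?_).symm
  rw [C_conj_R, ← map_mul, inv_mul_cancel_right]

theorem tabRC' {n : ℕ} {κ : Subgroup (MulAut (FreeGroup (Fin n)))} [κ.Normal]
    (h1 : ∀ a, ∀ w ∈ g3 (FreeGroup (Fin n)), R a w ∈ κ)
    (h2 : ∀ a, ∀ w ∈ g2 (FreeGroup (Fin n)), C a w ∈ κ)
    {a b c d e : Fin n} (had : a ≠ d) (h : ¬ (e = a ∧ (d = b ∨ d = c))) :
    Commute (QuotientGroup.mk' κ (R a (cm b c)))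
      (QuotientGroup.mk' κ (C d (FreeGroup.of e))) := by
  by_cases he : e = a
  · have hb : b ≠ d := fun hb => h ⟨he, Or.inl hb.symm⟩
    have hc : c ≠ d := fun hc => h ⟨he, Or.inr hc.symm⟩
    exact comm_conj_C h2 (pres_R had.symm (kill_cm_fixed hb hc)) (R_act a (cm_mem b c)) _
  · exact (comm_conj_R h1 (pres_C had (kill_of_ne he)) (C_act d _) b c).symm

theorem tabRR' {n : ℕ} {κ : Subgroup (MulAut (FreeGroup (Fin n)))} [κ.Normal]
    (h1 : ∀ a, ∀ w ∈ g3 (FreeGroup (Fin n)), R a w ∈ κ)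
    {a b c d e f : Fin n} (had : a ≠ d) (h : ¬ ((d = b ∨ d = c) ∧ (a = e ∨ a = f))) :
    Commute (QuotientGroup.mk' κ (R a (cm b c)))
      (QuotientGroup.mk' κ (R d (cm e f))) := by
  by_cases he : a = e ∨ a = f
  · have hb : b ≠ d := fun hb => h ⟨Or.inl hb.symm, he⟩
    have hc : c ≠ d := fun hc => h ⟨Or.inr hc.symm, he⟩
    exact comm_conj_R h1 (pres_R had.symm (kill_cm_fixed hb hc)) (R_act a (cm_mem b c)) e f
  · have he' : e ≠ a := fun he' => he (Or.inl he'.symm)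
    have hf : f ≠ a := fun hf => he (Or.inr hf.symm)
    exact (comm_conj_R h1 (pres_R had (kill_cm_fixed he' hf)) (R_act d (cm_mem e f)) b c).symm

end IAQ
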