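import Mathlib
import Pool.Agent.IAQ.MagTab

/-!
# The commutator of the mutual pair `C b x_a`, `C a x_b` is central
-/

set_option autoImplicit false

namespace IAQ

open AFn

/-- conjugating an inner automorphism -/
theorem conj_conj_aut {n : ℕ} (s : MulAut (FreeGroup (Fin n))) (w : FreeGroup (Fin n)) :
    s * MulAut.conj w * s⁻¹ = MulAut.conj (s w) := by
  ext g
  simp [MulAut.mul_apply, MulAut.conj_apply]

/-- modulo `κ`, letters outside `{a, b}` can be conjugated by a word `w ∈ g2` in `a`, `b` -/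
theorem exists_conj_part {n : ℕ} {κ : Subgroup (MulAut (FreeGroup (Fin n)))}
    (h2 : ∀ a, ∀ w ∈ g2 (FreeGroup (Fin n)), C a w ∈ κ)
    {w : FreeGroup (Fin n)} (hw : w ∈ g2 (FreeGroup (Fin n))) (S : Finset (Fin n))
    (hS : ∀ c ∈ S, kill c w = w)
    (hfix : ∀ k : MulAut (FreeGroup (Fin n)),
      (∀ x, x ∉ S → k (FreeGroup.of x) = FreeGroup.of x) → k w = w) :
    ∃ k ∈ κ, (∀ x ∈ S, k (FreeGroup.of x) = w * FreeGroup.of x * w⁻¹) ∧
      ∀ x, x ∉ S → k (FreeGroup.of x) = FreeGroup.of x := by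
  classical
  induction S using Finset.induction_on with
  | empty => exact ⟨1, one_mem _, by simp, fun x _ => by simp⟩
  | insert c T hc ih =>
    obtain ⟨k, hk, k1, k2⟩ := ih (fun x hx => hS x (Finset.mem_insert_of_mem hx))
      (fun k hk => hfix k fun x hx => hk x fun h => hx (Finset.mem_insert_of_mem h))
    have hkw : k w = w := hfix k fun x hx => k2 x fun h => hx (Finset.mem_insert_of_mem h)
    have hcw : kill c w = w := hS c (Finset.mem_insert_self c T)
    refine ⟨k * C c w⁻¹, mul_mem hk (h2 c _ (inv_mem hw)), ?_, ?_⟩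
    · intro x hx
      rw [MulAut.mul_apply]
      rcases Finset.mem_insert.1 hx with h | h
      · subst h
        rw [C_of_self, map_inv, inv_inv, hcw, map_mul, map_mul, map_inv, hkw, k2 x hc]
      · have hxc : x ≠ c := fun e => hc (e ▸ h)
        rw [C_of_ne hxc, k1 x h]
    · intro x hx
      have hxc : x ≠ c := fun e => hx (e ▸ Finset.mem_insert_self c T)
      rw [MulAut.mul_apply, C_of_ne hxc, k2 x fun h => hx (Finset.mem_insert_of_mem h)]

/-- MODULE M1 -/
theorem mut_CC {n : ℕ} {κ : Subgroup (MulAut (FreeGroup (Fin n)))} [κ.Normal]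
    (h2 : ∀ a, ∀ w ∈ g2 (FreeGroup (Fin n)), C a w ∈ κ)
    (h3 : ∀ w ∈ g3 (FreeGroup (Fin n)), MulAut.conj w ∈ κ)
    {a b : Fin n} (hab : a ≠ b) {s : MulAut (FreeGroup (Fin n))} (hs : s ∈ magS n) :
    Commute (QuotientGroup.mk' κ (C b (FreeGroup.of a) * C a (FreeGroup.of b) *
      (C b (FreeGroup.of a))⁻¹ * (C a (FreeGroup.of b))⁻¹)) (QuotientGroup.mk' κ s) := by
  obtain ⟨z, hz⟩ : ∃ z, z = C b (FreeGroup.of a) * C a (FreeGroup.of b) *
      (C b (FreeGroup.of a))⁻¹ * (C a (FreeGroup.of b))⁻¹ := ⟨_, rfl⟩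
  obtain ⟨w, hw⟩ : ∃ w, w = (FreeGroup.of a)⁻¹ * (FreeGroup.of b)⁻¹ * (FreeGroup.of a)⁻¹⁻¹ *
      (FreeGroup.of b)⁻¹⁻¹ := ⟨_, rfl⟩
  have hba : b ≠ a := fun e => hab e.symm
  rw [← hz]
  have hw2 : w ∈ g2 (FreeGroup (Fin n)) := hw ▸ mem_g2 _ _
  have A1 : C b (FreeGroup.of a) (FreeGroup.of b) =
      (FreeGroup.of a)⁻¹ * FreeGroup.of b * FreeGroup.of a := by
    rw [C_of_self, kill_of_ne hab]
  have A2 : C b (FreeGroup.of a) (FreeGroup.of a) = FreeGroup.of a := C_of_ne hab _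
  have A3 : (C b (FreeGroup.of a))⁻¹ (FreeGroup.of b) =
      FreeGroup.of a * FreeGroup.of b * (FreeGroup.of a)⁻¹ := by
    rw [C_inv, C_of_self, map_inv, kill_of_ne hab, inv_inv]
  have A4 : (C b (FreeGroup.of a))⁻¹ (FreeGroup.of a) = FreeGroup.of a := by
    rw [C_inv, C_of_ne hab]
  have B1 : C a (FreeGroup.of b) (FreeGroup.of a) =
      (FreeGroup.of b)⁻¹ * FreeGroup.of a * FreeGroup.of b := by
    rw [C_of_self, kill_of_ne hba]
  have B2 : C a (FreeGroup.of b) (FreeGroup.of b) = FreeGroup.of b := C_of_ne hba _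
  have B3 : (C a (FreeGroup.of b))⁻¹ (FreeGroup.of a) =
      FreeGroup.of b * FreeGroup.of a * (FreeGroup.of b)⁻¹ := by
    rw [C_inv, C_of_self, map_inv, kill_of_ne hba, inv_inv]
  have B4 : (C a (FreeGroup.of b))⁻¹ (FreeGroup.of b) = FreeGroup.of b := by
    rw [C_inv, C_of_ne hba]
  have za : z (FreeGroup.of a) = w * FreeGroup.of a * w⁻¹ := by
    rw [hz, MulAut.mul_apply, MulAut.mul_apply, MulAut.mul_apply, B3]
    simp only [map_mul, map_inv, A1, A2, A3, A4, B1, B2]
    rw [hw]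
    group
  have zb : z (FreeGroup.of b) = w * FreeGroup.of b * w⁻¹ := by
    rw [hz, MulAut.mul_apply, MulAut.mul_apply, MulAut.mul_apply, B4]
    simp only [map_mul, map_inv, A1, A2, A3, B1, B2]
    rw [hw]
    group
  have zo : ∀ x, x ≠ a → x ≠ b → z (FreeGroup.of x) = FreeGroup.of x := by
    intro x hxa hxb
    rw [hz, MulAut.mul_apply, MulAut.mul_apply, MulAut.mul_apply, C_inv a, C_of_ne hxa, C_inv b,
      C_of_ne hxb, C_of_ne hxa, C_of_ne hxb]
  have zw : z w = w := by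
    have : z w = w * w * w⁻¹ := by
      conv_lhs => rw [hw]
      conv_rhs => rw [show w * w * w⁻¹ = w * ((FreeGroup.of a)⁻¹ * (FreeGroup.of b)⁻¹ *
        (FreeGroup.of a)⁻¹⁻¹ * (FreeGroup.of b)⁻¹⁻¹) * w⁻¹ from by rw [← hw]]
      simp only [map_mul, map_inv, za, zb]
      group
    rw [this, mul_inv_cancel_right]
  obtain ⟨k, hk, k1, k2⟩ := exists_conj_part (κ := κ) h2 hw2 (Finset.univ \ {a, b})
    (fun c hc => by
      have hc' : c ≠ a ∧ c ≠ b := by simpa using hc
      rw [hw]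
      simp only [map_mul, map_inv, kill_of_ne hc'.1.symm, kill_of_ne hc'.2.symm])
    (fun k hk => by
      have ha : k (FreeGroup.of a) = FreeGroup.of a := hk a (by simp)
      have hb : k (FreeGroup.of b) = FreeGroup.of b := hk b (by simp)
      rw [hw]
      simp only [map_mul, map_inv, ha, hb])
  have hconj : MulAut.conj w = z * k := by
    apply aut_ext
    intro x
    rw [MulAut.conj_apply, MulAut.mul_apply]
    by_cases hxa : x = a
    · subst hxa
      rw [k2 x (by simp), za]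
    · by_cases hxb : x = b
      · subst hxb
        rw [k2 x (by simp), zb]
      · rw [k1 x (by simp [hxa, hxb]), map_mul, map_mul, map_inv, zw, zo x hxa hxb]
  have hπ : QuotientGroup.mk' κ z = QuotientGroup.mk' κ (MulAut.conj w) := by
    rw [hconj, map_mul, show QuotientGroup.mk' κ k = 1 from (QuotientGroup.eq_one_iff k).2 hk,
      mul_one]
  have hact : ∀ u, u⁻¹ * s u ∈ g2 (FreeGroup (Fin n)) := by
    rcases hs with ⟨c, d, rfl⟩ | ⟨c, d, e, rfl⟩
    · exact C_act c _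
    · exact R_act c (cm_mem d e)
  rw [hπ]
  refine (comm_of_conj_right (h3 (w⁻¹ * s w) ?_) ?_).symm
  · rw [hw]
    exact act_g3 hact _ _
  · rw [conj_conj_aut, ← map_mul, mul_inv_cancel_left]

end IAQ
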