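import Mathlib
import Pool.Agent.IAQ.MagNorm

/-!
# The Magnus generators are normalised by the inverses of the transvections
-/

set_option autoImplicit false

namespace IAQ

open AFn

section sign

variable {α : Type} [DecidableEq α]

/-- the endomorphism inverting the letter `e` -/
def ivHom (e : α) : FreeGroup α →* FreeGroup α :=
  FreeGroup.lift (fun x => if x = e then (FreeGroup.of x)⁻¹ else FreeGroup.of x)

theorem ivHom_of (e x : α) : ivHom e (FreeGroup.of x) =
    if x = e then (FreeGroup.of x)⁻¹ else FreeGroup.of x := by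
  rw [ivHom, FreeGroup.lift_apply_of]

theorem ivHom_ivHom (e : α) (g : FreeGroup α) : ivHom e (ivHom e g) = g := by
  have h : (ivHom e).comp (ivHom e) = MonoidHom.id _ := by
    ext x
    rw [MonoidHom.comp_apply, ivHom_of, MonoidHom.id_apply]
    by_cases hx : x = e
    · rw [if_pos hx, map_inv, ivHom_of, if_pos hx, inv_inv]
    · rw [if_neg hx, ivHom_of, if_neg hx]
  exact DFunLike.congr_fun h g

/-- the automorphism inverting the letter `e` -/
def iv (e : α) : MulAut (FreeGroup α) where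
  toFun := ivHom e
  invFun := ivHom e
  left_inv := ivHom_ivHom e
  right_inv := ivHom_ivHom e
  map_mul' x y := map_mul _ x y

theorem iv_of_self (e : α) : iv e (FreeGroup.of e) = (FreeGroup.of e)⁻¹ := by
  change ivHom e (FreeGroup.of e) = _
  rw [ivHom_of, if_pos rfl]

theorem iv_of_ne {e x : α} (h : x ≠ e) : iv e (FreeGroup.of x) = FreeGroup.of x := by
  change ivHom e (FreeGroup.of x) = _
  rw [ivHom_of, if_neg h]

theorem iv_kill (e : α) (g : FreeGroup α) : iv e (kill e g) = kill e g := by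
  have h : (ivHom e).comp (kill e) = kill e := by
    ext x
    rw [MonoidHom.comp_apply, kill_of]
    by_cases hx : x = e
    · rw [if_pos hx, map_one]
    · rw [if_neg hx, ivHom_of, if_neg hx]
  exact DFunLike.congr_fun h g

theorem iv_inv (e : α) : (iv e)⁻¹ = iv e := by
  rw [inv_eq_iff_mul_eq_one]
  ext g
  rw [MulAut.mul_apply]
  exact ivHom_ivHom e g

theorem iv_pres {a e : α} (h : a ≠ e) : Pres a (iv e) := by
  refine pres_of (iv_of_ne h) fun x hx => ?_
  by_cases hxe : x = e
  · subst hxe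
    rw [iv_of_self, map_inv, kill_of_ne hx]
  · rw [iv_of_ne hxe, kill_of_ne hx]

theorem iv_conj_R (e : α) (w : FreeGroup α) : iv e * R e w * (iv e)⁻¹ = L e w := by
  rw [mul_inv_eq_iff_eq_mul]
  apply aut_ext
  intro x
  rw [MulAut.mul_apply, MulAut.mul_apply]
  by_cases hx : x = e
  · subst hx
    rw [R_of_self, map_mul, iv_kill, iv_of_self, map_inv, L_of_self, mul_inv_rev, inv_inv]
  · rw [R_of_ne hx, iv_of_ne hx, L_of_ne hx]

theorem iv_conj_L (e : α) (w : FreeGroup α) : iv e * L e w * (iv e)⁻¹ = R e w := by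
  rw [← iv_conj_R]
  have h := iv_inv e
  calc iv e * (iv e * R e w * (iv e)⁻¹) * (iv e)⁻¹
      = iv e * iv e * R e w * ((iv e)⁻¹ * (iv e)⁻¹) := by group
    _ = iv e * (iv e)⁻¹ * R e w * ((iv e) * (iv e)⁻¹) := by rw [h]
    _ = R e w := by group

theorem iv_conj_C (e : α) (w : FreeGroup α) : iv e * C e w * (iv e)⁻¹ = C e w := by
  have h : iv e * C e w * (iv e)⁻¹ =
      (iv e * L e w * (iv e)⁻¹) * (iv e * R e w * (iv e)⁻¹) := by
    rw [C_eq]; group
  rw [h, iv_conj_L, iv_conj_R, C_eq, LR_comm]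

end sign

variable {n : ℕ}

theorem mag_L (a : Fin n) {w : FreeGroup (Fin n)} (hw : w ∈ g2 (FreeGroup (Fin n))) :
    L a w ∈ Subgroup.closure (magS n) := by
  have h : L a w = C a w * (R a w)⁻¹ := by rw [C_eq]; group
  rw [h]
  exact Subgroup.mul_mem _ (mag_C a w) (Subgroup.inv_mem _ (mag_R a hw))

theorem mag_iv (e : Fin n) : ∀ g ∈ Subgroup.closure (magS n),
    iv e * g * (iv e)⁻¹ ∈ Subgroup.closure (magS n) := by
  have h : Subgroup.closure (magS n) ≤
      (Subgroup.closure (magS n)).comap (MulAut.conj (iv e)).toMonoidHom := by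
    rw [Subgroup.closure_le]
    rintro g (⟨a, b, rfl⟩ | ⟨a, b, c, rfl⟩)
    · change iv e * C a (FreeGroup.of b) * (iv e)⁻¹ ∈ Subgroup.closure (magS n)
      by_cases hae : a = e
      · subst hae
        rw [iv_conj_C]
        exact mag_C _ _
      · rw [(iv_pres hae).conj_C]
        exact mag_C _ _
    · change iv e * R a (cm b c) * (iv e)⁻¹ ∈ Subgroup.closure (magS n)
      have hcm : cm b c ∈ g2 (FreeGroup (Fin n)) := mem_g2 _ _
      by_cases hae : a = e
      · subst hae
        rw [iv_conj_R]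
        exact mag_L _ hcm
      · rw [(iv_pres hae).conj_R]
        exact mag_R _ (hom_g2 (iv e).toMonoidHom (hom_g2 (kill a) hcm))
  intro g hg
  exact h hg

/-- conjugation by the inverse of a transvection -/
theorem magnus_norm_inv (d e : Fin n) (hde : d ≠ e) : ∀ g ∈ Subgroup.closure (magS n),
    (R d (FreeGroup.of e))⁻¹ * g * R d (FreeGroup.of e) ∈ Subgroup.closure (magS n) := by
  intro g hg
  have h1 : iv e * R d (FreeGroup.of e) * (iv e)⁻¹ = (R d (FreeGroup.of e))⁻¹ := by
    rw [(iv_pres hde).conj_R, kill_of_ne (Ne.symm hde), iv_of_self, map_inv]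
  have h2 := mag_iv e _ (magnus_norm d e hde _ (mag_iv e g hg))
  have h3 : iv e * (R d (FreeGroup.of e) * (iv e * g * (iv e)⁻¹) * (R d (FreeGroup.of e))⁻¹) *
      (iv e)⁻¹ = (iv e * R d (FreeGroup.of e) * (iv e)⁻¹) * (iv e * iv e * g *
        ((iv e)⁻¹ * (iv e)⁻¹)) * (iv e * R d (FreeGroup.of e) * (iv e)⁻¹)⁻¹ := by group
  have h4 : iv e * iv e = 1 := by
    have := iv_inv e
    rw [inv_eq_iff_mul_eq_one] at this
    exact this
  rw [h3, h1, ← mul_inv_rev, h4, inv_one, mul_one, one_mul, inv_inv] at h2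
  exact h2

end IAQ
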