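import Mathlib
import Pool.Agent.IAQ.MagTab

/-!
# The commutators of `x_a ↦ x_a [x_b, x_c]` and `x_b ↦ x_b [x_a, x_f]` are central
-/

set_option autoImplicit false

namespace IAQ

open AFn

namespace MTwo

section Abs

variable {G : Type*} [Group G]

theorem half_abs {ρ k g h r : G} (h1 : ρ * k * ρ⁻¹ * k⁻¹ = r⁻¹) (h2 : ρ * g * ρ⁻¹ = h * g)
    (h3 : Commute g k) (h4 : Commute h r) :
    r * g * r⁻¹ * g⁻¹ = h⁻¹ * (k * h * k⁻¹ * h⁻¹) * h := by
  have e0 : r = k * ρ * k⁻¹ * ρ⁻¹ := by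
    rw [← inv_inv r, ← h1]
    group
  have e1 : g * ρ * g⁻¹ = h⁻¹ * ρ := by
    have h5 : ρ * g = h * g * ρ := by rw [← h2]; group
    calc g * ρ * g⁻¹ = h⁻¹ * (h * g * ρ) * g⁻¹ := by group
      _ = h⁻¹ * ρ := by rw [← h5]; group
  have e2 : g * k * g⁻¹ = k := by rw [h3.eq]; group
  have e3 : g * r * g⁻¹ = k * h⁻¹ * k⁻¹ * h * r := by
    calc g * r * g⁻¹ = g * (k * ρ * k⁻¹ * ρ⁻¹) * g⁻¹ := by rw [← e0]
      _ = (g * k * g⁻¹) * (g * ρ * g⁻¹) * (g * k * g⁻¹)⁻¹ * (g * ρ * g⁻¹)⁻¹ := by group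
      _ = k * (h⁻¹ * ρ) * k⁻¹ * (h⁻¹ * ρ)⁻¹ := by rw [e1, e2]
      _ = k * h⁻¹ * k⁻¹ * (k * ρ * k⁻¹ * ρ⁻¹) * h := by group
      _ = k * h⁻¹ * k⁻¹ * (r * h) := by rw [← e0]; group
      _ = k * h⁻¹ * k⁻¹ * h * r := by rw [← h4.eq]; group
  calc r * g * r⁻¹ * g⁻¹ = r * (g * r * g⁻¹)⁻¹ := by group
    _ = h⁻¹ * (k * h * k⁻¹ * h⁻¹) * h := by rw [e3]; group

theorem comm_comm {x y t : G} (hx : Commute x t) (hy : Commute y t) :
    Commute (x * y * x⁻¹ * y⁻¹) t :=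
  ((hx.mul_left hy).mul_left hx.inv_left).mul_left hy.inv_left

end Abs

section IAt

variable {F : Type*} [Group F]

theorem q3_comm (v : F) {w : F} (hw : w ∈ g2 F) :
    Commute (QuotientGroup.mk' (g3 F) v) (QuotientGroup.mk' (g3 F) w) :=
  comm_of_g3 (QuotientGroup.mk' (g3 F)) (fun w hw => by
    rw [QuotientGroup.mk'_apply, QuotientGroup.eq_one_iff]
    exact hw) hw v

/-- an automorphism which is trivial modulo `g2` is trivial on `g2` modulo `g3` -/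
theorem triv_g2 {φ : F →* F} (hφ : ∀ x, φ x * x⁻¹ ∈ g2 F) {w : F} (hw : w ∈ g2 F) :
    QuotientGroup.mk' (g3 F) (φ w) = QuotientGroup.mk' (g3 F) w := by
  have h : g2 F ≤ ((QuotientGroup.mk' (g3 F)).comp φ).eqLocus (QuotientGroup.mk' (g3 F)) := by
    refine g2_le fun v w => ?_
    show QuotientGroup.mk' (g3 F) (φ (v * w * v⁻¹ * w⁻¹)) =
      QuotientGroup.mk' (g3 F) (v * w * v⁻¹ * w⁻¹)
    obtain ⟨α, hα⟩ : ∃ α, α = φ v * v⁻¹ := ⟨_, rfl⟩
    obtain ⟨β, hβ⟩ : ∃ β, β = φ w * w⁻¹ := ⟨_, rfl⟩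
    have hα2 : α ∈ g2 F := hα ▸ hφ v
    have hβ2 : β ∈ g2 F := hβ ▸ hφ w
    have e1 : QuotientGroup.mk' (g3 F) (φ v) =
        QuotientGroup.mk' (g3 F) α * QuotientGroup.mk' (g3 F) v := by
      rw [← map_mul, hα]
      congr 1
      group
    have e2 : QuotientGroup.mk' (g3 F) (φ w) =
        QuotientGroup.mk' (g3 F) β * QuotientGroup.mk' (g3 F) w := by
      rw [← map_mul, hβ]
      congr 1
      group
    simp only [map_mul, map_inv]
    rw [e1, e2]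
    have c1 := q3_comm v hα2
    have c2 := q3_comm w hα2
    have c3 := q3_comm v hβ2
    have c4 := q3_comm w hβ2
    have c5 := q3_comm α hβ2
    generalize QuotientGroup.mk' (g3 F) v = V at *
    generalize QuotientGroup.mk' (g3 F) w = W at *
    generalize QuotientGroup.mk' (g3 F) α = A at *
    generalize QuotientGroup.mk' (g3 F) β = B at *
    have d1 : Commute A (B * W * (A * V)⁻¹) :=
      (c5.mul_right c2.symm).mul_right
        (((Commute.refl A).mul_right c1.symm).inv_right)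
    have d2 : Commute B (V * (B * W * (A * V)⁻¹)) := by
      refine c3.symm.mul_right (((Commute.refl B).mul_right c4.symm).mul_right
        ((c5.symm.mul_right c3.symm).inv_right))
    calc A * V * (B * W) * (A * V)⁻¹ * (B * W)⁻¹ = A * V * B * W * V⁻¹ * A⁻¹ * (B * W)⁻¹ := by
          group
      _ = A * (V * B) * W * V⁻¹ * A⁻¹ * (B * W)⁻¹ := by group
      _ = A * (B * V) * W * V⁻¹ * A⁻¹ * (B * W)⁻¹ := by rw [c3.eq]
      _ = (A * (B * V * W * V⁻¹)) * A⁻¹ * (B * W)⁻¹ := by group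
      _ = ((B * V * W * V⁻¹) * A) * A⁻¹ * (B * W)⁻¹ := by
          rw [(((c5.mul_right c1.symm).mul_right c2.symm).mul_right c1.symm.inv_right).eq]
      _ = B * (V * W * V⁻¹ * W⁻¹) * B⁻¹ := by group
      _ = (V * W * V⁻¹ * W⁻¹) * B * B⁻¹ := by
          rw [(((c3.symm.mul_right c4.symm).mul_right c3.symm.inv_right).mul_right
            c4.symm.inv_right).eq]
      _ = V * W * V⁻¹ * W⁻¹ := by group
  exact h hw

/-- the commutator of two automorphisms which are trivial modulo `g2` is trivial modulo `g3` -/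
theorem comm_triv {φ ψ : MulAut F} (hφ : ∀ x, φ x * x⁻¹ ∈ g2 F) (hψ : ∀ x, ψ x * x⁻¹ ∈ g2 F)
    (x : F) : (φ * ψ * φ⁻¹ * ψ⁻¹) x * x⁻¹ ∈ g3 F := by
  have key : ∀ y, QuotientGroup.mk' (g3 F) (φ (ψ y)) = QuotientGroup.mk' (g3 F) (ψ (φ y)) := by
    intro y
    have e1 : ψ y = (ψ y * y⁻¹) * y := by group
    have e2 : φ y = (φ y * y⁻¹) * y := by group
    have t1 := triv_g2 (φ := φ.toMonoidHom) hφ (hψ y)
    have t2 := triv_g2 (φ := ψ.toMonoidHom) hψ (hφ y)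
    have t1' : QuotientGroup.mk' (g3 F) (φ (ψ y * y⁻¹)) =
      QuotientGroup.mk' (g3 F) (ψ y * y⁻¹) := t1
    have t2' : QuotientGroup.mk' (g3 F) (ψ (φ y * y⁻¹)) =
      QuotientGroup.mk' (g3 F) (φ y * y⁻¹) := t2
    have c1 := q3_comm (ψ y * y⁻¹) (hφ y)
    calc QuotientGroup.mk' (g3 F) (φ (ψ y))
        = QuotientGroup.mk' (g3 F) (φ (ψ y * y⁻¹)) * QuotientGroup.mk' (g3 F) (φ y) := by
          rw [← map_mul, ← map_mul, ← e1]
      _ = QuotientGroup.mk' (g3 F) (ψ y * y⁻¹) * QuotientGroup.mk' (g3 F) ((φ y * y⁻¹) * y) := by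
          rw [t1', ← e2]
      _ = (QuotientGroup.mk' (g3 F) (ψ y * y⁻¹) * QuotientGroup.mk' (g3 F) (φ y * y⁻¹)) *
            QuotientGroup.mk' (g3 F) y := by rw [map_mul _ (φ y * y⁻¹) y, mul_assoc]
      _ = (QuotientGroup.mk' (g3 F) (φ y * y⁻¹) * QuotientGroup.mk' (g3 F) (ψ y * y⁻¹)) *
            QuotientGroup.mk' (g3 F) y := by rw [c1.eq]
      _ = QuotientGroup.mk' (g3 F) (φ y * y⁻¹) * QuotientGroup.mk' (g3 F) ((ψ y * y⁻¹) * y) := by
          rw [map_mul _ (ψ y * y⁻¹) y, mul_assoc]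
      _ = QuotientGroup.mk' (g3 F) (ψ (φ y * y⁻¹)) * QuotientGroup.mk' (g3 F) (ψ y) := by
          rw [t2', ← e1]
      _ = QuotientGroup.mk' (g3 F) (ψ (φ y)) := by
          rw [← map_mul, ← map_mul, ← e2]
  have h := key (φ⁻¹ (ψ⁻¹ x))
  rw [MulAut.apply_inv_self, MulAut.apply_inv_self] at h
  rw [← QuotientGroup.eq_one_iff, ← QuotientGroup.mk'_apply, map_mul, map_inv]
  rw [MulAut.mul_apply, MulAut.mul_apply, MulAut.mul_apply, h, mul_inv_cancel]

end IAt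

section RR

variable {n : ℕ}

theorem cm_g2 (b c : Fin n) : cm b c ∈ g2 (FreeGroup (Fin n)) := mem_g2 _ _

theorem kill_cm {a b c : Fin n} (hb : b ≠ a) (hc : c ≠ a) : kill a (cm b c) = cm b c := by
  simp only [cm, map_mul, map_inv, kill_of_ne hb, kill_of_ne hc]

/-- transvections by elements of `g2` are trivial modulo `g2` -/
theorem R_triv (a : Fin n) {w : FreeGroup (Fin n)} (hw : w ∈ g2 (FreeGroup (Fin n)))
    (x : FreeGroup (Fin n)) : R a w x * x⁻¹ ∈ g2 (FreeGroup (Fin n)) := by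
  have h : (QuotientGroup.mk' (g2 (FreeGroup (Fin n)))).comp (R a w).toMonoidHom =
      QuotientGroup.mk' (g2 (FreeGroup (Fin n))) := by
    ext y
    show QuotientGroup.mk' (g2 (FreeGroup (Fin n))) (R a w (FreeGroup.of y)) =
      QuotientGroup.mk' (g2 (FreeGroup (Fin n))) (FreeGroup.of y)
    rw [R_of]
    split_ifs with hy
    · have h1 : kill a w ∈ g2 (FreeGroup (Fin n)) := hom_g2 (kill a) hw
      have h2 : QuotientGroup.mk' (g2 (FreeGroup (Fin n))) (kill a w) = 1 := by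
        rw [QuotientGroup.mk'_apply, QuotientGroup.eq_one_iff]
        exact h1
      rw [map_mul, h2, mul_one]
    · rfl
  have h3 : QuotientGroup.mk' (g2 (FreeGroup (Fin n))) (R a w x) =
      QuotientGroup.mk' (g2 (FreeGroup (Fin n))) x := DFunLike.congr_fun h x
  rw [← QuotientGroup.eq_one_iff, ← QuotientGroup.mk'_apply, map_mul, map_inv, h3,
    mul_inv_cancel]

theorem Pres.mul {a : Fin n} {φ ψ : MulAut (FreeGroup (Fin n))} (h1 : Pres a φ)
    (h2 : Pres a ψ) : Pres a (φ * ψ) := by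
  refine ⟨by rw [MulAut.mul_apply, h2.1, h1.1], fun g => ?_⟩
  rw [MulAut.mul_apply, ← h2.2 g]
  exact h1.2 _

/-- the commutator -/
def XX (a b c f : Fin n) : MulAut (FreeGroup (Fin n)) :=
  R a (cm b c) * R b (cm a f) * (R a (cm b c))⁻¹ * (R b (cm a f))⁻¹

theorem XX_triv (a b c f : Fin n) (x : FreeGroup (Fin n)) :
    XX a b c f x * x⁻¹ ∈ g3 (FreeGroup (Fin n)) :=
  comm_triv (R_triv a (cm_g2 b c)) (R_triv b (cm_g2 a f)) x

theorem XX_pres {a b c f e : Fin n} (ha : a ≠ e) (hb : b ≠ e) (hc : c ≠ e) (hf : f ≠ e) :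
    Pres e (XX a b c f) := by
  have h1 : Pres e (R a (cm b c)) := pres_R (Ne.symm ha) (kill_cm hb hc)
  have h2 : Pres e (R b (cm a f)) := pres_R (Ne.symm hb) (kill_cm ha hf)
  have h3 : Pres e (R a (cm b c))⁻¹ := by
    rw [R_inv]
    exact pres_R (Ne.symm ha) (by rw [map_inv, kill_cm hb hc])
  have h4 : Pres e (R b (cm a f))⁻¹ := by
    rw [R_inv]
    exact pres_R (Ne.symm hb) (by rw [map_inv, kill_cm ha hf])
  exact Pres.mul (Pres.mul (Pres.mul h1 h2) h3) h4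

variable {κ : Subgroup (MulAut (FreeGroup (Fin n)))} [κ.Normal]

theorem mk_one {g : MulAut (FreeGroup (Fin n))} (h : g ∈ κ) : QuotientGroup.mk' κ g = 1 := by
  rw [QuotientGroup.mk'_apply, QuotientGroup.eq_one_iff]
  exact h

theorem comm_pres_R (h1 : ∀ a, ∀ w ∈ g3 (FreeGroup (Fin n)), R a w ∈ κ)
    {φ : MulAut (FreeGroup (Fin n))} (hφ : ∀ x, φ x * x⁻¹ ∈ g3 (FreeGroup (Fin n)))
    {e : Fin n} (he : Pres e φ) (w : FreeGroup (Fin n)) :
    Commute (QuotientGroup.mk' κ φ) (QuotientGroup.mk' κ (R e w)) := by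
  have h2 := he.conj_R w
  have h3 : φ (kill e w) = (φ (kill e w) * (kill e w)⁻¹) * kill e w := by group
  rw [h3, map_mul, R_killed] at h2
  have h4 := congrArg (QuotientGroup.mk' κ) h2
  rw [map_mul _ (R e (φ (kill e w) * (kill e w)⁻¹)) (R e w), mk_one (h1 e _ (hφ _)), one_mul,
    map_mul, map_mul, map_inv, mul_inv_eq_iff_eq_mul] at h4
  exact h4

theorem comm_pres_C (h2 : ∀ a, ∀ w ∈ g2 (FreeGroup (Fin n)), C a w ∈ κ)
    {φ : MulAut (FreeGroup (Fin n))} (hφ : ∀ x, φ x * x⁻¹ ∈ g3 (FreeGroup (Fin n)))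
    {e : Fin n} (he : Pres e φ) (w : FreeGroup (Fin n)) :
    Commute (QuotientGroup.mk' κ φ) (QuotientGroup.mk' κ (C e w)) := by
  have h1 := he.conj_C w
  have h3 : φ (kill e w) = (φ (kill e w) * (kill e w)⁻¹) * kill e w := by group
  rw [h3, map_mul, C_killed] at h1
  have h4 := congrArg (QuotientGroup.mk' κ) h1
  rw [map_mul _ (C e (φ (kill e w) * (kill e w)⁻¹)) (C e w),
    mk_one (h2 e _ (g3_le_g2 (hφ _))), one_mul, map_mul, map_mul, map_inv,
    mul_inv_eq_iff_eq_mul] at h4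
  exact h4

theorem half (h1 : ∀ a, ∀ w ∈ g3 (FreeGroup (Fin n)), R a w ∈ κ)
    {a b c f d : Fin n} (hab : a ≠ b) (hac : a ≠ c) (haf : a ≠ f) (hbc : b ≠ c) (hbf : b ≠ f)
    (hda : d ≠ a) (hdb : d ≠ b) (hdc : d ≠ c) (hdf : d ≠ f) :
    QuotientGroup.mk' κ (XX a b c f) =
      (QuotientGroup.mk' κ (R b (cm d f)))⁻¹ * QuotientGroup.mk' κ (XX d b c f) *
        QuotientGroup.mk' κ (R b (cm d f)) := by
  have e1 : R a (FreeGroup.of d) * R d (cm b c) * (R a (FreeGroup.of d))⁻¹ * (R d (cm b c))⁻¹ =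
      R d (cm b c) * R a (FreeGroup.of d * (cm b c)⁻¹ * (FreeGroup.of d)⁻¹) *
        (R d (cm b c))⁻¹ := by
    rw [conj_I2 hda (kill_cm (Ne.symm hab) (Ne.symm hac)) (kill_cm (Ne.symm hdb) (Ne.symm hdc))]
  have e2 : R d (cm b c) * R a (FreeGroup.of d * (cm b c)⁻¹ * (FreeGroup.of d)⁻¹) *
      (R d (cm b c))⁻¹ = R a (FreeGroup.of d * (cm b c)⁻¹ * (FreeGroup.of d)⁻¹) := by
    have hp : Pres a (R d (cm b c)) := pres_R (Ne.symm hda) (kill_cm (Ne.symm hab) (Ne.symm hac))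
    have hk : kill a (FreeGroup.of d * (cm b c)⁻¹ * (FreeGroup.of d)⁻¹) =
        FreeGroup.of d * (cm b c)⁻¹ * (FreeGroup.of d)⁻¹ := by
      simp only [map_mul, map_inv, kill_of_ne hda, kill_cm (Ne.symm hab) (Ne.symm hac)]
    have hd : kill d (cm b c) = cm b c := kill_cm (Ne.symm hdb) (Ne.symm hdc)
    rw [hp.conj_R, hk]
    congr 1
    rw [map_mul, map_mul, map_inv, map_inv, R_fixed _ hd, R_of_self, hd]
    group
  have e3 : QuotientGroup.mk' κ (R a (FreeGroup.of d * (cm b c)⁻¹ * (FreeGroup.of d)⁻¹)) =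
      (QuotientGroup.mk' κ (R a (cm b c)))⁻¹ := by
    have h3 : FreeGroup.of d * (cm b c)⁻¹ * (FreeGroup.of d)⁻¹ =
        (FreeGroup.of d * (cm b c)⁻¹ * (FreeGroup.of d)⁻¹ * ((cm b c)⁻¹)⁻¹) * (cm b c)⁻¹ := by
      group
    rw [h3, map_mul, map_mul, mk_one (h1 a _ (mem_g3' _ (Subgroup.inv_mem _ (cm_g2 b c)))),
      one_mul, map_inv, map_inv]
  have e4 : QuotientGroup.mk' κ (R a (FreeGroup.of d) * R b (cm a f) *
      (R a (FreeGroup.of d))⁻¹) =
      QuotientGroup.mk' κ (R b (cm d f)) * QuotientGroup.mk' κ (R b (cm a f)) := by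
    have hp : Pres b (R a (FreeGroup.of d)) := pres_R (Ne.symm hab) (kill_of_ne hdb)
    have h3 : R a (FreeGroup.of d) (cm a f) =
        (FreeGroup.of a * cm d f * (FreeGroup.of a)⁻¹ * (cm d f)⁻¹) * (cm d f * cm a f) := by
      simp only [cm, map_mul, map_inv, R_of, if_true, if_neg (Ne.symm haf), kill_of_ne hda]
      group
    have h4 : ∀ X Y Z : FreeGroup (Fin n), QuotientGroup.mk' κ (R b (X * (Y * Z))) =
        QuotientGroup.mk' κ (R b X) * (QuotientGroup.mk' κ (R b Y) *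
          QuotientGroup.mk' κ (R b Z)) := by
      intro X Y Z
      simp only [map_mul]
    rw [hp.conj_R, kill_cm hab (Ne.symm hbf), h3, h4,
      mk_one (h1 b _ (mem_g3' _ (cm_g2 d f))), one_mul]
  have hc1 : Commute (QuotientGroup.mk' κ (R b (cm a f))) (QuotientGroup.mk' κ (R d (cm b c))) :=
    tabRR' h1 (Ne.symm hdb) (by
      rintro ⟨h | h, -⟩
      · exact hda h
      · exact hdf h)
  have hc2 : Commute (QuotientGroup.mk' κ (R b (cm d f))) (QuotientGroup.mk' κ (R a (cm b c))) :=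
    tabRR' h1 (Ne.symm hab) (by
      rintro ⟨h | h, -⟩
      · exact hda h.symm
      · exact haf h)
  have h5 := half_abs (ρ := QuotientGroup.mk' κ (R a (FreeGroup.of d)))
    (k := QuotientGroup.mk' κ (R d (cm b c))) (g := QuotientGroup.mk' κ (R b (cm a f)))
    (h := QuotientGroup.mk' κ (R b (cm d f))) (r := QuotientGroup.mk' κ (R a (cm b c)))
    (by rw [← e3, ← e2, ← e1]; simp only [map_mul, map_inv])
    (by rw [← e4]; simp only [map_mul, map_inv]) hc1 hc2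
  simp only [XX, map_mul, map_inv] at h5 ⊢
  exact h5

theorem moveA (h1 : ∀ a, ∀ w ∈ g3 (FreeGroup (Fin n)), R a w ∈ κ)
    {a b c f d : Fin n} (hab : a ≠ b) (hac : a ≠ c) (haf : a ≠ f) (hbc : b ≠ c) (hbf : b ≠ f)
    (hdb : d ≠ b) (hdc : d ≠ c) (hdf : d ≠ f) :
    QuotientGroup.mk' κ (XX a b c f) = QuotientGroup.mk' κ (XX d b c f) := by
  by_cases hda : d = a
  · rw [hda]
  have h2 := half h1 (a := d) (b := b) (c := c) (f := f) (d := a) hdb hdc hdf hbc hbf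
    (Ne.symm hda) hab hac haf
  have hc1 : Commute (QuotientGroup.mk' κ (R d (cm b c))) (QuotientGroup.mk' κ (R b (cm a f))) :=
    tabRR' h1 hdb (by
      rintro ⟨-, h | h⟩
      · exact hda h
      · exact hdf h)
  have hc2 : Commute (QuotientGroup.mk' κ (R b (cm d f))) (QuotientGroup.mk' κ (R b (cm a f))) :=
    tabRR h1 b _ (cm_g2 a f)
  have hc3 : Commute (QuotientGroup.mk' κ (XX d b c f)) (QuotientGroup.mk' κ (R b (cm a f))) := by
    simp only [XX, map_mul, map_inv]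
    exact comm_comm hc1 hc2
  have h3 : QuotientGroup.mk' κ (XX a b c f) = QuotientGroup.mk' κ (R b (cm a f)) *
      QuotientGroup.mk' κ (XX d b c f) * (QuotientGroup.mk' κ (R b (cm a f)))⁻¹ := by
    rw [h2]
    group
  rw [h3, ← hc3.eq]
  group

theorem XX_symm (a b c f : Fin n) : XX b a f c = (XX a b c f)⁻¹ := by
  simp only [XX]
  group

theorem moveB (h1 : ∀ a, ∀ w ∈ g3 (FreeGroup (Fin n)), R a w ∈ κ)
    {a b c f d : Fin n} (hab : a ≠ b) (hac : a ≠ c) (haf : a ≠ f) (hbc : b ≠ c) (hbf : b ≠ f)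
    (hda : d ≠ a) (hdc : d ≠ c) (hdf : d ≠ f) :
    QuotientGroup.mk' κ (XX a b c f) = QuotientGroup.mk' κ (XX a d c f) := by
  have h2 := moveA h1 (a := b) (b := a) (c := f) (f := c) (d := d) (Ne.symm hab) hbf hbc haf hac
    hda hdf hdc
  rw [XX_symm a b c f, XX_symm a d c f, map_inv, map_inv, inv_inj] at h2
  exact h2

theorem fresh (hn : 5 ≤ n) (p q r s : Fin n) : ∃ x, x ≠ p ∧ x ≠ q ∧ x ≠ r ∧ x ≠ s := by
  by_contra h
  push Not at h
  have h1 : (Finset.univ : Finset (Fin n)) ⊆ {p, q, r, s} := by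
    intro x _
    simp only [Finset.mem_insert, Finset.mem_singleton]
    by_cases h2 : x = p
    · exact Or.inl h2
    by_cases h3 : x = q
    · exact Or.inr (Or.inl h3)
    by_cases h4 : x = r
    · exact Or.inr (Or.inr (Or.inl h4))
    · exact Or.inr (Or.inr (Or.inr (h x h2 h3 h4)))
  have h2 := Finset.card_le_card h1
  have h3 : ({p, q, r, s} : Finset (Fin n)).card ≤ 4 := Finset.card_le_four
  rw [Finset.card_univ, Fintype.card_fin] at h2
  omega

theorem connect (hn : 5 ≤ n) (h1 : ∀ a, ∀ w ∈ g3 (FreeGroup (Fin n)), R a w ∈ κ)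
    {a b c f a' b' : Fin n} (hab : a ≠ b) (hac : a ≠ c) (haf : a ≠ f) (hbc : b ≠ c)
    (hbf : b ≠ f) (hab' : a' ≠ b') (hac' : a' ≠ c) (haf' : a' ≠ f) (hbc' : b' ≠ c)
    (hbf' : b' ≠ f) :
    QuotientGroup.mk' κ (XX a b c f) = QuotientGroup.mk' κ (XX a' b' c f) := by
  by_cases h2 : a' = b
  · by_cases h3 : b' = a
    · obtain ⟨d, hda, hdb, hdc, hdf⟩ := fresh hn a b c f
      rw [h2, h3, moveA h1 hab hac haf hbc hbf hdb hdc hdf,
        moveB h1 hdb hdc hdf hbc hbf (Ne.symm hda) hac haf,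
        moveA h1 hda hdc hdf hac haf (Ne.symm hab) hbc hbf]
    · rw [moveB h1 hab hac haf hbc hbf h3 hbc' hbf',
        moveA h1 (Ne.symm h3) hac haf hbc' hbf' hab' hac' haf']
  · rw [moveA h1 hab hac haf hbc hbf h2 hac' haf',
      moveB h1 h2 hac' haf' hbc hbf (Ne.symm hab') hbc' hbf']

theorem key (hn : 5 ≤ n) (h1 : ∀ a, ∀ w ∈ g3 (FreeGroup (Fin n)), R a w ∈ κ)
    (h2 : ∀ a, ∀ w ∈ g2 (FreeGroup (Fin n)), C a w ∈ κ)
    {a b c f : Fin n} (hab : a ≠ b) (hac : a ≠ c) (haf : a ≠ f) (hbc : b ≠ c) (hbf : b ≠ f)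
    (e v w : Fin n) :
    Commute (QuotientGroup.mk' κ (XX a b c f)) (QuotientGroup.mk' κ (C e (FreeGroup.of v))) ∧
    Commute (QuotientGroup.mk' κ (XX a b c f)) (QuotientGroup.mk' κ (R e (cm v w))) := by
  -- the case where the commutator and the generator commute by the table
  have table : ∀ a' b' : Fin n, a' ≠ b' → a' ≠ c → a' ≠ f → b' ≠ c → b' ≠ f → a' ≠ e → b' ≠ e →
      (e = c → a' ≠ v ∧ a' ≠ w) → (e = f → b' ≠ v ∧ b' ≠ w) →
      Commute (QuotientGroup.mk' κ (XX a b c f)) (QuotientGroup.mk' κ (C e (FreeGroup.of v))) ∧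
      Commute (QuotientGroup.mk' κ (XX a b c f)) (QuotientGroup.mk' κ (R e (cm v w))) := by
    intro a' b' k1 k2 k3 k4 k5 k6 k7 k8 k9
    rw [connect hn h1 hab hac haf hbc hbf k1 k2 k3 k4 k5]
    simp only [XX, map_mul, map_inv]
    constructor
    · refine comm_comm (tabRC' h1 h2 k6 ?_) (tabRC' h1 h2 k7 ?_)
      · rintro ⟨h3, h4 | h4⟩
        · exact k7 h4.symm
        · exact (k8 h4).1 h3.symm
      · rintro ⟨h3, h4 | h4⟩
        · exact k6 h4.symm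
        · exact (k9 h4).1 h3.symm
    · refine comm_comm (tabRR' h1 k6 ?_) (tabRR' h1 k7 ?_)
      · rintro ⟨h3 | h3, h4⟩
        · exact k7 h3.symm
        · rcases h4 with h4 | h4
          · exact (k8 h3).1 h4
          · exact (k8 h3).2 h4
      · rintro ⟨h3 | h3, h4⟩
        · exact k6 h3.symm
        · rcases h4 with h4 | h4
          · exact (k9 h3).1 h4
          · exact (k9 h3).2 h4
  by_cases hec : e = c
  · by_cases hef : e = f
    · obtain ⟨a', q1, q2, q3, -⟩ := fresh hn c v w w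
      obtain ⟨b', r1, r2, r3, r4⟩ := fresh hn c v w a'
      have hcf : c = f := hec.symm.trans hef
      refine table a' b' (Ne.symm r4) q1 (hcf ▸ q1) r1 (hcf ▸ r1) (hec.symm ▸ q1)
        (hec.symm ▸ r1) (fun _ => ⟨q2, q3⟩) (fun _ => ⟨r2, r3⟩)
    · obtain ⟨a', q1, q2, q3, q4⟩ := fresh hn c f v w
      obtain ⟨b', r1, r2, r3, -⟩ := fresh hn c f a' a'
      exact table a' b' (Ne.symm r3) q1 q2 r1 r2 (hec.symm ▸ q1) (hec.symm ▸ r1)
        (fun _ => ⟨q3, q4⟩) (fun h => absurd h hef)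
  · by_cases hef : e = f
    · obtain ⟨b', q1, q2, q3, q4⟩ := fresh hn c f v w
      obtain ⟨a', r1, r2, r3, -⟩ := fresh hn c f b' b'
      exact table a' b' r3 r1 r2 q1 q2 (hef.symm ▸ r2) (hef.symm ▸ q2)
        (fun h => absurd h hec) (fun _ => ⟨q3, q4⟩)
    · obtain ⟨a', q1, q2, q3, -⟩ := fresh hn c f e e
      obtain ⟨b', r1, r2, r3, r4⟩ := fresh hn c f e a'
      rw [connect hn h1 hab hac haf hbc hbf (Ne.symm r4) q1 q2 r1 r2]
      have hp : Pres e (XX a' b' c f) := XX_pres q3 r3 (Ne.symm hec) (Ne.symm hef)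
      exact ⟨comm_pres_C h2 (XX_triv _ _ _ _) hp _, comm_pres_R h1 (XX_triv _ _ _ _) hp _⟩

end RR

end MTwo

/-- MODULE M2, file Pool/Agent/IAQ/MagTwo.lean (uses MagTab) -/
theorem mut_RR {n : ℕ} (hn : 5 ≤ n) {κ : Subgroup (MulAut (FreeGroup (Fin n)))} [κ.Normal]
    (h1 : ∀ a, ∀ w ∈ g3 (FreeGroup (Fin n)), R a w ∈ κ)
    (h2 : ∀ a, ∀ w ∈ g2 (FreeGroup (Fin n)), C a w ∈ κ)
    {a b c f : Fin n} (hab : a ≠ b) (hac : a ≠ c) (haf : a ≠ f) (hbc : b ≠ c) (hbf : b ≠ f)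
    {s : MulAut (FreeGroup (Fin n))} (hs : s ∈ magS n) :
    Commute (QuotientGroup.mk' κ (R a (cm b c) * R b (cm a f) * (R a (cm b c))⁻¹ *
      (R b (cm a f))⁻¹)) (QuotientGroup.mk' κ s) := by
  rcases hs with ⟨e, v, rfl⟩ | ⟨e, v, w, rfl⟩
  · exact (MTwo.key hn h1 h2 hab hac haf hbc hbf e v v).1
  · exact (MTwo.key hn h1 h2 hab hac haf hbc hbf e v w).2

end IAQ
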