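import Mathlib
import Pool.Agent.IAQ.MagInv
import Pool.Agent.IAQ.MagTab
import Pool.Agent.IAQ.MagTwo

/-!
# The commutator of `R c [x_a, x_f]` and `C a x_c` is central modulo `κ`
-/

set_option autoImplicit false

namespace IAQ

open AFn

/-- a commutator with a product -/
theorem comm_prod_aux {G : Type*} [Group G] {g A Y B r D z1 z2 : G} (hA : Commute g A)
    (hB : Commute g B) (hD : Commute g D) (hr : g * r * g⁻¹ = z1 * r) (hY : g * Y * g⁻¹ = z2 * Y)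
    (h2A : Commute z2 A) (h1A : Commute z1 A) (h1Y : Commute z1 Y) (h1B : Commute z1 B) :
    g * (A⁻¹ * Y * B * r * D) * g⁻¹ * (A⁻¹ * Y * B * r * D)⁻¹ = z2 * z1 := by
  have eA : g * A⁻¹ * g⁻¹ = A⁻¹ := by
    rw [(hA.inv_right).eq]; group
  have eB : g * B * g⁻¹ = B := by
    rw [hB.eq]; group
  have eD : g * D * g⁻¹ = D := by
    rw [hD.eq]; group
  have e1 : g * (A⁻¹ * Y * B * r * D) * g⁻¹ =
      (g * A⁻¹ * g⁻¹) * (g * Y * g⁻¹) * (g * B * g⁻¹) * (g * r * g⁻¹) * (g * D * g⁻¹) := by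
    group
  have e2 : A⁻¹ * (z2 * Y) * B * (z1 * r) * D = z2 * z1 * (A⁻¹ * Y * B * r * D) := by
    have f1 : A⁻¹ * z2 = z2 * A⁻¹ := (h2A.inv_right).eq.symm
    have f2 : A⁻¹ * Y * B * z1 = z1 * (A⁻¹ * Y * B) :=
      ((((h1A.inv_right).mul_right h1Y).mul_right h1B).eq).symm
    calc A⁻¹ * (z2 * Y) * B * (z1 * r) * D = (A⁻¹ * z2) * Y * B * z1 * r * D := by group
      _ = (z2 * A⁻¹) * Y * B * z1 * r * D := by rw [f1]
      _ = z2 * (A⁻¹ * Y * B * z1) * r * D := by group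
      _ = z2 * (z1 * (A⁻¹ * Y * B)) * r * D := by rw [f2]
      _ = z2 * z1 * (A⁻¹ * Y * B * r * D) := by group
  rw [e1, eA, eB, eD, hr, hY, e2, mul_inv_cancel_right]

theorem cent_closure {n : ℕ} {κ : Subgroup (MulAut (FreeGroup (Fin n)))} [κ.Normal]
    {z : MulAut (FreeGroup (Fin n)) ⧸ κ}
    (h : ∀ s ∈ magS n, Commute z (QuotientGroup.mk' κ s)) :
    ∀ s ∈ Subgroup.closure (magS n), Commute z (QuotientGroup.mk' κ s) := by
  have h1 : Subgroup.closure (magS n) ≤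
      (Subgroup.centralizer {z}).comap (QuotientGroup.mk' κ) := by
    rw [Subgroup.closure_le]
    intro s hs
    change QuotientGroup.mk' κ s ∈ Subgroup.centralizer {z}
    rw [Subgroup.mem_centralizer_singleton_iff]
    exact (h s hs).symm.eq
  intro s hs
  have h2 := h1 hs
  rw [Subgroup.mem_comap, Subgroup.mem_centralizer_singleton_iff] at h2
  exact Commute.symm h2

theorem exists_other {n : ℕ} (hn : 5 ≤ n) (a c f : Fin n) :
    ∃ d : Fin n, d ≠ a ∧ d ≠ c ∧ d ≠ f := by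
  classical
  have h : (({a, c, f} : Finset (Fin n))ᶜ).Nonempty := by
    rw [← Finset.card_pos, Finset.card_compl, Fintype.card_fin]
    have := Finset.card_le_three (a := a) (b := c) (c := f)
    omega
  obtain ⟨d, hd⟩ := h
  rw [Finset.mem_compl] at hd
  simp only [Finset.mem_insert, Finset.mem_singleton, not_or] at hd
  exact ⟨d, hd⟩

/-- MODULE M3 -/
theorem mut_RC {n : ℕ} (hn : 5 ≤ n) {κ : Subgroup (MulAut (FreeGroup (Fin n)))} [κ.Normal]
    (h1 : ∀ a, ∀ w ∈ g3 (FreeGroup (Fin n)), R a w ∈ κ)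
    (h2 : ∀ a, ∀ w ∈ g2 (FreeGroup (Fin n)), C a w ∈ κ)
    {a c f : Fin n} (hac : a ≠ c) (haf : a ≠ f) (hcf : c ≠ f)
    {s : MulAut (FreeGroup (Fin n))} (hs : s ∈ magS n) :
    Commute (QuotientGroup.mk' κ (R c (cm a f) * C a (FreeGroup.of c) *
      (R c (cm a f))⁻¹ * (C a (FreeGroup.of c))⁻¹)) (QuotientGroup.mk' κ s) := by
  obtain ⟨d, hda, hdc, hdf⟩ := exists_other hn a c f
  obtain ⟨π, hπ⟩ : ∃ π, π = QuotientGroup.mk' κ := ⟨_, rfl⟩
  have hcm : ∀ x y : Fin n, cm x y ∈ g2 (FreeGroup (Fin n)) := fun x y => mem_g2 _ _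
  -- the pieces
  obtain ⟨g, hg⟩ : ∃ g, g = R c (cm a f) := ⟨_, rfl⟩
  obtain ⟨r, hr⟩ : ∃ r, r = R a (cm c d) := ⟨_, rfl⟩
  obtain ⟨t, ht⟩ : ∃ t, t = R d (FreeGroup.of a) := ⟨_, rfl⟩
  obtain ⟨T, hT⟩ : ∃ T, T = R d (FreeGroup.of a * (FreeGroup.of c)⁻¹ * (FreeGroup.of a)⁻¹ *
    FreeGroup.of c) := ⟨_, rfl⟩
  -- the first commutator
  have hz1 : ∀ s ∈ Subgroup.closure (magS n), Commute (π (g * r * g⁻¹ * r⁻¹)) (π s) := by
    rw [hπ]
    apply cent_closure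
    intro s hs
    rw [hg, hr]
    exact mut_RR hn h1 h2 (a := c) (b := a) (c := f) (f := d) hac.symm hcf (Ne.symm hdc) haf
      (Ne.symm hda) hs
  obtain ⟨z1, hz1d⟩ : ∃ z, z = π (g * r * g⁻¹ * r⁻¹) := ⟨_, rfl⟩
  rw [← hz1d] at hz1
  -- the second commutator
  have hz2 : ∀ s ∈ Subgroup.closure (magS n), Commute (π t * z1⁻¹ * (π t)⁻¹) (π s) := by
    intro s hs
    have h3 := hz1 _ (magnus_norm_inv d a hda s hs)
    rw [← ht, map_mul, map_mul, map_inv] at h3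
    have h4 := (h3.inv_left).eq
    change π t * z1⁻¹ * (π t)⁻¹ * π s = π s * (π t * z1⁻¹ * (π t)⁻¹)
    calc π t * z1⁻¹ * (π t)⁻¹ * π s = π t * (z1⁻¹ * ((π t)⁻¹ * π s * π t)) * (π t)⁻¹ := by group
      _ = π t * (((π t)⁻¹ * π s * π t) * z1⁻¹) * (π t)⁻¹ := by rw [h4]
      _ = π s * (π t * z1⁻¹ * (π t)⁻¹) := by group
  -- memberships
  have mA : C d (FreeGroup.of a) * C a (FreeGroup.of d) * T ∈ Subgroup.closure (magS n) := by
    refine Subgroup.mul_mem _ (Subgroup.mul_mem _ (mag_C _ _) (mag_C _ _)) ?_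
    rw [hT]
    refine mag_R _ ?_
    have := mem_g2 (FreeGroup.of a) (FreeGroup.of c)⁻¹
    rwa [inv_inv] at this
  have mB : C d (FreeGroup.of a * FreeGroup.of c) ∈ Subgroup.closure (magS n) := mag_C _ _
  have mr : r ∈ Subgroup.closure (magS n) := by
    rw [hr]; exact mag_R _ (hcm _ _)
  have mY : t * r⁻¹ * t⁻¹ ∈ Subgroup.closure (magS n) := by
    rw [ht]
    exact magnus_norm d a hda _ (Subgroup.inv_mem _ mr)
  -- commutations
  have c1 : Commute (π g) (π (C d (FreeGroup.of a))) := by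
    rw [hπ, hg]
    exact tabRC' h1 h2 (Ne.symm hdc) (fun h => hac h.1)
  have c2 : Commute (π g) (π (C a (FreeGroup.of d))) := by
    rw [hπ, hg]
    exact tabRC' h1 h2 hac.symm (fun h => hdc h.1)
  have c3 : Commute (π g) (π (C d (FreeGroup.of c))) := by
    rw [hπ, hg]
    exact tabRC' h1 h2 (Ne.symm hdc) (fun h => h.2.elim hda hdf)
  have c4 : Commute (π g) (π T) := by
    have e1 : π T = π (R d (cm c a)) := by
      have e2 : T * (R d (cm c a))⁻¹ ∈ κ := by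
        rw [hT, ← map_inv, ← map_mul]
        apply h1
        have e3 : FreeGroup.of a * (FreeGroup.of c)⁻¹ * (FreeGroup.of a)⁻¹ * FreeGroup.of c *
            (cm c a)⁻¹ = (FreeGroup.of c)⁻¹ * cm c a * ((FreeGroup.of c)⁻¹)⁻¹ *
              (cm c a)⁻¹ := by
          rw [cm]; group
        rw [e3]
        exact mem_g3' _ (hcm c a)
      have e4 : π (T * (R d (cm c a))⁻¹) = 1 := by
        rw [hπ]
        exact (QuotientGroup.eq_one_iff _).2 e2
      rw [map_mul, map_inv, mul_inv_eq_one] at e4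
      exact e4
    rw [e1, hπ, hg]
    exact tabRR' h1 (Ne.symm hdc) (fun h => h.1.elim hda hdf)
  have c5 : Commute g t := by
    have e1 : kill c (FreeGroup.of a) = FreeGroup.of a := kill_of_ne hac
    have e2 : kill c (cm a f) = cm a f := by
      simp only [cm, map_mul, map_inv, kill_of_ne hac, kill_of_ne (Ne.symm hcf)]
    have e3 : kill d (cm a f) = cm a f := by
      simp only [cm, map_mul, map_inv, kill_of_ne (Ne.symm hda), kill_of_ne (Ne.symm hdf)]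
    have e4 := R_comm_R (a := c) (b := d) (Ne.symm hdc) (v := FreeGroup.of a) (w := cm a f) e1
      (by rw [e2, e3])
    rw [hg, ht]
    exact e4.symm
  -- the relation
  have hrel := conj_I10 (a := a) (b := d) (c := c) (Ne.symm hda) hac hdc
  have e0 : R a (FreeGroup.of d * FreeGroup.of c * (FreeGroup.of d)⁻¹ * (FreeGroup.of c)⁻¹) =
      r⁻¹ := by
    have e5 : (cm c d)⁻¹ = FreeGroup.of d * FreeGroup.of c * (FreeGroup.of d)⁻¹ *
        (FreeGroup.of c)⁻¹ := by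
      simp only [cm, mul_inv_rev, inv_inv, mul_assoc]
    rw [hr, ← map_inv, e5]
  rw [e0, ← ht, ← hT] at hrel
  have hC : C a (FreeGroup.of c) = (C d (FreeGroup.of a) * C a (FreeGroup.of d) * T)⁻¹ *
      (t * r⁻¹ * t⁻¹) * C d (FreeGroup.of a * FreeGroup.of c) * r * C a (FreeGroup.of d) := by
    rw [hrel]; group
  have hr' : π g * π r * (π g)⁻¹ = z1 * π r := by
    rw [hz1d]
    simp only [map_mul, map_inv]
    group
  have hri : π g * (π r)⁻¹ * (π g)⁻¹ = z1⁻¹ * (π r)⁻¹ := by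
    have h5 : π g * (π r)⁻¹ * (π g)⁻¹ = (π g * π r * (π g)⁻¹)⁻¹ := by group
    rw [h5, hr', mul_inv_rev]
    exact ((hz1 r mr).inv_inv).eq.symm
  have c5' : Commute (π g) (π t) := c5.map π
  have hY : π g * (π t * (π r)⁻¹ * (π t)⁻¹) * (π g)⁻¹ =
      π t * z1⁻¹ * (π t)⁻¹ * (π t * (π r)⁻¹ * (π t)⁻¹) := by
    have h6 : π g * π t = π t * π g := c5'.eq
    have h7 : (π t)⁻¹ * (π g)⁻¹ = (π g)⁻¹ * (π t)⁻¹ := by
      rw [← mul_inv_rev, ← mul_inv_rev, h6]
    calc π g * (π t * (π r)⁻¹ * (π t)⁻¹) * (π g)⁻¹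
        = (π g * π t) * (π r)⁻¹ * ((π t)⁻¹ * (π g)⁻¹) := by group
      _ = (π t * π g) * (π r)⁻¹ * ((π g)⁻¹ * (π t)⁻¹) := by rw [h6, h7]
      _ = π t * (π g * (π r)⁻¹ * (π g)⁻¹) * (π t)⁻¹ := by group
      _ = π t * (z1⁻¹ * (π r)⁻¹) * (π t)⁻¹ := by rw [hri]
      _ = π t * z1⁻¹ * (π t)⁻¹ * (π t * (π r)⁻¹ * (π t)⁻¹) := by group
  have mY' : π (t * r⁻¹ * t⁻¹) = π t * (π r)⁻¹ * (π t)⁻¹ := by
    simp only [map_mul, map_inv]
  have hz1z2 : Commute z1 (π t * z1⁻¹ * (π t)⁻¹) := by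
    have h8 : g * r * g⁻¹ * r⁻¹ ∈ Subgroup.closure (magS n) := by
      have mg : g ∈ Subgroup.closure (magS n) := by rw [hg]; exact mag_R _ (hcm _ _)
      exact Subgroup.mul_mem _ (Subgroup.mul_mem _ (Subgroup.mul_mem _ mg mr)
        (Subgroup.inv_mem _ mg)) (Subgroup.inv_mem _ mr)
    have h9 := hz2 _ h8
    rw [← hz1d] at h9
    exact h9.symm
  have key := comm_prod_aux (g := π g) (A := π (C d (FreeGroup.of a) * C a (FreeGroup.of d) * T))
    (Y := π t * (π r)⁻¹ * (π t)⁻¹) (B := π (C d (FreeGroup.of a * FreeGroup.of c)))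
    (r := π r) (D := π (C a (FreeGroup.of d))) (z1 := z1) (z2 := π t * z1⁻¹ * (π t)⁻¹)
    (by rw [map_mul, map_mul]; exact (c1.mul_right c2).mul_right c4)
    (by rw [map_mul, map_mul]; exact c1.mul_right c3) c2 hr' hY (hz2 _ mA) (hz1 _ mA)
    (by rw [← mY']; exact hz1 _ mY) (hz1 _ mB)
  have hfin : QuotientGroup.mk' κ (R c (cm a f) * C a (FreeGroup.of c) *
      (R c (cm a f))⁻¹ * (C a (FreeGroup.of c))⁻¹) = π t * z1⁻¹ * (π t)⁻¹ * z1 := by
    rw [← hπ, ← hg, ← key, hC]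
    simp only [map_mul, map_inv]
  rw [hfin, ← hπ]
  exact (hz2 s (Subgroup.subset_closure hs)).mul_left (hz1 s (Subgroup.subset_closure hs))

end IAQ
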