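import Mathlib
import Pool.Agent.IAQ.MagGrp
import Pool.Agent.IAQ.MagTab
import Pool.Agent.IAQ.MagOne
import Pool.Agent.IAQ.MagTwo
import Pool.Agent.IAQ.MagThree

/-!
# The image of the Magnus generators in the quotient is finite
-/

set_option autoImplicit false

namespace IAQ

open AFn

/-- the commutator of `x` and `y` commutes with all elements of `T` -/
def CenC {G : Type*} [Group G] (T : Set G) (x y : G) : Prop :=
  ∀ u ∈ T, Commute (x * y * x⁻¹ * y⁻¹) u

theorem CenC.of_commute {G : Type*} [Group G] {T : Set G} {x y : G} (h : Commute x y) :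
    CenC T x y := by
  intro u _
  have e : x * y * x⁻¹ * y⁻¹ = 1 := by rw [h.eq]; group
  rw [e]
  exact Commute.one_left u

theorem CenC.swap {G : Type*} [Group G] {T : Set G} {x y : G} (h : CenC T x y) :
    CenC T y x := by
  intro u hu
  have e : y * x * y⁻¹ * x⁻¹ = (x * y * x⁻¹ * y⁻¹)⁻¹ := by group
  rw [e]
  exact (h u hu).inv_left

theorem CenC.inv {G : Type*} [Group G] {T : Set G} {x y : G} (h : CenC T x y) (hx : x ∈ T) :
    CenC T x⁻¹ y := by
  intro u hu
  have e : x⁻¹ * y * x⁻¹⁻¹ * y⁻¹ = (x * y * x⁻¹ * y⁻¹)⁻¹ := by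
    have h1 : (x * y * x⁻¹ * y⁻¹)⁻¹ * x = x * (x * y * x⁻¹ * y⁻¹)⁻¹ := (h x hx).inv_left.eq
    have h2 : x⁻¹ * y * x⁻¹⁻¹ * y⁻¹ = x⁻¹ * ((x * y * x⁻¹ * y⁻¹)⁻¹ * x) := by group
    rw [h2, h1]
    group
  rw [e]
  exact (h u hu).inv_left

theorem cm_inv {α : Type} (b c : α) : (cm b c)⁻¹ = cm c b := by
  unfold cm
  group

theorem cm_mem_g2 {α : Type} (b c : α) : cm b c ∈ g2 (FreeGroup α) := mem_g2 _ _

theorem cm_self {α : Type} (b : α) : cm b b = 1 := by
  unfold cm
  group

theorem R_cm_self {n : ℕ} (a b : Fin n) : R a (cm b a) = 1 := by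
  apply aut_ext
  intro x
  rw [R_of, MulAut.one_apply]
  split
  · unfold cm
    rw [map_mul, map_mul, map_mul, map_inv, map_inv, kill_of_self]
    group
  · rfl

theorem R_cm_self' {n : ℕ} (a b : Fin n) : R a (cm a b) = 1 := by
  rw [← cm_inv b a, map_inv, R_cm_self, inv_one]

theorem magnus_finite {n : ℕ} (hn : 5 ≤ n) (κ : Subgroup (MulAut (FreeGroup (Fin n))))
    [κ.Normal]
    (h1 : ∀ a, ∀ w ∈ g3 (FreeGroup (Fin n)), R a w ∈ κ)
    (h2 : ∀ a, ∀ w ∈ g2 (FreeGroup (Fin n)), C a w ∈ κ)
    (h3 : ∀ w ∈ g3 (FreeGroup (Fin n)), MulAut.conj w ∈ κ)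
    {N : ℕ} (hN : 0 < N)
    (h4 : ∀ a b, C a (FreeGroup.of b) ^ N ∈ κ)
    (h5 : ∀ a b c, (R a (cm b c)) ^ N ∈ κ) :
    Finite ((Subgroup.closure (magS n)).map (QuotientGroup.mk' κ)) := by
  set π := QuotientGroup.mk' κ with hπ
  rw [MonoidHom.map_closure]
  have hfin : (magS n).Finite := by
    have e : magS n = (Set.range fun p : Fin n × Fin n => C p.1 (FreeGroup.of p.2)) ∪
        (Set.range fun p : Fin n × Fin n × Fin n => R p.1 (cm p.2.1 p.2.2)) := by
      ext g
      constructor
      · rintro (⟨a, b, rfl⟩ | ⟨a, b, c, rfl⟩)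
        · exact Or.inl ⟨(a, b), rfl⟩
        · exact Or.inr ⟨(a, b, c), rfl⟩
      · rintro (⟨p, rfl⟩ | ⟨p, rfl⟩)
        · exact Or.inl ⟨_, _, rfl⟩
        · exact Or.inr ⟨_, _, _, rfl⟩
    rw [e]
    exact (Set.finite_range _).union (Set.finite_range _)
  have hR : ∀ a b c, π (R a (cm b c)) ∈ π '' magS n := fun a b c =>
    ⟨_, Or.inr ⟨a, b, c, rfl⟩, rfl⟩
  have hC : ∀ a b, π (C a (FreeGroup.of b)) ∈ π '' magS n := fun a b =>
    ⟨_, Or.inl ⟨a, b, rfl⟩, rfl⟩
  -- the case `R`, `R` with `d = b`, `a = e`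
  have hRR : ∀ a d c f, a ≠ d →
      CenC (π '' magS n) (π (R a (cm d c))) (π (R d (cm a f))) := by
    intro a d c f had
    by_cases hac : a = c
    · subst hac
      rw [R_cm_self, map_one]
      exact CenC.of_commute (Commute.one_left _)
    by_cases hdc : d = c
    · subst hdc
      rw [cm_self, map_one, map_one]
      exact CenC.of_commute (Commute.one_left _)
    by_cases haf : a = f
    · subst haf
      rw [cm_self, map_one, map_one]
      exact CenC.of_commute (Commute.one_right _)
    by_cases hdf : d = f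
    · subst hdf
      rw [R_cm_self, map_one]
      exact CenC.of_commute (Commute.one_right _)
    rintro _ ⟨s, hs, rfl⟩
    have h := mut_RR hn h1 h2 (a := a) (b := d) (c := c) (f := f) had hac haf hdc hdf hs
    simpa only [map_mul, map_inv] using h
  have hRC : ∀ a d c, a ≠ d →
      CenC (π '' magS n) (π (R a (cm d c))) (π (C d (FreeGroup.of a))) := by
    intro a d c had
    by_cases hac : a = c
    · subst hac
      rw [R_cm_self, map_one]
      exact CenC.of_commute (Commute.one_left _)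
    by_cases hdc : d = c
    · subst hdc
      rw [cm_self, map_one, map_one]
      exact CenC.of_commute (Commute.one_left _)
    rintro _ ⟨s, hs, rfl⟩
    have h := mut_RC hn h1 h2 (a := d) (c := a) (f := c) (Ne.symm had) hdc hac hs
    simpa only [map_mul, map_inv] using h
  -- inverting a word `cm b c`
  have hinv : ∀ a b c, π (R a (cm b c)) = (π (R a (cm c b)))⁻¹ := by
    intro a b c
    rw [← cm_inv c b, map_inv, map_inv]
  have RR : ∀ a b c d e f, CenC (π '' magS n) (π (R a (cm b c))) (π (R d (cm e f))) := by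
    intro a b c d e f
    by_cases had : a = d
    · subst had
      exact CenC.of_commute (tabRR h1 a (cm b c) (cm_mem_g2 e f))
    by_cases h : (d = b ∨ d = c) ∧ (a = e ∨ a = f)
    · obtain ⟨hd, ha⟩ := h
      rcases hd with rfl | rfl <;> rcases ha with rfl | rfl
      · exact hRR a d c f had
      · have e1 := (hRR a d c e had).swap.inv (hR d a e)
        rw [← hinv] at e1
        exact e1.swap
      · have e1 := (hRR a d b f had).inv (hR a d b)
        rw [← hinv] at e1
        exact e1
      · have e1 := (hRR a d b e had).inv (hR a d b)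
        rw [← hinv] at e1
        have e2 := e1.swap.inv (hR d a e)
        rw [← hinv] at e2
        exact e2.swap
    · exact CenC.of_commute (tabRR' h1 had h)
  have RC : ∀ a b c d e, CenC (π '' magS n) (π (R a (cm b c))) (π (C d (FreeGroup.of e))) := by
    intro a b c d e
    by_cases had : a = d
    · subst had
      exact CenC.of_commute (tabRC h1 a (FreeGroup.of e) (cm_mem_g2 b c))
    by_cases h : e = a ∧ (d = b ∨ d = c)
    · obtain ⟨rfl, hd⟩ := h
      rcases hd with rfl | rfl
      · exact hRC e d c had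
      · have e1 := (hRC e d b had).inv (hR e d b)
        rw [← hinv] at e1
        exact e1
    · exact CenC.of_commute (tabRC' h1 h2 had h)
  have CC' : ∀ a b d e, CenC (π '' magS n) (π (C a (FreeGroup.of b)))
      (π (C d (FreeGroup.of e))) := by
    intro a b d e
    by_cases had : a = d
    · subst had
      exact CenC.of_commute (tabCC h2 a (FreeGroup.of b) (FreeGroup.of e))
    by_cases h : b = d ∧ e = a
    · obtain ⟨rfl, rfl⟩ := h
      rintro _ ⟨s, hs, rfl⟩
      have h := mut_CC h2 h3 (a := b) (b := e) (Ne.symm had) hs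
      simpa only [map_mul, map_inv] using h
    · exact CenC.of_commute (tabCC' h2 had h)
  apply class2_finite (hfin.image _)
  · rintro _ ⟨s, hs, rfl⟩
    rw [isOfFinOrder_iff_pow_eq_one]
    refine ⟨N, hN, ?_⟩
    rw [← map_pow]
    apply (QuotientGroup.eq_one_iff _).2
    rcases hs with ⟨a, b, rfl⟩ | ⟨a, b, c, rfl⟩
    · exact h4 a b
    · exact h5 a b c
  · rintro _ ⟨s, hs, rfl⟩ _ ⟨t, ht, rfl⟩
    have key : CenC (π '' magS n) (π s) (π t) := by
      rcases hs with ⟨a, b, rfl⟩ | ⟨a, b, c, rfl⟩ <;> rcases ht with ⟨d, e, rfl⟩ | ⟨d, e, f, rfl⟩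
      · exact CC' a b d e
      · exact (RC d e f a b).swap
      · exact RC a b c d e
      · exact RR a b c d e f
    exact key

end IAQ
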